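import Pool.Agent.NVA.St

set_option autoImplicit false

/-! Module Act: the process `act` along the chain. -/

namespace Pool.Agent.NVA

open MeasureTheory Set Pool.Agent.Helper55.Vote

private theorem Act_stepU_some (N : Finset ℤ) (D₁ W : ℕ) (b : Bool) (u : ℤ → Bool)
    (w : ℤ → Option Bool) (s : ℤ) (hs : s ∈ win D₁ W u) (hw : w s ≠ none)
    (hu : ∀ s' ∈ win D₁ W u, w s' ≠ none → s' = s) :
    stepU N D₁ W b u w = F N D₁ W u s (decide (w s = some b)) := by
  have h : ∃ s, s ∈ win D₁ W u ∧ w s ≠ none ∧ ∀ s' ∈ win D₁ W u, w s' ≠ none → s' = s :=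
    ⟨s, hs, hw, hu⟩
  have hc : h.choose = s := hu _ h.choose_spec.1 h.choose_spec.2.1
  unfold stepU
  rw [dif_pos h, hc]

private theorem Act_stepU_none (N : Finset ℤ) (D₁ W : ℕ) (b : Bool) (u : ℤ → Bool)
    (w : ℤ → Option Bool) (hu : ∀ s' ∈ win D₁ W u, ¬ w s' ≠ none) :
    stepU N D₁ W b u w = u := by
  unfold stepU
  rw [dif_neg]
  rintro ⟨s, h1, h2, -⟩
  exact hu s h1 h2

private theorem Act_stepU_up (hF : St_F) (N : Finset ℤ) (n D₁ W : ℕ) (hN : Nb N n D₁ W)
    (b : Bool) (u : ℤ → Bool) (hu : IsUp N u) (w : ℤ → Option Bool) :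
    IsUp N (stepU N D₁ W b u w) := by
  unfold stepU
  split_ifs with h
  · exact (hF N n D₁ W hN).1 u hu _ _
  · exact hu

private theorem Act_chain_up (hF : St_F) (N : Finset ℤ) (n D₁ W : ℕ) (hN : Nb N n D₁ W)
    (b : Bool) (ω : Om) (t : ℤ) (u : ℤ → Bool) (hu : IsUp N u) (j : ℕ) :
    IsUp N (chain N D₁ W b ω t u j) := by
  induction j with
  | zero => exact hu
  | succ j ih => exact Act_stepU_up hF N n D₁ W hN b _ ih _

private theorem Act_chain_succ (N : Finset ℤ) (D₁ W : ℕ) (b : Bool) (ω : Om) (u : ℤ → Bool)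
    (j : ℕ) : chain N D₁ W b ω 0 u (j + 1) =
      stepU N D₁ W b (chain N D₁ W b ω 0 u j) fun s => ω (s, (j : ℤ)) := by
  show stepU N D₁ W b (chain N D₁ W b ω 0 u j) (fun s => ω (s, 0 + (j : ℤ))) = _
  simp only [zero_add]

private theorem Act_act_none (N : Finset ℤ) (D₁ W : ℕ) (b : Bool) (ω : Om) (u : ℤ → Bool)
    (j : ℕ) (h : ∀ s ∈ win D₁ W (chain N D₁ W b ω 0 u j), ¬ ω (s, (j : ℤ)) ≠ none) :
    act N D₁ W b ω u (j + 1) = maj N (act N D₁ W b ω u j) := by
  funext s
  show (if s ∈ win D₁ W (chain N D₁ W b ω 0 u j) ∧ ω (s, (j : ℤ)) ≠ none then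
    decide (ω (s, (j : ℤ)) = some b) else maj N (act N D₁ W b ω u j) s) = _
  rw [if_neg]
  rintro ⟨h1, h2⟩
  exact h s h1 h2

private theorem Act_act_some (N : Finset ℤ) (D₁ W : ℕ) (b : Bool) (ω : Om) (u : ℤ → Bool)
    (j : ℕ) (s : ℤ) (hs : s ∈ win D₁ W (chain N D₁ W b ω 0 u j)) (hw : ω (s, (j : ℤ)) ≠ none)
    (hu : ∀ s' ∈ win D₁ W (chain N D₁ W b ω 0 u j), ω (s', (j : ℤ)) ≠ none → s' = s) :
    act N D₁ W b ω u (j + 1) =
      Function.update (maj N (act N D₁ W b ω u j)) s (decide (ω (s, (j : ℤ)) = some b)) := by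
  funext s'
  show (if s' ∈ win D₁ W (chain N D₁ W b ω 0 u j) ∧ ω (s', (j : ℤ)) ≠ none then
    decide (ω (s', (j : ℤ)) = some b) else maj N (act N D₁ W b ω u j) s') = _
  by_cases h : s' = s
  · subst h
    rw [if_pos ⟨hs, hw⟩, Function.update_self]
  · rw [Function.update_of_ne h, if_neg]
    rintro ⟨h1, h2⟩
    exact h (hu s' h1 h2)

/-- the two cases for the process at the time `j` -/
private def Act_P (N : Finset ℤ) (D₁ W : ℕ) (b : Bool) (ω : Om) (u : ℤ → Bool) (j : ℕ) : Prop :=
  act N D₁ W b ω u j = chain N D₁ W b ω 0 u j ∨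
  ∃ (i r : ℕ) (s : ℤ) (c : Bool), j = i + 1 + r ∧ j ≤ i + Rr D₁ W ∧
    s ∈ win D₁ W (chain N D₁ W b ω 0 u i) ∧ ω (s, (i : ℤ)) ≠ none ∧
    act N D₁ W b ω u j = (maj N)^[r] (Function.update (chain N D₁ W b ω 0 u i) s c) ∧
    chain N D₁ W b ω 0 u j = F N D₁ W (chain N D₁ W b ω 0 u i) s c

private theorem Act_P_all (hFix : St_Fix) (hF : St_F) (N : Finset ℤ) (n D₁ W : ℕ)
    (hN : Nb N n D₁ W) (b : Bool) (ω : Om) (u : ℤ → Bool) (hu : IsUp N u) (T : ℕ)
    (hsp : ∀ i < T, ∀ s ∈ win D₁ W (chain N D₁ W b ω 0 u i), ω (s, (i : ℤ)) ≠ none →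
      ∀ i' < T, i ≤ i' → i' ≤ i + Rr D₁ W → ∀ s' ∈ win D₁ W (chain N D₁ W b ω 0 u i'),
      ω (s', (i' : ℤ)) ≠ none → s' = s ∧ i' = i) :
    ∀ j ≤ T, Act_P N D₁ W b ω u j := by
  intro j
  induction j with
  | zero => intro _; exact Or.inl rfl
  | succ j ih =>
    intro hj
    have hjT : j < T := hj
    rcases ih (le_of_lt hjT) with ha | ⟨i, r, s, c, hji, hjR, hs, hw, hac, hch⟩
    · by_cases hex : ∃ s ∈ win D₁ W (chain N D₁ W b ω 0 u j), ω (s, (j : ℤ)) ≠ none
      · obtain ⟨s, hs, hw⟩ := hex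
        have huq : ∀ s' ∈ win D₁ W (chain N D₁ W b ω 0 u j), ω (s', (j : ℤ)) ≠ none → s' = s :=
          fun s' hs' hw' => (hsp j hjT s hs hw j hjT le_rfl (Nat.le_add_right _ _) s' hs' hw').1
        refine Or.inr ⟨j, 0, s, decide (ω (s, (j : ℤ)) = some b), rfl, ?_, hs, hw, ?_, ?_⟩
        · unfold Rr; omega
        · rw [Act_act_some N D₁ W b ω u j s hs hw huq, ha,
            hFix N n D₁ W hN _ (Act_chain_up hF N n D₁ W hN b ω 0 u hu j)]
          rfl
        · rw [Act_chain_succ]
          exact Act_stepU_some N D₁ W b _ (fun s => ω (s, (j : ℤ))) s hs hw huq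
      · have hno : ∀ s ∈ win D₁ W (chain N D₁ W b ω 0 u j), ¬ ω (s, (j : ℤ)) ≠ none :=
          fun s hs hw => hex ⟨s, hs, hw⟩
        left
        rw [Act_act_none N D₁ W b ω u j hno, Act_chain_succ,
          Act_stepU_none N D₁ W b _ (fun s => ω (s, (j : ℤ))) hno, ha,
          hFix N n D₁ W hN _ (Act_chain_up hF N n D₁ W hN b ω 0 u hu j)]
    · have hiT : i < T := by omega
      have hno : ∀ s ∈ win D₁ W (chain N D₁ W b ω 0 u j), ¬ ω (s, (j : ℤ)) ≠ none := by
        intro s' hs' hw'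
        have := (hsp i hiT s hs hw j hjT (by omega) hjR s' hs' hw').2
        omega
      have e1 := Act_act_none N D₁ W b ω u j hno
      have e2 : chain N D₁ W b ω 0 u (j + 1) = chain N D₁ W b ω 0 u j := by
        rw [Act_chain_succ]
        exact Act_stepU_none N D₁ W b _ (fun s => ω (s, (j : ℤ))) hno
      have e3 : act N D₁ W b ω u (j + 1) =
          (maj N)^[r + 1] (Function.update (chain N D₁ W b ω 0 u i) s c) := by
        rw [e1, hac, Function.iterate_succ_apply']
      by_cases hR : j + 1 ≤ i + Rr D₁ W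
      · exact Or.inr ⟨i, r + 1, s, c, by omega, hR, hs, hw, e3, e2.trans hch⟩
      · left
        rw [e3, e2, hch]
        have : r + 1 = Rr D₁ W := by omega
        rw [this]
        rfl

theorem thm_Act (hUp : St_Up) (hFix : St_Fix) (hRelT : St_RelT) (hRelF : St_RelF) (hF : St_F) :
    St_Act := by
  intro N n D₁ W hN b ω u hu T hsp j hj
  have hall := Act_P_all hFix hF N n D₁ W hN b ω u hu T hsp j hj
  have hupj := Act_chain_up hF N n D₁ W hN b ω 0 u hu j
  refine ⟨hupj, ?_⟩
  obtain ⟨hlo, -, -, hfil⟩ := hUp N n D₁ W hN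
  rcases hall with ha | ⟨i, r, s, c, hji, hjR, hs, hw, hac, hch⟩
  · obtain ⟨l, hl⟩ := hupj
    have hlo' := hlo l _ hl
    rw [hlo', ha]
    refine ⟨fun t ht => Or.inl (hfil l _ hl t (by omega)), fun t ht => Or.inl (hl.2.1 t (by omega))⟩
  · obtain ⟨l, hl⟩ := Act_chain_up hF N n D₁ W hN b ω 0 u hu i
    set v := chain N D₁ W b ω 0 u i with hv
    cases c with
    | true =>
      obtain ⟨⟨l', u', hl', h1, h2, h3⟩, hT2, hT3, -⟩ := hRelT N n D₁ W hN l v hl s
      have hu' : chain N D₁ W b ω 0 u j = u' := by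
        rw [hch]
        exact h3 _ (by unfold Rr; omega)
      have hlo' : lo (chain N D₁ W b ω 0 u j) = l' := by
        rw [hu']; exact hlo l' u' hl'
      rw [hlo', hac]
      rcases Nat.eq_zero_or_pos r with hr | hr
      · subst hr
        refine ⟨fun t ht => Or.inl ?_, fun t ht => ?_⟩
        · show Function.update v s true t = true
          by_cases hts : t = s
          · rw [hts, Function.update_self]
          · rw [Function.update_of_ne hts]
            exact hfil l _ hl t (by omega)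
        · by_cases hts : t = s
          · right
            exact ⟨i, by omega, hts ▸ hs, hts ▸ hw⟩
          · left
            show Function.update v s true t = false
            rw [Function.update_of_ne hts]
            exact hl.2.1 t (by omega)
      · refine ⟨fun t ht => Or.inl (hT2 r hr t (hfil l _ hl t (by omega))), fun t ht => Or.inl ?_⟩
        by_contra hne
        have hne' := Bool.eq_true_of_not_eq_false hne
        have := hT3 r hr t hne'
        omega
    | false =>
      obtain ⟨⟨l', u', hl', h1, h2, h3⟩, hT2, hT3, -⟩ := hRelF N n D₁ W hN l v hl s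
      have hu' : chain N D₁ W b ω 0 u j = u' := by
        rw [hch]
        exact h3 _ (by unfold Rr; omega)
      have hlo' : lo (chain N D₁ W b ω 0 u j) = l' := by
        rw [hu']; exact hlo l' u' hl'
      rw [hlo', hac]
      rcases Nat.eq_zero_or_pos r with hr | hr
      · subst hr
        refine ⟨fun t ht => ?_, fun t ht => Or.inl ?_⟩
        · by_cases hts : t = s
          · right
            exact ⟨i, by omega, hts ▸ hs, hts ▸ hw⟩
          · left
            show Function.update v s false t = true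
            rw [Function.update_of_ne hts]
            exact hfil l _ hl t (by omega)
        · show Function.update v s false t = false
          by_cases hts : t = s
          · rw [hts, Function.update_self]
          · rw [Function.update_of_ne hts]
            exact hl.2.1 t (by omega)
      · refine ⟨fun t ht => Or.inl (hT3 r hr t (by omega)), fun t ht => Or.inl ?_⟩
        by_contra hne
        have hne' := Bool.eq_true_of_not_eq_false hne
        have h4 := hT2 r hr t hne'
        have h5 := hl.2.1 t (by omega)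
        rw [h4] at h5
        exact absurd h5 (by decide)

end Pool.Agent.NVA
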