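import Pool.Agent.NVA.Defs2

set_option autoImplicit false

/-! Module ActS: the comparison process along the second chain. -/

namespace Pool.Agent.NVA

open MeasureTheory Set Pool.Agent.Helper55.Vote

/-- the window is quiet -/
private def ActS_q (D₁ W : ℕ) (u : ℤ → Bool) (w : ℤ → Option Bool) : Prop :=
  ∀ s ∈ win D₁ W u, w s = none

private theorem ActS_step_q (N : Finset ℤ) (D₁ W : ℕ) (b : Bool) (σ : ℤ) (st : St2)
    (w : ℤ → Option Bool) (h : ActS_q D₁ W st.1 w) :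
    stepS N D₁ W b σ st w = (st.1, st.2.1 - 1, st.2.2) := by
  unfold stepS
  exact if_pos h

private theorem ActS_step_one (N : Finset ℤ) (D₁ W : ℕ) (b : Bool) (σ : ℤ) (st : St2)
    (w : ℤ → Option Bool) (h0 : st.2.1 = 0) (s : ℤ) (hs : s ∈ win D₁ W st.1) (hw : w s ≠ none)
    (hu : ∀ s' ∈ win D₁ W st.1, w s' ≠ none → s' = s) :
    stepS N D₁ W b σ st w =
      (F N D₁ W st.1 s (decide (w s = some b)), Rr D₁ W + 1, false) := by
  have hq : ¬ ∀ s ∈ win D₁ W st.1, w s = none := fun h => hw (h s hs)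
  have h : st.2.1 = 0 ∧
      ∃ s, s ∈ win D₁ W st.1 ∧ w s ≠ none ∧ ∀ s' ∈ win D₁ W st.1, w s' ≠ none → s' = s :=
    ⟨h0, s, hs, hw, hu⟩
  have hc : h.2.choose = s := hu _ h.2.choose_spec.1 h.2.choose_spec.2.1
  unfold stepS
  rw [if_neg hq, dif_pos h, hc]

private theorem ActS_step_rst (N : Finset ℤ) (D₁ W : ℕ) (b : Bool) (σ : ℤ) (st : St2)
    (w : ℤ → Option Bool) (hq : ¬ ActS_q D₁ W st.1 w)
    (h : ¬ (st.2.1 = 0 ∧
      ∃ s, s ∈ win D₁ W st.1 ∧ w s ≠ none ∧ ∀ s' ∈ win D₁ W st.1, w s' ≠ none → s' = s)) :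
    stepS N D₁ W b σ st w = rst D₁ W σ st.1 := by
  have hq' : ¬ ∀ s ∈ win D₁ W st.1, w s = none := hq
  unfold stepS
  rw [if_neg hq', dif_neg h]

private theorem ActS_ch_succ (N : Finset ℤ) (D₁ W : ℕ) (b : Bool) (σ : ℤ) (ω : Om) (st : St2)
    (j : ℕ) : chS N D₁ W b σ ω 0 st (j + 1) =
      stepS N D₁ W b σ (chS N D₁ W b σ ω 0 st j) fun s => ω (s, (j : ℤ)) := by
  show stepS N D₁ W b σ (chS N D₁ W b σ ω 0 st j) (fun s => ω (s, 0 + (j : ℤ))) = _
  simp only [zero_add]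

private theorem ActS_true (N : Finset ℤ) (D₁ W : ℕ) (b : Bool) (σ : ℤ) (ω : Om) (x : ℤ) (j : ℕ)
    (h : (chS N D₁ W b σ ω 0 (ini x) (j + 1)).2.2 = true) :
    actS N D₁ W b σ ω x (j + 1) = H (lo (chS N D₁ W b σ ω 0 (ini x) (j + 1)).1 -
      σ * ((chS N D₁ W b σ ω 0 (ini x) (j + 1)).2.1 : ℤ) * (D₁ : ℤ)) := by
  show (if (chS N D₁ W b σ ω 0 (ini x) (j + 1)).2.2 = true then _ else _) = _
  rw [if_pos h]

private theorem ActS_false (N : Finset ℤ) (D₁ W : ℕ) (b : Bool) (σ : ℤ) (ω : Om) (x : ℤ) (j : ℕ)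
    (h : (chS N D₁ W b σ ω 0 (ini x) (j + 1)).2.2 = false) :
    actS N D₁ W b σ ω x (j + 1) = fun s =>
      if s ∈ win D₁ W (chS N D₁ W b σ ω 0 (ini x) j).1 ∧ ω (s, (j : ℤ)) ≠ none then
        decide (ω (s, (j : ℤ)) = some b)
      else maj N (actS N D₁ W b σ ω x j) s := by
  have h' : ¬ (chS N D₁ W b σ ω 0 (ini x) (j + 1)).2.2 = true := by
    rw [h]; decide
  show (if (chS N D₁ W b σ ω 0 (ini x) (j + 1)).2.2 = true then _ else _) = _
  rw [if_neg h']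

private theorem ActS_false_q (N : Finset ℤ) (D₁ W : ℕ) (b : Bool) (σ : ℤ) (ω : Om) (x : ℤ)
    (j : ℕ) (h : (chS N D₁ W b σ ω 0 (ini x) (j + 1)).2.2 = false)
    (hq : ActS_q D₁ W (chS N D₁ W b σ ω 0 (ini x) j).1 fun s => ω (s, (j : ℤ))) :
    actS N D₁ W b σ ω x (j + 1) = maj N (actS N D₁ W b σ ω x j) := by
  rw [ActS_false N D₁ W b σ ω x j h]
  funext s
  rw [if_neg]
  rintro ⟨h1, h2⟩
  exact h2 (hq s h1)

private theorem ActS_false_one (N : Finset ℤ) (D₁ W : ℕ) (b : Bool) (σ : ℤ) (ω : Om) (x : ℤ)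
    (j : ℕ) (h : (chS N D₁ W b σ ω 0 (ini x) (j + 1)).2.2 = false) (s : ℤ)
    (hs : s ∈ win D₁ W (chS N D₁ W b σ ω 0 (ini x) j).1) (hw : ω (s, (j : ℤ)) ≠ none)
    (hu : ∀ s' ∈ win D₁ W (chS N D₁ W b σ ω 0 (ini x) j).1, ω (s', (j : ℤ)) ≠ none → s' = s) :
    actS N D₁ W b σ ω x (j + 1) =
      Function.update (maj N (actS N D₁ W b σ ω x j)) s (decide (ω (s, (j : ℤ)) = some b)) := by
  rw [ActS_false N D₁ W b σ ω x j h]
  funext s'
  by_cases hss : s' = s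
  · subst hss
    rw [if_pos ⟨hs, hw⟩, Function.update_self]
  · rw [Function.update_of_ne hss, if_neg]
    rintro ⟨h1, h2⟩
    exact hss (hu s' h1 h2)

/-- the three kinds of a step -/
private theorem ActS_cases (N : Finset ℤ) (D₁ W : ℕ) (b : Bool) (σ : ℤ) (st : St2)
    (w : ℤ → Option Bool) :
    (ActS_q D₁ W st.1 w ∧ stepS N D₁ W b σ st w = (st.1, st.2.1 - 1, st.2.2)) ∨
    (st.2.1 = 0 ∧ ∃ s ∈ win D₁ W st.1, w s ≠ none ∧
      (∀ s' ∈ win D₁ W st.1, w s' ≠ none → s' = s) ∧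
      stepS N D₁ W b σ st w = (F N D₁ W st.1 s (decide (w s = some b)), Rr D₁ W + 1, false)) ∨
    stepS N D₁ W b σ st w = rst D₁ W σ st.1 := by
  by_cases hq : ActS_q D₁ W st.1 w
  · exact Or.inl ⟨hq, ActS_step_q N D₁ W b σ st w hq⟩
  · by_cases h : st.2.1 = 0 ∧
      ∃ s, s ∈ win D₁ W st.1 ∧ w s ≠ none ∧ ∀ s' ∈ win D₁ W st.1, w s' ≠ none → s' = s
    · obtain ⟨h0, s, hs, hw, hu⟩ := h
      exact Or.inr (Or.inl ⟨h0, s, hs, hw, hu, ActS_step_one N D₁ W b σ st w h0 s hs hw hu⟩)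
    · exact Or.inr (Or.inr (ActS_step_rst N D₁ W b σ st w hq h))

private theorem ActS_step_up (hUp : St_Up) (hF : St_F) (N : Finset ℤ) (n D₁ W : ℕ)
    (hN : Nb N n D₁ W) (b : Bool) (σ : ℤ) (st : St2) (w : ℤ → Option Bool) (hu : IsUp N st.1) :
    IsUp N (stepS N D₁ W b σ st w).1 := by
  rcases ActS_cases N D₁ W b σ st w with ⟨-, h⟩ | ⟨-, s, -, -, -, h⟩ | h
  · rw [h]; exact hu
  · rw [h]; exact (hF N n D₁ W hN).1 _ hu _ _
  · rw [h]; exact ⟨_, (hUp N n D₁ W hN).2.1 _⟩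

private theorem ActS_ch_up (hUp : St_Up) (hF : St_F) (N : Finset ℤ) (n D₁ W : ℕ)
    (hN : Nb N n D₁ W) (b : Bool) (σ : ℤ) (ω : Om) (x : ℤ) (j : ℕ) :
    IsUp N (chS N D₁ W b σ ω 0 (ini x) j).1 := by
  induction j with
  | zero => exact ⟨x, (hUp N n D₁ W hN).2.1 x⟩
  | succ j ih =>
    rw [ActS_ch_succ]
    exact ActS_step_up hUp hF N n D₁ W hN b σ _ _ ih

private theorem ActS_ch_a (N : Finset ℤ) (D₁ W : ℕ) (b : Bool) (σ : ℤ) (ω : Om) (x : ℤ) (j : ℕ) :
    (chS N D₁ W b σ ω 0 (ini x) j).2.1 ≤ Rr D₁ W + 1 := by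
  induction j with
  | zero => exact Nat.zero_le _
  | succ j ih =>
    rw [ActS_ch_succ]
    rcases ActS_cases N D₁ W b σ (chS N D₁ W b σ ω 0 (ini x) j) (fun s => ω (s, (j : ℤ))) with
      ⟨-, h⟩ | ⟨-, s, -, -, -, h⟩ | h
    · rw [h]; exact (Nat.sub_le _ _).trans ih
    · rw [h]
    · rw [h]; exact le_rfl

/-- the state of the process at the time `j` -/
private def ActS_P (N : Finset ℤ) (D₁ W : ℕ) (b : Bool) (σ : ℤ) (ω : Om) (x : ℤ) (j : ℕ) : Prop :=
  ((chS N D₁ W b σ ω 0 (ini x) j).2.2 = true ∧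
    actS N D₁ W b σ ω x j = H (lo (chS N D₁ W b σ ω 0 (ini x) j).1 -
      σ * ((chS N D₁ W b σ ω 0 (ini x) j).2.1 : ℤ) * (D₁ : ℤ)) ∧
    (chS N D₁ W b σ ω 0 (ini x) j).1 = H (lo (chS N D₁ W b σ ω 0 (ini x) j).1)) ∨
  ((chS N D₁ W b σ ω 0 (ini x) j).2.2 = false ∧ (chS N D₁ W b σ ω 0 (ini x) j).2.1 = 0 ∧
    actS N D₁ W b σ ω x j = (chS N D₁ W b σ ω 0 (ini x) j).1) ∨
  ((chS N D₁ W b σ ω 0 (ini x) j).2.2 = false ∧ ∃ (i k : ℕ) (s : ℤ) (c : Bool),
    j = i + 1 + k ∧ (chS N D₁ W b σ ω 0 (ini x) j).2.1 + k = Rr D₁ W + 1 ∧ k ≤ Rr D₁ W ∧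
    s ∈ win D₁ W (chS N D₁ W b σ ω 0 (ini x) i).1 ∧ ω (s, (i : ℤ)) ≠ none ∧
    actS N D₁ W b σ ω x j =
      (maj N)^[k] (Function.update (chS N D₁ W b σ ω 0 (ini x) i).1 s c) ∧
    (chS N D₁ W b σ ω 0 (ini x) j).1 = F N D₁ W (chS N D₁ W b σ ω 0 (ini x) i).1 s c)

private theorem ActS_P_zero (N : Finset ℤ) (D₁ W : ℕ) (b : Bool) (σ : ℤ) (ω : Om) (x : ℤ)
    (j : ℕ) (h : ActS_P N D₁ W b σ ω x j) (h0 : (chS N D₁ W b σ ω 0 (ini x) j).2.1 = 0) :
    actS N D₁ W b σ ω x j = (chS N D₁ W b σ ω 0 (ini x) j).1 := by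
  rcases h with ⟨-, h1, h2⟩ | ⟨-, -, h1⟩ | ⟨-, i, k, s, c, -, h1, h2, -⟩
  · rw [h1, h0]
    simp only [Nat.cast_zero, mul_zero, zero_mul, sub_zero]
    exact h2.symm
  · exact h1
  · omega

private theorem ActS_P_all (hUp : St_Up) (hFix : St_Fix) (hF : St_F) (N : Finset ℤ) (n D₁ W : ℕ)
    (hN : Nb N n D₁ W) (b : Bool) (σ : ℤ) (ω : Om) (x : ℤ) (j : ℕ) :
    ActS_P N D₁ W b σ ω x j := by
  induction j with
  | zero => exact Or.inr (Or.inl ⟨rfl, rfl, rfl⟩)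
  | succ j ih =>
    have hcs := ActS_ch_succ N D₁ W b σ ω (ini x) j
    rcases ActS_cases N D₁ W b σ (chS N D₁ W b σ ω 0 (ini x) j) (fun s => ω (s, (j : ℤ))) with
      ⟨hq, h⟩ | ⟨h0, s, hs, hw, hu, h⟩ | h
    · -- a quiet step
      rw [h] at hcs
      have e1 : (chS N D₁ W b σ ω 0 (ini x) (j + 1)).1 = (chS N D₁ W b σ ω 0 (ini x) j).1 := by
        rw [hcs]
      have e2 : (chS N D₁ W b σ ω 0 (ini x) (j + 1)).2.1 =
          (chS N D₁ W b σ ω 0 (ini x) j).2.1 - 1 := by rw [hcs]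
      have e3 : (chS N D₁ W b σ ω 0 (ini x) (j + 1)).2.2 =
          (chS N D₁ W b σ ω 0 (ini x) j).2.2 := by rw [hcs]
      rcases ih with ⟨h1, h2, h3⟩ | ⟨h1, h2, h3⟩ | ⟨h1, i, k, s, c, hji, hk, hk', hs, hw, hac, hch⟩
      · left
        refine ⟨e3.trans h1, ActS_true N D₁ W b σ ω x j (e3.trans h1), ?_⟩
        rw [e1]; exact h3
      · right; left
        refine ⟨e3.trans h1, by rw [e2, h2], ?_⟩
        rw [ActS_false_q N D₁ W b σ ω x j (e3.trans h1) hq, h3, e1]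
        exact hFix N n D₁ W hN _ (ActS_ch_up hUp hF N n D₁ W hN b σ ω x j)
      · have e4 : actS N D₁ W b σ ω x (j + 1) =
            (maj N)^[k + 1] (Function.update (chS N D₁ W b σ ω 0 (ini x) i).1 s c) := by
          rw [ActS_false_q N D₁ W b σ ω x j (e3.trans h1) hq, hac, Function.iterate_succ_apply']
        by_cases hkR : k + 1 ≤ Rr D₁ W
        · right; right
          exact ⟨e3.trans h1, i, k + 1, s, c, by omega, by omega, hkR, hs, hw, e4, e1.trans hch⟩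
        · right; left
          refine ⟨e3.trans h1, by omega, ?_⟩
          have hkk : k = Rr D₁ W := by omega
          rw [e4, Function.iterate_succ_apply', e1, hch, hkk]
          show maj N (F N D₁ W (chS N D₁ W b σ ω 0 (ini x) i).1 s c) = _
          exact hFix N n D₁ W hN _ ((hF N n D₁ W hN).1 _
            (ActS_ch_up hUp hF N n D₁ W hN b σ ω x i) _ _)
    · -- one noise in the window of a relaxed state
      rw [h] at hcs
      have e1 : (chS N D₁ W b σ ω 0 (ini x) (j + 1)).1 =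
          F N D₁ W (chS N D₁ W b σ ω 0 (ini x) j).1 s (decide (ω (s, (j : ℤ)) = some b)) := by
        rw [hcs]
      have e2 : (chS N D₁ W b σ ω 0 (ini x) (j + 1)).2.1 = Rr D₁ W + 1 := by rw [hcs]
      have e3 : (chS N D₁ W b σ ω 0 (ini x) (j + 1)).2.2 = false := by rw [hcs]
      right; right
      refine ⟨e3, j, 0, s, decide (ω (s, (j : ℤ)) = some b), rfl, by omega, Nat.zero_le _, hs, hw,
        ?_, e1⟩
      rw [ActS_false_one N D₁ W b σ ω x j e3 s hs hw hu, ActS_P_zero N D₁ W b σ ω x j ih h0,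
        hFix N n D₁ W hN _ (ActS_ch_up hUp hF N n D₁ W hN b σ ω x j)]
      rfl
    · -- a reset
      rw [h] at hcs
      have e1 : (chS N D₁ W b σ ω 0 (ini x) (j + 1)).1 =
          H (lo (chS N D₁ W b σ ω 0 (ini x) j).1 + σ * (Jj D₁ W : ℤ)) := by rw [hcs]; rfl
      have e3 : (chS N D₁ W b σ ω 0 (ini x) (j + 1)).2.2 = true := by rw [hcs]; rfl
      left
      refine ⟨e3, ActS_true N D₁ W b σ ω x j e3, ?_⟩
      rw [e1, (hUp N n D₁ W hN).1 _ _ ((hUp N n D₁ W hN).2.1 _)]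

private theorem ActS_far (hUp : St_Up) (hRelT : St_RelT) (hRelF : St_RelF) (hF : St_F)
    (N : Finset ℤ) (n D₁ W : ℕ) (hN : Nb N n D₁ W) (b : Bool) (σ : ℤ) (ω : Om) (x : ℤ) (j : ℕ)
    (hP : ActS_P N D₁ W b σ ω x j) (hr : (chS N D₁ W b σ ω 0 (ini x) j).2.2 = false) :
    (∀ t, lo (chS N D₁ W b σ ω 0 (ini x) j).1 + 2 * (W + D₁) ≤ t →
      actS N D₁ W b σ ω x j t = true ∨
      ∃ i : ℕ, j = i + 1 ∧ t ∈ win D₁ W (chS N D₁ W b σ ω 0 (ini x) i).1 ∧
        ω (t, (i : ℤ)) ≠ none) ∧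
    (∀ t, t < lo (chS N D₁ W b σ ω 0 (ini x) j).1 - 2 * (W + D₁) →
      actS N D₁ W b σ ω x j t = false ∨
      ∃ i : ℕ, j = i + 1 ∧ t ∈ win D₁ W (chS N D₁ W b σ ω 0 (ini x) i).1 ∧
        ω (t, (i : ℤ)) ≠ none) := by
  obtain ⟨hlo, -, -, hfil⟩ := hUp N n D₁ W hN
  rcases hP with ⟨h1, -⟩ | ⟨-, -, ha⟩ | ⟨-, i, r, s, c, hji, -, -, hs, hw, hac, hch⟩
  · rw [hr] at h1
    exact absurd h1 (by decide)
  · obtain ⟨l, hl⟩ := ActS_ch_up hUp hF N n D₁ W hN b σ ω x j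
    have hlo' := hlo l _ hl
    rw [hlo', ha]
    refine ⟨fun t ht => Or.inl (hfil l _ hl t (by omega)), fun t ht => Or.inl (hl.2.1 t (by omega))⟩
  · obtain ⟨l, hl⟩ := ActS_ch_up hUp hF N n D₁ W hN b σ ω x i
    set v := (chS N D₁ W b σ ω 0 (ini x) i).1 with hv
    cases c with
    | true =>
      obtain ⟨⟨l', u', hl', h1, h2, h3⟩, hT2, hT3, -⟩ := hRelT N n D₁ W hN l v hl s
      have hu' : (chS N D₁ W b σ ω 0 (ini x) j).1 = u' := by
        rw [hch]
        exact h3 _ (by unfold Rr; omega)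
      have hlo' : lo (chS N D₁ W b σ ω 0 (ini x) j).1 = l' := by
        rw [hu']; exact hlo l' u' hl'
      rw [hlo', hac]
      rcases Nat.eq_zero_or_pos r with hr | hr
      · subst hr
        refine ⟨fun t ht => Or.inl ?_, fun t ht => ?_⟩
        · show Function.update v s true t = true
          by_cases hts : t = s
          · rw [hts, Function.update_self]
          · rw [Function.update_of_ne hts]
            exact hfil l _ hl t (by omega)
        · by_cases hts : t = s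
          · right
            exact ⟨i, by omega, hts ▸ hs, hts ▸ hw⟩
          · left
            show Function.update v s true t = false
            rw [Function.update_of_ne hts]
            exact hl.2.1 t (by omega)
      · refine ⟨fun t ht => Or.inl (hT2 r hr t (hfil l _ hl t (by omega))), fun t ht => Or.inl ?_⟩
        by_contra hne
        have hne' := Bool.eq_true_of_not_eq_false hne
        have := hT3 r hr t hne'
        omega
    | false =>
      obtain ⟨⟨l', u', hl', h1, h2, h3⟩, hT2, hT3, -⟩ := hRelF N n D₁ W hN l v hl s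
      have hu' : (chS N D₁ W b σ ω 0 (ini x) j).1 = u' := by
        rw [hch]
        exact h3 _ (by unfold Rr; omega)
      have hlo' : lo (chS N D₁ W b σ ω 0 (ini x) j).1 = l' := by
        rw [hu']; exact hlo l' u' hl'
      rw [hlo', hac]
      rcases Nat.eq_zero_or_pos r with hr | hr
      · subst hr
        refine ⟨fun t ht => ?_, fun t ht => Or.inl ?_⟩
        · by_cases hts : t = s
          · right
            exact ⟨i, by omega, hts ▸ hs, hts ▸ hw⟩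
          · left
            show Function.update v s false t = true
            rw [Function.update_of_ne hts]
            exact hfil l _ hl t (by omega)
        · show Function.update v s false t = false
          by_cases hts : t = s
          · rw [hts, Function.update_self]
          · rw [Function.update_of_ne hts]
            exact hl.2.1 t (by omega)
      · refine ⟨fun t ht => Or.inl (hT3 r hr t (by omega)), fun t ht => Or.inl ?_⟩
        by_contra hne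
        have hne' := Bool.eq_true_of_not_eq_false hne
        have h4 := hT2 r hr t hne'
        have h5 := hl.2.1 t (by omega)
        rw [h4] at h5
        exact absurd h5 (by decide)

theorem thm_ActS (hUp : St_Up) (hFix : St_Fix) (hRelT : St_RelT) (hRelF : St_RelF) (hF : St_F) :
    St_ActS := by
  intro N n D₁ W hN b σ hσ ω x j
  have hP := ActS_P_all hUp hFix hF N n D₁ W hN b σ ω x j
  have hup := ActS_ch_up hUp hF N n D₁ W hN b σ ω x j
  have hcs := ActS_ch_succ N D₁ W b σ ω (ini x) j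
  have hJ : (W : ℤ) + D₁ ≤ (Jj D₁ W : ℤ) := by
    unfold Jj
    push_cast
    nlinarith [Int.natCast_nonneg W, Int.natCast_nonneg D₁, Int.natCast_nonneg (Rr D₁ W),
      mul_nonneg (Int.natCast_nonneg (Rr D₁ W)) (Int.natCast_nonneg D₁)]
  have hWD : (0 : ℤ) ≤ (W : ℤ) + D₁ := by positivity
  have hstep : |lo (chS N D₁ W b σ ω 0 (ini x) (j + 1)).1 -
        lo (chS N D₁ W b σ ω 0 (ini x) j).1| ≤ (Jj D₁ W : ℤ) ∧
      ((chS N D₁ W b σ ω 0 (ini x) (j + 1)).2.2 = false →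
        |lo (chS N D₁ W b σ ω 0 (ini x) (j + 1)).1 - lo (chS N D₁ W b σ ω 0 (ini x) j).1| ≤
          (W : ℤ) + D₁) := by
    rcases ActS_cases N D₁ W b σ (chS N D₁ W b σ ω 0 (ini x) j) (fun s => ω (s, (j : ℤ))) with
      ⟨hq, h⟩ | ⟨h0, s, hs, hw, hu, h⟩ | h
    · rw [hcs, h]
      simp only [sub_self, abs_zero]
      exact ⟨by omega, fun _ => hWD⟩
    · rw [hcs, h]
      have h1 := (hF N n D₁ W hN).2.1 _ hup s (decide (ω (s, (j : ℤ)) = some b))
      exact ⟨h1.trans hJ, fun _ => h1⟩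
    · rw [hcs, h]
      refine ⟨?_, fun hc => absurd (show true = false from hc) (by decide)⟩
      show |lo (H (lo (chS N D₁ W b σ ω 0 (ini x) j).1 + σ * (Jj D₁ W : ℤ))) -
        lo (chS N D₁ W b σ ω 0 (ini x) j).1| ≤ _
      rw [(hUp N n D₁ W hN).1 _ _ ((hUp N n D₁ W hN).2.1 _), add_sub_cancel_left, abs_mul]
      rcases hσ with rfl | rfl <;> simp
  refine ⟨hup, ActS_ch_a N D₁ W b σ ω x j, hstep.1, hstep.2, ?_, ?_, ?_⟩
  · intro h0
    refine ⟨ActS_P_zero N D₁ W b σ ω x j hP h0, ?_⟩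
    intro i hi
    subst hi
    have hcs' := ActS_ch_succ N D₁ W b σ ω (ini x) i
    rcases ActS_cases N D₁ W b σ (chS N D₁ W b σ ω 0 (ini x) i) (fun s => ω (s, (i : ℤ))) with
      ⟨hq, h⟩ | ⟨-, s, -, -, -, h⟩ | h
    · rw [h] at hcs'
      exact ⟨by rw [hcs'], fun s hs => hq s hs⟩
    · rw [hcs', h] at h0
      exact absurd h0 (Nat.succ_ne_zero _)
    · rw [hcs', h] at h0
      exact absurd h0 (Nat.succ_ne_zero _)
  · intro hr
    rcases hP with ⟨-, h1, -⟩ | ⟨h1, -⟩ | ⟨h1, -⟩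
    · exact h1
    · rw [hr] at h1
      exact absurd h1 (by decide)
    · rw [hr] at h1
      exact absurd h1 (by decide)
  · intro hr
    exact ActS_far hUp hRelT hRelF hF N n D₁ W hN b σ ω x j hP hr

end Pool.Agent.NVA
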