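import Pool.Agent.NVA.St

set_option autoImplicit false

/-! The slanted block criterion `St_Dec`. The file follows Helper55/Vote/Blocks.lean (by helper55),
with slanted blocks, thin noise regions and the discrepancy observed at a moving site. -/

namespace Pool.Agent.NVA

open MeasureTheory Set ProbabilityTheory Pool.Agent.Helper55.Vote

/-- the good event of the block `i` in the layer `k` -/
def Dec_good (L T : ℕ) (S : ℤ) (g : Set Om) (k : ℕ) (i : ℤ) : Set Om :=
  shift (i * L + k * S, 1 + k * T) ⁻¹' g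

lemma Dec_good_FL {L T : ℕ} {S : ℤ} {R : Set (ℤ × ℤ)} {g : Set Om} (hg : FL R g) (k : ℕ)
    (i : ℤ) :
    FL {c | c - ((i * L + k * S, 1 + (k : ℤ) * T) : ℤ × ℤ) ∈ R} (Dec_good L T S g k i) :=
  hg.shift _

lemma Dec_prod_bad (μ₀ : Measure (Option Bool)) [IsProbabilityMeasure μ₀] {w L T : ℕ} {S : ℤ}
    {R : Set (ℤ × ℤ)} (hR : Thin w L T R) (hL : 1 ≤ L) {g : Set Om} (hg : FL R g) (k : ℕ)
    (F : Set Om) (hF : FL {c : ℤ × ℤ | 1 + ((k + 1 : ℕ) : ℤ) * T ≤ c.2} F) (I : Finset ℤ)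
    (hI : ∀ i ∈ I, ∀ j ∈ I, i ≠ j → ((2 * w + 1 : ℕ) : ℤ) ≤ |i - j|) :
    (Pm μ₀).real ({ω | ∀ i ∈ I, ω ∉ Dec_good L T S g k i} ∩ F) =
      ((Pm μ₀).real gᶜ) ^ I.card * (Pm μ₀).real F := by
  classical
  induction I using Finset.induction_on with
  | empty => simp
  | insert a I ha ih =>
    have ih' := ih fun i hi j hj => hI i (Finset.mem_insert_of_mem hi) j
      (Finset.mem_insert_of_mem hj)
    have h1 : FL {c | c - ((a * L + k * S, 1 + (k : ℤ) * T) : ℤ × ℤ) ∈ R}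
        (Dec_good L T S g k a)ᶜ := (Dec_good_FL hg k a).compl
    have h2 : FL {c | c - ((a * L + k * S, 1 + (k : ℤ) * T) : ℤ × ℤ) ∈ R}ᶜ
        ({ω | ∀ i ∈ I, ω ∉ Dec_good L T S g k i} ∩ F) := by
      refine FL.inter ?_ (hF.mono ?_)
      · have h3 := FL.biInter (R := {c | c - ((a * L + k * S, 1 + (k : ℤ) * T) : ℤ × ℤ) ∈ R}ᶜ) I
          (fun i => (Dec_good L T S g k i)ᶜ) fun i hi =>
          ((Dec_good_FL hg k i).compl).mono ?_
        · have e : {ω | ∀ i ∈ I, ω ∉ Dec_good L T S g k i} =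
              ⋂ i ∈ I, (Dec_good L T S g k i)ᶜ := by
            ext ω
            simp
          rw [e]
          exact h3
        · intro c hc hca
          have h4 := hI a (Finset.mem_insert_self _ _) i (Finset.mem_insert_of_mem hi)
            (fun h => ha (h ▸ hi))
          have h5 := hR.2 _ hc _ hca rfl
          simp only [Prod.fst_sub] at h5
          have h6 : c.1 - (i * L + k * S) - (c.1 - (a * L + k * S)) = (a - i) * L := by ring
          rw [h6, abs_mul, Nat.abs_cast] at h5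
          have hL' : (0 : ℤ) < L := by exact_mod_cast hL
          have h7 := lt_of_mul_lt_mul_right h5 hL'.le
          push_cast at h4
          omega
      · intro c hc hca
        simp only [mem_ofPred_eq] at hc
        have h4 := (hR.1 _ hca).2
        simp only [Prod.snd_sub] at h4
        push_cast at hc
        nlinarith
    have e : {ω | ∀ i ∈ insert a I, ω ∉ Dec_good L T S g k i} ∩ F =
        (Dec_good L T S g k a)ᶜ ∩ ({ω | ∀ i ∈ I, ω ∉ Dec_good L T S g k i} ∩ F) := by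
      ext ω
      simp only [mem_inter_iff, mem_ofPred_eq, Finset.mem_insert, forall_eq_or_imp, mem_compl_iff]
      tauto
    rw [e, h1.indep μ₀ h2 disjoint_compl_right, ih', Finset.card_insert_of_notMem ha, pow_succ]
    have h5 : (Pm μ₀).real (Dec_good L T S g k a)ᶜ = (Pm μ₀).real gᶜ := by
      have : (Dec_good L T S g k a)ᶜ = shift (a * L + k * S, 1 + k * T) ⁻¹' gᶜ := rfl
      rw [this, measure_shift μ₀ _ hg.compl.meas]
    rw [h5]
    ring

lemma Dec_field_good (μ₀ : Measure (Option Bool)) [IsProbabilityMeasure μ₀] {w L T : ℕ} {S : ℤ}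
    {R : Set (ℤ × ℤ)} (hR : Thin w L T R) (hL : 1 ≤ L) {g : Set Om} (hg : FL R g)
    (hgP : (Pm μ₀).real gᶜ ≤ (3 / 64) ^ (2 * w + 1)) :
    Field (Pm μ₀) (Dec_good L T S g) (futur T) where
  meas := fun k F hF => FL.meas hF
  mono := fun k F hF => FL.mono hF fun c hc => by
    simp only [mem_ofPred_eq] at hc ⊢
    push_cast at hc
    nlinarith
  univ := fun k => FL.univ _
  compl := fun k F hF => FL.compl hF
  inter := fun k F hF F' hF' => FL.inter hF hF'
  good := fun k i => (Dec_good_FL hg k i).mono fun c hc => by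
    have h4 := (hR.1 _ hc).1
    simp only [Prod.snd_sub] at h4
    simp only [mem_ofPred_eq]
    omega
  bound := by
    intro k I F hF
    obtain ⟨S', hS1, hS2, hS3⟩ := exists_class I (2 * w + 1) (by omega)
    have h1 := Dec_prod_bad μ₀ (S := S) hR hL hg k F hF S' hS3
    have h2 : (Pm μ₀).real ({ω | ∀ i ∈ I, ω ∉ Dec_good L T S g k i} ∩ F) ≤
        (Pm μ₀).real ({ω | ∀ i ∈ S', ω ∉ Dec_good L T S g k i} ∩ F) := by
      refine measureReal_mono ?_ (measure_ne_top _ _)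
      rintro ω ⟨h, h'⟩
      exact ⟨fun i hi => h i (hS1 hi), h'⟩
    refine h2.trans (h1.le.trans ?_)
    refine mul_le_mul_of_nonneg_right ?_ ENNReal.toReal_nonneg
    have h3 : (0 : ℝ) ≤ (Pm μ₀).real gᶜ := ENNReal.toReal_nonneg
    calc ((Pm μ₀).real gᶜ) ^ S'.card ≤ ((3 / 64 : ℝ) ^ (2 * w + 1)) ^ S'.card :=
          pow_le_pow_left₀ h3 hgP _
      _ = (3 / 64 : ℝ) ^ ((2 * w + 1) * S'.card) := by rw [pow_mul]
      _ ≤ (3 / 64 : ℝ) ^ I.card := pow_le_pow_of_le_one (by norm_num) (by norm_num) hS2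

/-- the key estimate -/
lemma Dec_D_le (hZone : St_Zone) (hOfS : St_OfS) (μ₀ : Measure (Option Bool))
    [IsProbabilityMeasure μ₀] {N : Finset ℤ} {b : Bool} {D₁ L T w : ℕ} {S : ℤ}
    {R : Set (ℤ × ℤ)} (hD : ∀ v ∈ N, |v| ≤ (D₁ : ℤ)) (hL : 1 ≤ L) (hR : Thin w L T R)
    {g : Set Om} (hg : FL R g) (hgW : ∀ ω ∈ g, WallS N b D₁ L T S ω 0 0)
    (hgP : (Pm μ₀).real gᶜ ≤ (3 / 64) ^ (2 * w + 1)) (m M n : ℕ) (hn : (M + 1) * m ≤ n) :
    D μ₀ N (1 + n * T) ≤ (1 - (μ₀.real {some b}) ^ (m * L)) ^ M +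
      M * ((μ₀.real {some b}) ^ (m * L) * (8 * (1 / 2) ^ m)) := by
  classical
  have hF := Dec_field_good μ₀ (S := S) hR hL hg hgP
  set dR : ℕ → Set Om := fun j => {ω | ∀ i, (j : ℤ) * m ≤ i → i < j * m + m →
    ω ∈ dead (Dec_good L T S g) 2 n 0 i} with hdR
  set dL : ℕ → Set Om := fun j => {ω | ∀ i, (j : ℤ) * m ≤ i → i < j * m + m →
    ω ∈ dead (Dec_good L T S g) (-2) n 0 i} with hdL
  have hsub : Dis N (1 + n * T) (n * S) ⊆ {ω | ∀ j < M, ω ∉ seed b m L j} ∪
        ⋃ j ∈ Finset.range M, (seed b m L j ∩ dR j ∪ seed b m L j ∩ dL j) := by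
    intro ω hω
    by_contra hcon
    rw [mem_union, not_or, mem_iUnion₂] at hcon
    obtain ⟨hc1, hc2⟩ := hcon
    simp only [mem_ofPred_eq, not_forall, not_not] at hc1
    obtain ⟨j, hj, hseed⟩ := hc1
    push Not at hc2
    have h3 := hc2 j (Finset.mem_range.2 hj)
    rw [mem_union, not_or] at h3
    have h4 : ω ∉ dR j := fun h => h3.1 ⟨hseed, h⟩
    have h5 : ω ∉ dL j := fun h => h3.2 ⟨hseed, h⟩
    simp only [hdR, mem_ofPred_eq, not_forall] at h4
    simp only [hdL, mem_ofPred_eq, not_forall] at h5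
    obtain ⟨iR, hR1, hR2, hR3⟩ := h4
    obtain ⟨iL, hL1, hL2, hL3⟩ := h5
    have hW : ∀ (k : ℕ) (i : ℤ), ω ∈ Dec_good L T S g k i →
        WallS N b D₁ L T S ω (i * L + k * S) (1 + k * T) := fun k i h =>
      hOfS N b D₁ L T S ω _ _ (hgW _ h)
    have hval : ∀ x : ℤ → Bool, ∀ s, (j : ℤ) * (m * L) ≤ s → s < (j + 1) * (m * L) →
        run N ω 0 x 1 s = b := by
      intro x s hs1 hs2
      have h6 := hseed s (Finset.mem_Ico.2 ⟨hs1, hs2⟩)
      change step N (fun s => ω (s, 0 + ((0 : ℕ) : ℤ))) x s = b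
      unfold step
      simp only [Nat.cast_zero, add_zero, h6, Option.getD_some]
    have hLn : (0 : ℤ) ≤ L := Int.natCast_nonneg L
    have hjm : (j : ℤ) * (m * L) = (j * m) * L := by ring
    have hjm' : ((j : ℤ) + 1) * (m * L) = (j * m + m) * L := by ring
    apply hω
    have h0 : (0 : ℤ) ≤ (j : ℤ) * m := by positivity
    have hjM : ((j : ℤ) * m + m) ≤ n := by
      have : (j + 1) * m ≤ n := (Nat.mul_le_mul_right m (by omega : j + 1 ≤ M + 1)).trans hn
      have h7 : (((j + 1) * m : ℕ) : ℤ) ≤ n := by exact_mod_cast this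
      push_cast at h7
      nlinarith
    have hz := hZone N b D₁ L T S hD ω (Dec_good L T S g) 1 hW n 0 iL iR
      (run N ω 0 (fun _ => true) 1)
      (run N ω 0 (fun _ => false) 1) hL3 hR3
      (fun s hs1 hs2 => by
        rw [Nat.cast_zero, zero_mul, add_zero] at hs1 hs2
        exact hval _ s (by rw [hjm]; nlinarith) (by rw [hjm']; nlinarith))
      (fun s hs1 hs2 => by
        rw [Nat.cast_zero, zero_mul, add_zero] at hs1 hs2
        exact hval _ s (by rw [hjm]; nlinarith) (by rw [hjm']; nlinarith))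
      (fun s hs1 hs2 => by
        rw [Nat.cast_zero, zero_mul, add_zero] at hs1 hs2
        exact hval _ s (by rw [hjm]; nlinarith) (by rw [hjm']; nlinarith))
      (fun s hs1 hs2 => by
        rw [Nat.cast_zero, zero_mul, add_zero] at hs1 hs2
        exact hval _ s (by rw [hjm]; nlinarith) (by rw [hjm']; nlinarith))
      (fun s hs1 hs2 => by
        rw [Nat.cast_zero, zero_mul, add_zero] at hs1 hs2
        rw [hval _ s (by rw [hjm]; nlinarith) (by rw [hjm']; nlinarith),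
          hval _ s (by rw [hjm]; nlinarith) (by rw [hjm']; nlinarith)]) (n * S)
      (by
        have h8 : (iL - n) * L ≤ 0 := by nlinarith
        rw [Nat.cast_zero, zero_add]
        linarith) (by
        have hL' : (1 : ℤ) ≤ L := by exact_mod_cast hL
        have h8 : 0 < (iR + n + 1) * L := by nlinarith
        rw [Nat.cast_zero, zero_add]
        linarith)
    rw [run_add, run_add]
    simpa using hz
  have hindep : ∀ (j : ℕ) (c : ℤ), (Pm μ₀).real (seed b m L j ∩ {ω | ∀ i, (j : ℤ) * m ≤ i →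
      i < j * m + m → ω ∈ dead (Dec_good L T S g) c n 0 i}) ≤
        (μ₀.real {some b}) ^ (m * L) * (4 * (1 / 2) ^ m) := by
    intro j c
    have h1 : FL {c : ℤ × ℤ | 1 ≤ c.2} {ω | ∀ i, (j : ℤ) * m ≤ i →
        i < j * m + m → ω ∈ dead (Dec_good L T S g) c n 0 i} := by
      have h2 := hF.forall_mem 0 (Finset.Ico ((j : ℤ) * m) (j * m + m))
        (fun i => dead (Dec_good L T S g) c n 0 i) fun i _ => hF.dead_mem c n 0 i
      have h3 : FL {c : ℤ × ℤ | 1 + ((0 : ℕ) : ℤ) * T ≤ c.2} _ := h2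
      simp only [Finset.mem_Ico, and_imp, Nat.cast_zero, zero_mul, add_zero] at h3
      exact h3
    have h4 : FL {c : ℤ × ℤ | c.2 = 0} (seed b m L j) := (seed_FL b m L j).mono fun c hc => hc.1
    rw [h4.indep μ₀ h1 ?_, prob_seed]
    · refine mul_le_mul_of_nonneg_left (dead_bound hF c n 0 _ m) ?_
      have : (0 : ℝ) ≤ μ₀.real {some b} := ENNReal.toReal_nonneg
      positivity
    · rw [Set.disjoint_left]
      intro c hc hc'
      simp only [mem_ofPred_eq] at hc hc'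
      omega
  rw [← prob_Dis μ₀ N (1 + n * T) (n * S)]
  refine (measureReal_mono hsub (measure_ne_top _ _)).trans ?_
  refine (measureReal_union_le _ _).trans ?_
  refine add_le_add (prob_no_seed μ₀ b m L M).le ?_
  refine (measureReal_biUnion_finset_le _ _).trans ?_
  have h1 : ∀ j ∈ Finset.range M, (Pm μ₀).real (seed b m L j ∩ dR j ∪ seed b m L j ∩ dL j) ≤
      (μ₀.real {some b}) ^ (m * L) * (8 * (1 / 2) ^ m) := by
    intro j _
    refine (measureReal_union_le _ _).trans ?_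
    have h2 := hindep j 2
    have h3 := hindep j (-2)
    calc _ ≤ (μ₀.real {some b}) ^ (m * L) * (4 * (1 / 2) ^ m) +
          (μ₀.real {some b}) ^ (m * L) * (4 * (1 / 2) ^ m) := add_le_add h2 h3
      _ = _ := by ring
  refine (Finset.sum_le_sum h1).trans ?_
  rw [Finset.sum_const, Finset.card_range, nsmul_eq_mul]

/-- The slanted block criterion. -/
theorem thm_Dec (hZone : St_Zone) (hOfS : St_OfS) : St_Dec := by
  intro μ₀ _ N b D₁ L T w S R g hD hL hb hR hg hgW hgP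
  have hanti := D_antitone μ₀ N
  have h0 : ∀ t, 0 ≤ D μ₀ N t := fun t => ENNReal.toReal_nonneg
  have hlim : Filter.Tendsto (fun m : ℕ => Real.exp (-(m : ℝ)) + (m + 1) * (8 * (1 / 2 : ℝ) ^ m))
      Filter.atTop (nhds 0) := by
    have h1 : Filter.Tendsto (fun m : ℕ => Real.exp (-(m : ℝ))) Filter.atTop (nhds 0) :=
      Real.tendsto_exp_neg_atTop_nhds_zero.comp tendsto_natCast_atTop_atTop
    have h2 : Filter.Tendsto (fun m : ℕ => (m : ℝ) ^ 1 * (1 / 2 : ℝ) ^ m) Filter.atTop (nhds 0) :=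
      tendsto_pow_const_mul_const_pow_of_abs_lt_one 1 (by rw [abs_of_pos] <;> norm_num)
    have h3 : Filter.Tendsto (fun m : ℕ => (1 / 2 : ℝ) ^ m) Filter.atTop (nhds 0) :=
      tendsto_pow_atTop_nhds_zero_of_lt_one (by norm_num) (by norm_num)
    have h4 := h1.add ((h2.const_mul 8).add (h3.const_mul 8))
    simp only [mul_zero, add_zero] at h4
    refine h4.congr fun m => ?_
    rw [pow_one]
    ring
  rw [Metric.tendsto_atTop]
  intro e he
  rw [Metric.tendsto_atTop] at hlim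
  obtain ⟨m, hm⟩ := hlim e he
  have hm' := hm m le_rfl
  rw [Real.dist_eq, sub_zero] at hm'
  set σ : ℝ := (μ₀.real {some b}) ^ (m * L) with hσ
  have hσ0 : 0 < σ := by positivity
  have hσ1 : σ ≤ 1 := pow_le_one₀ hb.le measureReal_le_one
  obtain ⟨M, hM1, hM2⟩ : ∃ M : ℕ, (m : ℝ) ≤ σ * M ∧ σ * M ≤ m + 1 := by
    refine ⟨⌈(m : ℝ) / σ⌉₊, ?_, ?_⟩
    · have := Nat.le_ceil ((m : ℝ) / σ)
      rw [div_le_iff₀ hσ0] at this
      linarith
    · have := (Nat.ceil_lt_add_one (show 0 ≤ (m : ℝ) / σ by positivity)).le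
      calc σ * (⌈(m : ℝ) / σ⌉₊ : ℝ) ≤ σ * ((m : ℝ) / σ + 1) :=
            mul_le_mul_of_nonneg_left this hσ0.le
        _ = m + σ := by field_simp
        _ ≤ _ := by linarith
  refine ⟨1 + ((M + 1) * m) * T, fun t ht => ?_⟩
  rw [Real.dist_eq, sub_zero, abs_of_nonneg (h0 t)]
  have h1 := Dec_D_le hZone hOfS μ₀ hD hL hR hg hgW hgP m M ((M + 1) * m) le_rfl
  rw [← hσ] at h1
  have h2 : (1 - σ) ^ M ≤ Real.exp (-(m : ℝ)) := by
    have h3 : 1 - σ ≤ Real.exp (-σ) := by
      have := Real.add_one_le_exp (-σ)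
      linarith
    calc (1 - σ) ^ M ≤ (Real.exp (-σ)) ^ M := pow_le_pow_left₀ (by linarith) h3 M
      _ = Real.exp (-(σ * M)) := by rw [← Real.exp_nat_mul]; congr 1; ring
      _ ≤ _ := Real.exp_le_exp.2 (by linarith)
  have h3 : (M : ℝ) * (σ * (8 * (1 / 2) ^ m)) ≤ (m + 1) * (8 * (1 / 2 : ℝ) ^ m) := by
    calc (M : ℝ) * (σ * (8 * (1 / 2) ^ m)) = (σ * M) * (8 * (1 / 2) ^ m) := by ring
      _ ≤ _ := mul_le_mul_of_nonneg_right hM2 (by positivity)
  calc D μ₀ N t ≤ D μ₀ N (1 + ((M + 1) * m) * T) := hanti ht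
    _ ≤ Real.exp (-(m : ℝ)) + (m + 1) * (8 * (1 / 2 : ℝ) ^ m) := by linarith
    _ ≤ |Real.exp (-(m : ℝ)) + (m + 1) * (8 * (1 / 2 : ℝ) ^ m)| := le_abs_self _
    _ < e := hm'

end Pool.Agent.NVA
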