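import Pool.Agent.NVA.St

set_option autoImplicit false

/-! Dilation and shear do not change the decay function. The dilation is the argument of `crit_dil`
in T3M/MCrit.lean (helper57). -/

namespace Pool.Agent.NVA

open MeasureTheory Set Pool.Agent.Helper55.Vote

private theorem Dil_map_inj (μ₀ : Measure (Option Bool)) [IsProbabilityMeasure μ₀]
    (g : ℤ × ℤ → ℤ × ℤ) (hg : Function.Injective g) :
    (Pm μ₀).map (fun (ω : Om) c => ω (g c)) = Pm μ₀ := by
  classical
  have hm : Measurable (fun (ω : Om) c => ω (g c)) :=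
    measurable_pi_lambda _ fun c => measurable_pi_apply _
  unfold Pm
  refine Measure.eq_infinitePi _ fun s t ht => ?_
  rw [Measure.map_apply hm (MeasurableSet.pi s.countable_toSet (fun i _ => ht i))]
  obtain ⟨τ, hτ⟩ : ∃ τ : ℤ × ℤ → Set (Option Bool), ∀ c, τ (g c) = t c :=
    ⟨fun c => t (Function.invFun g c), fun c => congrArg t (Function.leftInverse_invFun hg c)⟩
  have h1 : (fun (ω : Om) c => ω (g c)) ⁻¹' (Set.pi (s : Set (ℤ × ℤ)) t) =
      Set.pi ((s.image g : Finset (ℤ × ℤ)) : Set (ℤ × ℤ)) τ := by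
    ext ω
    simp only [Set.mem_preimage, Set.mem_pi, Finset.mem_coe, Finset.mem_image]
    constructor
    · rintro h _ ⟨c, hc, rfl⟩
      rw [hτ]
      exact h c hc
    · intro h c hc
      rw [← hτ]
      exact h _ ⟨c, hc, rfl⟩
  rw [h1, Measure.infinitePi_pi (fun _ : ℤ × ℤ => μ₀) (by
    intro c hc
    obtain ⟨c', hc', rfl⟩ := Finset.mem_image.1 hc
    rw [hτ]
    exact ht c'), Finset.prod_image (fun a _ b _ h => hg h)]
  exact Finset.prod_congr rfl fun c _ => by rw [hτ]

private theorem Dil_run (p : ℤ) (hp : 0 < p) (N : Finset ℤ) (ω : Om) (x : Bool) (n : ℕ) (u : ℤ) :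
    run (N.image fun v => p * v) ω 0 (fun _ => x) n (p * u) =
      run N (fun c => ω (p * c.1, c.2)) 0 (fun _ => x) n u := by
  induction n generalizing u with
  | zero => simp [run_zero]
  | succ n ih =>
    rw [run_succ, run_succ]
    unfold step
    have h2 : maj (N.image fun v => p * v) (run (N.image fun v => p * v) ω 0 (fun _ => x) n)
        (p * u) = maj N (run N (fun c => ω (p * c.1, c.2)) 0 (fun _ => x) n) u := by
      unfold maj
      have hinj : Function.Injective (fun v : ℤ => p * v) := mul_right_injective₀ hp.ne'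
      rw [Finset.card_image_of_injective _ hinj, Finset.filter_image,
        Finset.card_image_of_injective _ hinj]
      have h3 : (N.filter fun j => run (N.image fun v => p * v) ω 0 (fun _ => x) n
          (p * u + p * j) = true) = N.filter fun j =>
          run N (fun c => ω (p * c.1, c.2)) 0 (fun _ => x) n (u + j) = true := by
        refine Finset.filter_congr fun j _ => ?_
        rw [← mul_add, ih]
      rw [h3]
    rw [h2]

private theorem Dil_dil (μ₀ : Measure (Option Bool)) [IsProbabilityMeasure μ₀] (p : ℤ)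
    (hp : 0 < p) (N : Finset ℤ) (t : ℕ) : D μ₀ (N.image fun v => p * v) t = D μ₀ N t := by
  have hg : Function.Injective (fun c : ℤ × ℤ => ((p * c.1, c.2) : ℤ × ℤ)) := by
    rintro ⟨a, b⟩ ⟨a', b'⟩ h
    simp only [Prod.mk.injEq] at h
    have h1 : a = a' := mul_left_cancel₀ hp.ne' h.1
    rw [h1, h.2]
  have hm : Measurable (fun (ω : Om) (c : ℤ × ℤ) => ω (p * c.1, c.2)) :=
    measurable_pi_lambda _ fun c => measurable_pi_apply _
  have h1 := Dil_map_inj μ₀ _ hg
  have h2 : (Pm μ₀).real ((fun (ω : Om) (c : ℤ × ℤ) => ω (p * c.1, c.2)) ⁻¹' (Dis N t 0)) =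
      (Pm μ₀).real (Dis N t 0) := by
    rw [Measure.real, ← Measure.map_apply hm (Dis_meas N t 0), h1]
    rfl
  rw [← prob_Dis μ₀ N t 0, ← h2, ← prob_Dis μ₀ (N.image fun v => p * v) t (p * 0)]
  congr 1
  ext ω
  simp only [Dis, mem_preimage, mem_ofPred_eq, Dil_run p hp]

theorem thm_Dil : St_Dil := by
  intro μ₀ _ N N' c g hg hN t
  rw [← D_shear μ₀ N c t, hN, Dil_dil μ₀ g hg N' t]

end Pool.Agent.NVA
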