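import Pool.Agent.NVA.St

set_option autoImplicit false

/-! Noisy majority voting, module Drift: the drifts of the two edges. -/

namespace Pool.Agent.NVA

open MeasureTheory Set Pool.Agent.Helper55.Vote

private theorem Drift_split (N : Finset ℤ) (D₁ W : ℕ) (p p' : ℝ) (f : (ℤ → Bool) → ℝ)
    (u : ℤ → Bool) :
    dr N D₁ W p p' f u = p * (∑ s ∈ win D₁ W u, (f (F N D₁ W u s true) - f u)) +
      p' * ∑ s ∈ win D₁ W u, (f (F N D₁ W u s false) - f u) := by
  unfold dr
  rw [Finset.mul_sum, Finset.mul_sum, ← Finset.sum_add_distrib]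

private theorem Drift_lin (N : Finset ℤ) (D₁ W : ℕ) (p p' θ : ℝ) (g ψ : (ℤ → Bool) → ℝ)
    (u : ℤ → Bool) :
    dr N D₁ W p p' (fun x => g x + θ * ψ x) u =
      dr N D₁ W p p' g u + θ * dr N D₁ W p p' ψ u := by
  unfold dr
  rw [Finset.mul_sum, ← Finset.sum_add_distrib]
  refine Finset.sum_congr rfl fun s _ => ?_
  ring

private theorem Drift_card (D₁ W : ℕ) (u : ℤ → Bool) :
    (win D₁ W u).card = 2 * Bb D₁ W := by
  unfold win
  rw [Int.card_Ico]
  omega

theorem thm_Drift (hUp : St_Up) (hF : St_F) (hHarm : St_Harm) (hPsi : St_Psi) : St_Drift := by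
  intro N n D₁ W hN
  obtain ⟨u1, u2, -, -⟩ := hUp N n D₁ W hN
  obtain ⟨f1, f2, -, -, -, f6, f7⟩ := hF N n D₁ W hN
  obtain ⟨v, g, gm, gs, gb, gv⟩ := hHarm N n D₁ W hN
  obtain ⟨κ₁, ψ, hκ0, hκ1, hψ, hdψ⟩ := hPsi N n D₁ W hN
  -- the two sums
  let Q1 : (ℤ → Bool) → ℝ := fun u => ∑ s ∈ win D₁ W u, (g (F N D₁ W u s true) - g u)
  let Q0 : (ℤ → Bool) → ℝ := fun u => ∑ s ∈ win D₁ W u, (g (F N D₁ W u s false) - g u)
  have hQ : ∀ u, IsUp N u → Q1 u + Q0 u = v := by
    intro u hu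
    have h1 := gv u hu
    rw [Drift_split] at h1
    simpa [Q1, Q0] using h1
  have hdg : ∀ p p' : ℝ, ∀ u, dr N D₁ W p p' g u = p * Q1 u + p' * Q0 u := by
    intro p p' u
    exact Drift_split N D₁ W p p' g u
  have hterm1 : ∀ u, IsUp N u → ∀ s, g (F N D₁ W u s true) - g u ≤ 0 := by
    intro u hu s
    have := gm u (F N D₁ W u s true) hu (f1 u hu s true) fun t ht => (f6 u hu s t).1 ht
    linarith
  have hterm0 : ∀ u, IsUp N u → ∀ s, 0 ≤ g (F N D₁ W u s false) - g u := by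
    intro u hu s
    have := gm (F N D₁ W u s false) u (f1 u hu s false) hu fun t ht => (f6 u hu s t).2 ht
    linarith
  have hQ1 : ∀ u, IsUp N u → Q1 u ≤ 0 := fun u hu => Finset.sum_nonpos fun s _ => hterm1 u hu s
  have hQ0 : ∀ u, IsUp N u → 0 ≤ Q0 u := fun u hu => Finset.sum_nonneg fun s _ => hterm0 u hu s
  have hstep : ∀ u, IsUp N u → ∀ s c, |g (F N D₁ W u s c) - g u| ≤ 3 * W + D₁ := by
    intro u hu s c
    have hb1 := gb u hu
    have hb2 := gb _ (f1 u hu s c)
    have hl := f2 u hu s c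
    have hl' : |(lo (F N D₁ W u s c) : ℝ) - lo u| ≤ (W : ℝ) + D₁ := by exact_mod_cast hl
    rw [abs_le] at hl' ⊢
    have hW : (0 : ℝ) ≤ W := Nat.cast_nonneg W
    constructor <;> linarith [hl'.1, hl'.2, hb1.1, hb1.2, hb2.1, hb2.2]
  let M : ℝ := 2 * (Bb D₁ W : ℝ) * (3 * W + D₁)
  have hM0 : 0 ≤ M := by positivity
  have hQ1b : ∀ u, IsUp N u → -M ≤ Q1 u := by
    intro u hu
    have h1 : |Q1 u| ≤ ∑ s ∈ win D₁ W u, |g (F N D₁ W u s true) - g u| :=
      Finset.abs_sum_le_sum_abs _ _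
    have h2 : ∑ s ∈ win D₁ W u, |g (F N D₁ W u s true) - g u| ≤
        (win D₁ W u).card • ((3 : ℝ) * W + D₁) :=
      Finset.sum_le_card_nsmul _ _ _ fun s _ => hstep u hu s true
    rw [Drift_card, nsmul_eq_mul] at h2
    push_cast at h2
    have h3 := neg_abs_le (Q1 u)
    simp only [M]
    linarith
  have hQ0b : ∀ u, IsUp N u → Q0 u ≤ M := by
    intro u hu
    have h1 : |Q0 u| ≤ ∑ s ∈ win D₁ W u, |g (F N D₁ W u s false) - g u| :=
      Finset.abs_sum_le_sum_abs _ _
    have h2 : ∑ s ∈ win D₁ W u, |g (F N D₁ W u s false) - g u| ≤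
        (win D₁ W u).card • ((3 : ℝ) * W + D₁) :=
      Finset.sum_le_card_nsmul _ _ _ fun s _ => hstep u hu s false
    rw [Drift_card, nsmul_eq_mul] at h2
    push_cast at h2
    have h3 := le_abs_self (Q0 u)
    simp only [M]
    linarith
  -- half-lines
  have hhalf : ∀ x : ℤ, Q1 (H x) ≤ -1 := by
    intro x
    have hux : Up N x (H x) := u2 x
    have hu : IsUp N (H x) := ⟨x, hux⟩
    have hlo : lo (H x) = x := u1 x _ hux
    have hmem : x - 1 ∈ win D₁ W (H x) := by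
      unfold win
      rw [hlo, Finset.mem_Ico]
      have : 1 ≤ Bb D₁ W := by unfold Bb; omega
      omega
    have hup : F N D₁ W (H x) (x - 1) true = H (x - 1) := by
      rw [f7 (H x) hu (x - 1) (by
        intro t ht
        simp only [H, decide_eq_true_eq]
        omega)]
      ext t
      by_cases h : t = x - 1
      · subst h
        simp [H]
      · rw [Function.update_of_ne h]
        exact decide_eq_decide.mpr (by omega)
    have hg : g (H (x - 1)) = g (H x) + ((-1 : ℤ) : ℝ) := by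
      rw [← gs (H x) (-1) hu]
      congr 1
      ext t
      exact decide_eq_decide.mpr (by omega)
    have h1 : Q1 (H x) ≤ g (F N D₁ W (H x) (x - 1) true) - g (H x) := by
      have h2 : -(g (F N D₁ W (H x) (x - 1) true) - g (H x)) ≤
          ∑ s ∈ win D₁ W (H x), -(g (F N D₁ W (H x) s true) - g (H x)) :=
        Finset.single_le_sum (f := fun s => -(g (F N D₁ W (H x) s true) - g (H x)))
          (fun s _ => by have := hterm1 (H x) hu s; linarith) hmem
      rw [Finset.sum_neg_distrib] at h2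
      have h3 : Q1 (H x) = ∑ s ∈ win D₁ W (H x), (g (F N D₁ W (H x) s true) - g (H x)) := rfl
      linarith
    rw [hup, hg] at h1
    push_cast at h1
    linarith
  have hW0 : (0 : ℝ) ≤ W := Nat.cast_nonneg W
  have hv0 := abs_nonneg v
  refine ⟨v, κ₁ / 2, M + W + 1 + |v|, by linarith, by linarith, by linarith, by linarith, ?_⟩
  intro p p' hp' hpp
  have hp : 0 < p := lt_of_le_of_lt hp' hpp
  have hd : 0 < p - p' := by linarith
  set θ : ℝ := (p - p') / (2 * p) with hθ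
  have hθp : θ * p = (p - p') / 2 := by
    rw [hθ]
    field_simp
  have hθ0 : 0 ≤ θ := by positivity
  have hθ1 : θ ≤ 1 := by
    rw [hθ, div_le_one (by linarith)]
    linarith
  refine ⟨fun x => g x + θ * ψ x, g, ?_⟩
  intro u hu
  have hb := gb u hu
  have hψu := hψ u hu
  have hq := hQ u hu
  have hq1 := hQ1 u hu
  have hq0 := hQ0 u hu
  have hq1b := hQ1b u hu
  have hq0b := hQ0b u hu
  have e1 : dr N D₁ W p p' g u = p' * v + (p - p') * Q1 u := by
    rw [hdg, ← hq]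
    ring
  have e0 : dr N D₁ W p' p g u = p' * v + (p - p') * Q0 u := by
    rw [hdg, ← hq]
    ring
  have hθψ : θ * ψ u ≤ 1 := by
    calc θ * ψ u ≤ 1 * 1 := mul_le_mul hθ1 hψu.2 hψu.1 zero_le_one
      _ = 1 := one_mul 1
  have hθψ0 : 0 ≤ θ * ψ u := mul_nonneg hθ0 hψu.1
  refine ⟨?_, ?_, ?_, ?_, ?_, ?_⟩
  · rw [abs_le]
    constructor <;> dsimp only <;> linarith [hb.1, hb.2]
  · rw [abs_le]
    constructor <;> linarith [hb.1, hb.2]
  · rw [Drift_lin, e1]
    have hps := hdψ p p' hp' hpp.le u hu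
    by_cases hx : ∃ x, u = H x
    · have h1 := hps.1 hx
      have h2 : θ * dr N D₁ W p p' ψ u ≤ θ * p := mul_le_mul_of_nonneg_left h1 hθ0
      obtain ⟨x, hx⟩ := hx
      have h3 : Q1 u ≤ -1 := by rw [hx]; exact hhalf x
      have h4 : (p - p') * Q1 u ≤ (p - p') * (-1) := mul_le_mul_of_nonneg_left h3 hd.le
      have h5 : κ₁ / 2 * (p - p') ≤ 1 / 2 * (p - p') :=
        mul_le_mul_of_nonneg_right (by linarith) hd.le
      linarith
    · have h1 := hps.2 hx
      have h2 : θ * dr N D₁ W p p' ψ u ≤ θ * (-(κ₁ * p)) := mul_le_mul_of_nonneg_left h1 hθ0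
      have h4 : (p - p') * Q1 u ≤ 0 := mul_nonpos_of_nonneg_of_nonpos hd.le hq1
      have h5 : θ * (-(κ₁ * p)) = -(κ₁ * (θ * p)) := by ring
      rw [h5, hθp] at h2
      linarith
  · rw [e1]
    have h1 : (p - p') * (-(M + W + 1 + |v|)) ≤ (p - p') * Q1 u :=
      mul_le_mul_of_nonneg_left (by linarith) hd.le
    linarith
  · rw [e0]
    have h1 : 0 ≤ (p - p') * Q0 u := mul_nonneg hd.le hq0
    linarith
  · rw [e0]
    have h1 : (p - p') * Q0 u ≤ (p - p') * (M + W + 1 + |v|) :=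
      mul_le_mul_of_nonneg_left (by linarith) hd.le
    linarith

end Pool.Agent.NVA
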