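import Pool.Agent.NVA.Defs2

/-!
# NVA EdgesS: the two edges stay near their lines, second version (helper68)
-/

set_option autoImplicit false

namespace Pool.Agent.NVA

open MeasureTheory Set Pool.Agent.Helper55.Vote

/-- the binomial probabilities of no noise and of at least two noises -/
private theorem EdgesS_q (M : ℕ) (hM : 1 ≤ M) (x : ℝ) (hx : 0 ≤ x) (hx1 : x ≤ 1) :
    0 ≤ (1 - x) ^ M ∧ (1 - x) ^ M ≤ 1 ∧ 1 - M * x ≤ (1 - x) ^ M ∧ 0 ≤ (1 - x) ^ (M - 1) ∧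
      (1 - x) ^ (M - 1) ≤ 1 ∧ (1 - x) ^ M ≤ (1 - x) ^ (M - 1) ∧
      0 ≤ 1 - (1 - x) ^ M - M * (1 - x) ^ (M - 1) * x ∧
      1 - (1 - x) ^ M - M * (1 - x) ^ (M - 1) * x ≤ (M * x) ^ 2 := by
  obtain ⟨k, rfl⟩ : ∃ k, M = k + 1 := ⟨M - 1, by omega⟩
  rw [Nat.add_sub_cancel]
  have h0 : (0 : ℝ) ≤ 1 - x := by linarith
  have h1 : 1 - x ≤ 1 := by linarith
  have b1 : 1 + ((k + 1 : ℕ) : ℝ) * (-x) ≤ (1 + -x) ^ (k + 1) :=
    one_add_mul_le_pow (by linarith) _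
  have b2 : 1 + (k : ℝ) * (-x) ≤ (1 + -x) ^ k := one_add_mul_le_pow (by linarith) _
  have b3 : 1 + (k : ℝ) * x ≤ (1 + x) ^ k := one_add_mul_le_pow (by linarith) _
  have e1 : (1 : ℝ) + -x = 1 - x := by ring
  rw [e1] at b1 b2
  have hk0 : (0 : ℝ) ≤ k := Nat.cast_nonneg k
  have hpk : 0 ≤ (1 - x) ^ k := pow_nonneg h0 k
  have hpk1 : (1 - x) ^ k ≤ 1 := pow_le_one₀ h0 h1
  have hps : (1 - x) ^ (k + 1) = (1 - x) ^ k * (1 - x) := pow_succ _ _
  refine ⟨pow_nonneg h0 _, pow_le_one₀ h0 h1, by linarith, hpk, hpk1, ?_, ?_, ?_⟩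
  · rw [hps]
    exact mul_le_of_le_one_right hpk h1
  · have h2 : (1 - x) ^ k * (1 + k * x) ≤ (1 - x) ^ k * (1 + x) ^ k :=
      mul_le_mul_of_nonneg_left b3 hpk
    have h3 : (1 - x) ^ k * (1 + x) ^ k ≤ 1 := by
      rw [← mul_pow]
      apply pow_le_one₀
      · exact mul_nonneg h0 (by linarith)
      · nlinarith
    rw [hps]
    push_cast
    have h4 : 1 - (1 - x) ^ k * (1 - x) - ((k : ℝ) + 1) * (1 - x) ^ k * x =
        1 - (1 - x) ^ k * (1 + k * x) := by ring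
    rw [h4]
    linarith
  · push_cast at b1 ⊢
    have h2 : (((k : ℝ) + 1) * x) * (1 + (k : ℝ) * (-x)) ≤ (((k : ℝ) + 1) * x) * (1 - x) ^ k :=
      mul_le_mul_of_nonneg_left b2 (by positivity)
    have h3 : 0 ≤ ((k : ℝ) + 1) * x ^ 2 := by positivity
    nlinarith

private theorem EdgesS_card (D₁ W : ℕ) (u : ℤ → Bool) : (win D₁ W u).card = 2 * Bb D₁ W := by
  unfold win
  rw [Int.card_Ico]
  omega

/-- the mean and the second moment of the increment of a potential -/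
private theorem EdgesS_gen (N : Finset ℤ) (D₁ W : ℕ) (σ : ℤ) (φ : (ℤ → Bool) → ℝ)
    (P P' p c J K d₀ d C₀ : ℝ)
    (hJ : ∀ u, IsUp N u → ∀ s c, |φ (F N D₁ W u s c) - φ u| ≤ J)
    (hR : ∀ u, IsUp N u → |φ (H (lo u + σ * (Jj D₁ W : ℤ))) - φ u| ≤ J)
    (hdr : ∀ u, IsUp N u → dr N D₁ W P P' φ u ≤ d₀)
    (hP : 0 ≤ P) (hP' : 0 ≤ P') (hPp : P + P' ≤ 2 * p) (hP1 : P + P' ≤ 1) (hp1 : p ≤ 1)
    (hp0 : 0 < p) (hc : 0 ≤ c) (hJ0 : 0 ≤ J)
    (hK : K = J + c * ((Rr D₁ W : ℝ) + 1))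
    (hsmall : 16 * (Bb D₁ W : ℝ) * ((Rr D₁ W : ℝ) + 1) * p ≤ 1)
    (hcc : 16 * (Bb D₁ W : ℝ) * J + 8 * C₀ ≤ c)
    (hd1 : qq D₁ W P P' * d₀ + (4 * (Bb D₁ W : ℝ) * c * ((Rr D₁ W : ℝ) + 1) +
      16 * (Bb D₁ W : ℝ) ^ 2 * K) * p ^ 2 ≤ d)
    (hd2 : -(2 * C₀ * p) ≤ d)
    (st : St2) (hu : IsUp N st.1) (ha : st.2.1 ≤ Rr D₁ W + 1) :
    mS N D₁ W σ P P'
      (fun st' => (φ st'.1 + c * p * (st'.2.1 : ℝ)) - (φ st.1 + c * p * (st.2.1 : ℝ))) st ≤ d ∧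
    mS N D₁ W σ P P'
      (fun st' => ((φ st'.1 + c * p * (st'.2.1 : ℝ)) - (φ st.1 + c * p * (st.2.1 : ℝ))) ^ 2) st ≤
        p * (c ^ 2 + 4 * (Bb D₁ W : ℝ) * K ^ 2) := by
  obtain ⟨B, hB⟩ : ∃ B : ℝ, B = (Bb D₁ W : ℝ) := ⟨_, rfl⟩
  obtain ⟨R, hRd⟩ : ∃ R : ℝ, R = (Rr D₁ W : ℝ) + 1 := ⟨_, rfl⟩
  have hBb : 1 ≤ Bb D₁ W := by unfold Bb; omega
  have hB1 : 1 ≤ B := by rw [hB]; exact_mod_cast hBb
  have hR1 : 1 ≤ R := by
    rw [hRd]
    have : (0 : ℝ) ≤ (Rr D₁ W : ℝ) := Nat.cast_nonneg _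
    linarith
  obtain ⟨x, hx⟩ : ∃ x : ℝ, x = P + P' := ⟨_, rfl⟩
  have hx0 : 0 ≤ x := by rw [hx]; linarith
  have hx1 : x ≤ 1 := by rw [hx]; exact hP1
  have hxp : x ≤ 2 * p := by rw [hx]; exact hPp
  obtain ⟨a1, a2, a3, a4, a5, a6, a7, a8⟩ := EdgesS_q (2 * Bb D₁ W) (by omega) x hx0 hx1
  have hsub : 1 - P - P' = 1 - x := by rw [hx]; ring
  have hM : ((2 * Bb D₁ W : ℕ) : ℝ) = 2 * B := by rw [hB]; push_cast; ring
  rw [hM] at a3 a7 a8
  obtain ⟨Q0, hQ0⟩ : ∃ Q0 : ℝ, Q0 = q0 D₁ W P P' := ⟨_, rfl⟩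
  obtain ⟨Q1, hQ1⟩ : ∃ Q1 : ℝ, Q1 = qq D₁ W P P' := ⟨_, rfl⟩
  obtain ⟨Q2, hQ2⟩ : ∃ Q2 : ℝ, Q2 = q2 D₁ W P P' := ⟨_, rfl⟩
  have eQ0 : (1 - x) ^ (2 * Bb D₁ W) = Q0 := by rw [hQ0, q0, hsub]
  have eQ1 : (1 - x) ^ (2 * Bb D₁ W - 1) = Q1 := by rw [hQ1, qq, hsub]
  have eQ2 : Q2 = 1 - Q0 - 2 * B * Q1 * x := by rw [hQ2, q2, ← hQ0, ← hQ1, hx, hB]
  rw [eQ0] at a1 a2 a3 a6 a7 a8
  rw [eQ1] at a4 a5 a6 a7 a8
  rw [← eQ2] at a7 a8
  have hq0h : 1 / 2 ≤ Q0 := by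
    have h1 : 2 * B * x ≤ 2 * B * (2 * p) := mul_le_mul_of_nonneg_left hxp (by linarith)
    have h2 : 16 * B * 1 * p ≤ 16 * B * R * p := by
      apply mul_le_mul_of_nonneg_right _ hp0.le
      apply mul_le_mul_of_nonneg_left hR1 (by linarith)
    rw [← hB, ← hRd] at hsmall
    linarith
  have hq0d : 1 - Q0 ≤ 4 * B * p := by
    have h1 : 2 * B * x ≤ 2 * B * (2 * p) := mul_le_mul_of_nonneg_left hxp (by linarith)
    linarith
  rw [← hB, ← hRd] at hsmall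
  rw [← hB] at hcc
  rw [← hB, ← hRd, ← hQ1] at hd1
  rw [← hRd] at hK
  rw [← hB]
  have hcR : 0 ≤ c * R := mul_nonneg hc (by linarith)
  have hK0 : 0 ≤ K := by rw [hK]; linarith
  have hcp : 0 ≤ c * p := mul_nonneg hc hp0.le
  have hcpR : c * p * R ≤ c * R := by
    have : c * p * R = c * R * p := by ring
    rw [this]
    exact mul_le_of_le_one_right hcR hp1
  have hcpR0 : 0 ≤ c * p * R := mul_nonneg hcp (by linarith)
  obtain ⟨u, a, r⟩ := st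
  have hu' : IsUp N u := hu
  have ha' : a ≤ Rr D₁ W + 1 := ha
  have haR : (a : ℝ) ≤ R := by
    rw [hRd]
    exact_mod_cast ha'
  have ha0' : (0 : ℝ) ≤ a := Nat.cast_nonneg a
  -- the increment at a reset
  have hres := abs_le.mp (hR u hu')
  have e1 : (rst D₁ W σ u).1 = H (lo u + σ * (Jj D₁ W : ℤ)) := rfl
  have e2 : (((rst D₁ W σ u).2.1 : ℕ) : ℝ) = R := by
    rw [hRd]
    show (((Rr D₁ W + 1 : ℕ)) : ℝ) = _
    push_cast
    rfl
  have e3 : (((Rr D₁ W + 1 : ℕ)) : ℝ) = R := by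
    rw [hRd]
    push_cast
    rfl
  have hΔ : ∀ y : ℝ, -J ≤ y → y ≤ J → ∀ t : ℝ, -R ≤ t → t ≤ R →
      (y + c * p * t) ^ 2 ≤ K ^ 2 := by
    intro y hy1 hy2 t ht1 ht2
    apply sq_le_sq'
    · have h1 : -(c * p * R) ≤ c * p * t := by
        have := mul_le_mul_of_nonneg_left ht1 hcp
        linarith
      rw [hK]
      linarith
    · have h1 : c * p * t ≤ c * p * R := mul_le_mul_of_nonneg_left ht2 hcp
      rw [hK]
      linarith
  by_cases hz : a = 0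
  · subst hz
    have hm : ∀ G : St2 → ℝ, mS N D₁ W σ P P' G (u, 0, r) = Q0 * G (u, 0, r) +
        ∑ s ∈ win D₁ W u, Q1 * (P * G (F N D₁ W u s true, Rr D₁ W + 1, false) +
          P' * G (F N D₁ W u s false, Rr D₁ W + 1, false)) + Q2 * G (rst D₁ W σ u) := by
      intro G
      rw [hQ0, hQ1, hQ2]
      unfold mS
      rw [if_pos rfl]
    constructor
    · rw [hm]
      have hsum : ∑ s ∈ win D₁ W u, Q1 * (P * ((φ (F N D₁ W u s true) +
          c * p * ((Rr D₁ W + 1 : ℕ) : ℝ)) - (φ u + c * p * ((0 : ℕ) : ℝ))) +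
          P' * ((φ (F N D₁ W u s false) + c * p * ((Rr D₁ W + 1 : ℕ) : ℝ)) -
            (φ u + c * p * ((0 : ℕ) : ℝ)))) =
          Q1 * dr N D₁ W P P' φ u + 2 * B * (Q1 * x * (c * p * R)) := by
        have h1 : ∀ s ∈ win D₁ W u, Q1 * (P * ((φ (F N D₁ W u s true) +
            c * p * ((Rr D₁ W + 1 : ℕ) : ℝ)) - (φ u + c * p * ((0 : ℕ) : ℝ))) +
            P' * ((φ (F N D₁ W u s false) + c * p * ((Rr D₁ W + 1 : ℕ) : ℝ)) -
              (φ u + c * p * ((0 : ℕ) : ℝ)))) =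
            Q1 * (P * (φ (F N D₁ W u s true) - φ u) + P' * (φ (F N D₁ W u s false) - φ u)) +
              Q1 * x * (c * p * R) := by
          intro s _
          rw [e3, hx]
          push_cast
          ring
        rw [Finset.sum_congr rfl h1, Finset.sum_add_distrib, ← Finset.mul_sum, Finset.sum_const,
          EdgesS_card, nsmul_eq_mul, hM]
        rfl
      show Q0 * ((φ u + c * p * ((0 : ℕ) : ℝ)) - (φ u + c * p * ((0 : ℕ) : ℝ))) +
        ∑ s ∈ win D₁ W u, Q1 * (P * ((φ (F N D₁ W u s true) +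
          c * p * ((Rr D₁ W + 1 : ℕ) : ℝ)) - (φ u + c * p * ((0 : ℕ) : ℝ))) +
          P' * ((φ (F N D₁ W u s false) + c * p * ((Rr D₁ W + 1 : ℕ) : ℝ)) -
            (φ u + c * p * ((0 : ℕ) : ℝ)))) +
        Q2 * ((φ (rst D₁ W σ u).1 + c * p * (((rst D₁ W σ u).2.1 : ℕ) : ℝ)) -
          (φ u + c * p * ((0 : ℕ) : ℝ))) ≤ d
      rw [hsum, e1, e2, sub_self, mul_zero, zero_add]
      have h1 : Q1 * dr N D₁ W P P' φ u ≤ Q1 * d₀ := mul_le_mul_of_nonneg_left (hdr u hu') a4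
      have h2 : 2 * B * (Q1 * x * (c * p * R)) ≤ 4 * B * c * R * p ^ 2 := by
        have h3 : Q1 * x ≤ 2 * p := by
          have : Q1 * x ≤ 1 * x := mul_le_mul_of_nonneg_right a5 hx0
          linarith
        have h4 : Q1 * x * (c * p * R) ≤ 2 * p * (c * p * R) :=
          mul_le_mul_of_nonneg_right h3 hcpR0
        have h5 : 2 * B * (Q1 * x * (c * p * R)) ≤ 2 * B * (2 * p * (c * p * R)) :=
          mul_le_mul_of_nonneg_left h4 (by linarith)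
        calc 2 * B * (Q1 * x * (c * p * R)) ≤ 2 * B * (2 * p * (c * p * R)) := h5
          _ = 4 * B * c * R * p ^ 2 := by ring
      have h6 : Q2 * ((φ (H (lo u + σ * (Jj D₁ W : ℤ))) + c * p * R) -
          (φ u + c * p * ((0 : ℕ) : ℝ))) ≤ 16 * B ^ 2 * K * p ^ 2 := by
        have h7 : (φ (H (lo u + σ * (Jj D₁ W : ℤ))) + c * p * R) -
            (φ u + c * p * ((0 : ℕ) : ℝ)) ≤ K := by
          rw [hK, Nat.cast_zero]
          linarith [hres.2]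
        have h8 : Q2 ≤ (4 * B * p) ^ 2 := by
          refine a8.trans ?_
          apply pow_le_pow_left₀ (by positivity)
          have : 2 * B * x ≤ 2 * B * (2 * p) := mul_le_mul_of_nonneg_left hxp (by linarith)
          linarith
        calc Q2 * ((φ (H (lo u + σ * (Jj D₁ W : ℤ))) + c * p * R) -
              (φ u + c * p * ((0 : ℕ) : ℝ))) ≤ Q2 * K := mul_le_mul_of_nonneg_left h7 a7
          _ ≤ (4 * B * p) ^ 2 * K := mul_le_mul_of_nonneg_right h8 hK0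
          _ = 16 * B ^ 2 * K * p ^ 2 := by ring
      have h9 : (4 * B * c * R + 16 * B ^ 2 * K) * p ^ 2 =
          4 * B * c * R * p ^ 2 + 16 * B ^ 2 * K * p ^ 2 := by ring
      rw [h9] at hd1
      linarith
    · rw [hm]
      show Q0 * ((φ u + c * p * ((0 : ℕ) : ℝ)) - (φ u + c * p * ((0 : ℕ) : ℝ))) ^ 2 +
        ∑ s ∈ win D₁ W u, Q1 * (P * ((φ (F N D₁ W u s true) +
          c * p * ((Rr D₁ W + 1 : ℕ) : ℝ)) - (φ u + c * p * ((0 : ℕ) : ℝ))) ^ 2 +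
          P' * ((φ (F N D₁ W u s false) + c * p * ((Rr D₁ W + 1 : ℕ) : ℝ)) -
            (φ u + c * p * ((0 : ℕ) : ℝ))) ^ 2) +
        Q2 * ((φ (rst D₁ W σ u).1 + c * p * (((rst D₁ W σ u).2.1 : ℕ) : ℝ)) -
          (φ u + c * p * ((0 : ℕ) : ℝ))) ^ 2 ≤ _
      rw [e1, e2, e3, sub_self]
      have hRR : -R ≤ R := by linarith
      have h1 : ∀ s b, ((φ (F N D₁ W u s b) + c * p * R) - (φ u + c * p * ((0 : ℕ) : ℝ))) ^ 2 ≤
          K ^ 2 := by
        intro s b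
        have h2 := abs_le.mp (hJ u hu' s b)
        have h3 := hΔ _ h2.1 h2.2 R hRR le_rfl
        have h4 : (φ (F N D₁ W u s b) + c * p * R) - (φ u + c * p * ((0 : ℕ) : ℝ)) =
            φ (F N D₁ W u s b) - φ u + c * p * R := by push_cast; ring
        rw [h4]
        exact h3
      have h2 : ((φ (H (lo u + σ * (Jj D₁ W : ℤ))) + c * p * R) -
          (φ u + c * p * ((0 : ℕ) : ℝ))) ^ 2 ≤ K ^ 2 := by
        have h3 := hΔ _ hres.1 hres.2 R hRR le_rfl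
        have h4 : (φ (H (lo u + σ * (Jj D₁ W : ℤ))) + c * p * R) - (φ u + c * p * ((0 : ℕ) : ℝ)) =
            φ (H (lo u + σ * (Jj D₁ W : ℤ))) - φ u + c * p * R := by push_cast; ring
        rw [h4]
        exact h3
      have h3 : ∑ s ∈ win D₁ W u, Q1 * (P * ((φ (F N D₁ W u s true) + c * p * R) -
          (φ u + c * p * ((0 : ℕ) : ℝ))) ^ 2 + P' * ((φ (F N D₁ W u s false) + c * p * R) -
            (φ u + c * p * ((0 : ℕ) : ℝ))) ^ 2) ≤ 2 * B * (Q1 * x * K ^ 2) := by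
        have h4 : ∀ s ∈ win D₁ W u, Q1 * (P * ((φ (F N D₁ W u s true) + c * p * R) -
            (φ u + c * p * ((0 : ℕ) : ℝ))) ^ 2 + P' * ((φ (F N D₁ W u s false) + c * p * R) -
              (φ u + c * p * ((0 : ℕ) : ℝ))) ^ 2) ≤ Q1 * x * K ^ 2 := by
          intro s _
          have h5 := mul_le_mul_of_nonneg_left (h1 s true) hP
          have h6 := mul_le_mul_of_nonneg_left (h1 s false) hP'
          have h7 := mul_le_mul_of_nonneg_left (add_le_add h5 h6) a4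
          refine h7.trans (le_of_eq ?_)
          rw [hx]
          ring
        have h5 := Finset.sum_le_card_nsmul _ _ _ h4
        rw [EdgesS_card, nsmul_eq_mul, hM] at h5
        exact h5
      have h4 : Q2 * ((φ (H (lo u + σ * (Jj D₁ W : ℤ))) + c * p * R) -
          (φ u + c * p * ((0 : ℕ) : ℝ))) ^ 2 ≤ Q2 * K ^ 2 := mul_le_mul_of_nonneg_left h2 a7
      have h5 : 2 * B * (Q1 * x * K ^ 2) + Q2 * K ^ 2 = (1 - Q0) * K ^ 2 := by
        rw [eQ2]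
        ring
      have h6 : (1 - Q0) * K ^ 2 ≤ 4 * B * p * K ^ 2 :=
        mul_le_mul_of_nonneg_right hq0d (sq_nonneg K)
      have h7 : 0 ≤ p * c ^ 2 := by positivity
      have h8 : p * (c ^ 2 + 4 * B * K ^ 2) = p * c ^ 2 + 4 * B * p * K ^ 2 := by ring
      rw [h8]
      have h9 : Q0 * (0 : ℝ) ^ 2 = 0 := by ring
      rw [h9]
      linarith
  · obtain ⟨k, rfl⟩ : ∃ k, a = k + 1 := ⟨a - 1, by omega⟩
    have hm : ∀ G : St2 → ℝ, mS N D₁ W σ P P' G (u, k + 1, r) = Q0 * G (u, k, r) +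
        (1 - Q0) * G (rst D₁ W σ u) := by
      intro G
      rw [hQ0]
      unfold mS
      rw [if_neg (by simp)]
      rfl
    have hk1 : ((k + 1 : ℕ) : ℝ) = (k : ℝ) + 1 := by push_cast; rfl
    have h1q : 0 ≤ 1 - Q0 := by linarith
    rw [hk1] at haR ha0'
    constructor
    · rw [hm]
      show Q0 * ((φ u + c * p * (k : ℝ)) - (φ u + c * p * ((k + 1 : ℕ) : ℝ))) +
        (1 - Q0) * ((φ (rst D₁ W σ u).1 + c * p * (((rst D₁ W σ u).2.1 : ℕ) : ℝ)) -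
          (φ u + c * p * ((k + 1 : ℕ) : ℝ))) ≤ d
      rw [e1, e2, hk1]
      have h1 : (φ (H (lo u + σ * (Jj D₁ W : ℤ))) + c * p * R) - (φ u + c * p * ((k : ℝ) + 1)) ≤
          J + c * p * R := by
        have : 0 ≤ c * p * ((k : ℝ) + 1) := by positivity
        linarith [hres.2]
      have h2 : (1 - Q0) * ((φ (H (lo u + σ * (Jj D₁ W : ℤ))) + c * p * R) -
          (φ u + c * p * ((k : ℝ) + 1))) ≤ 4 * B * p * (J + c * p * R) := by
        refine (mul_le_mul_of_nonneg_left h1 h1q).trans ?_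
        exact mul_le_mul_of_nonneg_right hq0d (by linarith)
      have h3 : Q0 * ((φ u + c * p * (k : ℝ)) - (φ u + c * p * ((k : ℝ) + 1))) =
          -(Q0 * (c * p)) := by ring
      have h4 : 1 / 2 * (c * p) ≤ Q0 * (c * p) := mul_le_mul_of_nonneg_right hq0h hcp
      have h5 : 16 * B * R * p * (c * p) ≤ 1 * (c * p) := mul_le_mul_of_nonneg_right hsmall hcp
      have h6 : 4 * B * p * (J + c * p * R) = 4 * B * J * p + 4 * B * R * p * (c * p) := by ring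
      have h7 : (16 * B * J + 8 * C₀) * p ≤ c * p := mul_le_mul_of_nonneg_right hcc hp0.le
      have h8 : (16 * B * J + 8 * C₀) * p = 16 * B * J * p + 8 * C₀ * p := by ring
      rw [h3]
      rw [h6] at h2
      rw [h8] at h7
      linarith
    · rw [hm]
      show Q0 * ((φ u + c * p * (k : ℝ)) - (φ u + c * p * ((k + 1 : ℕ) : ℝ))) ^ 2 +
        (1 - Q0) * ((φ (rst D₁ W σ u).1 + c * p * (((rst D₁ W σ u).2.1 : ℕ) : ℝ)) -
          (φ u + c * p * ((k + 1 : ℕ) : ℝ))) ^ 2 ≤ _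
      rw [e1, e2, hk1]
      have h1 : ((φ u + c * p * (k : ℝ)) - (φ u + c * p * ((k : ℝ) + 1))) ^ 2 = (c * p) ^ 2 := by
        ring
      have h2 : ((φ (H (lo u + σ * (Jj D₁ W : ℤ))) + c * p * R) -
          (φ u + c * p * ((k : ℝ) + 1))) ^ 2 ≤ K ^ 2 := by
        have h3 := hΔ _ hres.1 hres.2 (R - ((k : ℝ) + 1)) (by linarith) (by linarith)
        have h4 : (φ (H (lo u + σ * (Jj D₁ W : ℤ))) + c * p * R) -
            (φ u + c * p * ((k : ℝ) + 1)) =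
            φ (H (lo u + σ * (Jj D₁ W : ℤ))) - φ u + c * p * (R - ((k : ℝ) + 1)) := by ring
        rw [h4]
        exact h3
      have h3 : Q0 * (c * p) ^ 2 ≤ p * c ^ 2 := by
        have h4 : Q0 * (c * p) ^ 2 ≤ 1 * (c * p) ^ 2 :=
          mul_le_mul_of_nonneg_right a2 (sq_nonneg _)
        have h5 : p * (p * c ^ 2) ≤ 1 * (p * c ^ 2) :=
          mul_le_mul_of_nonneg_right hp1 (by positivity)
        have h6 : (c * p) ^ 2 = p * (p * c ^ 2) := by ring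
        rw [h6] at h4 ⊢
        linarith
      have h4 : (1 - Q0) * ((φ (H (lo u + σ * (Jj D₁ W : ℤ))) + c * p * R) -
          (φ u + c * p * ((k : ℝ) + 1))) ^ 2 ≤ 4 * B * p * K ^ 2 :=
        (mul_le_mul_of_nonneg_left h2 h1q).trans
          (mul_le_mul_of_nonneg_right hq0d (sq_nonneg K))
      have h8 : p * (c ^ 2 + 4 * B * K ^ 2) = p * c ^ 2 + 4 * B * p * K ^ 2 := by ring
      rw [h1, h8]
      linarith

/-- the constants -/
private theorem EdgesS_const (κ₀ C₀ E m Z C p h q : ℝ) (hκ0 : 0 < κ₀)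
    (hC₀ : 1 ≤ C₀) (hE : 0 ≤ E) (hm : 0 ≤ m) (hZ : 0 ≤ Z)
    (hC : C = 2 * C₀ + Z + 8 * E / κ₀ + (2 * m + 8 * C₀ ^ 2)) (hq : 1 / 2 ≤ q)
    (hh : C * p ^ 2 ≤ h) :
    E * p ^ 2 ≤ q * (κ₀ / 4 * h) := by
  have h1 : 8 * E / κ₀ ≤ C := by
    rw [hC]
    have : 0 ≤ C₀ ^ 2 := sq_nonneg _
    linarith
  have h2 : 8 * E / κ₀ * p ^ 2 ≤ h :=
    (mul_le_mul_of_nonneg_right h1 (sq_nonneg p)).trans hh
  have h3 : κ₀ / 4 * (8 * E / κ₀ * p ^ 2) ≤ κ₀ / 4 * h :=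
    mul_le_mul_of_nonneg_left h2 (by linarith)
  have h4 : κ₀ / 4 * (8 * E / κ₀ * p ^ 2) = 2 * (E * p ^ 2) := by
    field_simp
    ring
  have h5 : 0 ≤ E * p ^ 2 := by positivity
  rw [h4] at h3
  have h6 : 1 / 2 * (κ₀ / 4 * h) ≤ q * (κ₀ / 4 * h) :=
    mul_le_mul_of_nonneg_right hq (by linarith)
  linarith

private theorem EdgesS_dr_neg (N : Finset ℤ) (D₁ W : ℕ) (p p' : ℝ) (g : (ℤ → Bool) → ℝ)
    (u : ℤ → Bool) : dr N D₁ W p p' (fun u => -g u) u = -dr N D₁ W p p' g u := by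
  unfold dr
  rw [← Finset.sum_neg_distrib]
  apply Finset.sum_congr rfl
  intro s _
  ring

private theorem EdgesS_qq_comm (D₁ W : ℕ) (p p' : ℝ) : qq D₁ W p p' = qq D₁ W p' p := by
  unfold qq
  congr 1
  ring

/-- all states of the chain are up-sets -/
private theorem EdgesS_up (N : Finset ℤ) (D₁ W : ℕ)
    (hF1 : ∀ u, IsUp N u → ∀ s c, IsUp N (F N D₁ W u s c)) (hU2 : ∀ x : ℤ, Up N x (H x))
    (b : Bool) (σ : ℤ) (ω : Om) (x : ℤ) (j : ℕ) : IsUp N (chS N D₁ W b σ ω 0 (ini x) j).1 := by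
  induction j with
  | zero => exact ⟨x, hU2 x⟩
  | succ j ih =>
    show IsUp N (stepS N D₁ W b σ (chS N D₁ W b σ ω 0 (ini x) j) _).1
    unfold stepS
    split_ifs
    · exact ih
    · exact hF1 _ ih _ _
    · exact ⟨_, hU2 _⟩

theorem thm_EdgesS (hUp : St_Up) (hF : St_F) (hDrift : St_Drift) (hMaxS : St_MaxS) :
    St_EdgesS := by
  intro N n D₁ W hN
  obtain ⟨v, κ₀, C₀, hκ0, hκ1, hC₀, hv, hfg⟩ := hDrift N n D₁ W hN
  obtain ⟨hU1, hU2, -, -⟩ := hUp N n D₁ W hN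
  obtain ⟨hF1, hF2, -, -, -, -, -⟩ := hF N n D₁ W hN
  obtain ⟨B, hB⟩ : ∃ B : ℝ, B = (Bb D₁ W : ℝ) := ⟨_, rfl⟩
  obtain ⟨R, hRd⟩ : ∃ R : ℝ, R = (Rr D₁ W : ℝ) + 1 := ⟨_, rfl⟩
  have hBb : 1 ≤ Bb D₁ W := by unfold Bb; omega
  have hB1 : 1 ≤ B := by rw [hB]; exact_mod_cast hBb
  have hR1 : 1 ≤ R := by
    rw [hRd]
    have : (0 : ℝ) ≤ (Rr D₁ W : ℝ) := Nat.cast_nonneg _
    linarith
  obtain ⟨J, hJd⟩ : ∃ J : ℝ, J = 2 * C₀ + (Jj D₁ W : ℝ) := ⟨_, rfl⟩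
  obtain ⟨c, hcd⟩ : ∃ c : ℝ, c = 16 * B * J + 8 * C₀ := ⟨_, rfl⟩
  obtain ⟨K, hKd⟩ : ∃ K : ℝ, K = J + c * R := ⟨_, rfl⟩
  obtain ⟨E, hEd⟩ : ∃ E : ℝ, E = 4 * B * c * R + 16 * B ^ 2 * K := ⟨_, rfl⟩
  obtain ⟨m, hmd⟩ : ∃ m : ℝ, m = c ^ 2 + 4 * B * K ^ 2 := ⟨_, rfl⟩
  obtain ⟨C, hCd⟩ : ∃ C : ℝ, C = 2 * C₀ + 16 * B * R + 8 * E / κ₀ + (2 * m + 8 * C₀ ^ 2) :=
    ⟨_, rfl⟩
  have hJj0 : (0 : ℝ) ≤ (Jj D₁ W : ℝ) := Nat.cast_nonneg _
  have hJ0 : 0 ≤ J := by rw [hJd]; linarith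
  have hc0 : 0 ≤ c := by rw [hcd]; positivity
  have hK0 : 0 ≤ K := by rw [hKd]; positivity
  have hE0 : 0 ≤ E := by rw [hEd]; positivity
  have hm0 : 0 ≤ m := by rw [hmd]; positivity
  have hBR0 : 0 ≤ 16 * B * R := by positivity
  have hEκ : 0 ≤ 8 * E / κ₀ := by positivity
  have hC1 : 2 * C₀ ≤ C := by
    rw [hCd]
    have : 0 ≤ C₀ ^ 2 := sq_nonneg _
    linarith
  refine ⟨v, κ₀ / 2, C, by linarith, by linarith, by linarith, by linarith, ?_⟩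
  intro μ₀ hμ₀ b p p' q hp hp' hq hlt hCp T Λ x hΛ
  have hp'0 : 0 ≤ p' := by
    rw [hp']
    exact measureReal_nonneg
  obtain ⟨f, g, hd⟩ := hfg p p' hp'0 hlt
  have hh0 : 0 < p - p' := by linarith
  have hp0 : 0 < p := by linarith
  have hpp1 : p + p' ≤ 1 := by
    have h1 : μ₀.real {some b} + μ₀.real {some (!b)} ≤ 1 := by
      rw [← measureReal_union (by
        rw [Set.disjoint_singleton]
        intro h
        have := Option.some.inj h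
        cases b <;> simp at this) (measurableSet_singleton _)]
      exact measureReal_le_one
    rwa [← hp, ← hp'] at h1
  have hp1 : p ≤ 1 := by linarith
  have hCp1 : C * p ≤ 1 := by
    have h1 : C * p * p ≤ 1 * p := by
      have : C * p * p = C * p ^ 2 := by ring
      rw [this]
      linarith
    exact le_of_mul_le_mul_right h1 hp0
  have hsmall : 16 * B * R * p ≤ 1 := by
    refine le_trans (mul_le_mul_of_nonneg_right ?_ hp0.le) hCp1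
    rw [hCd]
    have : 0 ≤ C₀ ^ 2 := sq_nonneg _
    linarith
  -- bounds for `q`
  have hqb : 1 / 2 ≤ q ∧ q ≤ 1 := by
    obtain ⟨-, -, a3, -, a5, a6, -, -⟩ := EdgesS_q (2 * Bb D₁ W) (by omega) (p + p')
      (by linarith) hpp1
    have hM : ((2 * Bb D₁ W : ℕ) : ℝ) = 2 * B := by rw [hB]; push_cast; ring
    have hqe : q = (1 - (p + p')) ^ (2 * Bb D₁ W - 1) := by
      rw [hq, qq, sub_sub]
    rw [hM] at a3
    rw [← hqe] at a5 a6
    refine ⟨?_, a5⟩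
    have h1 : 2 * B * (p + p') ≤ 2 * B * (2 * p) :=
      mul_le_mul_of_nonneg_left (by linarith) (by linarith)
    have h2 : 16 * B * 1 * p ≤ 16 * B * R * p := by
      apply mul_le_mul_of_nonneg_right _ hp0.le
      apply mul_le_mul_of_nonneg_left hR1 (by linarith)
    linarith
  obtain ⟨hq2, hq1⟩ := hqb
  have hq0 : 0 ≤ q := by linarith
  have hEκ' := EdgesS_const κ₀ C₀ E m (16 * B * R) C p (p - p') q hκ0 hC₀ hE0 hm0 hBR0 hCd hq2
    hCp
  have hEκ'' : E * p ^ 2 ≤ q * (C₀ * (p - p')) := by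
    refine hEκ'.trans (mul_le_mul_of_nonneg_left ?_ hq0)
    exact mul_le_mul_of_nonneg_right (by linarith) hh0.le
  have hEκ3 : E * p ^ 2 ≤ q * (κ₀ / 2 * (p - p')) := by
    refine hEκ'.trans (mul_le_mul_of_nonneg_left ?_ hq0)
    exact mul_le_mul_of_nonneg_right (by linarith) hh0.le
  -- jumps
  have hWJ : (W : ℝ) + D₁ ≤ (Jj D₁ W : ℝ) := by
    have : W + D₁ ≤ Jj D₁ W := by
      unfold Jj
      have : 0 ≤ (Rr D₁ W + 2) * D₁ := Nat.zero_le _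
      omega
    exact_mod_cast this
  have hjF : ∀ φ : (ℤ → Bool) → ℝ, (∀ u, IsUp N u → |φ u - lo u| ≤ C₀) →
      ∀ u, IsUp N u → ∀ s c, |φ (F N D₁ W u s c) - φ u| ≤ J := by
    intro φ hφ u hu s c
    have h1 := abs_le.mp (hφ u hu)
    have h2 := abs_le.mp (hφ _ (hF1 u hu s c))
    have h3 : |((lo (F N D₁ W u s c) : ℝ) - lo u)| ≤ (W : ℝ) + D₁ := by
      exact_mod_cast hF2 u hu s c
    have h4 := abs_le.mp h3
    rw [abs_le, hJd]
    constructor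
    · linarith [h1.1, h1.2, h2.1, h2.2, h4.1, h4.2]
    · linarith [h1.1, h1.2, h2.1, h2.2, h4.1, h4.2]
  have hjR : ∀ σ' : ℤ, (σ' = 1 ∨ σ' = -1) → ∀ φ : (ℤ → Bool) → ℝ,
      (∀ u, IsUp N u → |φ u - lo u| ≤ C₀) →
      ∀ u, IsUp N u → |φ (H (lo u + σ' * (Jj D₁ W : ℤ))) - φ u| ≤ J := by
    intro σ' hσ' φ hφ u hu
    have h1 := abs_le.mp (hφ u hu)
    have h2 := abs_le.mp (hφ _ ⟨_, hU2 (lo u + σ' * (Jj D₁ W : ℤ))⟩)
    rw [hU1 _ _ (hU2 (lo u + σ' * (Jj D₁ W : ℤ)))] at h2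
    rw [abs_le, hJd]
    rcases hσ' with h | h
    · rw [h] at h2 ⊢
      push_cast at h2
      constructor
      · linarith [h1.1, h1.2, h2.1, h2.2]
      · linarith [h1.1, h1.2, h2.1, h2.2]
    · rw [h] at h2 ⊢
      push_cast at h2
      constructor
      · linarith [h1.1, h1.2, h2.1, h2.2]
      · linarith [h1.1, h1.2, h2.1, h2.2]
  have hneg : ∀ y z : ℝ, |(-y) - (-z)| = |y - z| := by
    intro y z
    rw [neg_sub_neg, abs_sub_comm]
  -- the maximal inequality for a potential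
  have key : ∀ (b' : Bool) (σ' : ℤ) (φ : (ℤ → Bool) → ℝ) (d₀ d : ℝ),
      μ₀.real {some b'} + μ₀.real {some (!b')} = p + p' →
      qq D₁ W (μ₀.real {some b'}) (μ₀.real {some (!b')}) = q →
      (∀ u, IsUp N u → ∀ s c, |φ (F N D₁ W u s c) - φ u| ≤ J) →
      (∀ u, IsUp N u → |φ (H (lo u + σ' * (Jj D₁ W : ℤ))) - φ u| ≤ J) →
      (∀ u, IsUp N u → dr N D₁ W (μ₀.real {some b'}) (μ₀.real {some (!b')}) φ u ≤ d₀) →
      q * d₀ + E * p ^ 2 ≤ d → |d| ≤ 2 * C₀ * p →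
      (Pm μ₀).real {ω | ∃ j ≤ T, φ (H x) + d * j + Λ ≤
        φ (chS N D₁ W b' σ' ω 0 (ini x) j).1 +
          c * p * ((chS N D₁ W b' σ' ω 0 (ini x) j).2.1 : ℝ)} ≤ C * p * T / Λ ^ 2 := by
    intro b' σ' φ d₀ d hsum hqq hJF hJR hdr hd1 hd2
    have hd2' := abs_le.mp hd2
    have hgen := fun (st : St2) (hu : IsUp N st.1) (ha : st.2.1 ≤ Rr D₁ W + 1) =>
      EdgesS_gen N D₁ W σ' φ (μ₀.real {some b'}) (μ₀.real {some (!b')}) p c J K d₀ d C₀ hJF hJR hdr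
        measureReal_nonneg measureReal_nonneg (by rw [hsum]; linarith) (by rw [hsum]; exact hpp1)
        hp1 hp0 hc0 hJ0 (by rw [hKd, hRd]) (by rw [← hB, ← hRd]; exact hsmall)
        (by rw [← hB, hcd]) (by rw [← hB, ← hRd, hqq, ← hEd]; exact hd1) hd2'.1 st hu ha
    have h1 := hMaxS N D₁ W μ₀ b' σ' {st | IsUp N st.1 ∧ st.2.1 ≤ Rr D₁ W + 1}
      (fun st => φ st.1 + c * p * (st.2.1 : ℝ)) d (p * m) Λ
      (by
        rintro st ⟨hu, ha⟩
        refine ⟨⟨hu, ?_⟩, ⟨⟨_, hU2 _⟩, le_rfl⟩, fun s c => ⟨hF1 _ hu _ _, le_rfl⟩⟩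
        show st.2.1 - 1 ≤ Rr D₁ W + 1
        omega)
      (fun st hst => (hgen st hst.1 hst.2).1)
      (fun st hst => by
        rw [hmd, hB]
        exact (hgen st hst.1 hst.2).2)
      hΛ T 0 (ini x) ⟨⟨x, hU2 x⟩, Nat.zero_le _⟩
    have h2 : φ (ini x).1 + c * p * ((ini x).2.1 : ℝ) = φ (H x) := by
      show φ (H x) + c * p * ((0 : ℕ) : ℝ) = φ (H x)
      rw [Nat.cast_zero, mul_zero, add_zero]
    rw [h2] at h1
    refine h1.trans ?_
    apply div_le_div_of_nonneg_right _ (by positivity)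
    have h3 : d ^ 2 ≤ (2 * C₀ * p) ^ 2 := sq_le_sq' hd2'.1 hd2'.2
    have h4 : (2 * C₀ * p) ^ 2 ≤ 4 * C₀ ^ 2 * p := by
      have h5 : p * (4 * C₀ ^ 2 * p) ≤ 1 * (4 * C₀ ^ 2 * p) :=
        mul_le_mul_of_nonneg_right hp1 (by positivity)
      have h6 : (2 * C₀ * p) ^ 2 = p * (4 * C₀ ^ 2 * p) := by ring
      rw [h6]
      linarith
    have h5 : 2 * (p * m) + 2 * d ^ 2 ≤ C * p := by
      have h6 : (2 * m + 8 * C₀ ^ 2) * p ≤ C * p := by
        apply mul_le_mul_of_nonneg_right _ hp0.le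
        rw [hCd]
        linarith
      have h7 : (2 * m + 8 * C₀ ^ 2) * p = 2 * (p * m) + 2 * (4 * C₀ ^ 2 * p) := by ring
      rw [h7] at h6
      linarith
    have h6 := mul_le_mul_of_nonneg_left h5 (Nat.cast_nonneg T : (0 : ℝ) ≤ T)
    linarith
  -- the four potentials
  have hpv : |p' * v| ≤ C₀ * p' := by
    rw [abs_mul, abs_of_nonneg hp'0, mul_comm]
    exact mul_le_mul_of_nonneg_right hv hp'0
  have hpv' := abs_le.mp hpv
  have hCp' : 0 ≤ C₀ * p' := by positivity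
  have hCh : 0 ≤ C₀ * (p - p') := by positivity
  have hκh : 0 ≤ κ₀ * (p - p') := by positivity
  have hκh' : κ₀ * (p - p') ≤ C₀ * (p - p') := mul_le_mul_of_nonneg_right (by linarith) hh0.le
  have hCC : C₀ * p' + C₀ * (p - p') = C₀ * p := by ring
  have hqabs : ∀ y : ℝ, |y| ≤ 2 * C₀ * p → |q * y| ≤ 2 * C₀ * p := by
    intro y hy
    rw [abs_mul, abs_of_nonneg hq0]
    exact (mul_le_of_le_one_left (abs_nonneg y) hq1).trans hy
  have hsum1 : μ₀.real {some b} + μ₀.real {some (!b)} = p + p' := by rw [hp, hp']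
  have hsum2 : μ₀.real {some (!b)} + μ₀.real {some (!(!b))} = p + p' := by
    rw [Bool.not_not, hp, hp', add_comm]
  have hqq1 : qq D₁ W (μ₀.real {some b}) (μ₀.real {some (!b)}) = q := by rw [hq, hp, hp']
  have hqq2 : qq D₁ W (μ₀.real {some (!b)}) (μ₀.real {some (!(!b))}) = q := by
    rw [Bool.not_not, EdgesS_qq_comm, hq, hp, hp']
  have hnotb : μ₀.real {some (!(!b))} = p := by rw [Bool.not_not, hp]
  have hHx : IsUp N (H x) := ⟨x, hU2 x⟩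
  have hlox : lo (H x) = x := hU1 x (H x) (hU2 x)
  have hlohx : (lo (H x) : ℝ) = x := by exact_mod_cast hlox
  have hfx := abs_le.mp (hd _ hHx).1
  have hgx := abs_le.mp (hd _ hHx).2.1
  rw [hlohx] at hfx hgx
  have hcp0 : 0 ≤ c * p := mul_nonneg hc0 hp0.le
  have hfin : ∀ s : Set Om, (Pm μ₀) s ≠ ⊤ := fun s => measure_ne_top _ _
  have hcmp : ∀ j : ℕ, q * (2 * C₀ * (p - p')) * j ≤ q * (C * (p - p')) * j := by
    intro j
    apply mul_le_mul_of_nonneg_right _ (Nat.cast_nonneg _)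
    apply mul_le_mul_of_nonneg_left _ hq0
    exact mul_le_mul_of_nonneg_right hC1 hh0.le
  have e1 := key b 1 f (p' * v - κ₀ * (p - p')) (q * (p' * v - κ₀ / 2 * (p - p'))) hsum1 hqq1
    (hjF f fun u hu => (hd u hu).1) (hjR 1 (Or.inl rfl) f fun u hu => (hd u hu).1)
    (fun u hu => by rw [← hp, ← hp']; exact (hd u hu).2.2.1)
    (by
      have h1 : q * (p' * v - κ₀ / 2 * (p - p')) = q * (p' * v - κ₀ * (p - p')) +
          q * (κ₀ / 2 * (p - p')) := by ring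
      rw [h1]
      linarith)
    (hqabs _ (by rw [abs_le]; constructor <;> linarith [hpv'.1, hpv'.2]))
  have e2 := key b 1 (fun u => -g u) (-(p' * v - C₀ * (p - p')))
    (q * -(p' * v - 2 * C₀ * (p - p'))) hsum1 hqq1
    (fun u hu s c => by rw [hneg]; exact hjF g (fun u hu => (hd u hu).2.1) u hu s c)
    (fun u hu => by rw [hneg]; exact hjR 1 (Or.inl rfl) g (fun u hu => (hd u hu).2.1) u hu)
    (fun u hu => by
      rw [← hp, ← hp', EdgesS_dr_neg]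
      exact neg_le_neg (hd u hu).2.2.2.1)
    (by
      have h1 : q * -(p' * v - 2 * C₀ * (p - p')) = q * -(p' * v - C₀ * (p - p')) +
          q * (C₀ * (p - p')) := by ring
      rw [h1]
      linarith)
    (hqabs _ (by rw [abs_le]; constructor <;> linarith [hpv'.1, hpv'.2]))
  have e3 := key (!b) (-1) (fun u => -g u) (-(p' * v))
    (q * -(p' * v - κ₀ / 4 * (p - p'))) hsum2 hqq2
    (fun u hu s c => by rw [hneg]; exact hjF g (fun u hu => (hd u hu).2.1) u hu s c)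
    (fun u hu => by rw [hneg]; exact hjR (-1) (Or.inr rfl) g (fun u hu => (hd u hu).2.1) u hu)
    (fun u hu => by
      rw [hnotb, ← hp', EdgesS_dr_neg]
      exact neg_le_neg (hd u hu).2.2.2.2.1)
    (by
      have h1 : q * -(p' * v - κ₀ / 4 * (p - p')) = q * -(p' * v) +
          q * (κ₀ / 4 * (p - p')) := by ring
      rw [h1]
      linarith)
    (hqabs _ (by rw [abs_le]; constructor <;> linarith [hpv'.1, hpv'.2]))
  have e4 := key (!b) (-1) g (p' * v + C₀ * (p - p'))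
    (q * (p' * v + 2 * C₀ * (p - p'))) hsum2 hqq2
    (hjF g fun u hu => (hd u hu).2.1) (hjR (-1) (Or.inr rfl) g fun u hu => (hd u hu).2.1)
    (fun u hu => by
      rw [hnotb, ← hp']
      exact (hd u hu).2.2.2.2.2)
    (by
      have h1 : q * (p' * v + 2 * C₀ * (p - p')) = q * (p' * v + C₀ * (p - p')) +
          q * (C₀ * (p - p')) := by ring
      rw [h1]
      linarith)
    (hqabs _ (by rw [abs_le]; constructor <;> linarith [hpv'.1, hpv'.2]))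
  have hchain := fun (b' : Bool) (σ' : ℤ) (ω : Om) (j : ℕ) =>
    EdgesS_up N D₁ W hF1 hU2 b' σ' ω x j
  have hcpa : ∀ a : ℕ, 0 ≤ c * p * (a : ℝ) := fun a => mul_nonneg hcp0 (Nat.cast_nonneg a)
  refine ⟨?_, ?_, ?_, ?_⟩
  · refine le_trans (measureReal_mono ?_ (hfin _)) e1
    rintro ω ⟨j, hj, h⟩
    refine ⟨j, hj, ?_⟩
    have h1 := abs_le.mp (hd _ (hchain b 1 ω j)).1
    have h2 := hcpa (chS N D₁ W b 1 ω 0 (ini x) j).2.1
    linarith [h1.1, h1.2, hfx.1, hfx.2]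
  · refine le_trans (measureReal_mono ?_ (hfin _)) e2
    rintro ω ⟨j, hj, h⟩
    refine ⟨j, hj, ?_⟩
    have h1 := abs_le.mp (hd _ (hchain b 1 ω j)).2.1
    have h2 := hcpa (chS N D₁ W b 1 ω 0 (ini x) j).2.1
    have h3 := hcmp j
    have h4 : q * -(p' * v - 2 * C₀ * (p - p')) * j = -(q * (p' * v) * j) +
        q * (2 * C₀ * (p - p')) * j := by ring
    have h5 : q * (p' * v - C * (p - p')) * j = q * (p' * v) * j -
        q * (C * (p - p')) * j := by ring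
    show -g (H x) + q * -(p' * v - 2 * C₀ * (p - p')) * j + Λ ≤
      -g (chS N D₁ W b 1 ω 0 (ini x) j).1 + c * p * ((chS N D₁ W b 1 ω 0 (ini x) j).2.1 : ℝ)
    rw [h4]
    rw [h5] at h
    linarith [h1.1, h1.2, hgx.1, hgx.2]
  · refine le_trans (measureReal_mono ?_ (hfin _)) e3
    rintro ω ⟨j, hj, h⟩
    refine ⟨j, hj, ?_⟩
    have h1 := abs_le.mp (hd _ (hchain (!b) (-1) ω j)).2.1
    have h2 := hcpa (chS N D₁ W (!b) (-1) ω 0 (ini x) j).2.1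
    show -g (H x) + q * -(p' * v - κ₀ / 4 * (p - p')) * j + Λ ≤
      -g (chS N D₁ W (!b) (-1) ω 0 (ini x) j).1 +
        c * p * ((chS N D₁ W (!b) (-1) ω 0 (ini x) j).2.1 : ℝ)
    have h4 : q * -(p' * v - κ₀ / 4 * (p - p')) * j =
        -(q * (p' * v - κ₀ / 2 / 2 * (p - p')) * j) := by ring
    rw [h4]
    linarith [h1.1, h1.2, hgx.1, hgx.2]
  · refine le_trans (measureReal_mono ?_ (hfin _)) e4
    rintro ω ⟨j, hj, h⟩
    refine ⟨j, hj, ?_⟩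
    have h1 := abs_le.mp (hd _ (hchain (!b) (-1) ω j)).2.1
    have h2 := hcpa (chS N D₁ W (!b) (-1) ω 0 (ini x) j).2.1
    have h3 := hcmp j
    have h4 : q * (p' * v + 2 * C₀ * (p - p')) * j = q * (p' * v) * j +
        q * (2 * C₀ * (p - p')) * j := by ring
    have h5 : q * (p' * v + C * (p - p')) * j = q * (p' * v) * j +
        q * (C * (p - p')) * j := by ring
    rw [h4]
    rw [h5] at h
    linarith [h1.1, h1.2, hgx.1, hgx.2]

end Pool.Agent.NVA
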