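import Pool.Agent.NVA.St

set_option autoImplicit false

/-! Facts on the relaxation map `F`. -/

namespace Pool.Agent.NVA

open MeasureTheory Set Pool.Agent.Helper55.Vote

private lemma FF_iter_mono (N : Finset ℤ) (r : ℕ) :
    ∀ x y : ℤ → Bool, (∀ t, x t = true → y t = true) →
      ∀ t, (maj N)^[r] x t = true → (maj N)^[r] y t = true := by
  induction r with
  | zero => intro x y h t ht; exact h t ht
  | succ r ih =>
    intro x y h t ht
    rw [Function.iterate_succ_apply] at ht ⊢
    refine ih _ _ ?_ t ht
    intro t' ht'
    have h1 : ∀ s, x s ≤ y s := fun s => Bool.le_iff_imp.2 (h s)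
    exact Bool.le_iff_imp.1 (maj_mono N h1 t') ht'

private lemma FF_maj_shift (N : Finset ℤ) (z : ℤ) (x : ℤ → Bool) :
    maj N (fun t => x (t - z)) = fun t => maj N x (t - z) := by
  funext t
  unfold maj
  have h1 : (N.filter fun j => x (t + j - z) = true) = N.filter fun j => x (t - z + j) = true := by
    apply Finset.filter_congr
    intro j _
    have : t + j - z = t - z + j := by ring
    rw [this]
  simp only [h1]

private lemma FF_iter_shift (N : Finset ℤ) (z : ℤ) (r : ℕ) : ∀ x : ℤ → Bool,
    (maj N)^[r] (fun t => x (t - z)) = fun t => (maj N)^[r] x (t - z) := by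
  induction r with
  | zero => intro x; rfl
  | succ r ih =>
    intro x
    rw [Function.iterate_succ_apply, Function.iterate_succ_apply, FF_maj_shift, ih]

private lemma FF_iter_fix {N : Finset ℤ} {x : ℤ → Bool} (h : maj N x = x) (r : ℕ) :
    (maj N)^[r] x = x := by
  induction r with
  | zero => rfl
  | succ r ih => rw [Function.iterate_succ_apply, h, ih]

theorem thm_F (hUp : St_Up) (hFix : St_Fix) (hRelT : St_RelT) (hRelF : St_RelF) : St_F := by
  intro N n D₁ W hN
  obtain ⟨hlo, -, -, hfull⟩ := hUp N n D₁ W hN
  have hR : W + D₁ + 1 ≤ Rr D₁ W := by unfold Rr; omega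
  have hR1 : 1 ≤ Rr D₁ W := by unfold Rr; omega
  refine ⟨?_, ?_, ?_, ?_, ?_, ?_, ?_⟩
  · rintro u ⟨l, hu⟩ s c
    cases c with
    | true =>
      obtain ⟨⟨l', u', hu', -, -, h⟩, -⟩ := hRelT N n D₁ W hN l u hu s
      refine ⟨l', ?_⟩
      unfold F
      rw [h _ hR]
      exact hu'
    | false =>
      obtain ⟨⟨l', u', hu', -, -, h⟩, -⟩ := hRelF N n D₁ W hN l u hu s
      refine ⟨l', ?_⟩
      unfold F
      rw [h _ hR]
      exact hu'
  · rintro u ⟨l, hu⟩ s c
    have hl := hlo l u hu
    cases c with
    | true =>
      obtain ⟨⟨l', u', hu', h1, h2, h⟩, -⟩ := hRelT N n D₁ W hN l u hu s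
      unfold F
      rw [h _ hR, hlo l' u' hu', hl, abs_le]
      constructor
      · have : (0 : ℤ) ≤ (W : ℤ) := by positivity
        linarith
      · have : (0 : ℤ) ≤ (W : ℤ) := by positivity
        have : (0 : ℤ) ≤ (D₁ : ℤ) := by positivity
        linarith
    | false =>
      obtain ⟨⟨l', u', hu', h1, h2, h⟩, -⟩ := hRelF N n D₁ W hN l u hu s
      unfold F
      rw [h _ hR, hlo l' u' hu', hl, abs_le]
      constructor
      · have : (0 : ℤ) ≤ (W : ℤ) := by positivity
        have : (0 : ℤ) ≤ (D₁ : ℤ) := by positivity
        linarith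
      · linarith
  · rintro u ⟨l, hu⟩ s c hs
    have hl := hlo l u hu
    have hfix : maj N u = u := hFix N n D₁ W hN u ⟨l, hu⟩
    have hs' : s < l - (Bb D₁ W : ℤ) ∨ l + (Bb D₁ W : ℤ) ≤ s := by
      unfold win at hs
      rw [hl, Finset.mem_Ico] at hs
      by_contra hcon
      push Not at hcon
      exact hs ⟨hcon.1, hcon.2⟩
    have hB : (Bb D₁ W : ℤ) = 8 * ((W : ℤ) + D₁ + 1) := by
      unfold Bb; push_cast; ring
    have hW0 : (0 : ℤ) ≤ (W : ℤ) := by positivity
    have hD0 : (0 : ℤ) ≤ (D₁ : ℤ) := by positivity
    cases c with
    | true =>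
      rcases hs' with hs' | hs'
      · obtain ⟨-, -, -, h⟩ := hRelT N n D₁ W hN l u hu s
        unfold F
        exact h (by rw [hB] at hs'; linarith) _ hR1
      · have h1 : u s = true := hfull l u hu s (by rw [hB] at hs'; linarith)
        unfold F
        rw [show Function.update u s true = u from by rw [← h1, Function.update_eq_self]]
        exact FF_iter_fix hfix _
    | false =>
      rcases hs' with hs' | hs'
      · have h1 : u s = false := hu.2.1 s (by rw [hB] at hs'; linarith)
        unfold F
        rw [show Function.update u s false = u from by rw [← h1, Function.update_eq_self]]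
        exact FF_iter_fix hfix _
      · obtain ⟨-, -, -, h⟩ := hRelF N n D₁ W hN l u hu s
        unfold F
        exact h (by rw [hB] at hs'; linarith) _ hR1
  · intro u u' h s c t ht
    unfold F at ht ⊢
    refine FF_iter_mono N _ _ _ ?_ t ht
    intro t' ht'
    by_cases hts : t' = s
    · subst hts
      rw [Function.update_self] at ht' ⊢
      exact ht'
    · rw [Function.update_of_ne hts] at ht' ⊢
      exact h t' ht'
  · intro u z s c
    unfold F
    have h1 : Function.update (fun t => u (t - z)) (s + z) c
        = fun t => Function.update u s c (t - z) := by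
      funext t
      by_cases hts : t = s + z
      · subst hts
        rw [Function.update_self, show s + z - z = s from by ring, Function.update_self]
      · rw [Function.update_of_ne hts, Function.update_of_ne]
        intro hcon
        apply hts
        rw [← hcon]; ring
    rw [h1, FF_iter_shift]
  · rintro u ⟨l, hu⟩ s t
    refine ⟨fun ht => ?_, fun ht => ?_⟩
    · exact (hRelT N n D₁ W hN l u hu s).2.1 _ hR1 t ht
    · exact (hRelF N n D₁ W hN l u hu s).2.1 _ hR1 t ht
  · rintro u ⟨l, hu⟩ s hs
    have hcl : ∀ t, Function.update u s true t = true → ∀ v ∈ N,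
        Function.update u s true (t + |v|) = true := by
      intro t ht v hv
      by_cases h1 : t + |v| = s
      · rw [h1, Function.update_self]
      · rw [Function.update_of_ne h1]
        by_cases hts : t = s
        · subst hts
          apply hs
          have h2 := abs_nonneg v
          rcases lt_or_eq_of_le h2 with h3 | h3
          · linarith
          · exfalso; apply h1; rw [← h3]; ring
        · rw [Function.update_of_ne hts] at ht
          exact hu.2.2 t ht v hv
    have hup : IsUp N (Function.update u s true) := by
      rcases lt_or_ge s l with hsl | hsl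
      · refine ⟨s, Function.update_self _ _ _, ?_, hcl⟩
        intro t ht
        rw [Function.update_of_ne (ne_of_lt ht)]
        exact hu.2.1 t (lt_trans ht hsl)
      · refine ⟨l, ?_, ?_, hcl⟩
        · by_cases h1 : l = s
          · rw [h1, Function.update_self]
          · rw [Function.update_of_ne h1]; exact hu.1
        · intro t ht
          rw [Function.update_of_ne (ne_of_lt (lt_of_lt_of_le ht hsl))]
          exact hu.2.1 t ht
    unfold F
    exact FF_iter_fix (hFix N n D₁ W hN _ hup) _

end Pool.Agent.NVA
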