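import Pool.Agent.NVA.Defs2

set_option autoImplicit false

/-! The final assembly, second version. -/

namespace Pool.Agent.NVA

open MeasureTheory Set Pool.Agent.Helper55.Vote

private lemma FinS_core (hGW : St_GWS) (hPar : St_ParS) (hDec : St_Dec) (hDil : St_Dil)
    {N N' : Finset ℤ} {n D₁ W : ℕ} {c g : ℤ} (hg : 0 < g)
    (hN : (N.image fun v => v - c) = (N'.image fun v => g * v)) (hNb : Nb N' n D₁ W) :
    ∃ C : ℝ, 0 < C ∧ ∀ (ε δ : ℝ) (b : Bool), 0 < ε → 0 < δ → ε + δ ≤ 1 →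
      (law ε δ).real {some (!b)} < (law ε δ).real {some b} →
      C * ((law ε δ).real {some b}) ^ 2 ≤
        (law ε δ).real {some b} - (law ε δ).real {some (!b)} →
      C * ((law ε δ).real {some b}) ^ (n + 3) ≤
        ((law ε δ).real {some b} - (law ε δ).real {some (!b)}) ^ 3 → Ergodic N ε δ := by
  obtain ⟨C, w, hC, hw, hmain⟩ := hPar N' n D₁ W hNb
  refine ⟨C, hC, fun ε δ b hε hδ hεδ hlt hle hle' => ?_⟩
  have hp : IsProbabilityMeasure (law ε δ) := law_prob hε.le hδ.le hεδ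
  obtain ⟨L, T, σ, S, hT, hL, hσ, hP⟩ := hmain (law ε δ) b hlt hle hle'
  obtain ⟨hthin, hFL, hwall⟩ := hGW N' n D₁ W hNb b σ w L T S hw hT hL hσ
  have hL1 : 1 ≤ L := by
    have : 0 < Bb D₁ W := by unfold Bb; positivity
    omega
  have hb : 0 < (law ε δ).real {some b} := by
    refine lt_of_le_of_lt ?_ hlt
    exact measureReal_nonneg
  have h1 := hDec (law ε δ) N' b D₁ L T w S (Box σ w L T) (gS2 N' n D₁ W b σ w L T S) hNb.bd hL1
    hb hthin hFL hwall hP
  refine ergodic_of_decay N ε δ hε hδ hεδ ?_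
  refine h1.congr fun t => ?_
  exact (hDil (law ε δ) N N' c g hg hN t).symm

private lemma FinS_num {C M h : ℝ} (hC : 0 < C) (hM0 : 0 < M) (hM1 : M ≤ 1) (hh : 0 < h) (n : ℕ)
    (H : (C + C ^ 3) * M ^ (min (n + 3) 6) ≤ h ^ 3) :
    C * M ^ 2 ≤ h ∧ C * M ^ (n + 3) ≤ h ^ 3 := by
  have hk0 : 0 < M ^ (min (n + 3) 6) := pow_pos hM0 _
  have e1 : C * M ^ (min (n + 3) 6) ≤ h ^ 3 := by
    have : 0 ≤ C ^ 3 * M ^ (min (n + 3) 6) := by positivity
    linarith [add_mul C (C ^ 3) (M ^ (min (n + 3) 6))]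
  have e2 : C ^ 3 * M ^ (min (n + 3) 6) ≤ h ^ 3 := by
    have : 0 ≤ C * M ^ (min (n + 3) 6) := by positivity
    linarith [add_mul C (C ^ 3) (M ^ (min (n + 3) 6))]
  constructor
  · have e3 : M ^ 6 ≤ M ^ (min (n + 3) 6) := pow_le_pow_of_le_one hM0.le hM1 (min_le_right _ _)
    have e4 : (C * M ^ 2) ^ 3 ≤ h ^ 3 := by
      calc (C * M ^ 2) ^ 3 = C ^ 3 * M ^ 6 := by ring
        _ ≤ C ^ 3 * M ^ (min (n + 3) 6) := mul_le_mul_of_nonneg_left e3 (by positivity)
        _ ≤ h ^ 3 := e2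
    exact le_of_pow_le_pow_left₀ (by norm_num) hh.le e4
  · have e3 : M ^ (n + 3) ≤ M ^ (min (n + 3) 6) :=
      pow_le_pow_of_le_one hM0.le hM1 (min_le_left _ _)
    exact (mul_le_mul_of_nonneg_left e3 hC.le).trans e1

theorem thm_FinS (hGW : St_GWS) (hPar : St_ParS) (hDec : St_Dec) (hRed : St_Red) (hDil : St_Dil)
    (hOne : St_One) : St_FinS := by
  intro N n hn
  rcases Nat.eq_zero_or_pos n with h0 | h0
  · subst h0
    obtain ⟨c, rfl⟩ := Finset.card_eq_one.1 (by simpa using hn)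
    refine ⟨1, one_pos, fun ε δ hε hδ hεδ _ => ?_⟩
    have hp : IsProbabilityMeasure (law ε δ) := law_prob hε.le hδ.le hεδ
    exact ergodic_of_decay _ ε δ hε hδ hεδ
      (hOne (law ε δ) c (by rw [law_true hδ.le]; exact hδ))
  · obtain ⟨c, g, N', D₁, W, hg, hN, hNb⟩ := hRed N n h0 hn
    obtain ⟨C, hC, hmain⟩ := FinS_core hGW hPar hDec hDil hg hN hNb
    refine ⟨C + C ^ 3, by positivity, fun ε δ hε hδ hεδ h => ?_⟩
    have hne : ε ≠ δ := by
      rintro rfl
      rw [max_self, sub_self, abs_zero] at h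
      have : 0 < (C + C ^ 3) * ε ^ (min (n + 3) 6) := by positivity
      norm_num at h
      linarith
    rcases lt_or_gt_of_ne hne with hlt | hlt
    · rw [max_eq_right hlt.le, abs_of_neg (by linarith), neg_sub] at h
      obtain ⟨h1, h2⟩ := FinS_num hC hδ (by linarith) (by linarith) n h
      refine hmain ε δ true hε hδ hεδ ?_ ?_ ?_
      · simp only [Bool.not_true]
        rw [law_true hδ.le, law_false hε.le]; exact hlt
      · simp only [Bool.not_true]
        rw [law_true hδ.le, law_false hε.le]; exact h1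
      · simp only [Bool.not_true]
        rw [law_true hδ.le, law_false hε.le]; exact h2
    · rw [max_eq_left hlt.le, abs_of_pos (by linarith)] at h
      obtain ⟨h1, h2⟩ := FinS_num hC hε (by linarith) (by linarith) n h
      refine hmain ε δ false hε hδ hεδ ?_ ?_ ?_
      · simp only [Bool.not_false]
        rw [law_true hδ.le, law_false hε.le]; exact hlt
      · simp only [Bool.not_false]
        rw [law_true hδ.le, law_false hε.le]; exact h1
      · simp only [Bool.not_false]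
        rw [law_true hδ.le, law_false hε.le]; exact h2

end Pool.Agent.NVA
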