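import Pool.Agent.NVA.St

/-! Noisy majority voting: the majority fixes up-sets. -/

set_option autoImplicit false

namespace Pool.Agent.NVA

open MeasureTheory Set Pool.Agent.Helper55.Vote

theorem thm_Fix : St_Fix := by
  classical
  intro N n D₁ W hN u hu
  obtain ⟨l, -, -, hup⟩ := hu
  funext s
  unfold maj
  rw [hN.card]
  cases hs : u s with
  | true =>
    rw [decide_eq_true_iff]
    have h1 : insert (0 : ℤ) (N.filter fun v => 0 < v) ⊆ N.filter fun j => u (s + j) = true := by
      intro v hv
      rw [Finset.mem_filter]
      rcases Finset.mem_insert.1 hv with rfl | hv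
      · exact ⟨hN.zero, by rw [add_zero]; exact hs⟩
      · obtain ⟨hv1, hv2⟩ := Finset.mem_filter.1 hv
        refine ⟨hv1, ?_⟩
        have h2 := hup s hs v hv1
        rwa [abs_of_pos hv2] at h2
    have h2 := Finset.card_le_card h1
    rw [Finset.card_insert_of_notMem (by simp), hN.posi] at h2
    omega
  | false =>
    rw [decide_eq_false_iff_not]
    have h1 : (N.filter fun j => u (s + j) = true) ⊆ N.filter fun v => 0 < v := by
      intro v hv
      obtain ⟨hv1, hv2⟩ := Finset.mem_filter.1 hv
      rw [Finset.mem_filter]
      refine ⟨hv1, ?_⟩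
      by_contra hneg
      have h2 := hup (s + v) hv2 v hv1
      rw [abs_of_nonpos (not_lt.1 hneg), add_neg_cancel_right, hs] at h2
      exact absurd h2 (by simp)
    have h2 := Finset.card_le_card h1
    rw [hN.posi] at h2
    omega

end Pool.Agent.NVA
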