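import Pool.Agent.NVA.Defs2

set_option autoImplicit false

/-! Second version: the good event of the slanted box depends on finitely many sites and carries a
wall. -/

namespace Pool.Agent.NVA

open MeasureTheory Set Pool.Agent.Helper55.Vote

private lemma GWS_Bb_pos (D₁ W : ℕ) : D₁ + 8 ≤ Bb D₁ W := by
  unfold Bb
  omega

private lemma GWS_stepS_congr {N : Finset ℤ} {D₁ W : ℕ} {b : Bool} {σ : ℤ} {st : St2}
    {x x' : ℤ → Option Bool} (h : ∀ s ∈ win D₁ W st.1, x s = x' s) :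
    stepS N D₁ W b σ st x' = stepS N D₁ W b σ st x := by
  have hP : ∀ s, (s ∈ win D₁ W st.1 ∧ x s ≠ none ∧
      ∀ s' ∈ win D₁ W st.1, x s' ≠ none → s' = s) ↔
      (s ∈ win D₁ W st.1 ∧ x' s ≠ none ∧ ∀ s' ∈ win D₁ W st.1, x' s' ≠ none → s' = s) := by
    intro s
    constructor
    · rintro ⟨h1, h2, h3⟩
      refine ⟨h1, by rw [← h s h1]; exact h2, fun s' hs' hx' => h3 s' hs' ?_⟩
      rw [h s' hs']
      exact hx'
    · rintro ⟨h1, h2, h3⟩
      refine ⟨h1, by rw [h s h1]; exact h2, fun s' hs' hx' => h3 s' hs' ?_⟩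
      rw [← h s' hs']
      exact hx'
  unfold stepS
  by_cases hq : ∀ s ∈ win D₁ W st.1, x s = none
  · have hq' : ∀ s ∈ win D₁ W st.1, x' s = none := fun s hs => by rw [← h s hs]; exact hq s hs
    rw [if_pos hq, if_pos hq']
  · have hq' : ¬ ∀ s ∈ win D₁ W st.1, x' s = none := fun h' =>
      hq fun s hs => by rw [h s hs]; exact h' s hs
    rw [if_neg hq, if_neg hq']
    by_cases hE : st.2.1 = 0 ∧ ∃ s, s ∈ win D₁ W st.1 ∧ x s ≠ none ∧
        ∀ s' ∈ win D₁ W st.1, x s' ≠ none → s' = s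
    · have hE' : st.2.1 = 0 ∧ ∃ s, s ∈ win D₁ W st.1 ∧ x' s ≠ none ∧
          ∀ s' ∈ win D₁ W st.1, x' s' ≠ none → s' = s := by
        obtain ⟨h0, s, hs⟩ := hE
        exact ⟨h0, s, (hP s).1 hs⟩
      rw [dif_pos hE, dif_pos hE']
      have h1 := hE.2.choose_spec
      have h2 := (hP _).2 hE'.2.choose_spec
      have e : hE'.2.choose = hE.2.choose := h1.2.2 _ h2.1 h2.2.1
      rw [e, ← h _ h1.1]
    · have hE' : ¬ (st.2.1 = 0 ∧ ∃ s, s ∈ win D₁ W st.1 ∧ x' s ≠ none ∧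
          ∀ s' ∈ win D₁ W st.1, x' s' ≠ none → s' = s) := by
        rintro ⟨h0, s, hs⟩
        exact hE ⟨h0, s, (hP s).2 hs⟩
      rw [dif_neg hE, dif_neg hE']

private lemma GWS_chain_congr {N : Finset ℤ} {D₁ W : ℕ} {b : Bool} {σ : ℤ} {ω ω' : Om}
    {st : St2} {T : ℕ} (R : Set (ℤ × ℤ)) (hag : ∀ c ∈ R, ω c = ω' c)
    (hw : ∀ j < T, ∀ s ∈ win D₁ W (chS N D₁ W b σ ω 0 st j).1, (s, (j : ℤ)) ∈ R) :
    ∀ j ≤ T, chS N D₁ W b σ ω' 0 st j = chS N D₁ W b σ ω 0 st j := by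
  intro j
  induction j with
  | zero => intro _; rfl
  | succ j ih =>
    intro hj
    have h1 := ih (by omega)
    change stepS N D₁ W b σ (chS N D₁ W b σ ω' 0 st j) (fun s => ω' (s, 0 + (j : ℤ))) =
      stepS N D₁ W b σ (chS N D₁ W b σ ω 0 st j) (fun s => ω (s, 0 + (j : ℤ)))
    rw [h1]
    refine GWS_stepS_congr fun s hs => ?_
    rw [zero_add]
    exact hag _ (hw j (by omega) s hs)

private lemma GWS_fin {σ : ℝ} (hσ : |σ| ≤ 1) (w L T : ℕ) : (Box σ w L T).Finite := by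
  refine Set.Finite.subset (Finset.finite_toSet
    (Finset.Icc (-((T : ℤ) + (w + 1) * L)) ((T : ℤ) + (w + 1) * L) ×ˢ Finset.Ico (0 : ℤ) T)) ?_
  rintro ⟨s, i⟩ ⟨h1, h2, h3, h4⟩
  have h1' : (0 : ℤ) ≤ i := h1
  have h2' : i < (T : ℤ) := h2
  have h3' : σ * i - w * L ≤ (s : ℝ) := h3
  have h4' : (s : ℝ) < σ * i + (w + 1) * L := h4
  obtain ⟨a1, a2⟩ := abs_le.1 hσ
  have hi0 : (0 : ℝ) ≤ i := by exact_mod_cast h1'
  have hiT : (i : ℝ) ≤ T := by exact_mod_cast h2'.le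
  have b1 : -(i : ℝ) ≤ σ * i := by nlinarith
  have b2 : σ * i ≤ (i : ℝ) := by nlinarith
  have hL0 : (0 : ℝ) ≤ L := Nat.cast_nonneg _
  have c1 : (-((T : ℝ) + (w + 1) * L)) ≤ (s : ℝ) := by nlinarith
  have c2 : (s : ℝ) ≤ (T : ℝ) + (w + 1) * L := by nlinarith
  rw [Finset.mem_coe, Finset.mem_product, Finset.mem_Icc, Finset.mem_Ico]
  refine ⟨⟨?_, ?_⟩, h1', h2'⟩
  · exact_mod_cast c1
  · exact_mod_cast c2

theorem thm_GWS (hUp : St_Up) (hF : St_F) (hWallS : St_WallS) : St_GWS := by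
  intro N n D₁ W hNb b σ w L T S hw hT hL hσ
  have hB := GWS_Bb_pos D₁ W
  have hBr : (D₁ : ℝ) + 8 ≤ (Bb D₁ W : ℝ) := by exact_mod_cast hB
  have hD0 : (0 : ℝ) ≤ (D₁ : ℝ) := Nat.cast_nonneg _
  have hJ0 : (0 : ℝ) ≤ (Jj D₁ W : ℝ) := Nat.cast_nonneg _
  have hLr : (64 : ℝ) * ((Bb D₁ W : ℝ) + Jj D₁ W) ≤ (L : ℝ) := by exact_mod_cast hL
  have hwr : (2 : ℝ) ≤ (w : ℝ) := by exact_mod_cast hw
  obtain ⟨a1, a2⟩ := abs_le.1 hσ
  have hwL : 2 * (L : ℝ) ≤ w * L := by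
    have : (0 : ℝ) ≤ L := Nat.cast_nonneg _
    nlinarith
  refine ⟨⟨?_, ?_⟩, ?_, ?_⟩
  · rintro c ⟨h1, h2, -, -⟩
    exact ⟨h1, h2⟩
  · rintro c ⟨-, -, h3, h4⟩ c' ⟨-, -, h3', h4'⟩ he
    rw [← he] at h3' h4'
    have g1 : ((c.1 - c'.1 : ℤ) : ℝ) < (2 * (w : ℝ) + 1) * L := by
      push_cast
      nlinarith
    have g2 : -((2 * (w : ℝ) + 1) * L) < ((c.1 - c'.1 : ℤ) : ℝ) := by
      push_cast
      nlinarith
    rw [abs_lt]
    constructor
    · exact_mod_cast g2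
    · exact_mod_cast g1
  · -- the good event is local
    have hfin := GWS_fin hσ w L T
    refine ⟨hfin.toFinset, by simp, ?_⟩
    intro ω ω' hag0 hω
    have hag : ∀ c ∈ Box σ w L T, ω c = ω' c := fun c hc => hag0 c (hfin.mem_toFinset.2 hc)
    obtain ⟨g1, g2, g3, g4, g5, g6⟩ := hω
    have e1 : ∀ j ≤ T, chS N D₁ W b 1 ω' 0 (ini 0) j = chS N D₁ W b 1 ω 0 (ini 0) j := by
      refine GWS_chain_congr (Box σ w L T) hag ?_
      intro j hj s hs
      obtain ⟨k1, k2⟩ := g2 j hj.le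
      unfold win at hs
      rw [Finset.mem_Ico] at hs
      have s1 : (lo (chS N D₁ W b 1 ω 0 (ini 0) j).1 : ℝ) - (Bb D₁ W : ℝ) ≤ (s : ℝ) := by
        exact_mod_cast hs.1
      have s2 : (s : ℝ) < (lo (chS N D₁ W b 1 ω 0 (ini 0) j).1 : ℝ) + (Bb D₁ W : ℝ) := by
        exact_mod_cast hs.2
      refine ⟨Int.natCast_nonneg j, Int.ofNat_lt.2 hj, ?_, ?_⟩
      · push_cast
        linarith
      · push_cast
        linarith
    have e2 : ∀ j ≤ T, chS N D₁ W (!b) (-1) ω' 0 (ini L) j =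
        chS N D₁ W (!b) (-1) ω 0 (ini L) j := by
      refine GWS_chain_congr (Box σ w L T) hag ?_
      intro j hj s hs
      obtain ⟨k1, k2⟩ := g3 j hj.le
      unfold win at hs
      rw [Finset.mem_Ico] at hs
      have s1 : (lo (chS N D₁ W (!b) (-1) ω 0 (ini L) j).1 : ℝ) - (Bb D₁ W : ℝ) ≤
          (s : ℝ) := by
        exact_mod_cast hs.1
      have s2 : (s : ℝ) < (lo (chS N D₁ W (!b) (-1) ω 0 (ini L) j).1 : ℝ) +
          (Bb D₁ W : ℝ) := by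
        exact_mod_cast hs.2
      refine ⟨Int.natCast_nonneg j, Int.ofNat_lt.2 hj, ?_, ?_⟩
      · push_cast
        linarith
      · push_cast
        linarith
    refine ⟨?_, ?_, ?_, ?_, ?_, ?_⟩
    · intro c hc K hK
      refine g1 c hc K fun s hs => ?_
      obtain ⟨m1, m2, m3⟩ := hK s hs
      exact ⟨m1, m2, by rw [hag _ m2]; exact m3⟩
    · intro j hj
      rw [e1 j hj]
      exact g2 j hj
    · intro j hj
      rw [e2 j hj]
      exact g3 j hj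
    · rw [e1 T le_rfl]
      exact g4
    · rw [e2 T le_rfl]
      exact g5
    · intro s hs1 hs2
      have hmem : (s, (T : ℤ) - 1) ∈ Box σ w L T := by
        have k1 := (g2 T le_rfl).1
        have k2 := (g3 T le_rfl).2
        have q1 : (lo (chS N D₁ W b 1 ω 0 (ini 0) T).1 : ℝ) +
            2 * ((Bb D₁ W : ℝ) + Jj D₁ W) ≤ (s : ℝ) := by
          exact_mod_cast g4.trans hs1
        have q2 : (s : ℝ) < (lo (chS N D₁ W (!b) (-1) ω 0 (ini L) T).1 : ℝ) -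
            2 * ((Bb D₁ W : ℝ) + Jj D₁ W) := by
          exact_mod_cast hs2.trans_le g5
        refine ⟨?_, ?_, ?_, ?_⟩
        · change (0 : ℤ) ≤ (T : ℤ) - 1
          omega
        · change (T : ℤ) - 1 < (T : ℤ)
          omega
        · push_cast
          nlinarith
        · push_cast
          nlinarith
      rw [← hag _ hmem]
      exact g6 s hs1 hs2
  · -- the wall
    intro ω hω
    obtain ⟨g1, g2, g3, g4, g5, g6⟩ := hω
    refine hWallS N n D₁ W hNb L T S b ω (Box σ w L T) hT g1 ?_ ?_ g4 g5 g6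
    · intro j hj s hs1 hs2
      obtain ⟨k1, k2⟩ := g2 j hj.le
      obtain ⟨k3, k4⟩ := g3 j hj.le
      have q1 : (lo (chS N D₁ W b 1 ω 0 (ini 0) j).1 : ℝ) -
          4 * ((Bb D₁ W : ℝ) + Jj D₁ W) ≤ (s : ℝ) := by
        exact_mod_cast hs1
      have q2 : (s : ℝ) ≤ (lo (chS N D₁ W (!b) (-1) ω 0 (ini L) j).1 : ℝ) +
          4 * ((Bb D₁ W : ℝ) + Jj D₁ W) := by
        exact_mod_cast hs2
      refine ⟨Int.natCast_nonneg j, Int.ofNat_lt.2 hj, ?_, ?_⟩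
      · push_cast
        linarith
      · push_cast
        linarith
    · intro j hj
      obtain ⟨k1, k2⟩ := g2 j hj
      obtain ⟨k3, k4⟩ := g3 j hj
      have q : (lo (chS N D₁ W b 1 ω 0 (ini 0) j).1 : ℝ) +
          16 * ((Bb D₁ W : ℝ) + Jj D₁ W) ≤
          (lo (chS N D₁ W (!b) (-1) ω 0 (ini L) j).1 : ℝ) := by nlinarith
      exact_mod_cast q

end Pool.Agent.NVA
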