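import Pool.Agent.NVA.St

set_option autoImplicit false

/-! NVA, Harm: the harmonic coordinate of an edge (helper30). -/

namespace Pool.Agent.NVA

open MeasureTheory Set Pool.Agent.Helper55.Vote Filter Topology

/-- the iterates of the averaging operator on `lo` -/
private noncomputable def hmA (N : Finset ℤ) (D₁ W : ℕ) : ℕ → (ℤ → Bool) → ℝ
  | 0, u => (lo u : ℝ)
  | m + 1, u => hmA N D₁ W m u + 1 / (8 * (Bb D₁ W : ℝ)) * dr N D₁ W 1 1 (hmA N D₁ W m) u

private def hmAnti (N : Finset ℤ) (f : (ℤ → Bool) → ℝ) : Prop :=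
  ∀ u u', IsUp N u → IsUp N u' → (∀ t, u t = true → u' t = true) → f u' ≤ f u

private def hmShf (N : Finset ℤ) (f : (ℤ → Bool) → ℝ) : Prop :=
  ∀ u (z : ℤ), IsUp N u → f (fun t => u (t - z)) = f u + z

private theorem hm_Bpos (D₁ W : ℕ) : (0 : ℝ) < (Bb D₁ W : ℝ) := by
  unfold Bb
  push_cast
  positivity

private theorem hm_card (D₁ W : ℕ) (u : ℤ → Bool) : (win D₁ W u).card = 2 * Bb D₁ W := by
  unfold win
  rw [Int.card_Ico]
  omega

private theorem hm_ext {N : Finset ℤ} {n D₁ W : ℕ} (hN : Nb N n D₁ W) (hF : St_F)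
    (f : (ℤ → Bool) → ℝ) (u : ℤ → Bool) (hu : IsUp N u) (S : Finset ℤ)
    (hS : win D₁ W u ⊆ S) :
    dr N D₁ W 1 1 f u =
      ∑ s ∈ S, ((f (F N D₁ W u s true) + f (F N D₁ W u s false)) - 2 * f u) := by
  unfold dr
  rw [← Finset.sum_subset hS]
  · refine Finset.sum_congr rfl fun s _ => by ring
  · intro s _ hs
    have h3 := (hF N n D₁ W hN).2.2.1 u hu s
    rw [h3 true hs, h3 false hs]
    ring

private theorem hm_anti_step {N : Finset ℤ} {n D₁ W : ℕ} (hN : Nb N n D₁ W) (hF : St_F)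
    (f : (ℤ → Bool) → ℝ) (hf : hmAnti N f) :
    hmAnti N (fun u => f u + 1 / (8 * (Bb D₁ W : ℝ)) * dr N D₁ W 1 1 f u) := by
  intro u u' hu hu' hle
  have hB := hm_Bpos D₁ W
  obtain ⟨F1, F2, F3, F4, F5, F6, F7⟩ := hF N n D₁ W hN
  set S := win D₁ W u ∪ win D₁ W u' with hS
  have hcard : (S.card : ℝ) ≤ 4 * (Bb D₁ W : ℝ) := by
    have h1 := Finset.card_union_le (win D₁ W u) (win D₁ W u')
    rw [hm_card, hm_card] at h1
    have h2 : S.card ≤ 4 * Bb D₁ W := by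
      rw [hS]
      omega
    exact_mod_cast h2
  have e1 := hm_ext hN hF f u hu S Finset.subset_union_left
  have e2 := hm_ext hN hF f u' hu' S Finset.subset_union_right
  rw [Finset.sum_sub_distrib, Finset.sum_const, nsmul_eq_mul] at e1 e2
  have e3 : ∑ s ∈ S, (f (F N D₁ W u' s true) + f (F N D₁ W u' s false)) ≤
      ∑ s ∈ S, (f (F N D₁ W u s true) + f (F N D₁ W u s false)) := by
    refine Finset.sum_le_sum fun s _ => ?_
    have a1 := hf _ _ (F1 u hu s true) (F1 u' hu' s true) (F4 u u' hle s true)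
    have a2 := hf _ _ (F1 u hu s false) (F1 u' hu' s false) (F4 u u' hle s false)
    linarith
  have e4 := hf u u' hu hu' hle
  dsimp only
  rw [e1, e2]
  set X := ∑ s ∈ S, (f (F N D₁ W u s true) + f (F N D₁ W u s false)) with hX
  set X' := ∑ s ∈ S, (f (F N D₁ W u' s true) + f (F N D₁ W u' s false)) with hX'
  set η : ℝ := 1 / (8 * (Bb D₁ W : ℝ)) with hη
  have hη0 : 0 < η := by positivity
  have hη1 : η * (8 * (Bb D₁ W : ℝ)) = 1 := by
    rw [hη]
    field_simp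
  have h5 : 2 * η * (S.card : ℝ) ≤ 1 := by
    nlinarith [mul_le_mul_of_nonneg_left hcard hη0.le]
  have h6 : 0 ≤ (f u - f u') * (1 - 2 * η * (S.card : ℝ)) :=
    mul_nonneg (by linarith) (by linarith)
  have h7 : 0 ≤ η * (X - X') := mul_nonneg hη0.le (by linarith)
  nlinarith

private theorem hm_lo_shift {N : Finset ℤ} {n D₁ W : ℕ} (hN : Nb N n D₁ W) (hUp : St_Up)
    (u : ℤ → Bool) (z : ℤ) (hu : IsUp N u) : lo (fun t => u (t - z)) = lo u + z := by
  obtain ⟨l, hl⟩ := hu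
  obtain ⟨U1, U2, U3, U4⟩ := hUp N n D₁ W hN
  rw [U1 l u hl, U1 (l + z) _ (U3 l z u hl)]

private theorem hm_dr_shift {N : Finset ℤ} {n D₁ W : ℕ} (hN : Nb N n D₁ W) (hUp : St_Up)
    (hF : St_F) (f : (ℤ → Bool) → ℝ) (hf : hmShf N f) (u : ℤ → Bool) (z : ℤ) (hu : IsUp N u) :
    dr N D₁ W 1 1 f (fun t => u (t - z)) = dr N D₁ W 1 1 f u := by
  obtain ⟨F1, F2, F3, F4, F5, F6, F7⟩ := hF N n D₁ W hN
  have hw : win D₁ W (fun t => u (t - z)) = (win D₁ W u).map (addRightEmbedding z) := by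
    unfold win
    rw [hm_lo_shift hN hUp u z hu, Finset.map_add_right_Ico]
    congr 1 <;> ring
  unfold dr
  rw [hw, Finset.sum_map]
  refine Finset.sum_congr rfl fun s _ => ?_
  simp only [addRightEmbedding_apply]
  rw [F5 u z s true, F5 u z s false, hf _ z (F1 u hu s true), hf _ z (F1 u hu s false),
    hf u z hu]
  ring

private theorem hm_both {N : Finset ℤ} {n D₁ W : ℕ} (hN : Nb N n D₁ W) (hUp : St_Up)
    (hF : St_F) : ∀ m : ℕ, hmAnti N (hmA N D₁ W m) ∧ hmShf N (hmA N D₁ W m) := by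
  intro m
  induction m with
  | zero =>
    obtain ⟨U1, U2, U3, U4⟩ := hUp N n D₁ W hN
    constructor
    · rintro u u' ⟨l, hl⟩ ⟨l', hl'⟩ hle
      have h1 : l' ≤ l := by
        by_contra h
        push Not at h
        have h2 := hl'.2.1 l h
        have h3 := hle l hl.1
        rw [h2] at h3
        exact absurd h3 (by decide)
      simp only [hmA]
      rw [U1 l u hl, U1 l' u' hl']
      exact_mod_cast h1
    · intro u z hu
      simp only [hmA]
      rw [hm_lo_shift hN hUp u z hu]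
      push_cast
      ring
  | succ m ih =>
    constructor
    · exact hm_anti_step hN hF _ ih.1
    · intro u z hu
      simp only [hmA]
      rw [hm_dr_shift hN hUp hF _ ih.2 u z hu, ih.2 u z hu]
      ring

private theorem hm_bd {N : Finset ℤ} {n D₁ W : ℕ} (hN : Nb N n D₁ W) (hUp : St_Up)
    (hF : St_F) (m : ℕ) (u : ℤ → Bool) (hu : IsUp N u) :
    (lo u : ℝ) ≤ hmA N D₁ W m u - hmA N D₁ W m (H 0) ∧
      hmA N D₁ W m u - hmA N D₁ W m (H 0) ≤ lo u + W := by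
  obtain ⟨hA, hS⟩ := hm_both hN hUp hF m
  obtain ⟨U1, U2, U3, U4⟩ := hUp N n D₁ W hN
  obtain ⟨l, hl⟩ := hu
  have hH : ∀ x : ℤ, H x = fun t => H 0 (t - x) := by
    intro x
    funext t
    unfold H
    by_cases h : x ≤ t
    · simp [h]
    · simp [h]
  have hHv : ∀ x : ℤ, hmA N D₁ W m (H x) = hmA N D₁ W m (H 0) + x := by
    intro x
    rw [hH x]
    exact hS (H 0) x ⟨0, U2 0⟩
  have h1 : hmA N D₁ W m (H l) ≤ hmA N D₁ W m u := by
    refine hA u (H l) ⟨l, hl⟩ ⟨l, U2 l⟩ ?_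
    intro t ht
    unfold H
    by_contra h
    have h' : t < l := by
      simpa using h
    rw [hl.2.1 t h'] at ht
    exact absurd ht (by decide)
  have h2 : hmA N D₁ W m u ≤ hmA N D₁ W m (H (l + W)) := by
    refine hA (H (l + W)) u ⟨l + W, U2 _⟩ ⟨l, hl⟩ ?_
    intro t ht
    refine U4 l u hl t ?_
    unfold H at ht
    exact of_decide_eq_true ht
  rw [hHv] at h1 h2
  rw [U1 l u hl]
  push_cast at h2
  constructor <;> linarith

private theorem hm_inc {N : Finset ℤ} {n D₁ W : ℕ} (hN : Nb N n D₁ W) (hUp : St_Up)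
    (hF : St_F) (m : ℕ) :
    |hmA N D₁ W (m + 1) (H 0) - hmA N D₁ W m (H 0)| ≤ 2 * (W : ℝ) + D₁ := by
  obtain ⟨F1, F2, F3, F4, F5, F6, F7⟩ := hF N n D₁ W hN
  obtain ⟨U1, U2, U3, U4⟩ := hUp N n D₁ W hN
  have hB := hm_Bpos D₁ W
  have hup : IsUp N (H 0) := ⟨0, U2 0⟩
  have hlo : lo (H 0) = 0 := U1 0 _ (U2 0)
  have ht : ∀ s c, |hmA N D₁ W m (F N D₁ W (H 0) s c) - hmA N D₁ W m (H 0)| ≤
      2 * (W : ℝ) + D₁ := by
    intro s c
    have h1 := hm_bd hN hUp hF m _ (F1 (H 0) hup s c)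
    have h2 := F2 (H 0) hup s c
    rw [hlo, sub_zero, abs_le] at h2
    have h3 : -((W : ℝ) + D₁) ≤ (lo (F N D₁ W (H 0) s c) : ℝ) := by exact_mod_cast h2.1
    have h4 : (lo (F N D₁ W (H 0) s c) : ℝ) ≤ (W : ℝ) + D₁ := by exact_mod_cast h2.2
    have hW : (0 : ℝ) ≤ W := Nat.cast_nonneg _
    rw [abs_le]
    constructor <;> linarith [h1.1, h1.2]
  have hE : (0 : ℝ) ≤ 2 * (W : ℝ) + D₁ := by positivity
  have hdr : |dr N D₁ W 1 1 (hmA N D₁ W m) (H 0)| ≤ 4 * (Bb D₁ W : ℝ) * (2 * (W : ℝ) + D₁) := by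
    unfold dr
    refine (Finset.abs_sum_le_sum_abs _ _).trans ?_
    have h1 : ∀ s ∈ win D₁ W (H 0),
        |1 * (hmA N D₁ W m (F N D₁ W (H 0) s true) - hmA N D₁ W m (H 0)) +
          1 * (hmA N D₁ W m (F N D₁ W (H 0) s false) - hmA N D₁ W m (H 0))| ≤
          2 * (2 * (W : ℝ) + D₁) := by
      intro s _
      rw [one_mul, one_mul]
      refine (abs_add_le _ _).trans ?_
      linarith [ht s true, ht s false]
    refine (Finset.sum_le_sum h1).trans ?_
    rw [Finset.sum_const, hm_card, nsmul_eq_mul]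
    push_cast
    nlinarith
  have e : hmA N D₁ W (m + 1) (H 0) - hmA N D₁ W m (H 0) =
      1 / (8 * (Bb D₁ W : ℝ)) * dr N D₁ W 1 1 (hmA N D₁ W m) (H 0) := by
    simp only [hmA]
    ring
  rw [e, abs_mul, abs_of_pos (by positivity : (0 : ℝ) < 1 / (8 * (Bb D₁ W : ℝ)))]
  calc 1 / (8 * (Bb D₁ W : ℝ)) * |dr N D₁ W 1 1 (hmA N D₁ W m) (H 0)|
      ≤ 1 / (8 * (Bb D₁ W : ℝ)) * (4 * (Bb D₁ W : ℝ) * (2 * (W : ℝ) + D₁)) :=
        mul_le_mul_of_nonneg_left hdr (by positivity)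
    _ = (2 * (W : ℝ) + D₁) / 2 := by
        field_simp
        ring
    _ ≤ 2 * (W : ℝ) + D₁ := by linarith

private theorem hm_a {N : Finset ℤ} {n D₁ W : ℕ} (hN : Nb N n D₁ W) (hUp : St_Up)
    (hF : St_F) (m : ℕ) : |hmA N D₁ W m (H 0)| ≤ (2 * (W : ℝ) + D₁) * m := by
  induction m with
  | zero =>
    obtain ⟨U1, U2, U3, U4⟩ := hUp N n D₁ W hN
    have hlo : lo (H 0) = 0 := U1 0 _ (U2 0)
    simp [hmA, hlo]
  | succ m ih =>
    have h1 := hm_inc hN hUp hF m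
    rw [abs_le] at h1 ih ⊢
    push_cast
    constructor <;> nlinarith [h1.1, h1.2, ih.1, ih.2]

/-- the Cesaro means -/
private noncomputable def hmD (N : Finset ℤ) (D₁ W : ℕ) (k : ℕ) (u : ℤ → Bool) : ℝ :=
  (∑ m ∈ Finset.range (k + 1), (hmA N D₁ W m u - hmA N D₁ W m (H 0))) / ((k : ℝ) + 1)

private theorem hm_D_bd {N : Finset ℤ} {n D₁ W : ℕ} (hN : Nb N n D₁ W) (hUp : St_Up)
    (hF : St_F) (k : ℕ) (u : ℤ → Bool) (hu : IsUp N u) :
    (lo u : ℝ) ≤ hmD N D₁ W k u ∧ hmD N D₁ W k u ≤ lo u + W := by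
  have hk : (0 : ℝ) < (k : ℝ) + 1 := by positivity
  unfold hmD
  rw [le_div_iff₀ hk, div_le_iff₀ hk]
  constructor
  · have h1 : ∑ _m ∈ Finset.range (k + 1), (lo u : ℝ) ≤
        ∑ m ∈ Finset.range (k + 1), (hmA N D₁ W m u - hmA N D₁ W m (H 0)) :=
      Finset.sum_le_sum fun m _ => (hm_bd hN hUp hF m u hu).1
    rw [Finset.sum_const, Finset.card_range, nsmul_eq_mul] at h1
    push_cast at h1
    linarith
  · have h1 : ∑ m ∈ Finset.range (k + 1), (hmA N D₁ W m u - hmA N D₁ W m (H 0)) ≤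
        ∑ _m ∈ Finset.range (k + 1), ((lo u : ℝ) + W) :=
      Finset.sum_le_sum fun m _ => (hm_bd hN hUp hF m u hu).2
    rw [Finset.sum_const, Finset.card_range, nsmul_eq_mul] at h1
    push_cast at h1
    linarith

private theorem hm_dr_D (N : Finset ℤ) (D₁ W : ℕ) (k : ℕ) (u : ℤ → Bool) :
    dr N D₁ W 1 1 (hmD N D₁ W k) u =
      8 * (Bb D₁ W : ℝ) * (hmA N D₁ W (k + 1) u - lo u) / ((k : ℝ) + 1) := by
  have hk : (0 : ℝ) < (k : ℝ) + 1 := by positivity
  have hB := hm_Bpos D₁ W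
  have h1 : ∀ x : ℤ → Bool, hmD N D₁ W k x - hmD N D₁ W k u =
      (∑ m ∈ Finset.range (k + 1), (hmA N D₁ W m x - hmA N D₁ W m u)) / ((k : ℝ) + 1) := by
    intro x
    unfold hmD
    rw [← sub_div, ← Finset.sum_sub_distrib]
    congr 1
    refine Finset.sum_congr rfl fun m _ => by ring
  have h2 : dr N D₁ W 1 1 (hmD N D₁ W k) u =
      (∑ m ∈ Finset.range (k + 1), dr N D₁ W 1 1 (hmA N D₁ W m) u) / ((k : ℝ) + 1) := by
    unfold dr
    rw [Finset.sum_comm, Finset.sum_div]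
    refine Finset.sum_congr rfl fun s _ => ?_
    rw [h1, h1, one_mul, one_mul, ← add_div, ← Finset.sum_add_distrib]
    congr 1
    refine Finset.sum_congr rfl fun m _ => by ring
  have h3 : ∀ m : ℕ, dr N D₁ W 1 1 (hmA N D₁ W m) u =
      8 * (Bb D₁ W : ℝ) * (hmA N D₁ W (m + 1) u - hmA N D₁ W m u) := by
    intro m
    have e : hmA N D₁ W (m + 1) u - hmA N D₁ W m u =
        1 / (8 * (Bb D₁ W : ℝ)) * dr N D₁ W 1 1 (hmA N D₁ W m) u := by
      simp only [hmA]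
      ring
    rw [e]
    field_simp
  rw [h2]
  congr 1
  simp only [h3]
  rw [← Finset.mul_sum, Finset.sum_range_sub (fun m => hmA N D₁ W m u) (k + 1)]
  simp only [hmA]

theorem thm_Harm (hUp : St_Up) (hF : St_F) : St_Harm := by
  intro N n D₁ W hN
  have hB := hm_Bpos D₁ W
  obtain ⟨F1, F2, F3, F4, F5, F6, F7⟩ := hF N n D₁ W hN
  have hbdlim : ∀ (x : ℕ → ℝ) (c d : ℝ), (∀ k, c ≤ x k ∧ x k ≤ d) →
      ∃ y : ℝ, Tendsto x (hyperfilter ℕ : Filter ℕ) (𝓝 y) := by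
    intro x c d hx
    have h1 : ((hyperfilter ℕ).map x : Filter ℝ) ≤ 𝓟 (Icc c d) := by
      rw [le_principal_iff]
      exact Filter.Eventually.of_forall (f := (hyperfilter ℕ : Filter ℕ)) fun k => hx k
    obtain ⟨y, _, hy⟩ := (isCompact_Icc (a := c) (b := d)).ultrafilter_le_nhds
      ((hyperfilter ℕ).map x) h1
    exact ⟨y, hy⟩
  have hlim : ∀ u : ℤ → Bool, ∃ y : ℝ, IsUp N u →
      Tendsto (fun k => hmD N D₁ W k u) (hyperfilter ℕ : Filter ℕ) (𝓝 y) := by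
    intro u
    by_cases hu : IsUp N u
    · obtain ⟨y, hy⟩ := hbdlim (fun k => hmD N D₁ W k u) (lo u) (lo u + W)
        (fun k => hm_D_bd hN hUp hF k u hu)
      exact ⟨y, fun _ => hy⟩
    · exact ⟨0, fun h => absurd h hu⟩
  choose g hg using hlim
  obtain ⟨v, hv⟩ := hbdlim
    (fun k => 8 * (Bb D₁ W : ℝ) * hmA N D₁ W (k + 1) (H 0) / ((k : ℝ) + 1))
    (-(8 * (Bb D₁ W : ℝ) * (2 * (W : ℝ) + D₁))) (8 * (Bb D₁ W : ℝ) * (2 * (W : ℝ) + D₁)) (by
      intro k
      have h1 := hm_a hN hUp hF (k + 1)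
      rw [abs_le] at h1
      push_cast at h1
      have hk : (0 : ℝ) < (k : ℝ) + 1 := by positivity
      rw [le_div_iff₀ hk, div_le_iff₀ hk]
      constructor <;> nlinarith [h1.1, h1.2, mul_le_mul_of_nonneg_left h1.1 hB.le,
        mul_le_mul_of_nonneg_left h1.2 hB.le])
  refine ⟨v, g, ?_, ?_, ?_, ?_⟩
  · intro u u' hu hu' hle
    refine le_of_tendsto_of_tendsto' (hg u' hu') (hg u hu) fun k => ?_
    have hk : (0 : ℝ) < (k : ℝ) + 1 := by positivity
    unfold hmD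
    refine div_le_div_of_nonneg_right ?_ hk.le
    refine Finset.sum_le_sum fun m _ => ?_
    have := (hm_both hN hUp hF m).1 u u' hu hu' hle
    linarith
  · intro u z hu
    obtain ⟨l, hl⟩ := hu
    have hu' : IsUp N (fun t => u (t - z)) := ⟨l + z, (hUp N n D₁ W hN).2.2.1 l z u hl⟩
    have h1 := hg _ hu'
    have h2 := (hg u ⟨l, hl⟩).add_const (z : ℝ)
    refine tendsto_nhds_unique h1 (h2.congr fun k => ?_)
    have hk : (0 : ℝ) < (k : ℝ) + 1 := by positivity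
    unfold hmD
    rw [eq_div_iff hk.ne', add_mul, div_mul_cancel₀ _ hk.ne']
    have h3 : ∀ m ∈ Finset.range (k + 1),
        hmA N D₁ W m (fun t => u (t - z)) - hmA N D₁ W m (H 0) =
          (hmA N D₁ W m u - hmA N D₁ W m (H 0)) + z := by
      intro m _
      rw [(hm_both hN hUp hF m).2 u z ⟨l, hl⟩]
      ring
    rw [Finset.sum_congr rfl h3, Finset.sum_add_distrib, Finset.sum_const, Finset.card_range,
      nsmul_eq_mul]
    push_cast
    ring
  · intro u hu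
    exact ⟨ge_of_tendsto' (hg u hu) fun k => (hm_D_bd hN hUp hF k u hu).1,
      le_of_tendsto' (hg u hu) fun k => (hm_D_bd hN hUp hF k u hu).2⟩
  · intro u hu
    have h1 : Tendsto (fun k => dr N D₁ W 1 1 (hmD N D₁ W k) u) (hyperfilter ℕ : Filter ℕ)
        (𝓝 (dr N D₁ W 1 1 g u)) := by
      unfold dr
      refine tendsto_finsetSum _ fun s _ => ?_
      exact (((hg _ (F1 u hu s true)).sub (hg u hu)).const_mul 1).add
        (((hg _ (F1 u hu s false)).sub (hg u hu)).const_mul 1)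
    have h2 : Tendsto (fun k : ℕ => 8 * (Bb D₁ W : ℝ) *
        ((hmA N D₁ W (k + 1) u - hmA N D₁ W (k + 1) (H 0)) - lo u) / ((k : ℝ) + 1))
        (hyperfilter ℕ : Filter ℕ) (𝓝 0) := by
      have h3 : Tendsto (fun k : ℕ => 8 * (Bb D₁ W : ℝ) * W / ((k : ℝ) + 1)) atTop (𝓝 0) := by
        refine Tendsto.div_atTop tendsto_const_nhds ?_
        exact tendsto_atTop_add_const_right _ _ tendsto_natCast_atTop_atTop
      refine squeeze_zero (fun k => ?_) (fun k => ?_) (h3.mono_left Nat.hyperfilter_le_atTop)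
      · have hk : (0 : ℝ) < (k : ℝ) + 1 := by positivity
        have := (hm_bd hN hUp hF (k + 1) u hu).1
        exact div_nonneg (mul_nonneg (by positivity) (by linarith)) hk.le
      · have hk : (0 : ℝ) < (k : ℝ) + 1 := by positivity
        have := (hm_bd hN hUp hF (k + 1) u hu).2
        refine div_le_div_of_nonneg_right ?_ hk.le
        exact mul_le_mul_of_nonneg_left (by linarith) (by positivity)
    have h4 := hv.add h2
    rw [add_zero] at h4
    refine tendsto_nhds_unique h1 (h4.congr fun k => ?_)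
    rw [hm_dr_D, ← add_div]
    congr 1
    ring

end Pool.Agent.NVA
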