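import Pool.Agent.NVA.Defs2

/-! Noisy majority voting: the quadratic maximal inequality for the second interface chain. -/

set_option autoImplicit false

namespace Pool.Agent.NVA

open MeasureTheory Set Pool.Agent.Helper55.Vote

private lemma maxs_chain (N : Finset ℤ) (D₁ W : ℕ) (b : Bool) (σ : ℤ) (ω : Om) (i : ℤ)
    (st : St2) :
    ∀ j : ℕ, chS N D₁ W b σ ω i st (j + 1) =
      chS N D₁ W b σ ω (i + 1) (stepS N D₁ W b σ st fun s => ω (s, i)) j
  | 0 => by
    show stepS N D₁ W b σ st (fun s => ω (s, i + ((0 : ℕ) : ℤ))) =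
      stepS N D₁ W b σ st fun s => ω (s, i)
    have e : i + ((0 : ℕ) : ℤ) = i := by simp
    rw [e]
  | j + 1 => by
    have h := maxs_chain N D₁ W b σ ω i st j
    show stepS N D₁ W b σ (chS N D₁ W b σ ω i st (j + 1)) (fun s => ω (s, i + ((j + 1 : ℕ) : ℤ))) =
      stepS N D₁ W b σ (chS N D₁ W b σ ω (i + 1) (stepS N D₁ W b σ st fun s => ω (s, i)) j)
        (fun s => ω (s, i + 1 + (j : ℤ)))
    have e : i + ((j + 1 : ℕ) : ℤ) = i + 1 + (j : ℤ) := by push_cast; ring
    rw [h, e]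

/-- the event that `f` passes the line with the slope `c` started at the level `a` -/
private def maxs_ev (N : Finset ℤ) (D₁ W : ℕ) (b : Bool) (σ : ℤ) (f : St2 → ℝ) (c : ℝ) (m : ℕ)
    (i : ℤ) (st : St2) (a : ℝ) : Set Om :=
  {ω | ∃ j : ℕ, j ≤ m ∧ a + c * j ≤ f (chS N D₁ W b σ ω i st j)}

private lemma maxs_zero (N : Finset ℤ) (D₁ W : ℕ) (b : Bool) (σ : ℤ) (f : St2 → ℝ) (c : ℝ)
    (i : ℤ) (st : St2) (a : ℝ) :
    maxs_ev N D₁ W b σ f c 0 i st a = {_ω | a ≤ f st} := by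
  ext ω
  constructor
  · rintro ⟨j, hj, h⟩
    obtain rfl : j = 0 := by omega
    have h' : a + c * ((0 : ℕ) : ℝ) ≤ f st := h
    rw [Nat.cast_zero, mul_zero, add_zero] at h'
    exact h'
  · intro h
    refine ⟨0, le_refl _, ?_⟩
    show a + c * ((0 : ℕ) : ℝ) ≤ f st
    rw [Nat.cast_zero, mul_zero, add_zero]
    exact h

private lemma maxs_succ (N : Finset ℤ) (D₁ W : ℕ) (b : Bool) (σ : ℤ) (f : St2 → ℝ) (c : ℝ)
    (m : ℕ) (i : ℤ) (st : St2) (a : ℝ) :
    maxs_ev N D₁ W b σ f c (m + 1) i st a = {_ω | a ≤ f st} ∪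
      {ω | ω ∈ maxs_ev N D₁ W b σ f c m (i + 1) (stepS N D₁ W b σ st fun s => ω (s, i))
        (a + c)} := by
  ext ω
  constructor
  · rintro ⟨j, hj, h⟩
    rcases Nat.eq_zero_or_pos j with rfl | hj0
    · left
      have h' : a + c * ((0 : ℕ) : ℝ) ≤ f st := h
      rw [Nat.cast_zero, mul_zero, add_zero] at h'
      exact h'
    · right
      obtain ⟨j', rfl⟩ : ∃ j', j = j' + 1 := ⟨j - 1, by omega⟩
      refine ⟨j', by omega, ?_⟩
      rw [maxs_chain] at h
      push_cast at h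
      linarith
  · rintro (h | ⟨j, hj, h⟩)
    · refine ⟨0, Nat.zero_le _, ?_⟩
      show a + c * ((0 : ℕ) : ℝ) ≤ f st
      rw [Nat.cast_zero, mul_zero, add_zero]
      exact h
    · refine ⟨j + 1, by omega, ?_⟩
      rw [maxs_chain]
      push_cast
      linarith

private lemma maxs_const (R : Set (ℤ × ℤ)) (P : Prop) : FL R {_ω | P} := by
  by_cases hP : P
  · have e : ({_ω : Om | P} : Set Om) = Set.univ := by
      ext ω
      exact ⟨fun _ => trivial, fun _ => hP⟩
    rw [e]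
    exact FL.univ R
  · have e : ({_ω : Om | P} : Set Om) = ∅ := by
      ext ω
      exact ⟨fun h => (hP h).elim, fun h => h.elim⟩
    rw [e]
    exact FL.empty R

private lemma maxs_FL (hStepS : St_StepS) (N : Finset ℤ) (D₁ W : ℕ) (μ₀ : Measure (Option Bool))
    [IsProbabilityMeasure μ₀] (b : Bool) (σ : ℤ) (f : St2 → ℝ) (c : ℝ) :
    ∀ (m : ℕ) (i : ℤ) (st : St2) (a : ℝ),
      FL {z : ℤ × ℤ | i ≤ z.2} (maxs_ev N D₁ W b σ f c m i st a) := by
  intro m
  induction m with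
  | zero =>
    intro i st a
    rw [maxs_zero]
    exact maxs_const _ _
  | succ m ih =>
    intro i st a
    rw [maxs_succ]
    refine FL.union (maxs_const _ _) ?_
    exact (hStepS N D₁ W μ₀ b σ st i (fun st' => maxs_ev N D₁ W b σ f c m (i + 1) st' (a + c))
      (fun st' => ih (i + 1) st' (a + c))).2.1

private lemma maxs_sum (μ₀ : Measure (Option Bool)) [IsProbabilityMeasure μ₀] (b : Bool) :
    μ₀.real {some b} + μ₀.real {some (!b)} ≤ 1 := by
  have hd : Disjoint ({some b} : Set (Option Bool)) {some (!b)} := by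
    rw [Set.disjoint_singleton]
    intro h
    cases b <;> simp at h
  have h := measureReal_union (μ := μ₀) hd (MeasurableSet.singleton _)
  rw [← h]
  exact measureReal_le_one

private lemma maxs_sq (y ξ : ℝ) :
    (max (y + ξ) 0) ^ 2 ≤ (max y 0) ^ 2 + 2 * (max y 0) * ξ + ξ ^ 2 := by
  rcases le_total 0 y with hy | hy
  · rw [max_eq_left hy]
    rcases le_total 0 (y + ξ) with h | h
    · rw [max_eq_left h]; nlinarith
    · rw [max_eq_right h]; nlinarith [sq_nonneg (y + ξ)]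
  · rw [max_eq_right hy]
    rcases le_total 0 (y + ξ) with h | h
    · rw [max_eq_left h]
      have h1 : y + ξ ≤ ξ := by linarith
      have h2 : (y + ξ) ^ 2 ≤ ξ ^ 2 := pow_le_pow_left₀ h h1 2
      nlinarith
    · rw [max_eq_right h]; nlinarith [sq_nonneg ξ]

private lemma maxs_card (D₁ W : ℕ) (u : ℤ → Bool) : (win D₁ W u).card = 2 * Bb D₁ W := by
  unfold win
  rw [Int.card_Ico]
  omega

private lemma maxs_mono (N : Finset ℤ) (D₁ W : ℕ) (σ : ℤ) (p p' : ℝ) (hp : 0 ≤ p)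
    (hp' : 0 ≤ p') (hx : p + p' ≤ 1) (hq2 : 0 ≤ q2 D₁ W p p') (A : Set St2)
    (hA : ∀ st ∈ A, (st.1, st.2.1 - 1, st.2.2) ∈ A ∧ rst D₁ W σ st.1 ∈ A ∧
      ∀ s c, (F N D₁ W st.1 s c, Rr D₁ W + 1, false) ∈ A)
    (g h : St2 → ℝ) (hgh : ∀ st ∈ A, g st ≤ h st) (st : St2) (hst : st ∈ A) :
    mS N D₁ W σ p p' g st ≤ mS N D₁ W σ p p' h st := by
  obtain ⟨h1, h2, h3⟩ := hA st hst
  have hq0 : 0 ≤ q0 D₁ W p p' := by
    unfold q0
    exact pow_nonneg (by linarith) _
  have hq01 : q0 D₁ W p p' ≤ 1 := by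
    unfold q0
    exact pow_le_one₀ (by linarith) (by linarith)
  have hqq : 0 ≤ qq D₁ W p p' := by
    unfold qq
    exact pow_nonneg (by linarith) _
  unfold mS
  by_cases h0 : st.2.1 = 0
  · rw [if_pos h0, if_pos h0]
    rw [h0] at h1
    refine add_le_add (add_le_add ?_ ?_) ?_
    · exact mul_le_mul_of_nonneg_left (hgh _ h1) hq0
    · apply Finset.sum_le_sum
      intro s _
      refine mul_le_mul_of_nonneg_left ?_ hqq
      exact add_le_add (mul_le_mul_of_nonneg_left (hgh _ (h3 s true)) hp)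
        (mul_le_mul_of_nonneg_left (hgh _ (h3 s false)) hp')
    · exact mul_le_mul_of_nonneg_left (hgh _ h2) hq2
  · rw [if_neg h0, if_neg h0]
    exact add_le_add (mul_le_mul_of_nonneg_left (hgh _ h1) hq0)
      (mul_le_mul_of_nonneg_left (hgh _ h2) (by linarith))

private lemma maxs_lin (N : Finset ℤ) (D₁ W : ℕ) (σ : ℤ) (p p' : ℝ) (g h : St2 → ℝ)
    (K α β : ℝ) (st : St2) :
    mS N D₁ W σ p p' (fun st' => K + α * g st' + β * h st') st =
      K + α * mS N D₁ W σ p p' g st + β * mS N D₁ W σ p p' h st := by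
  unfold mS
  by_cases h0 : st.2.1 = 0
  · rw [if_pos h0, if_pos h0, if_pos h0]
    have e : ∑ s ∈ win D₁ W st.1, qq D₁ W p p' *
        (p * (K + α * g (F N D₁ W st.1 s true, Rr D₁ W + 1, false) +
            β * h (F N D₁ W st.1 s true, Rr D₁ W + 1, false)) +
          p' * (K + α * g (F N D₁ W st.1 s false, Rr D₁ W + 1, false) +
            β * h (F N D₁ W st.1 s false, Rr D₁ W + 1, false))) =
        2 * Bb D₁ W * (qq D₁ W p p' * (p + p') * K) +
        α * ∑ s ∈ win D₁ W st.1, qq D₁ W p p' *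
          (p * g (F N D₁ W st.1 s true, Rr D₁ W + 1, false) +
            p' * g (F N D₁ W st.1 s false, Rr D₁ W + 1, false)) +
        β * ∑ s ∈ win D₁ W st.1, qq D₁ W p p' *
          (p * h (F N D₁ W st.1 s true, Rr D₁ W + 1, false) +
            p' * h (F N D₁ W st.1 s false, Rr D₁ W + 1, false)) := by
      have e1 : 2 * (Bb D₁ W : ℝ) * (qq D₁ W p p' * (p + p') * K) =
          ∑ s ∈ win D₁ W st.1, qq D₁ W p p' * (p + p') * K := by
        rw [Finset.sum_const, maxs_card, nsmul_eq_mul]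
        push_cast
        rfl
      rw [e1, Finset.mul_sum, Finset.mul_sum, ← Finset.sum_add_distrib,
        ← Finset.sum_add_distrib]
      apply Finset.sum_congr rfl
      intro s _
      ring
    simp only [e]
    unfold q2
    ring
  · rw [if_neg h0, if_neg h0, if_neg h0]
    ring

private lemma maxs_bd (hStepS : St_StepS) (N : Finset ℤ) (D₁ W : ℕ) (μ₀ : Measure (Option Bool))
    [IsProbabilityMeasure μ₀] (b : Bool) (σ : ℤ) (A : Set St2) (f : St2 → ℝ)
    (d m₂ Λ : ℝ)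
    (hA : ∀ st ∈ A, (st.1, st.2.1 - 1, st.2.2) ∈ A ∧ rst D₁ W σ st.1 ∈ A ∧
      ∀ s c, (F N D₁ W st.1 s c, Rr D₁ W + 1, false) ∈ A)
    (hd : ∀ st ∈ A, mS N D₁ W σ (μ₀.real {some b}) (μ₀.real {some (!b)})
      (fun st' => f st' - f st) st ≤ d)
    (hm : ∀ st ∈ A, mS N D₁ W σ (μ₀.real {some b}) (μ₀.real {some (!b)})
      (fun st' => (f st' - f st) ^ 2) st ≤ m₂) (hm0 : 0 ≤ m₂) (hΛ : 0 < Λ) :
    ∀ (m : ℕ) (i : ℤ), ∀ st ∈ A, ∀ y : ℝ,
      (Pm μ₀).real (maxs_ev N D₁ W b σ f d m i st (f st + Λ - y)) ≤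
        ((max y 0) ^ 2 + m * (2 * m₂ + 2 * d ^ 2)) / Λ ^ 2 := by
  have hp0 : 0 ≤ μ₀.real {some b} := measureReal_nonneg
  have hp0' : 0 ≤ μ₀.real {some (!b)} := measureReal_nonneg
  have hx1 : μ₀.real {some b} + μ₀.real {some (!b)} ≤ 1 := maxs_sum μ₀ b
  set τ : ℝ := 2 * m₂ + 2 * d ^ 2 with hτ
  have hτ0 : 0 ≤ τ := by rw [hτ]; positivity
  have hΛ2 : 0 < Λ ^ 2 := by positivity
  -- the trivial case
  have triv : ∀ (m : ℕ) (E : Set Om) (y : ℝ), Λ ≤ y →
      (Pm μ₀).real E ≤ ((max y 0) ^ 2 + m * τ) / Λ ^ 2 := by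
    intro m E y hy
    have hP : IsProbabilityMeasure (Pm μ₀) := by unfold Pm; infer_instance
    have h1 : (Pm μ₀).real E ≤ 1 := measureReal_le_one
    have h2 : (1 : ℝ) ≤ ((max y 0) ^ 2 + m * τ) / Λ ^ 2 := by
      rw [one_le_div hΛ2, max_eq_left (by linarith)]
      have h3 : Λ ^ 2 ≤ y ^ 2 := pow_le_pow_left₀ hΛ.le hy 2
      have h4 : (0 : ℝ) ≤ m * τ := mul_nonneg (Nat.cast_nonneg _) hτ0
      linarith
    linarith
  intro m
  induction m with
  | zero =>
    intro i st hst y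
    rcases le_or_gt Λ y with hy | hy
    · exact triv 0 _ y hy
    · rw [maxs_zero]
      have e : ({_ω : Om | f st + Λ - y ≤ f st} : Set Om) = ∅ := by
        ext ω
        refine ⟨fun h => ?_, fun h => h.elim⟩
        have h' : f st + Λ - y ≤ f st := h
        exfalso
        linarith
      rw [e, measureReal_empty]
      have h4 : (0 : ℝ) ≤ ((0 : ℕ) : ℝ) * τ := by simp
      positivity
  | succ m ih =>
    intro i st hst y
    rcases le_or_gt Λ y with hy | hy
    · exact triv (m + 1) _ y hy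
    · rw [maxs_succ]
      have e : ({_ω : Om | f st + Λ - y ≤ f st} : Set Om) = ∅ := by
        ext ω
        refine ⟨fun h => ?_, fun h => h.elim⟩
        have h' : f st + Λ - y ≤ f st := h
        exfalso
        linarith
      rw [e, Set.empty_union]
      obtain ⟨hS1, -, hS3⟩ := hStepS N D₁ W μ₀ b σ st i
        (fun st' => maxs_ev N D₁ W b σ f d m (i + 1) st' (f st + Λ - y + d))
        (fun st' => maxs_FL hStepS N D₁ W μ₀ b σ f d m (i + 1) st' _)
      refine le_trans (le_of_eq hS3) ?_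
      set Y : ℝ := max y 0 with hY
      have hY0 : 0 ≤ Y := le_max_right _ _
      set K : ℝ := Y ^ 2 + m * τ + 2 * d ^ 2 - 2 * Y * d with hK
      -- the bound for every next state
      have key : ∀ st' ∈ A, (Pm μ₀).real
          (maxs_ev N D₁ W b σ f d m (i + 1) st' (f st + Λ - y + d)) ≤
          K / Λ ^ 2 + (2 * Y / Λ ^ 2) * (f st' - f st) + (2 / Λ ^ 2) * (f st' - f st) ^ 2 := by
        intro st' hst'
        have h1 := ih (i + 1) st' hst' (y + (f st' - f st - d))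
        have e1 : f st' + Λ - (y + (f st' - f st - d)) = f st + Λ - y + d := by ring
        rw [e1] at h1
        refine le_trans h1 ?_
        have e2 : K / Λ ^ 2 + (2 * Y / Λ ^ 2) * (f st' - f st) +
            (2 / Λ ^ 2) * (f st' - f st) ^ 2 =
            (K + 2 * Y * (f st' - f st) + 2 * (f st' - f st) ^ 2) / Λ ^ 2 := by
          field_simp
        rw [e2]
        apply div_le_div_of_nonneg_right _ hΛ2.le
        have h2 := maxs_sq y (f st' - f st - d)
        rw [← hY] at h2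
        have h3 : (f st' - f st - d) ^ 2 ≤ 2 * (f st' - f st) ^ 2 + 2 * d ^ 2 := by
          nlinarith [sq_nonneg (f st' - f st + d)]
        rw [hK]
        nlinarith
      have hmono := maxs_mono N D₁ W σ _ _ hp0 hp0' hx1 hS1 A hA
        (fun st' => (Pm μ₀).real
          (maxs_ev N D₁ W b σ f d m (i + 1) st' (f st + Λ - y + d)))
        (fun st' => K / Λ ^ 2 + (2 * Y / Λ ^ 2) * (f st' - f st) +
          (2 / Λ ^ 2) * (f st' - f st) ^ 2) key st hst
      refine le_trans hmono ?_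
      rw [maxs_lin N D₁ W σ _ _ (fun st' => f st' - f st) (fun st' => (f st' - f st) ^ 2)]
      have h1 : 2 * Y / Λ ^ 2 * mS N D₁ W σ (μ₀.real {some b}) (μ₀.real {some (!b)})
          (fun st' => f st' - f st) st ≤ 2 * Y / Λ ^ 2 * d := by
        apply mul_le_mul_of_nonneg_left (hd st hst)
        positivity
      have h2 : 2 / Λ ^ 2 * mS N D₁ W σ (μ₀.real {some b}) (μ₀.real {some (!b)})
          (fun st' => (f st' - f st) ^ 2) st ≤ 2 / Λ ^ 2 * m₂ := by
        apply mul_le_mul_of_nonneg_left (hm st hst)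
        positivity
      have h3 : K / Λ ^ 2 + 2 * Y / Λ ^ 2 * d + 2 / Λ ^ 2 * m₂ =
          (Y ^ 2 + ((m + 1 : ℕ) : ℝ) * τ) / Λ ^ 2 := by
        rw [hK]
        field_simp
        push_cast
        rw [hτ]
        ring
      linarith

theorem thm_MaxS (hStepS : St_StepS) : St_MaxS := by
  intro N D₁ W μ₀ hμ b σ A f d m₂ Λ hA hd hm hΛ m i st hst
  have e : {ω : Om | ∃ j ≤ m, f st + d * j + Λ ≤ f (chS N D₁ W b σ ω i st j)} =
      maxs_ev N D₁ W b σ f d m i st (f st + Λ - 0) := by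
    ext ω
    constructor
    · rintro ⟨j, hj, h⟩
      exact ⟨j, hj, by linarith⟩
    · rintro ⟨j, hj, h⟩
      exact ⟨j, hj, by linarith⟩
  rw [e]
  have hq2 : 0 ≤ q2 D₁ W (μ₀.real {some b}) (μ₀.real {some (!b)}) :=
    (hStepS N D₁ W μ₀ b σ st i (fun _ => ∅) (fun _ => FL.empty _)).1
  have hm0 : 0 ≤ m₂ := by
    refine le_trans ?_ (hm st hst)
    have h1 := maxs_mono N D₁ W σ _ _ measureReal_nonneg measureReal_nonneg (maxs_sum μ₀ b) hq2
      A hA (fun _ => (0 : ℝ)) (fun st' => (f st' - f st) ^ 2) (fun st' _ => sq_nonneg _) st hst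
    have h2 : mS N D₁ W σ (μ₀.real {some b}) (μ₀.real {some (!b)}) (fun _ => (0 : ℝ)) st = 0 := by
      unfold mS
      split_ifs <;> simp
    rw [h2] at h1
    exact h1
  have h := maxs_bd hStepS N D₁ W μ₀ b σ A f d m₂ Λ hA hd hm hm0 hΛ m i st hst 0
  rw [max_self] at h
  refine le_trans h (le_of_eq ?_)
  ring

end Pool.Agent.NVA
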