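import Pool.Agent.NVA.St

set_option autoImplicit false

/-! A single neighbour. -/

namespace Pool.Agent.NVA

open MeasureTheory Set Pool.Agent.Helper55.Vote

private lemma One_maj (c : ℤ) (x : ℤ → Bool) (s : ℤ) : maj {c} x s = x (s + c) := by
  unfold maj
  by_cases h : x (s + c) = true
  · simp [Finset.filter_singleton, h]
  · simp [Finset.filter_singleton, h]

/-- two runs differ at `(s, n)` only if there is no noise on the path -/
private lemma One_run (c : ℤ) (ω : Om) (x y : ℤ → Bool) (n : ℕ) (s : ℤ)
    (h : run {c} ω 0 x n s ≠ run {c} ω 0 y n s) :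
    ∀ j < n, ω (s + (((n : ℤ) - 1 - j) * c), (j : ℤ)) = none := by
  induction n generalizing s with
  | zero => intro j hj; exact absurd hj (Nat.not_lt_zero _)
  | succ n ih =>
    have h0 : ω (s, (0 : ℤ) + n) = none := by
      by_contra hcon
      apply h
      exact agree_of_noise {c} ω 0 x y n s hcon
    have h1 : run {c} ω 0 x n (s + c) ≠ run {c} ω 0 y n (s + c) := by
      intro hcon
      apply h
      rw [run_succ, run_succ]
      unfold step
      change (ω (s, (0 : ℤ) + n)).getD _ = (ω (s, (0 : ℤ) + n)).getD _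
      rw [h0, One_maj, One_maj, hcon]
    intro j hj
    by_cases hjn : j = n
    · rw [hjn]
      have e : s + (((n + 1 : ℕ) : ℤ) - 1 - n) * c = s := by push_cast; ring
      rw [e]
      simpa using h0
    · have h2 := ih (s + c) h1 j (by omega)
      have e : s + c + (((n : ℤ)) - 1 - j) * c = s + (((n + 1 : ℕ) : ℤ) - 1 - j) * c := by
        push_cast; ring
      rw [e] at h2
      exact h2

private lemma One_prob (μ₀ : Measure (Option Bool)) [IsProbabilityMeasure μ₀] (f : ℕ → ℤ)
    (n : ℕ) : (Pm μ₀).real {ω | ∀ j < n, ω (f j, (j : ℤ)) = none} = (μ₀.real {none}) ^ n := by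
  classical
  induction n with
  | zero => simp
  | succ n ih =>
    have h1 : FL {((f n, (n : ℤ)) : ℤ × ℤ)} {ω | ω (f n, (n : ℤ)) ∈ ({none} : Set (Option Bool))} :=
      FL.single _ (by simp) _
    have h2 : FL ({((f n, (n : ℤ)) : ℤ × ℤ)} : Set (ℤ × ℤ))ᶜ
        {ω | ∀ j < n, ω (f j, (j : ℤ)) = none} := by
      have h3 := FL.biInter (R := ({((f n, (n : ℤ)) : ℤ × ℤ)} : Set (ℤ × ℤ))ᶜ) (Finset.range n)
        (fun j => {ω | ω (f j, (j : ℤ)) ∈ ({none} : Set (Option Bool))}) fun j hj =>
          FL.single _ (by
            rw [Finset.mem_range] at hj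
            simp only [mem_compl_iff, mem_singleton_iff, Prod.mk.injEq, not_and]
            intro _ h
            have : j = n := by exact_mod_cast h
            omega) _
      have e : {ω : Om | ∀ j < n, ω (f j, (j : ℤ)) = none} =
          ⋂ j ∈ Finset.range n, {ω | ω (f j, (j : ℤ)) ∈ ({none} : Set (Option Bool))} := by
        ext ω
        simp
      rw [e]
      exact h3
    have e : {ω : Om | ∀ j < n + 1, ω (f j, (j : ℤ)) = none} =
        {ω | ω (f n, (n : ℤ)) ∈ ({none} : Set (Option Bool))} ∩
          {ω | ∀ j < n, ω (f j, (j : ℤ)) = none} := by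
      ext ω
      simp only [mem_ofPred_eq, mem_inter_iff, mem_singleton_iff]
      constructor
      · intro h
        exact ⟨h n (by omega), fun j hj => h j (by omega)⟩
      · rintro ⟨h, h'⟩ j hj
        by_cases hjn : j = n
        · rw [hjn]; exact h
        · exact h' j (by omega)
    rw [e, h1.indep μ₀ h2 disjoint_compl_right, ih, prob_single, pow_succ, mul_comm]

theorem thm_One : St_One := by
  intro μ₀ _ c hpos
  have h1 : μ₀.real {none} < 1 := by
    have h2 : μ₀.real ({none} ∪ {some true}) ≤ 1 := measureReal_le_one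
    rw [measureReal_union (by simp) (measurableSet_singleton _)] at h2
    linarith
  have h0 : 0 ≤ μ₀.real {none} := measureReal_nonneg
  refine squeeze_zero (fun t => ?_) (fun t => ?_)
    (tendsto_pow_atTop_nhds_zero_of_lt_one h0 h1)
  · exact measureReal_nonneg
  · unfold D
    rw [← One_prob μ₀ (fun j => 0 + (((t : ℤ) - 1 - j) * c)) t]
    refine measureReal_mono ?_ (measure_ne_top _ _)
    intro ω hω
    exact One_run c ω _ _ t 0 hω

end Pool.Agent.NVA
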