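import Pool.Agent.NVA.Defs2

set_option autoImplicit false

/-! The good event of the second version has a high probability for a suitable choice of the
parameters. -/

namespace Pool.Agent.NVA

open MeasureTheory Set Pool.Agent.Helper55.Vote

private lemma ParS_last (μ₀ : Measure (Option Bool)) [IsProbabilityMeasure μ₀] (b : Bool) (L : ℕ)
    (S t : ℤ) :
    (Pm μ₀).real {ω | ¬ ∀ s : ℤ, S - 3 * L ≤ s → s < S + 4 * L → ω (s, t) ≠ some (!b)} ≤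
      7 * L * μ₀.real {some (!b)} := by
  have e : {ω : Om | ¬ ∀ s : ℤ, S - 3 * L ≤ s → s < S + 4 * L → ω (s, t) ≠ some (!b)} ⊆
      ⋃ s ∈ Finset.Ico (S - 3 * (L : ℤ)) (S + 4 * L),
        {ω | ω (s, t) ∈ ({some (!b)} : Set (Option Bool))} := by
    intro ω hω
    simp only [mem_ofPred_eq] at hω
    push Not at hω
    obtain ⟨s, h1, h2, h3⟩ := hω
    exact mem_biUnion (Finset.mem_coe.2 (Finset.mem_Ico.2 ⟨h1, h2⟩)) h3
  refine (measureReal_mono e (measure_ne_top _ _)).trans ?_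
  refine (measureReal_biUnion_finset_le _ _).trans ?_
  simp only [prob_single]
  rw [Finset.sum_const, Int.card_Ico, nsmul_eq_mul]
  have : (S + 4 * (L : ℤ) - (S - 3 * L)) = ((7 * L : ℕ) : ℤ) := by push_cast; ring
  rw [this, Int.toNat_natCast]
  push_cast
  exact le_rfl

private lemma ParS_sub {N : Finset ℤ} {n D₁ W : ℕ} {b : Bool} {v κ C p p' q σ : ℝ} {L T w : ℕ}
    {S : ℤ} (hκ : 0 < κ) (hC : 1 ≤ C) (hp : p' < p) (hq0 : 1 / 2 ≤ q)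
    (hq1 : q ≤ 1) (hσ : σ = q * (p' * v - 3 * κ * (p - p') / 4))
    (hL : C + 2 * ((Bb D₁ W : ℝ) + (Jj D₁ W : ℝ)) + 1 ≤ L / 16)
    (hT1 : 32 * (L : ℝ) ≤ κ * (p - p') * T)
    (hT2 : κ * (p - p') * T ≤ 33 * L) (hw : 33 * C + 40 * κ ≤ κ * w)
    (hS1 : (S : ℝ) ≤ σ * T) (hS2 : σ * T ≤ S + 1) :
    (gS2 N n D₁ W b σ w L T S)ᶜ ⊆ (CluOn (Box σ w L T) b n D₁)ᶜ ∪
      ({ω | ∃ j ≤ T, ((0 : ℤ) : ℝ) + q * (p' * v - κ * (p - p')) * j + L / 16 + C ≤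
          (lo (chS N D₁ W b 1 ω 0 (ini 0) j).1 : ℝ)} ∪
      ({ω | ∃ j ≤ T, (lo (chS N D₁ W b 1 ω 0 (ini 0) j).1 : ℝ) ≤
          ((0 : ℤ) : ℝ) + q * (p' * v - C * (p - p')) * j - L / 16 - C} ∪
      ({ω | ∃ j ≤ T, (lo (chS N D₁ W (!b) (-1) ω 0 (ini L) j).1 : ℝ) ≤
          ((L : ℤ) : ℝ) + q * (p' * v - κ / 2 * (p - p')) * j - L / 16 - C} ∪
      ({ω | ∃ j ≤ T, ((L : ℤ) : ℝ) + q * (p' * v + C * (p - p')) * j + L / 16 + C ≤
          (lo (chS N D₁ W (!b) (-1) ω 0 (ini L) j).1 : ℝ)} ∪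
      {ω | ¬ ∀ s : ℤ, S - 3 * L ≤ s → s < S + 4 * L → ω (s, (T : ℤ) - 1) ≠ some (!b)})))) := by
  intro ω hω
  by_contra hcon
  simp only [mem_union, not_or, mem_compl_iff, not_not, mem_ofPred_eq, not_exists, not_and,
    not_le] at hcon
  obtain ⟨g1, g2, g3, g4, g5, g6⟩ := hcon
  apply hω
  have hB : (0 : ℝ) ≤ (Bb D₁ W : ℝ) := Nat.cast_nonneg _
  have hJ : (0 : ℝ) ≤ (Jj D₁ W : ℝ) := Nat.cast_nonneg _
  have hL0 : (0 : ℝ) ≤ (L : ℝ) := Nat.cast_nonneg _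
  have hh : 0 < p - p' := sub_pos.2 hp
  have hq : 0 < q := by linarith
  have ha0 : ∀ j : ℕ, 0 ≤ q * (p - p') * j := fun j => by positivity
  have ha1 : ∀ j : ℕ, j ≤ T → κ * (q * (p - p') * j) ≤ 33 * L := by
    intro j hj
    have h1 : (j : ℝ) ≤ T := by exact_mod_cast hj
    have h2 : κ * (q * (p - p') * j) ≤ κ * (1 * (p - p') * T) := by gcongr
    linarith
  have ha2 : ∀ j : ℕ, j ≤ T → C * (q * (p - p') * j) ≤ (w - 40) * L := by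
    intro j hj
    have h1 : C * (κ * (q * (p - p') * j)) ≤ C * (33 * L) :=
      mul_le_mul_of_nonneg_left (ha1 j hj) (by linarith)
    have h2 : (33 * C) * L ≤ (κ * (w - 40)) * L := mul_le_mul_of_nonneg_right (by linarith) hL0
    have h3 : κ * (C * (q * (p - p') * j)) ≤ κ * ((w - 40) * L) := by linarith
    exact le_of_mul_le_mul_left h3 hκ
  have e1 : ∀ j : ℕ, σ * j = q * p' * v * j - 3 * (κ * (q * (p - p') * j)) / 4 := by
    intro j; rw [hσ]; ring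
  have hLL : (((L : ℤ)) : ℝ) = (L : ℝ) := by push_cast; rfl
  have hlo1 : ∀ j ≤ T, σ * j - (w - 1) * L ≤ (lo (chS N D₁ W b 1 ω 0 (ini 0) j).1 : ℝ) ∧
      (lo (chS N D₁ W b 1 ω 0 (ini 0) j).1 : ℝ) ≤ σ * j + L / 4 := by
    intro j hj
    have h1 := g2 j hj
    have h2 := g3 j hj
    have h3 := ha0 j
    have h4 := ha1 j hj
    have h5 := ha2 j hj
    have h6 := mul_nonneg hκ.le h3
    rw [e1 j]
    have h7 : q * (p' * v - κ * (p - p')) * j = q * p' * v * j - κ * (q * (p - p') * j) := by ring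
    have h8 : q * (p' * v - C * (p - p')) * j = q * p' * v * j - C * (q * (p - p') * j) := by ring
    rw [h7] at h1
    rw [h8] at h2
    push_cast at h1 h2
    have h9 : ((w : ℝ) - 1) * L = (w - 40) * L + 39 * L := by ring
    rw [h9]
    constructor <;> linarith
  have hlo2 : ∀ j ≤ T, σ * j + L - L / 4 ≤ (lo (chS N D₁ W (!b) (-1) ω 0 (ini L) j).1 : ℝ) ∧
      (lo (chS N D₁ W (!b) (-1) ω 0 (ini L) j).1 : ℝ) ≤ σ * j + w * L := by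
    intro j hj
    have h1 := g4 j hj
    have h2 := g5 j hj
    have h3 := ha0 j
    have h4 := ha1 j hj
    have h5 := ha2 j hj
    have h6 := mul_nonneg hκ.le h3
    rw [e1 j]
    have h7 : q * (p' * v - κ / 2 * (p - p')) * j =
      q * p' * v * j - κ * (q * (p - p') * j) / 2 := by ring
    have h8 : q * (p' * v + C * (p - p')) * j = q * p' * v * j + C * (q * (p - p') * j) := by ring
    rw [h7, hLL] at h1
    rw [h8, hLL] at h2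
    have h9 : (w : ℝ) * L = (w - 40) * L + 40 * L := by ring
    rw [h9]
    constructor <;> linarith
  have hqT : 16 * (L : ℝ) ≤ κ * (q * (p - p') * T) := by
    have h1 : κ * (1 / 2 * (p - p') * T) ≤ κ * (q * (p - p') * T) := by gcongr
    linarith
  refine ⟨g1, hlo1, hlo2, ?_, ?_, g6⟩
  · have h1 := g2 T le_rfl
    have h2 := e1 T
    have h7 : q * (p' * v - κ * (p - p')) * T = q * p' * v * T - κ * (q * (p - p') * T) := by ring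
    rw [h7] at h1
    push_cast at h1
    have h3 : (lo (chS N D₁ W b 1 ω 0 (ini 0) T).1 : ℝ) +
        2 * ((Bb D₁ W : ℝ) + (Jj D₁ W : ℝ)) ≤ S - 3 * L := by
      linarith
    exact_mod_cast h3
  · have h1 := g4 T le_rfl
    have h2 := e1 T
    have h7 : q * (p' * v - κ / 2 * (p - p')) * T =
      q * p' * v * T - κ * (q * (p - p') * T) / 2 := by ring
    rw [h7, hLL] at h1
    have h3 : (S : ℝ) + 4 * L ≤ (lo (chS N D₁ W (!b) (-1) ω 0 (ini L) T).1 : ℝ) -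
        2 * ((Bb D₁ W : ℝ) + (Jj D₁ W : ℝ)) := by
      linarith
    exact_mod_cast h3

private lemma ParS_q {D₁ W : ℕ} {p p' B : ℝ} (hB : (Bb D₁ W : ℝ) = B) (hp'0 : 0 ≤ p') (hp0 : 0 < p)
    (hlt : p' < p) (hpp1 : p + p' ≤ 1) (hpB : 8 * B * p ≤ 1) :
    1 / 2 ≤ qq D₁ W p p' ∧ qq D₁ W p p' ≤ 1 := by
  constructor
  · have h1 := one_add_mul_le_pow (a := -(p + p')) (by linarith) (2 * Bb D₁ W - 1)
    have h2 : (1 + -(p + p')) ^ (2 * Bb D₁ W - 1) = qq D₁ W p p' := by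
      rw [qq]; congr 1; ring
    rw [h2] at h1
    have h3 : ((2 * Bb D₁ W - 1 : ℕ) : ℝ) ≤ 2 * B := by
      have : 2 * Bb D₁ W - 1 ≤ 2 * Bb D₁ W := by omega
      rw [← hB]
      exact_mod_cast this
    have h4 : ((2 * Bb D₁ W - 1 : ℕ) : ℝ) * (p + p') ≤ 2 * B * (p + p') :=
      mul_le_mul_of_nonneg_right h3 (by linarith)
    have hB0 : 0 ≤ B := by rw [← hB]; exact Nat.cast_nonneg _
    have h5 : 2 * B * (p + p') ≤ 2 * B * (2 * p) :=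
      mul_le_mul_of_nonneg_left (by linarith) (by linarith)
    have h6 : 2 * B * (2 * p) = (8 * B * p) / 2 := by ring
    have h7 : ((2 * Bb D₁ W - 1 : ℕ) : ℝ) * -(p + p') =
      -(((2 * Bb D₁ W - 1 : ℕ) : ℝ) * (p + p')) := by ring
    rw [h7] at h1
    linarith
  · rw [qq]
    exact pow_le_one₀ (by linarith) (by linarith)

private lemma ParS_sig {p p' q v κ C₀ : ℝ} (hp'0 : 0 ≤ p') (hlt : p' < p) (hp1 : p ≤ 1 / 4)
    (hκ : 0 < κ) (hκ1 : κ ≤ 1) (hv : |v| ≤ C₀) (hpC : 2 * C₀ * p ≤ 1) (hq0 : 0 < q)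
    (hq1 : q ≤ 1) : |q * (p' * v - 3 * κ * (p - p') / 4)| ≤ 1 := by
  rw [abs_mul, abs_of_pos hq0]
  have h1 : |p' * v - 3 * κ * (p - p') / 4| ≤ 1 := by
    have h2 : |p' * v| ≤ p * C₀ := by
      rw [abs_mul, abs_of_nonneg hp'0]
      exact mul_le_mul hlt.le hv (abs_nonneg _) (by linarith)
    have h3 : 0 ≤ κ * (p - p') := mul_nonneg hκ.le (by linarith)
    have h4 : κ * (p - p') ≤ 1 / 4 := by
      have : κ * (p - p') ≤ 1 * (1 / 4) := mul_le_mul hκ1 (by linarith) (by linarith) (by norm_num)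
      linarith
    have h5 := abs_le.1 h2
    rw [abs_le]
    constructor <;> linarith
  calc q * |p' * v - 3 * κ * (p - p') / 4| ≤ 1 * 1 :=
        mul_le_mul hq1 h1 (abs_nonneg _) (by norm_num)
    _ = 1 := by norm_num

private lemma ParS_LT {K κ p h : ℝ} (hK : 1 ≤ K) (hκ : 0 < κ) (hκ1 : κ ≤ 1) (hh0 : 0 < h)
    (hhp : h ≤ p) (hp1 : p ≤ 1) :
    ∃ L T : ℕ, 1 ≤ T ∧ 1 ≤ L ∧ K ≤ L ∧ K * (p / h) ≤ L ∧ (L : ℝ) ≤ (K + 1) * (p / h) ∧
      32 * (L : ℝ) ≤ κ * h * T ∧ κ * h * T ≤ 33 * L := by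
  have hp0 : 0 < p := by linarith
  obtain ⟨L, hLdef⟩ : ∃ L : ℕ, L = ⌈K * (p / h)⌉₊ := ⟨_, rfl⟩
  have hph : 1 ≤ p / h := by rw [le_div_iff₀ hh0]; linarith
  have hL1 : K * (p / h) ≤ L := by rw [hLdef]; exact Nat.le_ceil _
  have hL2 : (L : ℝ) ≤ (K + 1) * (p / h) := by
    have h1 : (L : ℝ) ≤ K * (p / h) + 1 := by
      rw [hLdef]; exact (Nat.ceil_lt_add_one (by positivity)).le
    have h2 : (K + 1) * (p / h) = K * (p / h) + p / h := by ring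
    linarith
  have hLK : K ≤ L := by
    have h1 : K * 1 ≤ K * (p / h) := mul_le_mul_of_nonneg_left hph (by linarith)
    linarith
  have hLpos : (1 : ℝ) ≤ L := by linarith
  obtain ⟨T, hTdef⟩ : ∃ T : ℕ, T = ⌈32 * (L : ℝ) / (κ * h)⌉₊ := ⟨_, rfl⟩
  have hκh : 0 < κ * h := by positivity
  have hκh1 : κ * h ≤ 1 := by
    have : κ * h ≤ 1 * 1 := mul_le_mul hκ1 (by linarith) hh0.le (by norm_num)
    linarith
  have hT1 : 32 * (L : ℝ) ≤ κ * h * T := by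
    have h1 : 32 * (L : ℝ) / (κ * h) ≤ T := by rw [hTdef]; exact Nat.le_ceil _
    rw [div_le_iff₀ hκh] at h1
    linarith
  have hT2 : κ * h * T ≤ 33 * L := by
    have h1 : (T : ℝ) ≤ 32 * (L : ℝ) / (κ * h) + 1 := by
      rw [hTdef]; exact (Nat.ceil_lt_add_one (by positivity)).le
    have h2 : κ * h * T ≤ κ * h * (32 * (L : ℝ) / (κ * h) + 1) :=
      mul_le_mul_of_nonneg_left h1 hκh.le
    have h3 : κ * h * (32 * (L : ℝ) / (κ * h) + 1) = 32 * L + κ * h := by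
      rw [mul_add, mul_div_cancel₀ _ hκh.ne', mul_one]
    linarith
  have hTpos : 1 ≤ T := by
    by_contra hcon
    have h1 : T = 0 := by omega
    rw [h1] at hT1
    push_cast at hT1
    linarith
  exact ⟨L, T, hTpos, by exact_mod_cast hLpos, hLK, hL1, hL2, hT1, hT2⟩

private lemma ParS_y0 {C₀ κ η K p h : ℝ} {L T : ℕ} (hC₀ : 1 ≤ C₀) (hκ : 0 < κ) (hη : 0 < η)
    (hK : 1 ≤ K) (hh0 : 0 < h) (hp0 : 0 < p) (hK1 : 67584 * C₀ / (κ * η) ≤ K)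
    (hL : 1 ≤ L) (hL1 : K * (p / h) ≤ L) (hTub : (T : ℝ) ≤ 33 * L / (κ * h)) :
    C₀ * p * T / ((L : ℝ) / 16) ^ 2 ≤ η / 8 := by
  have hLpos : (0 : ℝ) < L := by exact_mod_cast hL
  have hC : 0 < C₀ := by linarith
  have hK0 : 0 < K := by linarith
  have h1 : C₀ * p * T / ((L : ℝ) / 16) ^ 2 ≤
      C₀ * p * (33 * L / (κ * h)) / ((L : ℝ) / 16) ^ 2 := by
    gcongr
  have h2 : C₀ * p * (33 * L / (κ * h)) / ((L : ℝ) / 16) ^ 2 =
      8448 * C₀ / κ * ((p / h) / L) := by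
    field_simp
    ring
  have h3 : (p / h) / L ≤ 1 / K := by
    rw [div_le_div_iff₀ hLpos hK0]
    linarith
  have h4 : 8448 * C₀ / κ * ((p / h) / L) ≤ 8448 * C₀ / κ * (1 / K) :=
    mul_le_mul_of_nonneg_left h3 (by positivity)
  have h5 : 8448 * C₀ / κ * (1 / K) ≤ η / 8 := by
    rw [div_le_iff₀ (by positivity)] at hK1
    have e : 8448 * C₀ / κ * (1 / K) = 8448 * C₀ / (κ * K) := by field_simp
    rw [e, div_le_iff₀ (by positivity)]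
    have e2 : η / 8 * (κ * K) = (K * (κ * η)) / 8 := by ring
    rw [e2]
    linarith
  linarith

private lemma ParS_union {μ : Measure Om} [IsFiniteMeasure μ] {A A1 A2 A3 A4 A5 A6 : Set Om}
    (h : A ⊆ A1 ∪ (A2 ∪ (A3 ∪ (A4 ∪ (A5 ∪ A6))))) :
    μ.real A ≤ μ.real A1 + μ.real A2 + μ.real A3 + μ.real A4 + μ.real A5 + μ.real A6 := by
  have h0 := measureReal_mono (μ := μ) h (measure_ne_top _ _)
  have h1 := measureReal_union_le (μ := μ) A1 (A2 ∪ (A3 ∪ (A4 ∪ (A5 ∪ A6))))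
  have h2 := measureReal_union_le (μ := μ) A2 (A3 ∪ (A4 ∪ (A5 ∪ A6)))
  have h3 := measureReal_union_le (μ := μ) A3 (A4 ∪ (A5 ∪ A6))
  have h4 := measureReal_union_le (μ := μ) A4 (A5 ∪ A6)
  have h5 := measureReal_union_le (μ := μ) A5 A6
  linarith

private lemma ParS_frac {A η X Y : ℝ} (hη : 0 < η) (hY : 0 < Y)
    (h1 : (4 * A / η) * X ≤ Y) : A * (X / Y) ≤ η / 4 := by
  have h5 := mul_le_mul_of_nonneg_left h1 hη.le
  have h6 : η * ((4 * A / η) * X) = 4 * A * X := by field_simp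
  rw [← mul_div_assoc, div_le_iff₀ hY]
  linarith

private lemma ParS_y5 {K κ p p' h M : ℝ} {n w L T : ℕ} (hK : 1 ≤ K) (hκ : 0 < κ) (hh0 : 0 < h)
    (hp'0 : 0 ≤ p') (hp0 : 0 < p) (hlt : p' < p) (hM : 0 ≤ M)
    (hL2 : (L : ℝ) ≤ (K + 1) * (p / h)) (hTub : (T : ℝ) ≤ 33 * L / (κ * h)) :
    2 * (2 * (w : ℝ) + 1) * L * T * M * p' ^ (n + 1) ≤
      2 * (2 * w + 1) * (K + 1) * (33 * (K + 1) / κ) * M * (p ^ (n + 3) / h ^ 3) := by
  have h1 : (T : ℝ) ≤ 33 * ((K + 1) * (p / h)) / (κ * h) := by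
    refine hTub.trans ?_
    gcongr
  have h2 : p' ^ (n + 1) ≤ p ^ (n + 1) := pow_le_pow_left₀ hp'0 hlt.le _
  have hK0 : 0 < K := by linarith
  calc 2 * (2 * (w : ℝ) + 1) * L * T * M * p' ^ (n + 1) ≤
      2 * (2 * (w : ℝ) + 1) * ((K + 1) * (p / h)) * (33 * ((K + 1) * (p / h)) / (κ * h)) * M *
        p ^ (n + 1) := by
        gcongr
    _ = _ := by
        have e : p ^ (n + 3) = p ^ (n + 1) * p ^ 2 := by rw [← pow_add]
        rw [e]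
        field_simp

private lemma ParS_y6 {K p p' h : ℝ} {L : ℕ} (hK : 1 ≤ K) (hh0 : 0 < h)
    (hp'0 : 0 ≤ p') (hp0 : 0 < p) (hlt : p' < p) (hL2 : (L : ℝ) ≤ (K + 1) * (p / h)) :
    7 * L * p' ≤ 7 * (K + 1) * (p ^ 2 / h) := by
  have hK0 : 0 < K := by linarith
  calc 7 * L * p' ≤ 7 * ((K + 1) * (p / h)) * p := by
        gcongr
    _ = 7 * (K + 1) * (p ^ 2 / h) := by ring

/-- the constants -/
private lemma ParS_const {C₀ κ η B M : ℝ} {w : ℕ} (hC₀ : 1 ≤ C₀) (hκ : 0 < κ) (hη : 0 < η)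
    (hB : 8 ≤ B) (hM : 0 ≤ M) :
    ∃ K C₁ : ℝ, 1 ≤ K ∧ 0 ≤ C₁ ∧ 67584 * C₀ / (κ * η) ≤ K ∧ 64 * B ≤ K ∧
      16 * (C₀ + 2 * B + 1) ≤ K ∧
      C₁ = 2 * (2 * w + 1) * (K + 1) * (33 * (K + 1) / κ) * M := by
  have h0 : 0 ≤ 67584 * C₀ / (κ * η) := by positivity
  refine ⟨67584 * C₀ / (κ * η) + 64 * B + 16 * (C₀ + 2 * B + 1), _, ?_, ?_, ?_, ?_, ?_, rfl⟩
  · linarith
  · positivity
  · linarith
  · linarith
  · linarith

private lemma ParS_part {X Y Z t u : ℝ} (hXY : Z = X + Y) (hY : 0 ≤ Y) (ht : 0 ≤ t)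
    (h : Z * t ≤ u) : X * t ≤ u := by
  have : 0 ≤ Y * t := mul_nonneg hY ht
  rw [hXY] at h
  linarith

private lemma ParS_one {X p h : ℝ} (hp : 0 < p) (hhp : h ≤ p) (h1 : X * p ^ 2 ≤ h) :
    X * p ≤ 1 := by
  have h2 : (X * p) * p ≤ 1 * p := by
    calc (X * p) * p = X * p ^ 2 := by ring
      _ ≤ 1 * p := by linarith
  exact le_of_mul_le_mul_right h2 hp

theorem thm_ParS (hEdgesS : St_EdgesS) (hClu : St_Clu) : St_ParS := by
  intro N n D₁ W hN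
  obtain ⟨v, κ, C₀, hκ, hκ1, hC₀, hv, hE⟩ := hEdgesS N n D₁ W hN
  obtain ⟨w, hwdef⟩ : ∃ w : ℕ, w = ⌈33 * C₀ / κ⌉₊ + 40 := ⟨_, rfl⟩
  have hw1 : 33 * C₀ + 40 * κ ≤ κ * w := by
    have h1 : 33 * C₀ / κ ≤ ((⌈33 * C₀ / κ⌉₊ : ℕ) : ℝ) := Nat.le_ceil _
    rw [div_le_iff₀ hκ] at h1
    rw [hwdef]
    push_cast
    linarith
  obtain ⟨η, hη⟩ : ∃ η : ℝ, (3 / 64) ^ (2 * w + 1) = η := ⟨_, rfl⟩
  have hη0 : 0 < η := by rw [← hη]; positivity
  obtain ⟨B, hB⟩ : ∃ B : ℝ, (Bb D₁ W : ℝ) = B := ⟨_, rfl⟩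
  obtain ⟨J, hJ⟩ : ∃ J : ℝ, (Jj D₁ W : ℝ) = J := ⟨_, rfl⟩
  have hB8 : 8 ≤ B := by
    have : 8 ≤ Bb D₁ W := by unfold Bb; omega
    rw [← hB]
    exact_mod_cast this
  have hJ0 : 0 ≤ J := by rw [← hJ]; exact Nat.cast_nonneg _
  obtain ⟨M, hM⟩ : ∃ M : ℝ, (2 : ℝ) ^ (2 * D₁ + 1) = M := ⟨_, rfl⟩
  have hM0 : 0 ≤ M := by rw [← hM]; positivity
  obtain ⟨K, C₁, hK0, hC₁0, hK1, hK2, hK3, hC₁⟩ :=
    ParS_const (w := w) hC₀ hκ hη0 (show 8 ≤ B + J by linarith) hM0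
  have hC₁η : 0 ≤ 4 * C₁ / η := by positivity
  have hKη : 0 ≤ 4 * (7 * (K + 1)) / η := by positivity
  refine ⟨4 * C₁ / η + 4 * (7 * (K + 1)) / η + 8 * B + 2 * C₀, w, by positivity, by omega, ?_⟩
  intro μ₀ _ b hlt hCa hC
  obtain ⟨p, hp⟩ : ∃ p : ℝ, p = μ₀.real {some b} := ⟨_, rfl⟩
  obtain ⟨p', hp'⟩ : ∃ p' : ℝ, p' = μ₀.real {some (!b)} := ⟨_, rfl⟩
  have hpp1 : p + p' ≤ 1 := by
    have hd : Disjoint ({some b} : Set (Option Bool)) {some (!b)} := by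
      rw [Set.disjoint_singleton]
      cases b <;> simp
    have h1 := measureReal_union (μ := μ₀) hd (Set.toFinite _).measurableSet
    have h2 : μ₀.real ({some b} ∪ {some (!b)}) ≤ 1 := measureReal_le_one
    rw [hp, hp']
    linarith
  have hp'0 : 0 ≤ p' := by rw [hp']; exact measureReal_nonneg
  rw [← hp, ← hp'] at hlt hC hCa
  have hp0 : 0 < p := hp'0.trans_lt hlt
  have hh0 : 0 < p - p' := sub_pos.2 hlt
  have hhp : p - p' ≤ p := by linarith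
  have hp1 : p ≤ 1 := by linarith
  have hs1 : (4 * C₁ / η) * p ^ (n + 3) ≤ (p - p') ^ 3 :=
    ParS_part (Y := 4 * (7 * (K + 1)) / η + 8 * B + 2 * C₀) (by ring) (by linarith)
      (by positivity) hC
  have hs2 : (4 * (7 * (K + 1)) / η) * p ^ 2 ≤ p - p' :=
    ParS_part (Y := 4 * C₁ / η + 8 * B + 2 * C₀) (by ring) (by linarith) (by positivity) hCa
  have hpB : 8 * B * p ≤ 1 :=
    ParS_one hp0 hhp (ParS_part (Y := 4 * C₁ / η + 4 * (7 * (K + 1)) / η + 2 * C₀) (by ring)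
      (by linarith) (by positivity) hCa)
  have hpC2 : 2 * C₀ * p ^ 2 ≤ p - p' :=
    ParS_part (Y := 4 * C₁ / η + 4 * (7 * (K + 1)) / η + 8 * B) (by ring)
      (by linarith) (by positivity) hCa
  have hpC : 2 * C₀ * p ≤ 1 := ParS_one hp0 hhp hpC2
  have hpC3 : C₀ * p ^ 2 ≤ p - p' :=
    ParS_part (X := C₀) (Y := C₀) (Z := 2 * C₀) (by ring) (by linarith) (by positivity) hpC2
  obtain ⟨q, hq⟩ : ∃ q : ℝ, q = qq D₁ W p p' := ⟨_, rfl⟩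
  have hqq := ParS_q hB hp'0 hp0 hlt hpp1 hpB
  rw [← hq] at hqq
  obtain ⟨hq0, hq1⟩ := hqq
  obtain ⟨σ, hσ⟩ : ∃ σ : ℝ, σ = q * (p' * v - 3 * κ * (p - p') / 4) := ⟨_, rfl⟩
  have hσ1 : |σ| ≤ 1 := by
    rw [hσ]
    have hp4 : p ≤ 1 / 4 := by
      have h9 : 0 ≤ (B - 8) * p := mul_nonneg (by linarith) hp0.le
      have h10 : (B - 8) * p = B * p - 8 * p := by ring
      have h11 : 8 * B * p = 8 * (B * p) := by ring
      linarith
    exact ParS_sig hp'0 hlt hp4 hκ hκ1 hv hpC (by linarith) hq1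
  obtain ⟨L, T, hTpos, hLn, hLK, hL1, hL2, hT1, hT2⟩ := ParS_LT hK0 hκ hκ1 hh0 hhp hp1
  have hTub : (T : ℝ) ≤ 33 * L / (κ * (p - p')) := by
    rw [le_div_iff₀ (by positivity)]; linarith
  have hLB : 64 * (Bb D₁ W + Jj D₁ W) ≤ L := by
    have h1 : (64 : ℝ) * ((Bb D₁ W : ℝ) + (Jj D₁ W : ℝ)) ≤ L := by rw [hB, hJ]; linarith
    exact_mod_cast h1
  refine ⟨L, T, σ, ⌊σ * T⌋, hTpos, hLB, hσ1, ?_⟩
  have hsub := ParS_sub (N := N) (n := n) (D₁ := D₁) (W := W) (b := b) (v := v) (κ := κ) (C := C₀)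
    (p := p) (p' := p') (q := q) (σ := σ) (L := L) (T := T) (w := w) (S := ⌊σ * T⌋) hκ hC₀ hlt
    hq0 hq1 hσ (by rw [hB, hJ]; linarith) hT1 hT2 hw1 (Int.floor_le _)
    (Int.lt_floor_add_one _).le
  have hΛ : 0 < (L : ℝ) / 16 := by
    have : (0 : ℝ) < L := by exact_mod_cast hLn
    linarith
  obtain ⟨z1, z2, -, -⟩ := hE μ₀ b p p' q hp hp' hq hlt hpC3 T (L / 16) 0 hΛ
  obtain ⟨-, -, z3, z4⟩ := hE μ₀ b p p' q hp hp' hq hlt hpC3 T (L / 16) L hΛ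
  have z5 := hClu μ₀ b σ w L T n D₁ hLn
  have z6 := ParS_last μ₀ b L ⌊σ * T⌋ ((T : ℤ) - 1)
  rw [hM, ← hp'] at z5
  rw [← hp'] at z6
  have y0 := ParS_y0 hC₀ hκ hη0 hK0 hh0 hp0 hK1 hLn hL1 hTub
  have y4 := ParS_frac hη0 (by positivity : 0 < (p - p') ^ 3) hs1
  have y5 := ParS_y5 (n := n) (w := w) hK0 hκ hh0 hp'0 hp0 hlt hM0 hL2 hTub
  rw [← hC₁] at y5
  have y6 := ParS_y6 hK0 hh0 hp'0 hp0 hlt hL2
  have y7 := ParS_frac hη0 hh0 hs2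
  have hun := ParS_union (μ := Pm μ₀) hsub
  rw [hη]
  linarith

end Pool.Agent.NVA
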