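import Pool.Agent.NVA.St

set_option autoImplicit false

/-! NVA, Psi: the holes of an up-set. -/

namespace Pool.Agent.NVA

open MeasureTheory Set Pool.Agent.Helper55.Vote

/-- the number of the holes -/
private noncomputable def Psi_h (W : ℕ) (u : ℤ → Bool) : ℕ :=
  ((Finset.Ico (lo u) (lo u + W)).filter fun s => u s = false).card

/-- the geometric sum -/
private noncomputable def Psi_S (β : ℝ) (k : ℕ) : ℝ := ∑ i ∈ Finset.range k, β ^ (i + 1)

private theorem Psi_geo (β : ℝ) (k : ℕ) : Psi_S β k * (1 - β) = β - β ^ (k + 1) := by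
  unfold Psi_S
  induction k with
  | zero => simp
  | succ k ih =>
    rw [Finset.sum_range_succ, add_mul, ih]
    ring

private theorem Psi_half (β x y : ℝ) (hβ : β ≤ 1 / 2) (hy : 0 ≤ y) (h : x * (1 - β) ≤ y) :
    x ≤ 2 * y := by
  rcases le_total x 0 with h0 | h0
  · linarith
  · nlinarith

private theorem Psi_dif (β : ℝ) (h0 : 0 < β) (hβ : β ≤ 1 / 2) (m m' : ℕ) :
    Psi_S β m' - Psi_S β m ≤ 2 * β ^ (m + 1) := by
  refine Psi_half β _ _ hβ (by positivity) ?_
  rw [sub_mul, Psi_geo, Psi_geo]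
  have : 0 < β ^ (m' + 1) := by positivity
  linarith

theorem thm_Psi (hUp : St_Up) (hF : St_F) : St_Psi := by
  intro N n D₁ W hN
  obtain ⟨u1, -, -, u4⟩ := hUp N n D₁ W hN
  obtain ⟨f1, -, -, -, -, -, f7⟩ := hF N n D₁ W hN
  obtain ⟨β, hβ⟩ : ∃ β : ℝ, β = 1 / (16 * (Bb D₁ W : ℝ)) := ⟨_, rfl⟩
  have hB : (8 : ℝ) ≤ Bb D₁ W := by
    unfold Bb
    push_cast
    have h1 : (0 : ℝ) ≤ W := Nat.cast_nonneg _
    have h2 : (0 : ℝ) ≤ D₁ := Nat.cast_nonneg _
    linarith
  have hβ0 : 0 < β := by
    rw [hβ]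
    positivity
  have hβB : (Bb D₁ W : ℝ) * β = 1 / 16 := by
    rw [hβ]
    field_simp
  have hβ1 : β ≤ 1 / 2 := by nlinarith
  have hhW : ∀ u, Psi_h W u ≤ W := by
    intro u
    unfold Psi_h
    refine (Finset.card_filter_le _ _).trans ?_
    rw [Int.card_Ico]
    omega
  have hwin : ∀ u, (win D₁ W u).card = 2 * Bb D₁ W := by
    intro u
    unfold win
    rw [Int.card_Ico]
    omega
  refine ⟨β ^ W / 2, fun u => Psi_S β (Psi_h W u), by positivity, ?_, ?_, ?_⟩
  · have h1 : β ^ W ≤ 1 := pow_le_one₀ hβ0.le (by linarith)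
    linarith
  · intro u _
    constructor
    · exact Finset.sum_nonneg fun i _ => by positivity
    · have h1 := Psi_dif β hβ0 hβ1 0 (Psi_h W u)
      have h2 : Psi_S β 0 = 0 := by simp [Psi_S]
      rw [h2, sub_zero, zero_add, pow_one] at h1
      show Psi_S β (Psi_h W u) ≤ 1
      linarith
  intro p p' hp' hpp u hu
  have hp : 0 ≤ p := hp'.trans hpp
  obtain ⟨m, hm⟩ : ∃ m, m = Psi_h W u := ⟨_, rfl⟩
  have hE0 : 0 < β ^ (m + 1) := by positivity
  have hE : ∀ u' : ℤ → Bool, Psi_S β (Psi_h W u') - Psi_S β (Psi_h W u) ≤ 2 * β ^ (m + 1) := by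
    intro u'
    rw [← hm]
    exact Psi_dif β hβ0 hβ1 _ _
  have hsum : (2 * (Bb D₁ W : ℝ)) * (2 * p * (2 * β ^ (m + 1))) = p * β ^ m / 2 := by
    have e : (2 * (Bb D₁ W : ℝ)) * (2 * p * (2 * β ^ (m + 1))) =
        8 * p * β ^ m * ((Bb D₁ W : ℝ) * β) := by ring
    rw [e, hβB]
    ring
  have hterm : ∀ s c c', p * (Psi_S β (Psi_h W (F N D₁ W u s c)) - Psi_S β (Psi_h W u)) +
      p' * (Psi_S β (Psi_h W (F N D₁ W u s c')) - Psi_S β (Psi_h W u)) ≤
        2 * p * (2 * β ^ (m + 1)) := by
    intro s c c'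
    have h1 := mul_le_mul_of_nonneg_left (hE (F N D₁ W u s c)) hp
    have h2 := mul_le_mul_of_nonneg_left (hE (F N D₁ W u s c')) hp'
    have h3 : p' * (2 * β ^ (m + 1)) ≤ p * (2 * β ^ (m + 1)) :=
      mul_le_mul_of_nonneg_right hpp (by positivity)
    linarith
  constructor
  · -- all terms
    intro _
    have h1 : dr N D₁ W p p' (fun u => Psi_S β (Psi_h W u)) u ≤
        ∑ s ∈ win D₁ W u, 2 * p * (2 * β ^ (m + 1)) :=
      Finset.sum_le_sum fun s _ => hterm s true false
    rw [Finset.sum_const, hwin, nsmul_eq_mul] at h1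
    push_cast at h1
    rw [hsum] at h1
    have h2 : β ^ m ≤ 1 := pow_le_one₀ hβ0.le (by linarith)
    have h3 : p * β ^ m ≤ p * 1 := mul_le_mul_of_nonneg_left h2 hp
    linarith
  · intro hnH
    obtain ⟨l, hl⟩ := hu
    have hlo : lo u = l := u1 l u hl
    -- the last hole
    obtain ⟨s₀, hs1, hs2, hs3, hs4⟩ : ∃ s₀ : ℤ, l < s₀ ∧ s₀ < l + W ∧ u s₀ = false ∧
        ∀ t, s₀ < t → u t = true := by
      obtain ⟨s₁, h1, h2⟩ : ∃ s : ℤ, l ≤ s ∧ u s = false := by
        by_contra hno
        apply hnH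
        refine ⟨l, ?_⟩
        funext t
        unfold H
        by_cases ht : l ≤ t
        · rw [decide_eq_true ht]
          by_contra h3
          exact hno ⟨t, ht, Bool.eq_false_iff.2 h3⟩
        · rw [decide_eq_false ht]
          exact hl.2.1 t (not_le.1 ht)
      have hex : ((Finset.Ico l (l + W)).filter fun s => u s = false).Nonempty := by
        refine ⟨s₁, Finset.mem_filter.2 ⟨Finset.mem_Ico.2 ⟨h1, ?_⟩, h2⟩⟩
        by_contra h3
        have h4 := u4 l u hl s₁ (not_lt.1 h3)
        rw [h2] at h4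
        exact Bool.false_ne_true h4
      obtain ⟨s₀, h3, h4⟩ := Finset.exists_max_image _ (fun s : ℤ => s) hex
      obtain ⟨h5, h6⟩ := Finset.mem_filter.1 h3
      rw [Finset.mem_Ico] at h5
      refine ⟨s₀, ?_, h5.2, h6, ?_⟩
      · rcases h5.1.lt_or_eq with h7 | h7
        · exact h7
        · rw [← h7, hl.1] at h6
          exact absurd h6.symm Bool.false_ne_true
      · intro t ht
        by_contra h7
        have h8 : u t = false := Bool.eq_false_iff.2 h7
        have h9 : t < l + W := by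
          by_contra h10
          have h11 := u4 l u hl t (not_lt.1 h10)
          exact h7 h11
        have h10 := h4 t (Finset.mem_filter.2 ⟨Finset.mem_Ico.2 ⟨by omega, h9⟩, h8⟩)
        omega
    have hFu : F N D₁ W u s₀ true = Function.update u s₀ true := f7 u ⟨l, hl⟩ s₀ hs4
    have hlo' : lo (Function.update u s₀ true) = l := by
      obtain ⟨l', hl'⟩ := f1 u ⟨l, hl⟩ s₀ true
      rw [hFu] at hl'
      rw [u1 l' _ hl']
      have h1 : Function.update u s₀ true l = true := by
        rw [Function.update_of_ne (by omega)]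
        exact hl.1
      have h2 : l' ≤ l := by
        by_contra h3
        have h4 := hl'.2.1 l (not_le.1 h3)
        rw [h1] at h4
        exact Bool.false_ne_true h4.symm
      have h3 : l ≤ l' := by
        by_contra h4
        have h5 := hl'.1
        rw [Function.update_of_ne (by omega), hl.2.1 l' (not_le.1 h4)] at h5
        exact Bool.false_ne_true h5
      omega
    have hhm : Psi_h W (Function.update u s₀ true) + 1 = m := by
      rw [hm]
      unfold Psi_h
      rw [hlo', hlo]
      have h1 : (Finset.Ico l (l + W)).filter (fun s => Function.update u s₀ true s = false) =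
          ((Finset.Ico l (l + W)).filter fun s => u s = false).erase s₀ := by
        ext t
        rw [Finset.mem_erase, Finset.mem_filter, Finset.mem_filter]
        by_cases ht : t = s₀
        · subst ht
          simp
        · rw [Function.update_of_ne ht]
          simp [ht]
      rw [h1]
      exact Finset.card_erase_add_one (Finset.mem_filter.2
        ⟨Finset.mem_Ico.2 ⟨hs1.le, hs2⟩, hs3⟩)
    have hdiff : Psi_S β (Psi_h W (F N D₁ W u s₀ true)) - Psi_S β (Psi_h W u) = -β ^ m := by
      rw [hFu, ← hm, ← hhm]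
      unfold Psi_S
      rw [Finset.sum_range_succ]
      ring
    have hs₀w : s₀ ∈ win D₁ W u := by
      unfold win
      rw [hlo, Finset.mem_Ico]
      have : (W : ℤ) ≤ Bb D₁ W := by
        unfold Bb
        push_cast
        omega
      omega
    have h1 : dr N D₁ W p p' (fun u => Psi_S β (Psi_h W u)) u ≤
        ∑ s ∈ win D₁ W u, (2 * p * (2 * β ^ (m + 1)) + if s = s₀ then -(p * β ^ m) else 0) := by
      refine Finset.sum_le_sum fun s _ => ?_
      by_cases hs : s = s₀
      · rw [if_pos hs, hs]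
        show p * (Psi_S β (Psi_h W (F N D₁ W u s₀ true)) - Psi_S β (Psi_h W u)) +
          p' * (Psi_S β (Psi_h W (F N D₁ W u s₀ false)) - Psi_S β (Psi_h W u)) ≤ _
        rw [hdiff]
        have h2 := mul_le_mul_of_nonneg_left (hE (F N D₁ W u s₀ false)) hp'
        have h3 : p' * (2 * β ^ (m + 1)) ≤ p * (2 * β ^ (m + 1)) :=
          mul_le_mul_of_nonneg_right hpp (by positivity)
        have h4 : 0 ≤ p * (2 * β ^ (m + 1)) := by positivity
        linarith
      · rw [if_neg hs, add_zero]
        exact hterm s true false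
    rw [Finset.sum_add_distrib, Finset.sum_const, hwin, nsmul_eq_mul, Finset.sum_ite_eq',
      if_pos hs₀w] at h1
    push_cast at h1
    rw [hsum] at h1
    have h2 : β ^ W ≤ β ^ m := pow_le_pow_of_le_one hβ0.le (by linarith) (by rw [hm]; exact hhW u)
    have h3 : p * β ^ W ≤ p * β ^ m := mul_le_mul_of_nonneg_left h2 hp
    linarith

end Pool.Agent.NVA
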