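import Pool.Agent.NVA.St
import Pool.Agent.Helper55.Vote.Final
import Mathlib.NumberTheory.FrobeniusNumber

set_option autoImplicit false

/-! Noisy majority voting: reduction to a centred neighbourhood without common divisor. -/

namespace Pool.Agent.NVA

open MeasureTheory Set Pool.Agent.Helper55.Vote

private lemma Red_card_lt {N : Finset ℤ} {n : ℕ} {c : ℤ} (hn : N.card = 2 * n + 1) (hc : c ∈ N)
    (h1 : n + 1 ≤ (N.filter fun v => c ≤ v).card) (h2 : n + 1 ≤ (N.filter fun v => v ≤ c).card) :
    (N.filter fun v => v < c).card = n ∧ (N.filter fun v => c < v).card = n := by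
  classical
  have e1 : (N.filter fun v => c ≤ v).card + (N.filter fun v => ¬ c ≤ v).card = N.card :=
    Finset.card_filter_add_card_filter_not _
  have e2 : (N.filter fun v => v ≤ c).card + (N.filter fun v => ¬ v ≤ c).card = N.card :=
    Finset.card_filter_add_card_filter_not _
  have f1 : (N.filter fun v => ¬ c ≤ v) = N.filter fun v => v < c := by
    ext v; simp
  have f2 : (N.filter fun v => ¬ v ≤ c) = N.filter fun v => c < v := by
    ext v; simp
  have g1 : (N.filter fun v => v ≤ c) = insert c (N.filter fun v => v < c) := by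
    ext v
    simp only [Finset.mem_filter, Finset.mem_insert]
    constructor
    · rintro ⟨ha, hb⟩
      rcases eq_or_lt_of_le hb with h | h
      · exact Or.inl h
      · exact Or.inr ⟨ha, h⟩
    · rintro (rfl | ⟨ha, hb⟩)
      · exact ⟨hc, le_refl _⟩
      · exact ⟨ha, hb.le⟩
  have g2 : (N.filter fun v => c ≤ v) = insert c (N.filter fun v => c < v) := by
    ext v
    simp only [Finset.mem_filter, Finset.mem_insert]
    constructor
    · rintro ⟨ha, hb⟩
      rcases eq_or_lt_of_le hb with h | h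
      · exact Or.inl h.symm
      · exact Or.inr ⟨ha, h⟩
    · rintro (rfl | ⟨ha, hb⟩)
      · exact ⟨hc, le_refl _⟩
      · exact ⟨ha, hb.le⟩
  have k1 : (N.filter fun v => v ≤ c).card = (N.filter fun v => v < c).card + 1 := by
    rw [g1, Finset.card_insert_of_notMem (by simp)]
  have k2 : (N.filter fun v => c ≤ v).card = (N.filter fun v => c < v).card + 1 := by
    rw [g2, Finset.card_insert_of_notMem (by simp)]
  rw [f1] at e1
  rw [f2] at e2
  constructor <;> omega

private lemma Red_closure {s : Set ℕ} {g : ℕ} {U : Set ℤ}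
    (hs : ∀ x ∈ s, ∃ k : ℕ, x = g * k ∧ ∀ u ∈ U, u + (k : ℤ) ∈ U) (m : ℕ)
    (hm : m ∈ AddSubmonoid.closure s) :
    ∃ k : ℕ, m = g * k ∧ ∀ u ∈ U, u + (k : ℤ) ∈ U := by
  induction hm using AddSubmonoid.closure_induction with
  | mem x hx => exact hs x hx
  | zero => exact ⟨0, by simp, fun u hu => by simpa using hu⟩
  | add x y hx hy ihx ihy =>
    obtain ⟨k, hk, h1⟩ := ihx
    obtain ⟨l, hl, h2⟩ := ihy
    refine ⟨k + l, by rw [hk, hl]; ring, fun u hu => ?_⟩
    have := h2 _ (h1 u hu)
    rw [add_assoc] at this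
    push_cast
    exact this

theorem thm_Red : St_Red := by
  classical
  intro N n hn1 hn
  obtain ⟨c, hc, hc1, hc2⟩ := exists_median hn
  obtain ⟨hlt, hgt⟩ := Red_card_lt hn hc hc1 hc2
  set M : Finset ℤ := N.image fun v => v - c with hM
  set s : Set ℕ := Int.natAbs '' (M : Set ℤ) with hs
  set g : ℕ := Nat.setGcd s with hg
  -- the elements of `M` are multiples of `g`
  have hdvd : ∀ v ∈ M, (g : ℤ) ∣ v := by
    intro v hv
    have h1 : g ∣ v.natAbs := Nat.setGcd_dvd_of_mem (⟨v, Finset.mem_coe.2 hv, rfl⟩ : v.natAbs ∈ s)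
    exact Int.natCast_dvd.2 h1
  -- `M` has an element which is not zero
  have hlt0 : (M.filter fun v => v < 0).card = n := by
    rw [hM, filter_shift N c (fun v => v < 0) (fun v => v < c) fun v => by omega]
    exact hlt
  have hgt0 : (M.filter fun v => 0 < v).card = n := by
    rw [hM, filter_shift N c (fun v => 0 < v) (fun v => c < v) fun v => by omega]
    exact hgt
  have hg0 : 0 < g := by
    have h1 : 0 < (M.filter fun v => 0 < v).card := by rw [hgt0]; omega
    obtain ⟨v, hv⟩ := Finset.card_pos.1 h1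
    obtain ⟨hv1, hv2⟩ := Finset.mem_filter.1 hv
    rcases Nat.eq_zero_or_pos g with h | h
    · exfalso
      have h2 := hdvd v hv1
      rw [h] at h2
      have h3 : v = 0 := by simpa using h2
      omega
    · exact h
  have hgZ : (0 : ℤ) < (g : ℤ) := by exact_mod_cast hg0
  set N' : Finset ℤ := M.image fun v => v / (g : ℤ) with hN'
  have hMN : M = N'.image fun v => (g : ℤ) * v := by
    ext v
    constructor
    · intro hv
      refine Finset.mem_image.2 ⟨v / g, Finset.mem_image.2 ⟨v, hv, rfl⟩, ?_⟩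
      exact Int.mul_ediv_cancel' (hdvd v hv)
    · intro hv
      obtain ⟨w, hw, rfl⟩ := Finset.mem_image.1 hv
      obtain ⟨u, hu, rfl⟩ := Finset.mem_image.1 hw
      show (g : ℤ) * (u / g) ∈ M
      rw [Int.mul_ediv_cancel' (hdvd u hu)]
      exact hu
  have hinj : Function.Injective fun v : ℤ => (g : ℤ) * v := by
    intro a b hab
    exact mul_left_cancel₀ hgZ.ne' hab
  have hcard : N'.card = 2 * n + 1 := by
    have h1 : M.card = N'.card := by
      conv_lhs => rw [hMN]
      exact Finset.card_image_of_injective _ hinj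
    rw [← h1, hM, card_shift, hn]
  have hfil : ∀ (p : ℤ → Prop) [DecidablePred p], (∀ v : ℤ, p ((g : ℤ) * v) ↔ p v) →
      (N'.filter p).card = (M.filter p).card := by
    intro p _ hp
    have h1 : M.filter p = (N'.filter p).image fun v => (g : ℤ) * v := by
      ext v
      constructor
      · intro hv
        obtain ⟨hv1, hv2⟩ := Finset.mem_filter.1 hv
        rw [hMN] at hv1
        obtain ⟨w, hw, rfl⟩ := Finset.mem_image.1 hv1
        exact Finset.mem_image.2 ⟨w, Finset.mem_filter.2 ⟨hw, (hp w).1 hv2⟩, rfl⟩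
      · intro hv
        obtain ⟨w, hw, rfl⟩ := Finset.mem_image.1 hv
        obtain ⟨hw1, hw2⟩ := Finset.mem_filter.1 hw
        refine Finset.mem_filter.2 ⟨?_, (hp w).2 hw2⟩
        rw [hMN]
        exact Finset.mem_image.2 ⟨w, hw1, rfl⟩
    rw [h1, Finset.card_image_of_injective _ hinj]
  obtain ⟨D₁, hD⟩ := exists_bound N'
  obtain ⟨W, hW⟩ := Nat.exists_mem_closure_of_ge s
  refine ⟨c, g, N', D₁, W, hgZ, hMN, ⟨hn1, hcard, ?_, ?_, ?_, hD, ?_⟩⟩
  · refine Finset.mem_image.2 ⟨0, ?_, by simp⟩
    rw [hM]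
    exact Finset.mem_image.2 ⟨c, hc, by ring⟩
  · rw [hfil (fun v => v < 0) (fun v => ?_)]
    · exact hlt0
    · constructor
      · intro h
        by_contra h2
        exact absurd h (not_lt.2 (mul_nonneg hgZ.le (not_lt.1 h2)))
      · intro h
        exact mul_neg_of_pos_of_neg hgZ h
  · rw [hfil (fun v => 0 < v) (fun v => ?_)]
    · exact hgt0
    · exact mul_pos_iff_of_pos_left hgZ
  · intro U hU0 hU t ht
    have ht0 : 0 ≤ t := le_trans (by positivity) ht
    obtain ⟨k, rfl⟩ := Int.eq_ofNat_of_zero_le ht0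
    have hk : W ≤ k := by exact_mod_cast ht
    have h1 : g * k ∈ AddSubmonoid.closure s :=
      hW _ (le_trans hk (Nat.le_mul_of_pos_left k hg0)) (Dvd.intro k rfl)
    have h2 : ∀ x ∈ s, ∃ k : ℕ, x = g * k ∧ ∀ u ∈ U, u + (k : ℤ) ∈ U := by
      rintro x ⟨v, hv, rfl⟩
      have hv' : v ∈ M := Finset.mem_coe.1 hv
      have hv2 : v / (g : ℤ) ∈ N' := Finset.mem_image.2 ⟨v, hv', rfl⟩
      refine ⟨(v / (g : ℤ)).natAbs, ?_, fun u hu => ?_⟩
      · have h3 := Int.mul_ediv_cancel' (hdvd v hv')
        conv_lhs => rw [← h3]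
        rw [Int.natAbs_mul, Int.natAbs_natCast]
      · have h3 := hU u hu _ hv2
        rw [Int.abs_eq_natAbs] at h3
        exact h3
    obtain ⟨k', hk', h3⟩ := Red_closure h2 _ h1
    have h4 : k = k' := Nat.eq_of_mul_eq_mul_left hg0 hk'
    have h5 := h3 0 hU0
    rw [zero_add, ← h4] at h5
    exact h5

end Pool.Agent.NVA
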