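import Pool.Agent.NVA.St

set_option autoImplicit false

/-! Relaxation of one removed site, by reflection from the relaxation of one added site. -/

namespace Pool.Agent.NVA

open MeasureTheory Set Pool.Agent.Helper55.Vote

/-- the reflected neighbourhood -/
private def relF_N (N : Finset ℤ) : Finset ℤ := N.map (Equiv.neg ℤ).toEmbedding

/-- the reflected configuration, with the two values exchanged -/
private def relF_r (u : ℤ → Bool) : ℤ → Bool := fun t => !u (-t)

private lemma relF_mem (N : Finset ℤ) (v : ℤ) : v ∈ relF_N N ↔ -v ∈ N := by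
  unfold relF_N
  rw [Finset.mem_map]
  constructor
  · rintro ⟨a, ha, rfl⟩
    simpa using ha
  · intro h
    exact ⟨-v, h, by simp⟩

private lemma relF_card (N : Finset ℤ) (p : ℤ → Prop) [DecidablePred p] :
    ((relF_N N).filter p).card = (N.filter fun v => p (-v)).card := by
  unfold relF_N
  rw [Finset.filter_map, Finset.card_map]
  rfl

private lemma relF_card' (N : Finset ℤ) : (relF_N N).card = N.card := by
  unfold relF_N
  rw [Finset.card_map]

private lemma relF_maj (N : Finset ℤ) (n : ℕ) (hN : N.card = 2 * n + 1) (x : ℤ → Bool) :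
    maj (relF_N N) (relF_r x) = relF_r (maj N x) := by
  funext s
  unfold maj relF_r
  rw [relF_card', relF_card]
  have h1 : (N.filter fun v => (!x (-(s + -v))) = true) =
      N.filter fun v => ¬ x (-s + v) = true := by
    apply Finset.filter_congr
    intro v _
    have : -(s + -v) = -s + v := by ring
    rw [this]
    cases x (-s + v) <;> simp
  rw [h1]
  have h2 : (N.filter fun v => x (-s + v) = true).card +
      (N.filter fun v => ¬ x (-s + v) = true).card = N.card :=
    Finset.card_filter_add_card_filter_not _
  by_cases h : N.card < 2 * (N.filter fun v => x (-s + v) = true).card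
  · have h3 : ¬ N.card < 2 * (N.filter fun v => ¬ x (-s + v) = true).card := by omega
    simp only [h, h3, decide_true, decide_false, Bool.not_true]
  · have h3 : N.card < 2 * (N.filter fun v => ¬ x (-s + v) = true).card := by omega
    simp only [h, h3, decide_true, decide_false, Bool.not_false]

private lemma relF_iter (N : Finset ℤ) (n : ℕ) (hN : N.card = 2 * n + 1) (r : ℕ)
    (x : ℤ → Bool) : (maj (relF_N N))^[r] (relF_r x) = relF_r ((maj N)^[r] x) := by
  induction r with
  | zero => rfl
  | succ r ih => rw [Function.iterate_succ_apply', Function.iterate_succ_apply', ih, relF_maj N n hN]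

private lemma relF_rr (x : ℤ → Bool) : relF_r (relF_r x) = x := by
  funext t
  simp [relF_r]

private lemma relF_NN (N : Finset ℤ) : relF_N (relF_N N) = N := by
  ext v
  rw [relF_mem, relF_mem, neg_neg]

private lemma relF_upd (u : ℤ → Bool) (s : ℤ) :
    relF_r (Function.update u s false) = Function.update (relF_r u) (-s) true := by
  funext t
  unfold relF_r
  by_cases h : t = -s
  · subst h
    simp
  · have h' : -t ≠ s := fun h'' => h (by omega)
    rw [Function.update_of_ne h, Function.update_of_ne h']

private lemma relF_Nb (N : Finset ℤ) (n D₁ W : ℕ) (h : Nb N n D₁ W) :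
    Nb (relF_N N) n D₁ W := by
  refine ⟨h.pos, ?_, ?_, ?_, ?_, ?_, ?_⟩
  · rw [relF_card', h.card]
  · rw [relF_mem, neg_zero]; exact h.zero
  · rw [relF_card, ← h.posi]
    congr 1
    apply Finset.filter_congr
    intro v _
    constructor <;> intro hv <;> omega
  · rw [relF_card, ← h.neg]
    congr 1
    apply Finset.filter_congr
    intro v _
    constructor <;> intro hv <;> omega
  · intro v hv
    rw [relF_mem] at hv
    have := h.bd _ hv
    rwa [abs_neg] at this
  · intro U h0 hU s hs
    refine h.frob U h0 (fun s hs v hv => ?_) s hs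
    have := hU s hs (-v) (by rw [relF_mem, neg_neg]; exact hv)
    rwa [abs_neg] at this

/-- the reflection of an up-set is an up-set -/
private lemma relF_Up (hUp : St_Up) (N : Finset ℤ) (n D₁ W : ℕ) (h : Nb N n D₁ W) (l : ℤ)
    (u : ℤ → Bool) (hu : Up N l u) :
    ∃ m : ℤ, l - 1 ≤ m ∧ m ≤ l + W - 1 ∧ Up (relF_N N) (-m) (relF_r u) := by
  obtain ⟨h1, h2, h3⟩ := hu
  have h4 := (hUp N n D₁ W h).2.2.2 l u ⟨h1, h2, h3⟩
  -- the largest element with the value false
  have hex : ∃ m : ℤ, u m = false ∧ ∀ z : ℤ, u z = false → z ≤ m := by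
    apply Int.exists_greatest_of_bdd
    · exact ⟨l + W, fun z hz => by
        by_contra hc
        push Not at hc
        rw [h4 z (by omega)] at hz
        exact absurd hz (by decide)⟩
    · exact ⟨l - 1, h2 _ (by omega)⟩
  obtain ⟨m, hm1, hm2⟩ := hex
  refine ⟨m, hm2 _ (h2 _ (by omega)), ?_, ?_, ?_, ?_⟩
  · by_contra hc
    push Not at hc
    rw [h4 m (by omega)] at hm1
    exact absurd hm1 (by decide)
  · simp [relF_r, hm1]
  · intro s hs
    unfold relF_r
    have : u (-s) = true := by
      by_contra hc
      rw [Bool.not_eq_true] at hc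
      have := hm2 _ hc
      omega
    rw [this]
    rfl
  · intro s hs v hv
    unfold relF_r at hs ⊢
    rw [relF_mem] at hv
    have hs' : u (-s) = false := by
      cases hh : u (-s)
      · rfl
      · rw [hh] at hs; exact absurd hs (by decide)
    have : u (-(s + |v|)) = false := by
      by_contra hc
      rw [Bool.not_eq_false] at hc
      have := h3 _ hc (-v) hv
      rw [abs_neg] at this
      have he : -(s + |v|) + |v| = -s := by ring
      rw [he, hs'] at this
      exact absurd this (by decide)
    rw [this]
    rfl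

theorem thm_RelF : (hUp : St_Up) → (hFix : St_Fix) → (hRelT : St_RelT) → St_RelF := by
  intro hUp _ hRelT N n D₁ W hNb l u hu s
  obtain ⟨m, hm1, hm2, hm3⟩ := relF_Up hUp N n D₁ W hNb l u hu
  have hNb' := relF_Nb N n D₁ W hNb
  obtain ⟨⟨l'', u'', hU'', hl1, hl2, hlim⟩, hB, hC, hE⟩ :=
    hRelT (relF_N N) n D₁ W hNb' (-m) (relF_r u) hm3 (-s)
  have key : ∀ r : ℕ, (maj (relF_N N))^[r] (Function.update (relF_r u) (-s) true) =
      relF_r ((maj N)^[r] (Function.update u s false)) := by
    intro r
    rw [← relF_upd, relF_iter N n hNb.card]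
  simp only [key] at hlim hB hC hE
  have hB' : ∀ r : ℕ, 1 ≤ r → ∀ t, (maj N)^[r] (Function.update u s false) t = true →
      u t = true := by
    intro r hr t ht
    by_contra hc
    rw [Bool.not_eq_true] at hc
    have := hB r hr (-t) (by unfold relF_r; rw [neg_neg, hc]; rfl)
    unfold relF_r at this
    rw [neg_neg, ht] at this
    exact absurd this (by decide)
  have hC' : ∀ r : ℕ, 1 ≤ r → ∀ t, l + W + D₁ ≤ t →
      (maj N)^[r] (Function.update u s false) t = true := by
    intro r hr t ht
    by_contra hc
    rw [Bool.not_eq_true] at hc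
    have := hC r hr (-t) (by unfold relF_r; rw [neg_neg, hc]; rfl)
    omega
  refine ⟨?_, hB', hC', ?_⟩
  · obtain ⟨m', hm1', hm2', hm3'⟩ := relF_Up hUp (relF_N N) n D₁ W hNb' l'' u'' hU''
    rw [relF_NN] at hm3'
    have hlim' : ∀ r : ℕ, W + D₁ + 1 ≤ r →
        (maj N)^[r] (Function.update u s false) = relF_r u'' := by
      intro r hr
      have := congrArg relF_r (hlim r hr)
      rwa [relF_rr] at this
    have hr0 := hlim' (W + D₁ + 1) le_rfl
    refine ⟨-m', relF_r u'', hm3', ?_, ?_, hlim'⟩
    · by_contra hc
      push Not at hc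
      have h5 := hB' (W + D₁ + 1) (by omega) (-m') (by rw [hr0]; exact hm3'.1)
      rw [hu.2.1 _ hc] at h5
      exact absurd h5 (by decide)
    · by_contra hc
      push Not at hc
      have h5 := hC' (W + D₁ + 1) (by omega) (l + W + D₁) le_rfl
      rw [hr0, hm3'.2.1 _ hc] at h5
      exact absurd h5 (by decide)
  · intro hs r hr
    have := congrArg relF_r (hE (by omega) r hr)
    rwa [relF_rr, relF_rr] at this

end Pool.Agent.NVA
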