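import Pool.Agent.NVA.St

set_option autoImplicit false

/-! Noisy majority voting, every odd neighbourhood: relaxation of one added site (helper66). -/

namespace Pool.Agent.NVA

open MeasureTheory Set Pool.Agent.Helper55.Vote

/-- the sites which the majority can fill -/
private def relT_M (N : Finset ℤ) (u : ℤ → Bool) (t : ℤ) : Prop :=
  u t = false ∧ ∀ v ∈ N, 0 < v → u (t + v) = true

/-- the sites filled after `r + 1` steps -/
private def relT_Y (N : Finset ℤ) (u : ℤ → Bool) (s : ℤ) : ℕ → ℤ → Prop
  | 0 => fun t => relT_M N u t ∧ (t = s ∨ ∃ v ∈ N, v < 0 ∧ t = s + |v|)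
  | r + 1 => fun t => relT_Y N u s r t ∨
      (relT_M N u t ∧ ∃ v ∈ N, v < 0 ∧ relT_Y N u s r (t + v))

private lemma relT_YM (N : Finset ℤ) (u : ℤ → Bool) (s : ℤ) (r : ℕ) (t : ℤ)
    (h : relT_Y N u s r t) : relT_M N u t := by
  induction r with
  | zero => exact h.1
  | succ r ih =>
    rcases h with h | h
    · exact ih h
    · exact h.1

private lemma relT_true (N : Finset ℤ) (n D₁ W : ℕ) (hN : Nb N n D₁ W) (x : ℤ → Bool) (t v₀ : ℤ)
    (h : ∀ v ∈ N, 0 < v → x (t + v) = true) (h0 : v₀ ∈ N) (h1 : v₀ ≤ 0)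
    (h2 : x (t + v₀) = true) : maj N x t = true := by
  classical
  unfold maj
  rw [hN.card, decide_eq_true_iff]
  have h3 : insert v₀ (N.filter fun v => 0 < v) ⊆ N.filter fun j => x (t + j) = true := by
    intro v hv
    rw [Finset.mem_filter]
    rcases Finset.mem_insert.1 hv with rfl | hv
    · exact ⟨h0, h2⟩
    · obtain ⟨hv1, hv2⟩ := Finset.mem_filter.1 hv
      exact ⟨hv1, h v hv1 hv2⟩
  have h4 := Finset.card_le_card h3
  rw [Finset.card_insert_of_notMem (by simp [h1]), hN.posi] at h4
  omega

private lemma relT_false (N : Finset ℤ) (n D₁ W : ℕ) (hN : Nb N n D₁ W) (x : ℤ → Bool) (t : ℤ)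
    (h : ∀ v ∈ N, x (t + v) = true → 0 < v) : maj N x t = false := by
  classical
  unfold maj
  rw [hN.card, decide_eq_false_iff_not]
  have h3 : (N.filter fun j => x (t + j) = true) ⊆ N.filter fun v => 0 < v := by
    intro v hv
    obtain ⟨hv1, hv2⟩ := Finset.mem_filter.1 hv
    rw [Finset.mem_filter]
    exact ⟨hv1, h v hv1 hv2⟩
  have h4 := Finset.card_le_card h3
  rw [hN.posi] at h4
  omega

private lemma relT_one (N : Finset ℤ) (n D₁ W : ℕ) (hN : Nb N n D₁ W) (x : ℤ → Bool) (t v₀ : ℤ)
    (h : ∀ v ∈ N, x (t + v) = true → 0 < v ∨ v = v₀) (hm : maj N x t = true) :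
    v₀ ∈ N ∧ v₀ ≤ 0 ∧ ∀ v ∈ N, 0 < v → x (t + v) = true := by
  classical
  have hv : v₀ ∈ N ∧ v₀ ≤ 0 := by
    by_contra hc
    rw [relT_false N n D₁ W hN x t ?_] at hm
    · exact absurd hm (by decide)
    · intro v hv hx
      rcases h v hv hx with h1 | h1
      · exact h1
      · subst h1
        by_contra h2
        exact hc ⟨hv, not_lt.1 h2⟩
  refine ⟨hv.1, hv.2, ?_⟩
  intro v hvN hv0
  by_contra hx
  have h3 : (N.filter fun j => x (t + j) = true) ⊆
      insert v₀ ((N.filter fun v => 0 < v).erase v) := by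
    intro w hw
    obtain ⟨hw1, hw2⟩ := Finset.mem_filter.1 hw
    rw [Finset.mem_insert, Finset.mem_erase, Finset.mem_filter]
    rcases h w hw1 hw2 with h1 | h1
    · refine Or.inr ⟨?_, hw1, h1⟩
      rintro rfl
      exact hx hw2
    · exact Or.inl h1
  have h4 := Finset.card_le_card h3
  have h5 : v ∈ N.filter fun v => 0 < v := Finset.mem_filter.2 ⟨hvN, hv0⟩
  have h6 := Finset.card_erase_of_mem h5
  have h7 := Finset.card_insert_le v₀ ((N.filter fun v => 0 < v).erase v)
  rw [hN.posi] at h6
  have h8 := hN.pos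
  unfold maj at hm
  rw [hN.card, decide_eq_true_iff] at hm
  omega

private lemma relT_pos (N : Finset ℤ) (l : ℤ) (u : ℤ → Bool) (hu : Up N l u) (t v : ℤ)
    (ht : u t = false) (hv : v ∈ N) (h : u (t + v) = true) : 0 < v := by
  by_contra hneg
  have h2 := hu.2.2 (t + v) h v hv
  rw [abs_of_nonpos (not_lt.1 hneg), add_neg_cancel_right, ht] at h2
  exact absurd h2 (by decide)

/-- a site one step above a fillable site is fillable or a one -/
private lemma relT_up (N : Finset ℤ) (l : ℤ) (u : ℤ → Bool) (hu : Up N l u) (t v : ℤ)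
    (ht : u t = false) (hv : v ∈ N) (hv0 : v < 0) (h : relT_M N u (t + v)) :
    relT_M N u t := by
  refine ⟨ht, fun w hw hw0 => ?_⟩
  have h1 := hu.2.2 _ (h.2 w hw hw0) v hv
  rw [abs_of_neg hv0] at h1
  have e : t + v + w + -v = t + w := by ring
  rwa [e] at h1

private lemma relT_first (N : Finset ℤ) (n D₁ W : ℕ) (hN : Nb N n D₁ W) (l : ℤ) (u : ℤ → Bool)
    (hu : Up N l u) (s : ℤ) (hs : u s = false) (t : ℤ) :
    maj N (Function.update u s true) t = true ↔ u t = true ∨ relT_Y N u s 0 t := by
  constructor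
  · intro hm
    by_cases ht : u t = true
    · exact Or.inl ht
    · rw [Bool.not_eq_true] at ht
      have h1 : ∀ v ∈ N, Function.update u s true (t + v) = true → 0 < v ∨ v = s - t := by
        intro v hv hx
        by_cases hvs : t + v = s
        · exact Or.inr (by omega)
        · rw [Function.update_of_ne hvs] at hx
          exact Or.inl (relT_pos N l u hu t v ht hv hx)
      obtain ⟨h2, h3, h4⟩ := relT_one N n D₁ W hN _ t (s - t) h1 hm
      refine Or.inr ⟨⟨ht, fun v hv hv0 => ?_⟩, ?_⟩
      · have h5 := h4 v hv hv0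
        rwa [Function.update_of_ne (by omega)] at h5
      · rcases h3.eq_or_lt with h6 | h6
        · exact Or.inl (by omega)
        · refine Or.inr ⟨s - t, h2, h6, ?_⟩
          rw [abs_of_neg h6]
          ring
  · rintro (ht | ⟨hM, hE⟩)
    · have hup : ∀ w, u w = true → Function.update u s true w = true := by
        intro w hw
        by_cases h : w = s
        · subst h; simp
        · rw [Function.update_of_ne h]; exact hw
      refine relT_true N n D₁ W hN _ t 0 (fun v hv hv0 => ?_) hN.zero le_rfl ?_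
      · have h1 := hu.2.2 t ht v hv
        rw [abs_of_pos hv0] at h1
        exact hup _ h1
      · rw [add_zero]
        exact hup _ ht
    · have hv : ∃ v₀ ∈ N, v₀ ≤ 0 ∧ t + v₀ = s := by
        rcases hE with rfl | ⟨v, hv, hv0, rfl⟩
        · exact ⟨0, hN.zero, le_rfl, by ring⟩
        · exact ⟨v, hv, hv0.le, by rw [abs_of_neg hv0]; ring⟩
      obtain ⟨v₀, h1, h2, h3⟩ := hv
      refine relT_true N n D₁ W hN _ t v₀ (fun v hv hv0 => ?_) h1 h2 ?_
      · by_cases h : t + v = s
        · rw [h]; simp
        · rw [Function.update_of_ne h]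
          exact hM.2 v hv hv0
      · rw [h3]; simp

private lemma relT_next (N : Finset ℤ) (n D₁ W : ℕ) (hN : Nb N n D₁ W) (l : ℤ) (u : ℤ → Bool)
    (hu : Up N l u) (X : ℤ → Prop) (hX : ∀ t, X t → relT_M N u t) (y : ℤ → Bool)
    (hy : ∀ t, y t = true ↔ u t = true ∨ X t) (t : ℤ) :
    maj N y t = true ↔ u t = true ∨ (X t ∨ (relT_M N u t ∧ ∃ v ∈ N, v < 0 ∧ X (t + v))) := by
  constructor
  · intro hm
    by_contra hc
    push Not at hc
    obtain ⟨h1, h2, h3⟩ := hc
    rw [relT_false N n D₁ W hN y t ?_] at hm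
    · exact absurd hm (by decide)
    · intro v hv hx
      rw [ne_eq, Bool.not_eq_true] at h1
      rcases (hy _).1 hx with h4 | h4
      · exact relT_pos N l u hu t v h1 hv h4
      · by_contra h5
        rcases (not_lt.1 h5).eq_or_lt with h6 | h6
        · rw [h6, add_zero] at h4
          exact h2 h4
        · exact h3 (relT_up N l u hu t v h1 hv h6 (hX _ h4)) v hv h6 h4
  · rintro (ht | ht | ⟨hM, v, hv, hv0, ht⟩)
    · refine relT_true N n D₁ W hN _ t 0 (fun v hv hv0 => ?_) hN.zero le_rfl ?_
      · have h1 := hu.2.2 t ht v hv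
        rw [abs_of_pos hv0] at h1
        exact (hy _).2 (Or.inl h1)
      · rw [add_zero]
        exact (hy _).2 (Or.inl ht)
    · refine relT_true N n D₁ W hN _ t 0 (fun v hv hv0 => ?_) hN.zero le_rfl ?_
      · exact (hy _).2 (Or.inl ((hX t ht).2 v hv hv0))
      · rw [add_zero]
        exact (hy _).2 (Or.inr ht)
    · refine relT_true N n D₁ W hN _ t v (fun w hw hw0 => ?_) hv hv0.le ?_
      · exact (hy _).2 (Or.inl (hM.2 w hw hw0))
      · exact (hy _).2 (Or.inr ht)

private lemma relT_iter (N : Finset ℤ) (n D₁ W : ℕ) (hN : Nb N n D₁ W) (l : ℤ) (u : ℤ → Bool)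
    (hu : Up N l u) (s : ℤ) (hs : u s = false) (r : ℕ) :
    ∀ t, (maj N)^[r + 1] (Function.update u s true) t = true ↔
      u t = true ∨ relT_Y N u s r t := by
  induction r with
  | zero =>
    intro t
    exact relT_first N n D₁ W hN l u hu s hs t
  | succ r ih =>
    intro t
    rw [Function.iterate_succ_apply']
    exact relT_next N n D₁ W hN l u hu (relT_Y N u s r) (relT_YM N u s r) _ ih t

private lemma relT_low (N : Finset ℤ) (n D₁ W : ℕ) (hN : Nb N n D₁ W) (l : ℤ) (u : ℤ → Bool)
    (hu : Up N l u) (t : ℤ) (h : relT_M N u t) : l - D₁ ≤ t := by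
  have h1 : (N.filter fun v => 0 < v).Nonempty := by
    rw [← Finset.card_pos, hN.posi]
    exact hN.pos
  obtain ⟨v, hv⟩ := h1
  obtain ⟨hv1, hv2⟩ := Finset.mem_filter.1 hv
  have h2 := h.2 v hv1 hv2
  have h3 := hN.bd v hv1
  rw [abs_of_pos hv2] at h3
  by_contra hc
  rw [hu.2.1 (t + v) (by omega)] at h2
  exact absurd h2 (by decide)

private lemma relT_new (N : Finset ℤ) (n D₁ W : ℕ) (hN : Nb N n D₁ W) (l : ℤ) (u : ℤ → Bool)
    (hu : Up N l u) (s : ℤ) (r : ℕ) : ∀ t, relT_Y N u s (r + 1) t → ¬ relT_Y N u s r t →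
      l - D₁ + (r + 1 : ℕ) ≤ t := by
  induction r with
  | zero =>
    rintro t (h | ⟨_, v, _, hv0, h⟩) h'
    · exact absurd h h'
    · have := relT_low N n D₁ W hN l u hu _ (relT_YM N u s 0 _ h)
      push_cast
      omega
  | succ r ih =>
    rintro t (h | ⟨hM, v, hv, hv0, h⟩) h'
    · exact absurd h h'
    · have h2 : ¬ relT_Y N u s r (t + v) := fun h3 => h' (Or.inr ⟨hM, v, hv, hv0, h3⟩)
      have := ih _ h h2
      push_cast at this ⊢
      omega

theorem thm_RelT : (hUp : St_Up) → (hFix : St_Fix) → St_RelT := by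
  intro hUp hFix N n D₁ W hN l u hu s
  have hfill := (hUp N n D₁ W hN).2.2.2 l u hu
  by_cases hs : u s = true
  · -- nothing changes
    have h1 : Function.update u s true = u := by
      rw [← hs]
      exact Function.update_eq_self s u
    have h2 : ∀ r : ℕ, (maj N)^[r] (Function.update u s true) = u := by
      intro r
      rw [h1]
      exact Function.iterate_fixed (hFix N n D₁ W hN u ⟨l, hu⟩) r
    refine ⟨⟨l, u, hu, by omega, le_rfl, fun r _ => h2 r⟩, ?_, ?_, ?_⟩
    · intro r _ t ht
      rw [h2]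
      exact ht
    · intro r _ t ht
      rw [h2] at ht
      by_contra hc
      rw [hu.2.1 t (by omega)] at ht
      exact absurd ht (by decide)
    · intro _ r _
      exact h2 r
  · rw [Bool.not_eq_true] at hs
    have hit := relT_iter N n D₁ W hN l u hu s hs
    have hhi : ∀ r t, relT_Y N u s r t → t < l + W := by
      intro r t h
      by_contra hc
      have h1 := hfill t (by omega)
      rw [(relT_YM N u s r t h).1] at h1
      exact absurd h1 (by decide)
    have hB : ∀ r : ℕ, 1 ≤ r → ∀ t, u t = true →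
        (maj N)^[r] (Function.update u s true) t = true := by
      intro r hr t ht
      obtain ⟨r, rfl⟩ : ∃ r', r = r' + 1 := ⟨r - 1, by omega⟩
      exact (hit r t).2 (Or.inl ht)
    have hC : ∀ r : ℕ, 1 ≤ r → ∀ t, (maj N)^[r] (Function.update u s true) t = true →
        l - D₁ ≤ t := by
      intro r hr t ht
      obtain ⟨r, rfl⟩ : ∃ r', r = r' + 1 := ⟨r - 1, by omega⟩
      rcases (hit r t).1 ht with h | h
      · by_contra hc
        rw [hu.2.1 t (by omega)] at h
        exact absurd h (by decide)
      · exact relT_low N n D₁ W hN l u hu t (relT_YM N u s r t h)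
    refine ⟨?_, hB, hC, ?_⟩
    · -- stabilisation
      have hst1 : ∀ r, W + D₁ ≤ r → ∀ t, relT_Y N u s (r + 1) t ↔ relT_Y N u s r t := by
        intro r hr t
        refine ⟨fun h => ?_, fun h => Or.inl h⟩
        by_contra hc
        have h1 := relT_new N n D₁ W hN l u hu s r t h hc
        have h2 := hhi _ t h
        push_cast at h1
        omega
      have hst : ∀ k, ∀ t, relT_Y N u s (W + D₁ + k) t ↔ relT_Y N u s (W + D₁) t := by
        intro k
        induction k with
        | zero => intro t; rfl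
        | succ k ih =>
          intro t
          rw [← ih t]
          exact hst1 (W + D₁ + k) (by omega) t
      have hlim : ∀ r : ℕ, W + D₁ + 1 ≤ r → (maj N)^[r] (Function.update u s true) =
          (maj N)^[W + D₁ + 1] (Function.update u s true) := by
        intro r hr
        obtain ⟨k, rfl⟩ : ∃ k, r = W + D₁ + k + 1 := ⟨r - (W + D₁ + 1), by omega⟩
        funext t
        rw [Bool.eq_iff_iff, hit, hit, hst k t]
      have hr0 : ∀ t, (maj N)^[W + D₁ + 1] (Function.update u s true) t = true ↔
          u t = true ∨ relT_Y N u s (W + D₁) t := hit (W + D₁)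
      obtain ⟨l', hl1, hl2⟩ : ∃ l' : ℤ,
          (maj N)^[W + D₁ + 1] (Function.update u s true) l' = true ∧
          ∀ z : ℤ, (maj N)^[W + D₁ + 1] (Function.update u s true) z = true → l' ≤ z := by
        apply Int.exists_least_of_bdd
        · exact ⟨l - D₁, fun z hz => hC _ (by omega) z hz⟩
        · exact ⟨l, hB _ (by omega) l hu.1⟩
      refine ⟨l', _, ⟨hl1, ?_, ?_⟩, hC _ (by omega) l' hl1,
        hl2 l (hB _ (by omega) l hu.1), hlim⟩
      · intro z hz
        by_contra hc
        rw [Bool.not_eq_false] at hc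
        have := hl2 z hc
        omega
      · intro t ht v hv
        rw [hr0] at ht ⊢
        rcases ht with ht | ht
        · exact Or.inl (hu.2.2 t ht v hv)
        · have hM := relT_YM N u s _ t ht
          rcases lt_trichotomy v 0 with hv0 | hv0 | hv0
          · by_cases h1 : u (t + |v|) = true
            · exact Or.inl h1
            · rw [Bool.not_eq_true] at h1
              refine Or.inr ((hst1 (W + D₁) le_rfl _).1 (Or.inr ⟨?_, v, hv, hv0, ?_⟩))
              · refine relT_up N l u hu (t + |v|) v h1 hv hv0 ?_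
                rw [abs_of_neg hv0, neg_add_cancel_right]
                exact hM
              · rw [abs_of_neg hv0, neg_add_cancel_right]
                exact ht
          · rw [hv0, abs_zero, add_zero]
            exact Or.inr ht
          · rw [abs_of_pos hv0]
            exact Or.inl (hM.2 v hv hv0)
    · intro hlt r hr
      have hemp : ∀ r t, ¬ relT_Y N u s r t := by
        intro r
        induction r with
        | zero =>
          rintro t ⟨hM, hE⟩
          have h1 := relT_low N n D₁ W hN l u hu t hM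
          rcases hE with rfl | ⟨v, hv, _, rfl⟩
          · omega
          · have := hN.bd v hv
            omega
        | succ r ih =>
          rintro t (h | ⟨_, v, _, _, h⟩)
          · exact ih t h
          · exact ih _ h
      obtain ⟨r, rfl⟩ : ∃ r', r = r' + 1 := ⟨r - 1, by omega⟩
      funext t
      rw [Bool.eq_iff_iff, hit]
      exact ⟨fun h => h.resolve_right (hemp r t), Or.inl⟩

end Pool.Agent.NVA
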