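import Pool.Agent.NVA.Defs2

set_option autoImplicit false

/-! Noisy majority voting: the law of one step of the second chain (`St_StepS`). -/

namespace Pool.Agent.NVA

open MeasureTheory Set Pool.Agent.Helper55.Vote

/-- the noise which adds (`c = true`) or removes (`c = false`) -/
private def StepS_nz (b c : Bool) : Option Bool := if c = true then some b else some (!b)

/-- the values of the noise at the site `s'` in the event `StepS_A` -/
private def StepS_V (b : Bool) (j : ℤ × Bool) (s' : ℤ) : Set (Option Bool) :=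
  if s' = j.1 then {StepS_nz b j.2} else {none}

/-- `none`: no noise in `S` at the time `i`; `some j`: the only noise in `S` at the time `i` is
`StepS_nz b j.2` at the site `j.1` -/
private def StepS_A (S : Finset ℤ) (b : Bool) (i : ℤ) : Option (ℤ × Bool) → Set Om
  | none => {ω | ∀ s' ∈ S, ω (s', i) ∈ ({none} : Set (Option Bool))}
  | some j => {ω | ∀ s' ∈ S, ω (s', i) ∈ StepS_V b j s'}

private lemma StepS_A_none {S : Finset ℤ} {b : Bool} {i : ℤ} {ω : Om} :
    ω ∈ StepS_A S b i none ↔ ∀ s' ∈ S, ω (s', i) = none := Iff.rfl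

private lemma StepS_A_self {S : Finset ℤ} {b : Bool} {i : ℤ} {j : ℤ × Bool} {ω : Om}
    (h : ω ∈ StepS_A S b i (some j)) (hj : j.1 ∈ S) : ω (j.1, i) = StepS_nz b j.2 := by
  have h1 := h j.1 hj
  unfold StepS_V at h1
  rw [if_pos rfl] at h1
  exact h1

private lemma StepS_A_ne {S : Finset ℤ} {b : Bool} {i : ℤ} {j : ℤ × Bool} {ω : Om}
    (h : ω ∈ StepS_A S b i (some j)) {s' : ℤ} (hs : s' ∈ S) (hne : s' ≠ j.1) :
    ω (s', i) = none := by
  have h1 := h s' hs
  unfold StepS_V at h1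
  rw [if_neg hne] at h1
  exact h1

private lemma StepS_nz_ne (b c : Bool) : StepS_nz b c ≠ none := by
  unfold StepS_nz
  split_ifs <;> simp

private lemma StepS_nz_inj (b : Bool) {c c' : Bool} (h : StepS_nz b c = StepS_nz b c') :
    c = c' := by
  unfold StepS_nz at h
  revert h
  cases b <;> cases c <;> cases c' <;> simp

private lemma StepS_dec (b c : Bool) : decide (StepS_nz b c = some b) = c := by
  unfold StepS_nz
  cases b <;> cases c <;> simp

private lemma StepS_nz_surj (b : Bool) (o : Option Bool) (h : o ≠ none) :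
    ∃ c, o = StepS_nz b c := by
  obtain ⟨x, rfl⟩ := Option.ne_none_iff_exists'.1 h
  unfold StepS_nz
  cases b <;> cases x
  · exact ⟨true, by simp⟩
  · exact ⟨false, by simp⟩
  · exact ⟨false, by simp⟩
  · exact ⟨true, by simp⟩

private lemma StepS_FL (S : Finset ℤ) (b : Bool) (i : ℤ) (j : Option (ℤ × Bool)) :
    FL {c : ℤ × ℤ | c.2 = i} (StepS_A S b i j) := by
  have aux : ∀ V : ℤ → Set (Option Bool),
      FL {c : ℤ × ℤ | c.2 = i} {ω : Om | ∀ s' ∈ S, ω (s', i) ∈ V s'} := by
    intro V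
    have h := FL.biInter (R := {c : ℤ × ℤ | c.2 = i}) S
      (fun s' => {ω : Om | ω (s', i) ∈ V s'}) (fun s' _ => FL.single _ (by simp) _)
    have e : {ω : Om | ∀ s' ∈ S, ω (s', i) ∈ V s'} =
        ⋂ s' ∈ S, {ω : Om | ω (s', i) ∈ V s'} := by
      ext ω
      simp only [mem_ofPred_eq, mem_iInter]
    rw [e]
    exact h
  cases j with
  | none => exact aux _
  | some j => exact aux _

private lemma StepS_none (μ₀ : Measure (Option Bool)) [IsProbabilityMeasure μ₀] (b : Bool) :
    μ₀.real {none} = 1 - μ₀.real {some b} - μ₀.real {some (!b)} := by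
  have h := sum_measureReal_singleton (μ := μ₀) (Finset.univ : Finset (Option Bool))
  rw [Finset.coe_univ, probReal_univ, Fintype.sum_option, Fintype.sum_bool] at h
  cases b
  · simp only [Bool.not_false]; linarith
  · simp only [Bool.not_true]; linarith

private lemma StepS_prob0 (μ₀ : Measure (Option Bool)) [IsProbabilityMeasure μ₀]
    (S : Finset ℤ) (b : Bool) (i : ℤ) :
    (Pm μ₀).real (StepS_A S b i none) = μ₀.real {none} ^ S.card := by
  show (Pm μ₀).real {ω : Om | ∀ s' ∈ S, ω (s', i) ∈ ({none} : Set (Option Bool))} = _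
  rw [prob_prod μ₀ S i fun _ => {none}, Finset.prod_const]

private lemma StepS_prob (μ₀ : Measure (Option Bool)) [IsProbabilityMeasure μ₀]
    (S : Finset ℤ) (b : Bool) (i : ℤ) (j : ℤ × Bool) (hj : j.1 ∈ S) :
    (Pm μ₀).real (StepS_A S b i (some j)) =
      μ₀.real {StepS_nz b j.2} * μ₀.real {none} ^ (S.card - 1) := by
  show (Pm μ₀).real {ω : Om | ∀ s' ∈ S, ω (s', i) ∈ StepS_V b j s'} = _
  rw [prob_prod, ← Finset.mul_prod_erase S _ hj, ← Finset.card_erase_of_mem hj]
  congr 1
  · unfold StepS_V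
    rw [if_pos rfl]
  · rw [← Finset.prod_const]
    refine Finset.prod_congr rfl fun s' hs' => ?_
    unfold StepS_V
    rw [if_neg (Finset.ne_of_mem_erase hs')]

private lemma StepS_disj0 (S : Finset ℤ) (b : Bool) (i : ℤ) (j : ℤ × Bool) (hj : j.1 ∈ S) :
    Disjoint (StepS_A S b i none) (StepS_A S b i (some j)) := by
  rw [Set.disjoint_left]
  intro ω h h'
  have h1 := StepS_A_self h' hj
  rw [h j.1 hj] at h1
  exact StepS_nz_ne _ _ h1.symm

private lemma StepS_disj (S : Finset ℤ) (b : Bool) (i : ℤ) (j j' : ℤ × Bool) (hj : j.1 ∈ S)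
    (hj' : j'.1 ∈ S) (hne : j ≠ j') :
    Disjoint (StepS_A S b i (some j)) (StepS_A S b i (some j')) := by
  rw [Set.disjoint_left]
  intro ω h h'
  have h1 := StepS_A_self h hj
  have h2 := StepS_A_self h' hj'
  have e1 : j.1 = j'.1 := by
    by_contra hcon
    have h3 := StepS_A_ne h' hj hcon
    rw [h1] at h3
    exact StepS_nz_ne _ _ h3
  rw [← e1, h1] at h2
  exact hne (Prod.ext e1 (StepS_nz_inj b h2))

/-- the law of a function of a finite partition -/
private lemma StepS_part {ι : Type} (μ₀ : Measure (Option Bool)) [IsProbabilityMeasure μ₀]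
    (i : ℤ) (I : Finset ι) (A : ι → Set Om) (hA : ∀ j, FL {c : ℤ × ℤ | c.2 = i} (A j))
    (hd : ∀ j ∈ I, ∀ j' ∈ I, j ≠ j' → Disjoint (A j) (A j')) (E : St2 → Set Om)
    (hE : ∀ st', FL {c : ℤ × ℤ | i + 1 ≤ c.2} (E st')) (f : Om → St2) (o : ι → St2) (d : St2)
    (ho : ∀ j ∈ I, ∀ ω ∈ A j, f ω = o j) (hdef : ∀ ω, (∀ j ∈ I, ω ∉ A j) → f ω = d) :
    0 ≤ 1 - ∑ j ∈ I, (Pm μ₀).real (A j) ∧
    FL {c : ℤ × ℤ | i ≤ c.2} {ω | ω ∈ E (f ω)} ∧
    (Pm μ₀).real {ω | ω ∈ E (f ω)} =
      ∑ j ∈ I, (Pm μ₀).real (A j) * (Pm μ₀).real (E (o j)) +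
        (1 - ∑ j ∈ I, (Pm μ₀).real (A j)) * (Pm μ₀).real (E d) := by
  have hdis : Disjoint {c : ℤ × ℤ | c.2 = i} {c : ℤ × ℤ | i + 1 ≤ c.2} := by
    rw [Set.disjoint_left]
    intro c h1 h2
    simp only [mem_ofPred_eq] at h1 h2
    omega
  set U : Set Om := ⋃ j ∈ I, A j with hU
  have hUFL : FL {c : ℤ × ℤ | c.2 = i} U := FL.biUnion I _ fun j _ => hA j
  have hpd : (↑I : Set ι).PairwiseDisjoint A := by
    intro j hj j' hj' hne
    exact hd j hj j' hj' hne
  have hPU : (Pm μ₀).real U = ∑ j ∈ I, (Pm μ₀).real (A j) := by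
    rw [hU, measureReal_biUnion_finset hpd fun j _ => (hA j).meas]
  have hPUc : (Pm μ₀).real Uᶜ = 1 - ∑ j ∈ I, (Pm μ₀).real (A j) := by
    rw [probReal_compl_eq_one_sub hUFL.meas, hPU]
  set X : Set Om := {ω | ω ∈ E (f ω)} with hX
  have hXU : X ∩ U = ⋃ j ∈ I, (A j ∩ E (o j)) := by
    ext ω
    simp only [hX, hU, mem_inter_iff, mem_ofPred_eq, mem_iUnion, exists_prop]
    constructor
    · rintro ⟨h1, j, hj, h2⟩
      refine ⟨j, hj, h2, ?_⟩
      rw [ho j hj ω h2] at h1
      exact h1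
    · rintro ⟨j, hj, h2, h3⟩
      refine ⟨?_, j, hj, h2⟩
      rw [ho j hj ω h2]
      exact h3
  have hXR : X \ U = Uᶜ ∩ E d := by
    have key : ∀ ω, ω ∉ U → f ω = d := by
      intro ω hω
      refine hdef ω fun j hj hA' => hω ?_
      simp only [hU, mem_iUnion, exists_prop]
      exact ⟨j, hj, hA'⟩
    ext ω
    simp only [hX, mem_sdiff, mem_inter_iff, mem_compl_iff, mem_ofPred_eq]
    constructor
    · rintro ⟨h1, h2⟩
      rw [key ω h2] at h1
      exact ⟨h2, h1⟩
    · rintro ⟨h2, h1⟩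
      refine ⟨?_, h2⟩
      rw [key ω h2]
      exact h1
  have hle1 : ∀ {B : Set Om}, FL {c : ℤ × ℤ | c.2 = i} B → FL {c : ℤ × ℤ | i ≤ c.2} B := by
    intro B hB
    refine hB.mono fun c hc => ?_
    simp only [mem_ofPred_eq] at hc ⊢
    omega
  have hle2 : ∀ u', FL {c : ℤ × ℤ | i ≤ c.2} (E u') := by
    intro u'
    refine (hE u').mono fun c hc => ?_
    simp only [mem_ofPred_eq] at hc ⊢
    omega
  refine ⟨?_, ?_, ?_⟩
  · rw [← hPUc]
    exact measureReal_nonneg
  · have hX2 : X = (X ∩ U) ∪ (X \ U) := (inter_union_sdiff X U).symm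
    rw [hX2, hXU, hXR]
    exact (FL.biUnion I _ fun j _ => (hle1 (hA j)).inter (hle2 _)).union
      ((hle1 hUFL.compl).inter (hle2 d))
  · rw [← measureReal_inter_add_sdiff (s := X) hUFL.meas, hXU, hXR,
      measureReal_biUnion_finset
        (fun j hj j' hj' hne => (hpd hj hj' hne).mono inter_subset_left inter_subset_left)
        (fun j _ => (hA j).meas.inter (hE _).meas),
      FL.indep μ₀ hUFL.compl (hE d) hdis, hPUc]
    congr 1
    exact Finset.sum_congr rfl fun j _ => FL.indep μ₀ (hA j) (hE _) hdis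

private lemma StepS_step0 (N : Finset ℤ) (D₁ W : ℕ) (b : Bool) (σ : ℤ) (st : St2) (i : ℤ)
    (ω : Om) (h : ω ∈ StepS_A (win D₁ W st.1) b i none) :
    stepS N D₁ W b σ st (fun s => ω (s, i)) = (st.1, st.2.1 - 1, st.2.2) := by
  unfold stepS
  rw [if_pos fun s hs => StepS_A_none.1 h s hs]

private lemma StepS_step1 (N : Finset ℤ) (D₁ W : ℕ) (b : Bool) (σ : ℤ) (st : St2) (i : ℤ)
    (h0 : st.2.1 = 0) (j : ℤ × Bool) (hj : j.1 ∈ win D₁ W st.1) (ω : Om)
    (h : ω ∈ StepS_A (win D₁ W st.1) b i (some j)) :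
    stepS N D₁ W b σ st (fun s => ω (s, i)) =
      (F N D₁ W st.1 j.1 j.2, Rr D₁ W + 1, false) := by
  have h1 := StepS_A_self h hj
  have hex : st.2.1 = 0 ∧ ∃ s, s ∈ win D₁ W st.1 ∧ (fun s => ω (s, i)) s ≠ none ∧
      ∀ s' ∈ win D₁ W st.1, (fun s => ω (s, i)) s' ≠ none → s' = s := by
    refine ⟨h0, j.1, hj, ?_, fun s' hs' hne => ?_⟩
    · show ω (j.1, i) ≠ none
      rw [h1]
      exact StepS_nz_ne _ _
    · by_contra hcon
      exact hne (StepS_A_ne h hs' hcon)
  have hc : hex.2.choose = j.1 := by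
    by_contra hcon
    exact hex.2.choose_spec.2.1 (StepS_A_ne h hex.2.choose_spec.1 hcon)
  unfold stepS
  rw [if_neg fun hall => StepS_nz_ne b j.2 (h1.symm.trans (hall j.1 hj)), dif_pos hex, hc]
  show (F N D₁ W st.1 j.1 (decide (ω (j.1, i) = some b)), Rr D₁ W + 1, false) = _
  rw [h1, StepS_dec]

private lemma StepS_stepR (N : Finset ℤ) (D₁ W : ℕ) (b : Bool) (σ : ℤ) (st : St2) (i : ℤ)
    (ω : Om) (h0 : ω ∉ StepS_A (win D₁ W st.1) b i none)
    (h : st.2.1 = 0 → ∀ j : ℤ × Bool, j.1 ∈ win D₁ W st.1 →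
      ω ∉ StepS_A (win D₁ W st.1) b i (some j)) :
    stepS N D₁ W b σ st (fun s => ω (s, i)) = rst D₁ W σ st.1 := by
  have hex : ¬ (st.2.1 = 0 ∧ ∃ s, s ∈ win D₁ W st.1 ∧ (fun s => ω (s, i)) s ≠ none ∧
      ∀ s' ∈ win D₁ W st.1, (fun s => ω (s, i)) s' ≠ none → s' = s) := by
    rintro ⟨hst, s, hs, hne, huni⟩
    obtain ⟨c, hc⟩ := StepS_nz_surj b (ω (s, i)) hne
    refine h hst (s, c) hs ?_
    intro s' hs'
    unfold StepS_V
    by_cases he : s' = s
    · rw [if_pos he, he]
      exact hc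
    · rw [if_neg he]
      by_contra hcon
      exact he (huni s' hs' hcon)
  unfold stepS
  rw [if_neg fun hall => h0 (StepS_A_none.2 hall), dif_neg hex]

theorem thm_StepS : St_StepS := by
  intro N D₁ W μ₀ _ b σ st i E hE
  set S := win D₁ W st.1 with hS
  set p := μ₀.real {some b} with hp
  set p' := μ₀.real {some (!b)} with hp'
  have hcard : S.card = 2 * Bb D₁ W := by
    rw [hS, win, Int.card_Ico]
    omega
  have hq : μ₀.real {none} ^ (S.card - 1) = qq D₁ W p p' := by
    rw [StepS_none μ₀ b, hcard]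
    rfl
  have hP0 : (Pm μ₀).real (StepS_A S b i none) = q0 D₁ W p p' := by
    rw [StepS_prob0, StepS_none μ₀ b, hcard]
    rfl
  have hPt : ∀ s ∈ S, (Pm μ₀).real (StepS_A S b i (some (s, true))) = qq D₁ W p p' * p := by
    intro s hs
    rw [StepS_prob μ₀ S b i (s, true) hs, hq, mul_comm]
    rfl
  have hPf : ∀ s ∈ S, (Pm μ₀).real (StepS_A S b i (some (s, false))) = qq D₁ W p p' * p' := by
    intro s hs
    rw [StepS_prob μ₀ S b i (s, false) hs, hq, mul_comm]
    rfl
  -- the partition of a relaxed state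
  set I : Finset (Option (ℤ × Bool)) := Finset.insertNone (S ×ˢ Finset.univ) with hI
  have hmem : ∀ j, some j ∈ I → j.1 ∈ S := by
    intro j hj
    rw [hI, Finset.some_mem_insertNone] at hj
    exact (Finset.mem_product.1 hj).1
  have hsum : ∀ f : Option (ℤ × Bool) → ℝ,
      ∑ j ∈ I, f j = f none + ∑ s ∈ S, (f (some (s, true)) + f (some (s, false))) := by
    intro f
    rw [hI, Finset.sum_insertNone, Finset.sum_product]
    congr 1
    refine Finset.sum_congr rfl fun s _ => ?_
    rw [Fintype.sum_bool]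
  have hd : ∀ j ∈ I, ∀ j' ∈ I, j ≠ j' → Disjoint (StepS_A S b i j) (StepS_A S b i j') := by
    intro j hj j' hj' hne
    cases j with
    | none =>
      cases j' with
      | none => exact absurd rfl hne
      | some j' => exact StepS_disj0 S b i j' (hmem j' hj')
    | some j =>
      cases j' with
      | none => exact (StepS_disj0 S b i j (hmem j hj)).symm
      | some j' =>
        exact StepS_disj S b i j j' (hmem j hj) (hmem j' hj') fun h => hne (congrArg some h)
  have hPI : 1 - ∑ j ∈ I, (Pm μ₀).real (StepS_A S b i j) = q2 D₁ W p p' := by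
    rw [hsum, hP0, Finset.sum_congr rfl fun s hs => by rw [hPt s hs, hPf s hs], Finset.sum_const,
      hcard, nsmul_eq_mul, q2]
    push_cast
    ring
  have h2 : 0 ≤ q2 D₁ W p p' := by
    have hdef : ∀ ω : Om, (∀ j ∈ I, ω ∉ StepS_A S b i j) → (fun _ : Om => st) ω = st :=
      fun _ _ => rfl
    have := (StepS_part μ₀ i I (StepS_A S b i) (StepS_FL S b i) hd E hE (fun _ => st)
      (fun _ => st) st (fun _ _ _ _ => rfl) hdef).1
    rwa [hPI] at this
  refine ⟨h2, ?_⟩
  by_cases h0 : st.2.1 = 0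
  · let o : Option (ℤ × Bool) → St2 := fun j => match j with
      | none => (st.1, st.2.1 - 1, st.2.2)
      | some j => (F N D₁ W st.1 j.1 j.2, Rr D₁ W + 1, false)
    obtain ⟨-, h3, h4⟩ := StepS_part μ₀ i I (StepS_A S b i) (StepS_FL S b i) hd E hE
      (fun ω => stepS N D₁ W b σ st fun s => ω (s, i)) o (rst D₁ W σ st.1)
      (by
        intro j hj ω hω
        cases j with
        | none => exact StepS_step0 N D₁ W b σ st i ω hω
        | some j => exact StepS_step1 N D₁ W b σ st i h0 j (hmem j hj) ω hω)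
      (by
        intro ω hω
        refine StepS_stepR N D₁ W b σ st i ω (hω none ?_) fun _ j hj => hω (some j) ?_
        · rw [hI]
          exact Finset.none_mem_insertNone
        · rw [hI, Finset.some_mem_insertNone]
          exact Finset.mem_product.2 ⟨hj, Finset.mem_univ _⟩)
    refine ⟨h3, ?_⟩
    rw [h4, hPI, hsum, hP0]
    unfold mS
    rw [if_pos h0]
    have e0 : o none = (st.1, 0, st.2.2) := by
      show (st.1, st.2.1 - 1, st.2.2) = (st.1, 0, st.2.2)
      rw [h0]
    rw [e0]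
    congr 2
    refine Finset.sum_congr rfl fun s hs => ?_
    rw [hPt s hs, hPf s hs]
    show qq D₁ W p p' * p * (Pm μ₀).real (E (F N D₁ W st.1 s true, Rr D₁ W + 1, false)) +
      qq D₁ W p p' * p' * (Pm μ₀).real (E (F N D₁ W st.1 s false, Rr D₁ W + 1, false)) =
      qq D₁ W p p' * (p * (Pm μ₀).real (E (F N D₁ W st.1 s true, Rr D₁ W + 1, false)) +
        p' * (Pm μ₀).real (E (F N D₁ W st.1 s false, Rr D₁ W + 1, false)))
    ring
  · obtain ⟨-, h3, h4⟩ := StepS_part μ₀ i ({none} : Finset (Option (ℤ × Bool))) (StepS_A S b i)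
      (StepS_FL S b i)
      (by
        intro j hj j' hj' hne
        rw [Finset.mem_singleton] at hj hj'
        exact absurd (hj.trans hj'.symm) hne) E hE
      (fun ω => stepS N D₁ W b σ st fun s => ω (s, i)) (fun _ => (st.1, st.2.1 - 1, st.2.2))
      (rst D₁ W σ st.1)
      (by
        intro j hj ω hω
        rw [Finset.mem_singleton] at hj
        rw [hj] at hω
        exact StepS_step0 N D₁ W b σ st i ω hω)
      (by
        intro ω hω
        exact StepS_stepR N D₁ W b σ st i ω (hω none (Finset.mem_singleton_self _))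
          fun h => absurd h h0)
    refine ⟨h3, ?_⟩
    rw [h4, Finset.sum_singleton, Finset.sum_singleton, hP0]
    unfold mS
    rw [if_neg h0]

end Pool.Agent.NVA
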