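import Pool.Agent.NVA.Defs2

/-! Noisy majority voting, second version: the island between the two edges gives a slanted
wall. -/

set_option autoImplicit false

namespace Pool.Agent.NVA

open MeasureTheory Set Pool.Agent.Helper55.Vote

/-! ### majorities -/

private lemma wallS_maj {N : Finset ℤ} {n : ℕ} (hc : N.card = 2 * n + 1) (b : Bool)
    (r : ℤ → Bool) (s : ℤ) (a : ℤ → Prop) [DecidablePred a]
    (h1 : n + 1 ≤ (N.filter fun v => a v).card)
    (h2 : ∀ v ∈ N, a v → r (s + v) = b) : maj N r s = b := by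
  have h3 : n + 1 ≤ (N.filter fun v => r (s + v) = b).card := by
    refine h1.trans (Finset.card_le_card fun v hv => ?_)
    rw [Finset.mem_filter] at hv ⊢
    exact ⟨hv.1, h2 v hv.1 hv.2⟩
  unfold maj
  rw [hc]
  cases b with
  | true =>
    rw [decide_eq_true_iff]
    omega
  | false =>
    rw [decide_eq_false_iff_not]
    have h4 := Finset.card_filter_add_card_filter_not (s := N) (fun v => r (s + v) = true)
    simp only [Bool.not_eq_true] at h4
    omega

private lemma wallS_true {N : Finset ℤ} {n : ℕ} (hc : N.card = 2 * n + 1) (r : ℤ → Bool) (s : ℤ)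
    (h : maj N r s = true) : n + 1 ≤ (N.filter fun v => r (s + v) = true).card := by
  unfold maj at h
  rw [hc, decide_eq_true_iff] at h
  omega

private lemma wallS_false {N : Finset ℤ} {n : ℕ} (hc : N.card = 2 * n + 1) (r : ℤ → Bool)
    (s : ℤ) (h : maj N r s = false) : n + 1 ≤ (N.filter fun v => r (s + v) = false).card := by
  unfold maj at h
  rw [hc, decide_eq_false_iff_not] at h
  have h4 := Finset.card_filter_add_card_filter_not (s := N) (fun v => r (s + v) = true)
  simp only [Bool.not_eq_true] at h4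
  omega

/-! ### one step of the chain and of the comparison process -/

private lemma wallS_step (N : Finset ℤ) (D₁ W : ℕ) (b : Bool) (σ : ℤ) (st : St2)
    (w : ℤ → Option Bool) :
    (stepS N D₁ W b σ st w = (st.1, st.2.1 - 1, st.2.2)) ∨
    (st.2.1 = 0 ∧ (stepS N D₁ W b σ st w).2.2 = false) ∨
    stepS N D₁ W b σ st w = rst D₁ W σ st.1 := by
  unfold stepS
  split
  · exact Or.inl rfl
  · split
    · rename_i _ h
      exact Or.inr (Or.inl ⟨h.1, rfl⟩)
    · exact Or.inr (Or.inr rfl)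

private lemma wallS_ch (N : Finset ℤ) (D₁ W : ℕ) (b : Bool) (σ : ℤ) (ω : Om) (x : ℤ) (j : ℕ) :
    (chS N D₁ W b σ ω 0 (ini x) (j + 1) = ((chS N D₁ W b σ ω 0 (ini x) j).1,
      (chS N D₁ W b σ ω 0 (ini x) j).2.1 - 1, (chS N D₁ W b σ ω 0 (ini x) j).2.2)) ∨
    ((chS N D₁ W b σ ω 0 (ini x) j).2.1 = 0 ∧
      (chS N D₁ W b σ ω 0 (ini x) (j + 1)).2.2 = false) ∨
    chS N D₁ W b σ ω 0 (ini x) (j + 1) = rst D₁ W σ (chS N D₁ W b σ ω 0 (ini x) j).1 :=
  wallS_step N D₁ W b σ (chS N D₁ W b σ ω 0 (ini x) j) fun s => ω (s, 0 + (j : ℤ))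

private lemma wallS_act_true {N : Finset ℤ} {D₁ W : ℕ} {b : Bool} {σ : ℤ} {ω : Om} {x : ℤ}
    {j : ℕ} (h : (chS N D₁ W b σ ω 0 (ini x) (j + 1)).2.2 = true) :
    actS N D₁ W b σ ω x (j + 1) = H (lo (chS N D₁ W b σ ω 0 (ini x) (j + 1)).1 -
      σ * ((chS N D₁ W b σ ω 0 (ini x) (j + 1)).2.1 : ℤ) * (D₁ : ℤ)) := by
  show (if (chS N D₁ W b σ ω 0 (ini x) (j + 1)).2.2 = true then _ else _) = _
  exact if_pos h

private lemma wallS_act_false {N : Finset ℤ} {D₁ W : ℕ} {b : Bool} {σ : ℤ} {ω : Om} {x : ℤ}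
    {j : ℕ} (h : (chS N D₁ W b σ ω 0 (ini x) (j + 1)).2.2 = false) (s : ℤ) :
    actS N D₁ W b σ ω x (j + 1) s =
      if s ∈ win D₁ W (chS N D₁ W b σ ω 0 (ini x) j).1 ∧ ω (s, (j : ℤ)) ≠ none then
        decide (ω (s, (j : ℤ)) = some b)
      else maj N (actS N D₁ W b σ ω x j) s := by
  have h' : ¬ (chS N D₁ W b σ ω 0 (ini x) (j + 1)).2.2 = true := by
    rw [h]
    decide
  have e : actS N D₁ W b σ ω x (j + 1) = fun s =>
      if s ∈ win D₁ W (chS N D₁ W b σ ω 0 (ini x) j).1 ∧ ω (s, (j : ℤ)) ≠ none then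
        decide (ω (s, (j : ℤ)) = some b)
      else maj N (actS N D₁ W b σ ω x j) s := by
    show (if (chS N D₁ W b σ ω 0 (ini x) (j + 1)).2.2 = true then _ else _) = _
    exact if_neg h'
  rw [e]

private lemma wallS_H {x t : ℤ} : H x t = true ↔ x ≤ t := by
  unfold H
  exact decide_eq_true_iff

private lemma wallS_Hf {x t : ℤ} : H x t = false ↔ t < x := by
  unfold H
  rw [decide_eq_false_iff_not, not_le]

private lemma wallS_Bb (D₁ W : ℕ) : (Bb D₁ W : ℤ) = 8 * (W + D₁ + 1) := by
  unfold Bb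
  push_cast
  ring

private lemma wallS_Jj (D₁ W : ℕ) : (Jj D₁ W : ℤ) =
    2 * (W + D₁) + ((Rr D₁ W : ℤ) + 1) * D₁ + D₁ := by
  unfold Jj
  push_cast
  ring

/-- near the left edge -/
private lemma wallS_left (hUp : St_Up) (hFix : St_Fix) (hActS : St_ActS) {N : Finset ℤ}
    {n D₁ W : ℕ} (hN : Nb N n D₁ W) (b : Bool) (ω : Om) (x : ℤ) (j : ℕ) (s : ℤ)
    (hw : ω (s, (j : ℤ)) = none) (h1 : actS N D₁ W b 1 ω x (j + 1) s = true) :
    (∀ v ∈ N, actS N D₁ W b 1 ω x j (s + v) = true ∨
      ∃ i : ℕ, j = i + 1 ∧ ω (s + v, (i : ℤ)) ≠ none) ∨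
    (maj N (actS N D₁ W b 1 ω x j) s = true ∧ ∀ v ∈ N, actS N D₁ W b 1 ω x j (s + v) = true →
      ∀ i : ℕ, j = i + 1 → ω (s + v, (i : ℤ)) ≠ some (!b)) := by
  have hB := wallS_Bb D₁ W
  have hJ := wallS_Jj D₁ W
  obtain ⟨u1, u2, _, u4⟩ := hUp N n D₁ W hN
  obtain ⟨c1, c2, c3, c4, c5, c6, c7⟩ := hActS N n D₁ W hN b 1 (Or.inl rfl) ω x j
  -- the value of the comparison process far to the right
  have hfar : ∀ t, lo (chS N D₁ W b 1 ω 0 (ini x) j).1 + 2 * (W + D₁) ≤ t →
      actS N D₁ W b 1 ω x j t = true ∨ ∃ i : ℕ, j = i + 1 ∧ ω (t, (i : ℤ)) ≠ none := by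
    intro t ht
    cases hr : (chS N D₁ W b 1 ω 0 (ini x) j).2.2 with
    | true =>
      left
      rw [c6 hr, wallS_H]
      have : 0 ≤ ((chS N D₁ W b 1 ω 0 (ini x) j).2.1 : ℤ) * (D₁ : ℤ) := by positivity
      rw [one_mul]
      omega
    | false =>
      rcases (c7 hr).1 t ht with h | ⟨i, hi, _, hi2⟩
      · exact Or.inl h
      · exact Or.inr ⟨i, hi, hi2⟩
  -- relaxed state
  have hrel : (chS N D₁ W b 1 ω 0 (ini x) j).2.1 = 0 →
      s < lo (chS N D₁ W b 1 ω 0 (ini x) j).1 + 3 * (W + D₁) →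
      ∀ v ∈ N, actS N D₁ W b 1 ω x j (s + v) = true →
      ∀ i : ℕ, j = i + 1 → ω (s + v, (i : ℤ)) ≠ some (!b) := by
    intro ha hs v hv hav i hi
    obtain ⟨e1, e2⟩ := c5 ha
    obtain ⟨e3, e4⟩ := e2 i hi
    rw [e1] at hav
    obtain ⟨l, hl⟩ := c1
    have hlo := u1 _ _ hl
    have hge : l ≤ s + v := by
      by_contra hlt
      rw [hl.2.1 _ (by omega)] at hav
      exact Bool.noConfusion hav
    have hv' := abs_le.1 (hN.bd v hv)
    rw [e4 (s + v) (by
      unfold win
      rw [Finset.mem_Ico, e3]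
      omega)]
    simp
  by_cases hr1 : (chS N D₁ W b 1 ω 0 (ini x) (j + 1)).2.2 = true
  · -- reset states
    rw [wallS_act_true hr1, wallS_H] at h1
    rcases wallS_ch N D₁ W b 1 ω x j with hq | ⟨_, hq⟩ | hq
    · rw [hq] at h1 hr1
      simp only at h1 hr1
      by_cases ha : (chS N D₁ W b 1 ω 0 (ini x) j).2.1 = 0
      · -- relaxed
        have e1 := (c5 ha).1
        have e6 := c6 hr1
        rw [ha] at h1 e6
        simp only [zero_tsub, Nat.cast_zero, mul_zero, zero_mul, sub_zero] at h1 e6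
        by_cases hs : lo (chS N D₁ W b 1 ω 0 (ini x) j).1 + 3 * (W + D₁) ≤ s
        · left
          intro v hv
          have hv' := abs_le.1 (hN.bd v hv)
          exact hfar _ (by omega)
        · right
          refine ⟨?_, hrel ha (by omega)⟩
          rw [e1, hFix N n D₁ W hN _ c1, ← e1, e6, wallS_H]
          exact h1
      · left
        intro v hv
        left
        have hv' := abs_le.1 (hN.bd v hv)
        rw [c6 hr1, wallS_H]
        have e : (((chS N D₁ W b 1 ω 0 (ini x) j).2.1 - 1 : ℕ) : ℤ) * (D₁ : ℤ) + D₁ =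
            ((chS N D₁ W b 1 ω 0 (ini x) j).2.1 : ℤ) * (D₁ : ℤ) := by
          rw [Nat.cast_sub (by omega)]
          push_cast
          ring
        rw [one_mul] at h1 ⊢
        omega
    · rw [hq] at hr1
      exact Bool.noConfusion hr1
    · left
      intro v hv
      have hv' := abs_le.1 (hN.bd v hv)
      rw [hq] at h1
      simp only [rst] at h1
      rw [u1 _ _ (u2 _)] at h1
      push_cast at h1
      refine hfar _ ?_
      rw [one_mul, one_mul] at h1
      omega
  · -- majority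
    have hr1' : (chS N D₁ W b 1 ω 0 (ini x) (j + 1)).2.2 = false := by
      rwa [Bool.not_eq_true] at hr1
    rw [wallS_act_false hr1', if_neg fun h => h.2 hw] at h1
    by_cases hs : lo (chS N D₁ W b 1 ω 0 (ini x) j).1 + 3 * (W + D₁) ≤ s
    · left
      intro v hv
      have hv' := abs_le.1 (hN.bd v hv)
      exact hfar _ (by omega)
    · right
      refine ⟨h1, ?_⟩
      by_cases ha : (chS N D₁ W b 1 ω 0 (ini x) j).2.1 = 0
      · exact hrel ha (by omega)
      · have hr0 : (chS N D₁ W b 1 ω 0 (ini x) j).2.2 = false := by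
          rcases wallS_ch N D₁ W b 1 ω x j with hq | ⟨h, _⟩ | hq
          · rw [hq] at hr1'
            exact hr1'
          · exact absurd h ha
          · rw [hq] at hr1'
            simp [rst] at hr1'
        intro v hv hav i hi hno
        subst hi
        obtain ⟨_, _, _, d4, _⟩ := hActS N n D₁ W hN b 1 (Or.inl rfl) ω x i
        have d5 := abs_le.1 (d4 hr0)
        have hv' := abs_le.1 (hN.bd v hv)
        have hmem : s + v ∈ win D₁ W (chS N D₁ W b 1 ω 0 (ini x) i).1 := by
          by_cases hlt : s + v < lo (chS N D₁ W b 1 ω 0 (ini x) (i + 1)).1 - 2 * (W + D₁)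
          · rcases (c7 hr0).2 _ hlt with h | ⟨i', hi', hi1, _⟩
            · rw [h] at hav
              exact Bool.noConfusion hav
            · have : i' = i := by omega
              subst this
              exact hi1
          · unfold win
            rw [Finset.mem_Ico]
            omega
        rw [wallS_act_false hr0, if_pos ⟨hmem, by rw [hno]; simp⟩, hno] at hav
        cases b <;> simp at hav

/-- near the right edge -/
private lemma wallS_right (hUp : St_Up) (hFix : St_Fix) (hActS : St_ActS) {N : Finset ℤ}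
    {n D₁ W : ℕ} (hN : Nb N n D₁ W) (b : Bool) (ω : Om) (x : ℤ) (j : ℕ) (s : ℤ)
    (hw : ω (s, (j : ℤ)) = none) (h1 : actS N D₁ W b (-1) ω x (j + 1) s = false) :
    (∀ v ∈ N, actS N D₁ W b (-1) ω x j (s + v) = false ∨
      ∃ i : ℕ, j = i + 1 ∧ ω (s + v, (i : ℤ)) ≠ none) ∨
    (maj N (actS N D₁ W b (-1) ω x j) s = false ∧
      ∀ v ∈ N, actS N D₁ W b (-1) ω x j (s + v) = false →
      ∀ i : ℕ, j = i + 1 → ω (s + v, (i : ℤ)) ≠ some b) := by
  have hB := wallS_Bb D₁ W
  have hJ := wallS_Jj D₁ W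
  obtain ⟨u1, u2, _, u4⟩ := hUp N n D₁ W hN
  obtain ⟨c1, c2, c3, c4, c5, c6, c7⟩ := hActS N n D₁ W hN b (-1) (Or.inr rfl) ω x j
  have hneg : ∀ (a d : ℤ), (-1 : ℤ) * a * d = -(a * d) := fun a d => by ring
  -- the value of the comparison process far to the left
  have hfar : ∀ t, t < lo (chS N D₁ W b (-1) ω 0 (ini x) j).1 - 2 * (W + D₁) →
      actS N D₁ W b (-1) ω x j t = false ∨ ∃ i : ℕ, j = i + 1 ∧ ω (t, (i : ℤ)) ≠ none := by
    intro t ht
    cases hr : (chS N D₁ W b (-1) ω 0 (ini x) j).2.2 with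
    | true =>
      left
      rw [c6 hr, wallS_Hf, hneg]
      have : 0 ≤ ((chS N D₁ W b (-1) ω 0 (ini x) j).2.1 : ℤ) * (D₁ : ℤ) := by positivity
      omega
    | false =>
      rcases (c7 hr).2 t ht with h | ⟨i, hi, _, hi2⟩
      · exact Or.inl h
      · exact Or.inr ⟨i, hi, hi2⟩
  -- relaxed state
  have hrel : (chS N D₁ W b (-1) ω 0 (ini x) j).2.1 = 0 →
      lo (chS N D₁ W b (-1) ω 0 (ini x) j).1 - 3 * (W + D₁) ≤ s →
      ∀ v ∈ N, actS N D₁ W b (-1) ω x j (s + v) = false →
      ∀ i : ℕ, j = i + 1 → ω (s + v, (i : ℤ)) ≠ some b := by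
    intro ha hs v hv hav i hi
    obtain ⟨e1, e2⟩ := c5 ha
    obtain ⟨e3, e4⟩ := e2 i hi
    rw [e1] at hav
    obtain ⟨l, hl⟩ := c1
    have hlo := u1 _ _ hl
    have hlt : s + v < l + W := by
      by_contra hlt
      rw [u4 _ _ hl _ (by omega)] at hav
      exact Bool.noConfusion hav
    have hv' := abs_le.1 (hN.bd v hv)
    rw [e4 (s + v) (by
      unfold win
      rw [Finset.mem_Ico, e3]
      omega)]
    simp
  by_cases hr1 : (chS N D₁ W b (-1) ω 0 (ini x) (j + 1)).2.2 = true
  · -- reset states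
    rw [wallS_act_true hr1, wallS_Hf, hneg] at h1
    rcases wallS_ch N D₁ W b (-1) ω x j with hq | ⟨_, hq⟩ | hq
    · rw [hq] at h1 hr1
      simp only at h1 hr1
      by_cases ha : (chS N D₁ W b (-1) ω 0 (ini x) j).2.1 = 0
      · -- relaxed
        have e1 := (c5 ha).1
        have e6 := c6 hr1
        rw [ha] at h1 e6
        simp only [zero_tsub, Nat.cast_zero, mul_zero, zero_mul, sub_zero, neg_zero] at h1 e6
        by_cases hs : s < lo (chS N D₁ W b (-1) ω 0 (ini x) j).1 - 3 * (W + D₁)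
        · left
          intro v hv
          have hv' := abs_le.1 (hN.bd v hv)
          exact hfar _ (by omega)
        · right
          refine ⟨?_, hrel ha (by omega)⟩
          rw [e1, hFix N n D₁ W hN _ c1, ← e1, e6, wallS_Hf]
          exact h1
      · left
        intro v hv
        left
        have hv' := abs_le.1 (hN.bd v hv)
        rw [c6 hr1, wallS_Hf, hneg]
        have e : (((chS N D₁ W b (-1) ω 0 (ini x) j).2.1 - 1 : ℕ) : ℤ) * (D₁ : ℤ) + D₁ =
            ((chS N D₁ W b (-1) ω 0 (ini x) j).2.1 : ℤ) * (D₁ : ℤ) := by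
          rw [Nat.cast_sub (by omega)]
          push_cast
          ring
        omega
    · rw [hq] at hr1
      exact Bool.noConfusion hr1
    · left
      intro v hv
      have hv' := abs_le.1 (hN.bd v hv)
      rw [hq] at h1
      simp only [rst] at h1
      rw [u1 _ _ (u2 _)] at h1
      push_cast at h1
      refine hfar _ ?_
      omega
  · -- majority
    have hr1' : (chS N D₁ W b (-1) ω 0 (ini x) (j + 1)).2.2 = false := by
      rwa [Bool.not_eq_true] at hr1
    rw [wallS_act_false hr1', if_neg fun h => h.2 hw] at h1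
    by_cases hs : s < lo (chS N D₁ W b (-1) ω 0 (ini x) j).1 - 3 * (W + D₁)
    · left
      intro v hv
      have hv' := abs_le.1 (hN.bd v hv)
      exact hfar _ (by omega)
    · right
      refine ⟨h1, ?_⟩
      by_cases ha : (chS N D₁ W b (-1) ω 0 (ini x) j).2.1 = 0
      · exact hrel ha (by omega)
      · have hr0 : (chS N D₁ W b (-1) ω 0 (ini x) j).2.2 = false := by
          rcases wallS_ch N D₁ W b (-1) ω x j with hq | ⟨h, _⟩ | hq
          · rw [hq] at hr1'
            exact hr1'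
          · exact absurd h ha
          · rw [hq] at hr1'
            simp [rst] at hr1'
        intro v hv hav i hi hno
        subst hi
        obtain ⟨_, _, _, d4, _⟩ := hActS N n D₁ W hN b (-1) (Or.inr rfl) ω x i
        have d5 := abs_le.1 (d4 hr0)
        have hv' := abs_le.1 (hN.bd v hv)
        have hmem : s + v ∈ win D₁ W (chS N D₁ W b (-1) ω 0 (ini x) i).1 := by
          by_cases hlt : lo (chS N D₁ W b (-1) ω 0 (ini x) (i + 1)).1 + 2 * (W + D₁) ≤ s + v
          · rcases (c7 hr0).1 _ hlt with h | ⟨i', hi', hi1, _⟩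
            · rw [h] at hav
              exact Bool.noConfusion hav
            · have : i' = i := by omega
              subst this
              exact hi1
          · unfold win
            rw [Finset.mem_Ico]
            omega
        rw [wallS_act_false hr0, if_pos ⟨hmem, by rw [hno]; simp⟩, hno] at hav
        simp at hav

/-! ### far facts for all states -/

private lemma wallS_fU (hActS : St_ActS) {N : Finset ℤ} {n D₁ W : ℕ} (hN : Nb N n D₁ W)
    (b : Bool) (ω : Om) (x : ℤ) (j : ℕ) (t : ℤ)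
    (ht : lo (chS N D₁ W b 1 ω 0 (ini x) j).1 + 2 * (W + D₁) ≤ t) :
    actS N D₁ W b 1 ω x j t = true ∨ ∃ i : ℕ, j = i + 1 ∧
      t ∈ win D₁ W (chS N D₁ W b 1 ω 0 (ini x) i).1 ∧ ω (t, (i : ℤ)) ≠ none := by
  obtain ⟨c1, c2, c3, c4, c5, c6, c7⟩ := hActS N n D₁ W hN b 1 (Or.inl rfl) ω x j
  cases hr : (chS N D₁ W b 1 ω 0 (ini x) j).2.2 with
  | true =>
    left
    rw [c6 hr, wallS_H]
    have : 0 ≤ ((chS N D₁ W b 1 ω 0 (ini x) j).2.1 : ℤ) * (D₁ : ℤ) := by positivity
    rw [one_mul]
    omega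
  | false => exact (c7 hr).1 t ht

private lemma wallS_fZ (hActS : St_ActS) {N : Finset ℤ} {n D₁ W : ℕ} (hN : Nb N n D₁ W)
    (b : Bool) (ω : Om) (x : ℤ) (j : ℕ) (t : ℤ)
    (ht : t < lo (chS N D₁ W b (-1) ω 0 (ini x) j).1 - 2 * (W + D₁)) :
    actS N D₁ W b (-1) ω x j t = false ∨ ∃ i : ℕ, j = i + 1 ∧
      t ∈ win D₁ W (chS N D₁ W b (-1) ω 0 (ini x) i).1 ∧ ω (t, (i : ℤ)) ≠ none := by
  obtain ⟨c1, c2, c3, c4, c5, c6, c7⟩ := hActS N n D₁ W hN b (-1) (Or.inr rfl) ω x j
  have hneg : ∀ (a d : ℤ), (-1 : ℤ) * a * d = -(a * d) := fun a d => by ring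
  cases hr : (chS N D₁ W b (-1) ω 0 (ini x) j).2.2 with
  | true =>
    left
    rw [c6 hr, wallS_Hf, hneg]
    have : 0 ≤ ((chS N D₁ W b (-1) ω 0 (ini x) j).2.1 : ℤ) * (D₁ : ℤ) := by positivity
    omega
  | false => exact (c7 hr).2 t ht

private lemma wallS_lU (hActS : St_ActS) {N : Finset ℤ} {n D₁ W : ℕ} (hN : Nb N n D₁ W)
    (b : Bool) (ω : Om) (x : ℤ) (j : ℕ) (s : ℤ) (hw : ω (s, (j : ℤ)) = none)
    (h : actS N D₁ W b 1 ω x (j + 1) s = true) :
    lo (chS N D₁ W b 1 ω 0 (ini x) (j + 1)).1 - Jj D₁ W ≤ s := by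
  have hJ := wallS_Jj D₁ W
  obtain ⟨c1, c2, c3, c4, c5, c6, c7⟩ := hActS N n D₁ W hN b 1 (Or.inl rfl) ω x (j + 1)
  have h0 : 0 ≤ ((Rr D₁ W : ℤ) + 1) * (D₁ : ℤ) := by positivity
  cases hr : (chS N D₁ W b 1 ω 0 (ini x) (j + 1)).2.2 with
  | true =>
    rw [c6 hr, wallS_H, one_mul] at h
    have : ((chS N D₁ W b 1 ω 0 (ini x) (j + 1)).2.1 : ℤ) * (D₁ : ℤ) ≤
        ((Rr D₁ W : ℤ) + 1) * (D₁ : ℤ) :=
      mul_le_mul_of_nonneg_right (by exact_mod_cast c2) (by positivity)
    omega
  | false =>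
    by_contra hlt
    rcases (c7 hr).2 s (by omega) with h' | ⟨i, hi, _, hi2⟩
    · rw [h'] at h
      exact Bool.noConfusion h
    · have : i = j := by omega
      subst this
      exact hi2 hw

private lemma wallS_lZ (hActS : St_ActS) {N : Finset ℤ} {n D₁ W : ℕ} (hN : Nb N n D₁ W)
    (b : Bool) (ω : Om) (x : ℤ) (j : ℕ) (s : ℤ) (hw : ω (s, (j : ℤ)) = none)
    (h : actS N D₁ W b (-1) ω x (j + 1) s = false) :
    s ≤ lo (chS N D₁ W b (-1) ω 0 (ini x) (j + 1)).1 + Jj D₁ W := by
  have hJ := wallS_Jj D₁ W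
  obtain ⟨c1, c2, c3, c4, c5, c6, c7⟩ := hActS N n D₁ W hN b (-1) (Or.inr rfl) ω x (j + 1)
  have hneg : ∀ (a d : ℤ), (-1 : ℤ) * a * d = -(a * d) := fun a d => by ring
  have h0 : 0 ≤ ((Rr D₁ W : ℤ) + 1) * (D₁ : ℤ) := by positivity
  cases hr : (chS N D₁ W b (-1) ω 0 (ini x) (j + 1)).2.2 with
  | true =>
    rw [c6 hr, wallS_Hf, hneg] at h
    have : ((chS N D₁ W b (-1) ω 0 (ini x) (j + 1)).2.1 : ℤ) * (D₁ : ℤ) ≤
        ((Rr D₁ W : ℤ) + 1) * (D₁ : ℤ) :=
      mul_le_mul_of_nonneg_right (by exact_mod_cast c2) (by positivity)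
    omega
  | false =>
    by_contra hlt
    rcases (c7 hr).1 s (by omega) with h' | ⟨i, hi, _, hi2⟩
    · rw [h'] at h
      exact Bool.noConfusion h
    · have : i = j := by omega
      subst this
      exact hi2 hw

private lemma wallS_run {N : Finset ℤ} {ω : Om} {x : ℤ → Bool} {b : Bool} {i : ℕ} {s : ℤ}
    (h : ω (s, (i : ℤ)) = some b) : run N ω 0 x (i + 1) s = b := by
  show step N (fun s => ω (s, 0 + (i : ℤ))) (run N ω 0 x i) s = b
  unfold step
  simp only [zero_add]
  rw [h]
  rfl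

private lemma wallS_some {b : Bool} {o : Option Bool} (h1 : o ≠ none) (h2 : o ≠ some (!b)) :
    o = some b := by
  cases o with
  | none => exact absurd rfl h1
  | some c => cases b <;> cases c <;> simp_all

/-- the counting argument in the bulk -/
private lemma wallS_bulk {N : Finset ℤ} {n : ℕ} (hc : N.card = 2 * n + 1) {b : Bool} {ω : Om}
    {x : ℤ → Bool} {j : ℕ} {s : ℤ} (good : ℤ → Prop)
    (hb : ∀ v ∈ N, good v ∨ ∃ i : ℕ, j = i + 1 ∧ ω (s + v, (i : ℤ)) ≠ none)
    (hclu : ∀ i : ℕ, j = i + 1 → (N.filter fun v => ω (s + v, (i : ℤ)) = some (!b)).card ≤ n)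
    (ih : ∀ v ∈ N, good v → (∀ i : ℕ, j = i + 1 → ω (s + v, (i : ℤ)) ≠ some (!b)) →
      run N ω 0 x j (s + v) = b) :
    maj N (run N ω 0 x j) s = b := by
  cases j with
  | zero =>
    refine wallS_maj hc b _ s (fun _ => True) ?_ ?_
    · rw [Finset.filter_true_of_mem (fun _ _ => trivial)]
      omega
    · intro v hv _
      rcases hb v hv with h | ⟨i, hi, _⟩
      · exact ih v hv h fun i hi => by omega
      · omega
  | succ i =>
    refine wallS_maj hc b _ s (fun v => ¬ ω (s + v, (i : ℤ)) = some (!b)) ?_ ?_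
    · have h1 := Finset.card_filter_add_card_filter_not (s := N)
        (fun v => ω (s + v, (i : ℤ)) = some (!b))
      have h2 := hclu i rfl
      omega
    · intro v hv hne
      rcases hb v hv with h | ⟨i', hi', h⟩
      · refine ih v hv h fun i' hi' => ?_
        have : i' = i := by omega
        subst this
        exact hne
      · have : i' = i := by omega
        subst this
        exact wallS_run (wallS_some h hne)

private lemma wallS_claim (hUp : St_Up) (hFix : St_Fix) (hActS : St_ActS) {N : Finset ℤ}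
    {n D₁ W : ℕ} (hN : Nb N n D₁ W) {L T : ℕ} {b : Bool} {ω : Om} {x : ℤ → Bool}
    (hx : ∀ s, 0 ≤ s → s < (L : ℤ) → x s = b)
    (hd : ∀ j ≤ T, lo (chS N D₁ W b 1 ω 0 (ini 0) j).1 + 16 * (Bb D₁ W + Jj D₁ W : ℤ) ≤
      lo (chS N D₁ W (!b) (-1) ω 0 (ini L) j).1)
    (hclu : ∀ i < T, ∀ s : ℤ,
      lo (chS N D₁ W b 1 ω 0 (ini 0) i).1 - 4 * (Bb D₁ W + Jj D₁ W : ℤ) + D₁ ≤ s →
      s ≤ lo (chS N D₁ W (!b) (-1) ω 0 (ini L) i).1 + 4 * (Bb D₁ W + Jj D₁ W : ℤ) - D₁ →
      (N.filter fun v => ω (s + v, (i : ℤ)) = some (!b)).card ≤ n) :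
    ∀ j ≤ T, ∀ s, actS N D₁ W b 1 ω 0 j s = true → actS N D₁ W (!b) (-1) ω L j s = false →
      (∀ i : ℕ, j = i + 1 → ω (s, (i : ℤ)) ≠ some (!b)) → run N ω 0 x j s = b := by
  have hB := wallS_Bb D₁ W
  have hJ := wallS_Jj D₁ W
  have hJ0 : (0 : ℤ) ≤ ((Rr D₁ W : ℤ) + 1) * (D₁ : ℤ) := by positivity
  have hU := fun j => (hActS N n D₁ W hN b 1 (Or.inl rfl) ω 0 j).2.2.1
  have hZ := fun j => (hActS N n D₁ W hN (!b) (-1) (Or.inr rfl) ω L j).2.2.1
  intro j
  induction j with
  | zero =>
    intro _ s h1 h2 _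
    have h1' : H 0 s = true := h1
    have h2' : H (L : ℤ) s = false := h2
    exact hx s (wallS_H.1 h1') (wallS_Hf.1 h2')
  | succ j ih =>
    intro hj s h1 h2 h3
    have hj' : j ≤ T := by omega
    have ih' := ih hj'
    have h4 := h3 j rfl
    by_cases hw : ω (s, (j : ℤ)) = none
    · have e3 : run N ω 0 x (j + 1) s = maj N (run N ω 0 x j) s := by
        show step N (fun s => ω (s, 0 + (j : ℤ))) (run N ω 0 x j) s = _
        unfold step
        simp only [zero_add]
        rw [hw]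
        rfl
      rw [e3]
      have hd0 := hd j hj'
      have k1 := wallS_lU hActS hN b ω 0 j s hw h1
      have k2 := wallS_lZ hActS hN (!b) ω L j s hw h2
      have k3 := abs_le.1 (hU j)
      have k4 := abs_le.1 (hZ j)
      have hclu' : ∀ i : ℕ, j = i + 1 →
          (N.filter fun v => ω (s + v, (i : ℤ)) = some (!b)).card ≤ n := by
        intro i hi
        subst hi
        have k5 := abs_le.1 (hU i)
        have k6 := abs_le.1 (hZ i)
        exact hclu i (by omega) s (by omega) (by omega)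
      by_cases hc : 2 * s ≤ lo (chS N D₁ W b 1 ω 0 (ini 0) j).1 +
          lo (chS N D₁ W (!b) (-1) ω 0 (ini L) j).1
      · -- near the left edge
        have g1 : ∀ v ∈ N, actS N D₁ W (!b) (-1) ω L j (s + v) = false := by
          intro v hv
          have hv' := abs_le.1 (hN.bd v hv)
          rcases wallS_fZ hActS hN (!b) ω L j (s + v) (by omega) with h | ⟨i, rfl, hi1, _⟩
          · exact h
          · exfalso
            have h6 := abs_le.1 (hZ i)
            unfold win at hi1
            rw [Finset.mem_Ico] at hi1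
            omega
        rcases wallS_left hUp hFix hActS hN b ω 0 j s hw h1 with hb | ⟨hm, hb⟩
        · exact wallS_bulk hN.card (fun v => actS N D₁ W b 1 ω 0 j (s + v) = true) hb hclu'
            fun v hv ha hne => ih' (s + v) ha (g1 v hv) hne
        · exact wallS_maj hN.card b _ s (fun v => actS N D₁ W b 1 ω 0 j (s + v) = true)
            (wallS_true hN.card _ s hm) fun v hv ha => ih' (s + v) ha (g1 v hv) (hb v hv ha)
      · -- near the right edge
        have g1 : ∀ v ∈ N, actS N D₁ W b 1 ω 0 j (s + v) = true := by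
          intro v hv
          have hv' := abs_le.1 (hN.bd v hv)
          rcases wallS_fU hActS hN b ω 0 j (s + v) (by omega) with h | ⟨i, rfl, hi1, _⟩
          · exact h
          · exfalso
            have h6 := abs_le.1 (hU i)
            unfold win at hi1
            rw [Finset.mem_Ico] at hi1
            omega
        rcases wallS_right hUp hFix hActS hN (!b) ω L j s hw h2 with hb | ⟨hm, hb⟩
        · exact wallS_bulk hN.card (fun v => actS N D₁ W (!b) (-1) ω L j (s + v) = false) hb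
            hclu' fun v hv ha hne => ih' (s + v) (g1 v hv) ha hne
        · exact wallS_maj hN.card b _ s (fun v => actS N D₁ W (!b) (-1) ω L j (s + v) = false)
            (wallS_false hN.card _ s hm) fun v hv ha => ih' (s + v) (g1 v hv) ha (hb v hv ha)
    · exact wallS_run (wallS_some hw h4)

/-- **WallS** -/
theorem thm_WallS (hUp : St_Up) (hFix : St_Fix) (hF : St_F) (hActS : St_ActS) : St_WallS := by
  intro N n D₁ W hN L T S b ω Reg hT hs hReg hd hS1 hS2 hlast
  obtain ⟨u1, u2, _, _⟩ := hUp N n D₁ W hN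
  have hB := wallS_Bb D₁ W
  have hJ := wallS_Jj D₁ W
  have hJ0 : (0 : ℤ) ≤ ((Rr D₁ W : ℤ) + 1) * (D₁ : ℤ) := by positivity
  have hU := fun j => (hActS N n D₁ W hN b 1 (Or.inl rfl) ω 0 j).2.2.1
  have hZ := fun j => (hActS N n D₁ W hN (!b) (-1) (Or.inr rfl) ω L j).2.2.1
  have hclu : ∀ i < T, ∀ s : ℤ,
      lo (chS N D₁ W b 1 ω 0 (ini 0) i).1 - 4 * (Bb D₁ W + Jj D₁ W : ℤ) + D₁ ≤ s →
      s ≤ lo (chS N D₁ W (!b) (-1) ω 0 (ini L) i).1 + 4 * (Bb D₁ W + Jj D₁ W : ℤ) - D₁ →
      (N.filter fun v => ω (s + v, (i : ℤ)) = some (!b)).card ≤ n := by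
    intro i hi s h1 h2
    have h3 := hs (s, (i : ℤ)) (hReg i hi s (by omega) (by omega))
      ((N.filter fun v => ω (s + v, (i : ℤ)) = some (!b)).image fun v => s + v) (by
        intro s' hs'
        rw [Finset.mem_image] at hs'
        obtain ⟨v, hv, rfl⟩ := hs'
        rw [Finset.mem_filter] at hv
        have hv' := abs_le.1 (hN.bd v hv.1)
        refine ⟨?_, hReg i hi _ (by omega) (by omega), hv.2⟩
        show |s + v - s| ≤ (D₁ : ℤ)
        rw [add_sub_cancel_left]
        exact hN.bd v hv.1)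
    rwa [Finset.card_image_of_injective _ (add_right_injective s)] at h3
  have lU0 : lo (chS N D₁ W b 1 ω 0 (ini 0) 0).1 = 0 := u1 0 _ (u2 0)
  have lZ0 : lo (chS N D₁ W (!b) (-1) ω 0 (ini L) 0).1 = L := u1 L _ (u2 L)
  refine ⟨fun j => if j = 0 then 0 else lo (chS N D₁ W b 1 ω 0 (ini 0) j).1 + Bb D₁ W,
    fun j => if j = 0 then (L : ℤ) - 1 else
      lo (chS N D₁ W (!b) (-1) ω 0 (ini L) j).1 - Bb D₁ W - 1,
    by simp, by simp, ?_, ?_, ?_, ?_⟩
  · intro j hj
    have h1 := abs_le.1 (hU j)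
    have h2 := abs_le.1 (hZ j)
    have h3 := hd j hj.le
    have h4 := hd (j + 1) hj
    rcases Nat.eq_zero_or_pos j with rfl | hpos
    · simp only [if_true, if_false, one_ne_zero, zero_add] at *
      omega
    · have hj0 : j ≠ 0 := by omega
      simp only [hj0, if_false, Nat.add_eq_zero_iff, one_ne_zero, and_false]
      omega
  · have hT0 : T ≠ 0 := by omega
    simp only [hT0, if_false]
    omega
  · have hT0 : T ≠ 0 := by omega
    simp only [hT0, if_false]
    omega
  · intro x hx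
    have claim := wallS_claim hUp hFix hActS hN (x := x) (fun s h1 h2 => hx s h1 (by omega)) hd
      hclu
    constructor
    · intro j hj s h1 h2
      rcases Nat.eq_zero_or_pos j with rfl | hpos
      · left
        simp only [if_true] at h1 h2
        exact hx s h1 (by omega)
      · obtain ⟨i, rfl⟩ : ∃ i, j = i + 1 := ⟨j - 1, by omega⟩
        simp only [Nat.add_eq_zero_iff, one_ne_zero, and_false, if_false] at h1 h2
        by_cases hω : ω (s, (i : ℤ)) = none
        · left
          refine claim (i + 1) hj s ?_ ?_ ?_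
          · rcases wallS_fU hActS hN b ω 0 (i + 1) s (by omega) with h | ⟨i', hi', _, hi2⟩
            · exact h
            · have : i' = i := by omega
              subst this
              exact absurd hω hi2
          · rcases wallS_fZ hActS hN (!b) ω L (i + 1) s (by omega) with h | ⟨i', hi', _, hi2⟩
            · exact h
            · have : i' = i := by omega
              subst this
              exact absurd hω hi2
          · intro i' hi'
            have : i' = i := by omega
            subst this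
            rw [hω]
            simp
        · right
          exact ⟨i, rfl, by rw [zero_add]; exact hω⟩
    · intro s h1 h2
      obtain ⟨i, rfl⟩ : ∃ i, T = i + 1 := ⟨T - 1, by omega⟩
      have g1 := abs_le.1 (hU i)
      have g2 := abs_le.1 (hZ i)
      refine claim (i + 1) le_rfl s ?_ ?_ ?_
      · rcases wallS_fU hActS hN b ω 0 (i + 1) s (by omega) with h | ⟨i', hi', hi1, _⟩
        · exact h
        · have : i' = i := by omega
          subst this
          unfold win at hi1
          rw [Finset.mem_Ico] at hi1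
          omega
      · rcases wallS_fZ hActS hN (!b) ω L (i + 1) s (by omega) with h | ⟨i', hi', hi1, _⟩
        · exact h
        · have : i' = i := by omega
          subst this
          unfold win at hi1
          rw [Finset.mem_Ico] at hi1
          omega
      · intro i' hi'
        have : i' = i := by omega
        subst this
        have h5 := hlast s (by omega) (by omega)
        have e : ((i' + 1 : ℕ) : ℤ) - 1 = (i' : ℤ) := by push_cast; ring
        rw [e] at h5
        exact h5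

end Pool.Agent.NVA
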