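import Pool.Agent.NVA.St

set_option autoImplicit false

/-! Slanted walls protect the zone between them (helper65; slanted version of
Helper55/Vote/Zone.lean). -/

namespace Pool.Agent.NVA

open MeasureTheory Set Pool.Agent.Helper55.Vote

private lemma zoneS_layer {N : Finset ℤ} {b : Bool} {D₁ L T : ℕ} {S : ℤ}
    (hD : ∀ v ∈ N, |v| ≤ (D₁ : ℤ)) {ω : Om}
    {aL aR t : ℤ} (hL : WallS N b D₁ L T S ω aL t) (hR : WallS N b D₁ L T S ω aR t)
    {x x' : ℤ → Bool}
    (h1 : ∀ s, aL ≤ s → s < aL + L → x s = b)
    (h1' : ∀ s, aL ≤ s → s < aL + L → x' s = b)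
    (h2 : ∀ s, aR ≤ s → s < aR + L → x s = b)
    (h2' : ∀ s, aR ≤ s → s < aR + L → x' s = b)
    (h3 : ∀ s, aL ≤ s → s < aR + L → x s = x' s) :
    ∀ s, aL + S - 3 * L ≤ s → s < aR + S + 4 * L → run N ω t x T s = run N ω t x' T s := by
  obtain ⟨pL, qL, hL0, hL1, hL2, hL3, hL4, hL5⟩ := hL
  obtain ⟨pR, qR, hR0, hR1, hR2, hR3, hR4, hR5⟩ := hR
  have key : ∀ j ≤ T, ∀ s, pL j ≤ s → s ≤ qR j → run N ω t x j s = run N ω t x' j s := by
    intro j
    induction j with
    | zero =>
      intro _ s hs1 hs2
      rw [hL0] at hs1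
      rw [hR1] at hs2
      exact h3 s hs1 (by omega)
    | succ j ih =>
      intro hj s hs1 hs2
      by_cases hc1 : s ≤ qL (j + 1)
      · rcases (hL5 x h1).1 (j + 1) hj s hs1 hc1 with h | ⟨j', hj', h⟩
        · rcases (hL5 x' h1').1 (j + 1) hj s hs1 hc1 with h' | ⟨j', hj', h'⟩
          · rw [h, h']
          · rw [show j = j' by omega]
            exact agree_of_noise N ω t x x' j' s h'
        · rw [show j = j' by omega]
          exact agree_of_noise N ω t x x' j' s h
      · by_cases hc2 : pR (j + 1) ≤ s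
        · rcases (hR5 x h2).1 (j + 1) hj s hc2 hs2 with h | ⟨j', hj', h⟩
          · rcases (hR5 x' h2').1 (j + 1) hj s hc2 hs2 with h' | ⟨j', hj', h'⟩
            · rw [h, h']
            · rw [show j = j' by omega]
              exact agree_of_noise N ω t x x' j' s h'
          · rw [show j = j' by omega]
            exact agree_of_noise N ω t x x' j' s h
        · rw [run_succ, run_succ]
          unfold step
          have hmaj : maj N (run N ω t x j) s = maj N (run N ω t x' j) s := by
            unfold maj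
            congr 4
            refine Finset.filter_congr fun v hv => ?_
            have hv' := hD v hv
            rw [abs_le] at hv'
            have e1 := hL2 j (by omega)
            have e2 := hR2 j (by omega)
            rw [ih (by omega) (s + v) (by omega) (by omega)]
          rw [hmaj]
  intro s hs1 hs2
  by_cases hc1 : s < pL T
  · have e1 := (hL5 x h1).2 s hs1 (by omega)
    have e2 := (hL5 x' h1').2 s hs1 (by omega)
    rw [e1, e2]
  · by_cases hc2 : qR T < s
    · have e1 := (hR5 x h2).2 s (by omega) hs2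
      have e2 := (hR5 x' h2').2 s (by omega) hs2
      rw [e1, e2]
    · exact key T le_rfl s (by omega) (by omega)

theorem thm_Zone : St_Zone := by
  intro N b D₁ L T S hD ω G t₀ hG m
  induction m with
  | zero =>
    intro k iL iR x x' _ _ _ _ _ _ h3 s hs1 hs2
    rw [Nat.zero_mul, run_zero, run_zero]
    refine h3 s ?_ ?_
    · simpa using hs1
    · push_cast at hs2
      linarith
  | succ n ih =>
    intro k iL iR x x' hdL hdR h1 h1' h2 h2' h3 s hs1 hs2
    rw [mem_dead_succ] at hdL hdR
    push Not at hdL hdR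
    obtain ⟨hgL, heL⟩ := hdL
    obtain ⟨hgR, heR⟩ := hdR
    have hWL := hG k iL hgL
    have hWR := hG k iR hgR
    have hz := zoneS_layer hD hWL hWR h1 h1' h2 h2' h3
    obtain ⟨pL, qL, -, -, -, -, -, hL5⟩ := id hWL
    obtain ⟨pR, qR, -, -, -, -, -, hR5⟩ := id hWR
    -- living successors
    have hexL : ∃ e : ℤ, -3 ≤ e ∧ e ≤ -1 ∧ ω ∉ dead G (-2) n (k + 1) (iL + e) := by
      by_contra hcon
      push Not at hcon
      apply heL
      refine ⟨?_, ?_, ?_⟩
      · have h := hcon (-3) (by norm_num) (by norm_num)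
        rw [show iL + (-3 : ℤ) = iL + -2 - 1 by ring] at h
        exact h
      · exact hcon (-2) (by norm_num) (by norm_num)
      · have h := hcon (-1) (by norm_num) (by norm_num)
        rw [show iL + (-1 : ℤ) = iL + -2 + 1 by ring] at h
        exact h
    have hexR : ∃ e : ℤ, 1 ≤ e ∧ e ≤ 3 ∧ ω ∉ dead G 2 n (k + 1) (iR + e) := by
      by_contra hcon
      push Not at hcon
      apply heR
      refine ⟨?_, ?_, ?_⟩
      · have h := hcon 1 (by norm_num) (by norm_num)
        rw [show iR + (1 : ℤ) = iR + 2 - 1 by ring] at h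
        exact h
      · exact hcon 2 (by norm_num) (by norm_num)
      · have h := hcon 3 (by norm_num) (by norm_num)
        rw [show iR + (3 : ℤ) = iR + 2 + 1 by ring] at h
        exact h
    obtain ⟨e, he1, he2, he3⟩ := hexL
    obtain ⟨f, hf1, hf2, hf3⟩ := hexR
    have hLn : (0 : ℤ) ≤ L := Int.natCast_nonneg L
    have hk1 : ((k + 1 : ℕ) : ℤ) * S = k * S + S := by push_cast; ring
    have hkn : (((k + 1 : ℕ) : ℤ) + n) * S = (k + n) * S + S := by push_cast; ring
    have hkn' : ((k : ℤ) + ((n + 1 : ℕ) : ℤ)) * S = (k + n) * S + S := by push_cast; ring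
    have heL2 : (iL + e) * L = iL * L + e * L := by ring
    have hfL2 : (iR + f) * L = iR * L + f * L := by ring
    have heL1 : -3 * (L : ℤ) ≤ e * L := mul_le_mul_of_nonneg_right he1 hLn
    have heL3 : e * L ≤ -1 * (L : ℤ) := mul_le_mul_of_nonneg_right he2 hLn
    have hfL1 : 1 * (L : ℤ) ≤ f * L := mul_le_mul_of_nonneg_right hf1 hLn
    have hfL3 : f * L ≤ 3 * (L : ℤ) := mul_le_mul_of_nonneg_right hf2 hLn
    set y := run N ω (t₀ + k * T) x T with hy
    set y' := run N ω (t₀ + k * T) x' T with hy'
    have hih := ih (k + 1) (iL + e) (iR + f) y y' he3 hf3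
      (fun s hs1 hs2 => (hL5 x h1).2 s (by rw [hk1, heL2] at hs1; linarith)
        (by rw [hk1, heL2] at hs2; linarith))
      (fun s hs1 hs2 => (hL5 x' h1').2 s (by rw [hk1, heL2] at hs1; linarith)
        (by rw [hk1, heL2] at hs2; linarith))
      (fun s hs1 hs2 => (hR5 x h2).2 s (by rw [hk1, hfL2] at hs1; linarith)
        (by rw [hk1, hfL2] at hs2; linarith))
      (fun s hs1 hs2 => (hR5 x' h2').2 s (by rw [hk1, hfL2] at hs1; linarith)
        (by rw [hk1, hfL2] at hs2; linarith))
      (fun s hs1 hs2 => hz s (by rw [hk1, heL2] at hs1; linarith)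
        (by rw [hk1, hfL2] at hs2; linarith)) s
      (by
        rw [hkn]
        rw [hkn'] at hs1
        have h5 : (iL + e - n) * L = iL * L + e * L - n * L := by ring
        have h6 : (iL - ((n + 1 : ℕ) : ℤ)) * L = iL * L - n * L - L := by push_cast; ring
        rw [h5]
        rw [h6] at hs1
        linarith)
      (by
        rw [hkn]
        rw [hkn'] at hs2
        have h5 : (iR + f + n + 1) * L = iR * L + f * L + n * L + L := by ring
        have h6 : (iR + ((n + 1 : ℕ) : ℤ) + 1) * L = iR * L + n * L + 2 * L := by push_cast; ring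
        rw [h5]
        rw [h6] at hs2
        linarith)
    rw [show (n + 1) * T = T + n * T by ring, run_add, run_add]
    rw [show t₀ + (k : ℤ) * T + T = t₀ + ((k + 1 : ℕ) : ℤ) * T by push_cast; ring]
    exact hih

theorem thm_OfS : St_OfS := by
  intro N b D₁ L T S ω a t h
  obtain ⟨p, q, h0, h1, h2, h3, h4, h5⟩ := h
  refine ⟨fun j => p j + a, fun j => q j + a, ?_, ?_, ?_, ?_, ?_, ?_⟩
  · simp only [h0]; ring
  · simp only [h1]; ring
  · intro j hj
    have := h2 j hj
    constructor <;> simp only <;> omega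
  · simp only
    linarith
  · simp only
    linarith
  · intro x hx
    have hx' := h5 (fun s => x (s + a)) (fun s hs1 hs2 => hx _ (by omega) (by omega))
    have hrun : ∀ j s, run N ω t x j s =
        run N (shift (a, t) ω) 0 (fun s => x (s + a)) j (s - a) := by
      intro j s
      rw [run_shift]
      congr 1
      · rw [zero_add]
      · funext r
        congr 1
        ring
      · ring
    refine ⟨?_, ?_⟩
    · intro j hj s hs1 hs2
      simp only at hs1 hs2
      rw [hrun]
      rcases hx'.1 j hj (s - a) (by omega) (by omega) with h | ⟨j', hj', h⟩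
      · exact Or.inl h
      · refine Or.inr ⟨j', hj', ?_⟩
        unfold shift at h
        have e1 : ((s - a, (0 : ℤ) + j') : ℤ × ℤ) + (a, t) = (s, t + j') := by
          simp only [Prod.mk_add_mk, Prod.mk.injEq]
          constructor <;> ring
        rw [e1] at h
        exact h
    · intro s hs1 hs2
      rw [hrun]
      exact hx'.2 _ (by linarith) (by linarith)

end Pool.Agent.NVA
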