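import Pool.Agent.NVA.Up
import Pool.Agent.NVA.Fix
import Pool.Agent.NVA.RelT
import Pool.Agent.NVA.RelF
import Pool.Agent.NVA.FF
import Pool.Agent.NVA.Harm
import Pool.Agent.NVA.Psi
import Pool.Agent.NVA.Drift
import Pool.Agent.NVA.ZoneS
import Pool.Agent.NVA.Dec
import Pool.Agent.NVA.Red
import Pool.Agent.NVA.Dil
import Pool.Agent.NVA.One
import Pool.Agent.NVA.ActS
import Pool.Agent.NVA.WallS
import Pool.Agent.NVA.StepS
import Pool.Agent.NVA.MaxS
import Pool.Agent.NVA.EdgesS
import Pool.Agent.NVA.Clu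
import Pool.Agent.NVA.GWS
import Pool.Agent.NVA.ParS
import Pool.Agent.NVA.FinS

set_option autoImplicit false

/-! Small biased noise for every odd neighbourhood: everything together (second version). -/

namespace Pool.Agent.NVA

theorem all_RelT : St_RelT := thm_RelT thm_Up thm_Fix

theorem all_RelF : St_RelF := thm_RelF thm_Up thm_Fix all_RelT

theorem all_F : St_F := thm_F thm_Up thm_Fix all_RelT all_RelF

theorem all_Drift : St_Drift := thm_Drift thm_Up all_F (thm_Harm thm_Up all_F) (thm_Psi thm_Up all_F)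

theorem all_EdgesS : St_EdgesS := thm_EdgesS thm_Up all_F all_Drift (thm_MaxS thm_StepS)

theorem all_WallS : St_WallS :=
  thm_WallS thm_Up thm_Fix all_F (thm_ActS thm_Up thm_Fix all_RelT all_RelF all_F)

theorem all_Dec : St_Dec := thm_Dec thm_Zone thm_OfS

theorem all_FinS : St_FinS :=
  thm_FinS (thm_GWS thm_Up all_F all_WallS) (thm_ParS all_EdgesS thm_Clu) all_Dec thm_Red thm_Dil
    thm_One

end Pool.Agent.NVA
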