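import Pool.Agent.NVA.Defs2

set_option autoImplicit false

/-! Clusters of simultaneous noises in the slanted box: union bound. -/

namespace Pool.Agent.NVA

open MeasureTheory Set Pool.Agent.Helper55.Vote

/-- noise of the type `e` at all sites `x + v`, `v ∈ P`, at the time index `i` -/
private def Clu_all (e : Bool) (P : Finset ℤ) (i x : ℤ) : Set Om :=
  {ω | ∀ v ∈ P, ω (x + v, i) = some e}

private lemma Clu_FL (e : Bool) (A : Finset ℤ) (i x : ℤ) :
    FL {c : ℤ × ℤ | c.2 = i ∧ c.1 - x ∈ A} (Clu_all e A i x) := by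
  classical
  refine ⟨A.image fun v => (x + v, i), ?_, ?_⟩
  · intro c hc
    simp only [Finset.coe_image, mem_image, Finset.mem_coe] at hc
    obtain ⟨v, hv, rfl⟩ := hc
    simpa using hv
  · intro ω ω' hc hA v hv
    rw [← hc _ (Finset.mem_image_of_mem _ hv)]
    exact hA v hv

private lemma Clu_prob (μ₀ : Measure (Option Bool)) [IsProbabilityMeasure μ₀] (e : Bool)
    (A : Finset ℤ) (i x : ℤ) :
    (Pm μ₀).real (Clu_all e A i x) = (μ₀.real {some e}) ^ A.card := by
  classical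
  induction A using Finset.induction_on with
  | empty => simp [Clu_all]
  | insert v A hv ih =>
    have h1 : Clu_all e (insert v A) i x = {ω | ω (x + v, i) ∈ ({some e} : Set (Option Bool))} ∩
        Clu_all e A i x := by
      ext ω
      simp [Clu_all]
    rw [h1, FL.indep μ₀ (FL.single (R := {(x + v, i)}) (x + v, i) rfl _) (Clu_FL e A i x) ?_,
      prob_single, ih, Finset.card_insert_of_notMem hv, pow_succ, mul_comm]
    rw [Set.disjoint_singleton_left]
    rintro ⟨-, h2⟩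
    apply hv
    simpa using h2

theorem thm_Clu : St_Clu := by
  classical
  intro μ₀ _ b σ w L T n D₁ _
  set p := μ₀.real {some (!b)} with hp
  let z : ℤ → ℤ := fun i => ⌈σ * (i : ℝ) - w * L⌉
  let K : Finset (ℤ × ℤ × Finset ℤ) :=
    Finset.Ico (0 : ℤ) T ×ˢ (Finset.Ico (0 : ℤ) (((2 * w + 1) * L : ℕ) : ℤ) ×ˢ
      Finset.powersetCard (n + 1) (Finset.Icc (-(D₁ : ℤ)) D₁))
  let ev : ℤ × ℤ × Finset ℤ → Set Om := fun q => Clu_all (!b) q.2.2 q.1 (z q.1 + q.2.1)
  have hsub : (CluOn (Box σ w L T) b n D₁)ᶜ ⊆ ⋃ q ∈ K, ev q := by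
    intro ω hω
    simp only [CluOn, mem_compl_iff, mem_ofPred_eq, not_forall, not_le] at hω
    obtain ⟨⟨a, i⟩, hc, M, hM, hcard⟩ := hω
    obtain ⟨hi0, hiT, hl, hu⟩ := hc
    simp only at hi0 hiT hl hu hM
    simp only [mem_iUnion]
    have hz1 : z i ≤ a := Int.ceil_le.2 hl
    have hz2 : a < z i + (((2 * w + 1) * L : ℕ) : ℤ) := by
      have h1 : σ * (i : ℝ) - w * L ≤ (z i : ℝ) := Int.le_ceil _
      have h2 : (a : ℝ) < (z i : ℝ) + ((((2 * w + 1) * L : ℕ) : ℤ) : ℝ) := by
        push_cast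
        linarith
      exact_mod_cast h2
    obtain ⟨M', hM'1, hM'2⟩ := Finset.exists_subset_card_eq (show n + 1 ≤ M.card by omega)
    refine ⟨(i, a - z i, M'.image fun s => s - a), ?_, ?_⟩
    · simp only [K, Finset.mem_product, Finset.mem_Ico, Finset.mem_powersetCard]
      refine ⟨⟨hi0, hiT⟩, ⟨by omega, by omega⟩, ?_, ?_⟩
      · intro v hv
        rw [Finset.mem_image] at hv
        obtain ⟨s, hs, rfl⟩ := hv
        have h1 := abs_le.1 (hM s (hM'1 hs)).1
        rw [Finset.mem_Icc]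
        omega
      · rw [Finset.card_image_of_injective _ fun s s' h => by simpa using h]
        exact hM'2
    · intro v hv
      simp only at hv ⊢
      rw [Finset.mem_image] at hv
      obtain ⟨s, hs, rfl⟩ := hv
      have e : z i + (a - z i) + (s - a) = s := by ring
      rw [e]
      exact (hM s (hM'1 hs)).2.2
  have hev : ∀ q ∈ K, (Pm μ₀).real (ev q) = p ^ (n + 1) := by
    rintro ⟨i, s, P⟩ hq
    simp only [K, Finset.mem_product, Finset.mem_Ico, Finset.mem_powersetCard] at hq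
    simp only [ev]
    rw [Clu_prob, hq.2.2.2]
  have hp2 : 0 ≤ p ^ (n + 1) := pow_nonneg measureReal_nonneg _
  calc (Pm μ₀).real (CluOn (Box σ w L T) b n D₁)ᶜ ≤ (Pm μ₀).real (⋃ q ∈ K, ev q) :=
        measureReal_mono hsub (measure_ne_top _ _)
    _ ≤ ∑ q ∈ K, (Pm μ₀).real (ev q) := measureReal_biUnion_finset_le _ _
    _ = ∑ q ∈ K, p ^ (n + 1) := Finset.sum_congr rfl hev
    _ = (K.card : ℝ) * p ^ (n + 1) := by rw [Finset.sum_const, nsmul_eq_mul]
    _ ≤ ((T * ((2 * w + 1) * L * 2 ^ (2 * D₁ + 1)) : ℕ) : ℝ) * p ^ (n + 1) := by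
      refine mul_le_mul_of_nonneg_right ?_ hp2
      have e1 : ((T : ℤ) - 0).toNat = T := by omega
      have e2 : ((((2 * w + 1) * L : ℕ) : ℤ) - 0).toNat = (2 * w + 1) * L := by
        rw [sub_zero, Int.toNat_natCast]
      have e3 : ((D₁ : ℤ) + 1 - -(D₁ : ℤ)).toNat = 2 * D₁ + 1 := by omega
      have h1 : K.card = T * ((2 * w + 1) * L * (2 * D₁ + 1).choose (n + 1)) := by
        simp only [K, Finset.card_product, Int.card_Ico, Int.card_Icc, Finset.card_powersetCard]
        rw [e1, e2, e3]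
      have h2 : K.card ≤ T * ((2 * w + 1) * L * 2 ^ (2 * D₁ + 1)) := by
        rw [h1]
        exact Nat.mul_le_mul_left _ (Nat.mul_le_mul_left _ (Nat.choose_le_two_pow _ _))
      exact_mod_cast h2
    _ ≤ 2 * (2 * w + 1) * L * T * 2 ^ (2 * D₁ + 1) * p ^ (n + 1) := by
      refine mul_le_mul_of_nonneg_right ?_ hp2
      push_cast
      have h0 : (0 : ℝ) ≤ (2 * w + 1) * L * T * 2 ^ (2 * D₁ + 1) := by positivity
      nlinarith

end Pool.Agent.NVA
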