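import Pool.Agent.Helper55.Vote.Blocks
import Pool.Agent.Helper55.Vote.Crit

set_option autoImplicit false

/-! Noisy majority voting with an arbitrary odd neighbourhood and small biased noise: definitions.

Interfaces are up-sets. A configuration `u : ℤ → Bool` is an up-set (of the neighbourhood `N`) if
its set of ones is closed under `s ↦ s + |v|`, `v ∈ N`, nonempty and bounded below. The noiseless
majority fixes up-sets, and a single noise on an up-set relaxes, within `Rr` steps, to another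
up-set. -/

namespace Pool.Agent.NVA

open MeasureTheory Set Pool.Agent.Helper55.Vote

/-- A centred neighbourhood: `2 n + 1` elements, `n ≥ 1`, with `n` of them negative, `0`, and `n`
of them positive, all of absolute value at most `D₁`; and the up-sets have bounded defects (this
says that the absolute values of the elements have no common divisor). -/
structure Nb (N : Finset ℤ) (n D₁ W : ℕ) : Prop where
  pos : 1 ≤ n
  card : N.card = 2 * n + 1
  zero : (0 : ℤ) ∈ N
  neg : (N.filter fun v => v < 0).card = n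
  posi : (N.filter fun v => 0 < v).card = n
  bd : ∀ v ∈ N, |v| ≤ (D₁ : ℤ)
  frob : ∀ U : Set ℤ, (0 : ℤ) ∈ U → (∀ s ∈ U, ∀ v ∈ N, s + |v| ∈ U) → ∀ s : ℤ, (W : ℤ) ≤ s → s ∈ U

/-- `u` is an up-set with the least element `l` -/
def Up (N : Finset ℤ) (l : ℤ) (u : ℤ → Bool) : Prop :=
  u l = true ∧ (∀ s, s < l → u s = false) ∧ ∀ s, u s = true → ∀ v ∈ N, u (s + |v|) = true

/-- `u` is an up-set -/
def IsUp (N : Finset ℤ) (u : ℤ → Bool) : Prop := ∃ l, Up N l u

/-- the least element of an up-set -/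
noncomputable def lo (u : ℤ → Bool) : ℤ := sInf {s | u s = true}

/-- the half-line `[x, ∞)` -/
def H (x : ℤ) : ℤ → Bool := fun s => decide (x ≤ s)

/-- the relaxation time -/
def Rr (D₁ W : ℕ) : ℕ := W + D₁ + 2

/-- the half width of the window around the least element -/
def Bb (D₁ W : ℕ) : ℕ := 8 * (W + D₁ + 1)

/-- the up-set to which `u` relaxes after the site `s` has been set to `c` -/
noncomputable def F (N : Finset ℤ) (D₁ W : ℕ) (u : ℤ → Bool) (s : ℤ) (c : Bool) : ℤ → Bool :=
  (maj N)^[Rr D₁ W] (Function.update u s c)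

/-- the window of `u` -/
noncomputable def win (D₁ W : ℕ) (u : ℤ → Bool) : Finset ℤ :=
  Finset.Ico (lo u - (Bb D₁ W : ℤ)) (lo u + (Bb D₁ W : ℤ))

open Classical in
/-- One step of the interface chain: if the window of `u` contains exactly one noise, then `u`
is replaced by its relaxation (a noise `some b` adds, a noise `some (!b)` removes the site). -/
noncomputable def stepU (N : Finset ℤ) (D₁ W : ℕ) (b : Bool) (u : ℤ → Bool)
    (w : ℤ → Option Bool) : ℤ → Bool :=
  if h : ∃ s, s ∈ win D₁ W u ∧ w s ≠ none ∧ ∀ s' ∈ win D₁ W u, w s' ≠ none → s' = s then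
    F N D₁ W u h.choose (decide (w h.choose = some b))
  else u

/-- the interface chain started from `u` at the time `t` -/
noncomputable def chain (N : Finset ℤ) (D₁ W : ℕ) (b : Bool) (ω : Om) (t : ℤ) (u : ℤ → Bool) :
    ℕ → ℤ → Bool
  | 0 => u
  | j + 1 => stepU N D₁ W b (chain N D₁ W b ω t u j) fun s => ω (s, t + (j : ℤ))

/-- the majority process which only feels the noise in the windows of the chain (time `0`) -/
noncomputable def act (N : Finset ℤ) (D₁ W : ℕ) (b : Bool) (ω : Om) (u : ℤ → Bool) :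
    ℕ → ℤ → Bool
  | 0 => u
  | j + 1 => fun s =>
      if s ∈ win D₁ W (chain N D₁ W b ω 0 u j) ∧ ω (s, (j : ℤ)) ≠ none then
        decide (ω (s, (j : ℤ)) = some b)
      else maj N (act N D₁ W b ω u j) s

/-- the one-step drift of `f` at `u`: a noise adds with the rate `p` and removes with the
rate `p'` -/
noncomputable def dr (N : Finset ℤ) (D₁ W : ℕ) (p p' : ℝ) (f : (ℤ → Bool) → ℝ)
    (u : ℤ → Bool) : ℝ :=
  ∑ s ∈ win D₁ W u, (p * (f (F N D₁ W u s true) - f u) + p' * (f (F N D₁ W u s false) - f u))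

/-- the probability that exactly one given site of a window carries no other noise -/
noncomputable def qq (D₁ W : ℕ) (p p' : ℝ) : ℝ := (1 - p - p') ^ (2 * Bb D₁ W - 1)

/-- A slanted wall. During the layer `[t, t + T]` the block `[a, a + L)` carries a wall of type
`b`: the interval `[p j, q j]` cannot be jumped over, on it the state is `b` or was just set by the
noise, and at the time `t + T` the state is `b` on `[a + S - 3 L, a + S + 4 L)`. -/
def WallS (N : Finset ℤ) (b : Bool) (D₁ L T : ℕ) (S : ℤ) (ω : Om) (a t : ℤ) : Prop :=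
  ∃ p q : ℕ → ℤ, p 0 = a ∧ q 0 = a + L - 1 ∧
    (∀ j < T, p (j + 1) + D₁ ≤ q j ∧ p j + D₁ ≤ q (j + 1)) ∧
    p T ≤ a + S + 4 * L ∧ a + S - 3 * L - 1 ≤ q T ∧
    ∀ x : ℤ → Bool, (∀ s, a ≤ s → s < a + L → x s = b) →
      (∀ j ≤ T, ∀ s, p j ≤ s → s ≤ q j →
        run N ω t x j s = b ∨ ∃ j', j = j' + 1 ∧ ω (s, t + j') ≠ none) ∧
      ∀ s, a + S - 3 * L ≤ s → s < a + S + 4 * L → run N ω t x T s = b

/-- the noise regions of the blocks: times in `[0, T)`, equal-time width less than
`(2 w + 1) L` -/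
def Thin (w L T : ℕ) (R : Set (ℤ × ℤ)) : Prop :=
  (∀ c ∈ R, 0 ≤ c.2 ∧ c.2 < (T : ℤ)) ∧
    ∀ c ∈ R, ∀ c' ∈ R, c.2 = c'.2 → |c.1 - c'.1| < (2 * (w : ℤ) + 1) * L

/-- no two noises of the region `R` are close to each other (`r`: distance in space, `τ`:
distance in time) -/
def SparseOn (R : Set (ℤ × ℤ)) (r τ : ℕ) : Set Om :=
  {ω | ∀ c ∈ R, ∀ c' ∈ R, c ≠ c' → |c.1 - c'.1| ≤ (r : ℤ) → |c.2 - c'.2| ≤ (τ : ℤ) →
    ω c = none ∨ ω c' = none}

/-- the range in space of the sparseness condition -/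
def rs (D₁ W : ℕ) : ℕ := 4 * Bb D₁ W + (Rr D₁ W + 1) * (W + D₁)

/-- the slanted box with the slope `σ` -/
def Box (σ : ℝ) (w L T : ℕ) : Set (ℤ × ℤ) :=
  {c | 0 ≤ c.2 ∧ c.2 < (T : ℤ) ∧ σ * c.2 - w * L ≤ (c.1 : ℝ) ∧ (c.1 : ℝ) < σ * c.2 + (w + 1) * L}

end Pool.Agent.NVA
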