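import Pool.Agent.NVA.St

set_option autoImplicit false

/-! Second version of the interface chain: several noises near an interface are allowed (the chain
is then reset to a half-line at a bounded distance), and in the bulk only more than `n`
simultaneous noises in one neighbourhood are forbidden. -/

namespace Pool.Agent.NVA

open MeasureTheory Set Pool.Agent.Helper55.Vote

/-- the displacement of a reset -/
def Jj (D₁ W : ℕ) : ℕ := 2 * (W + D₁) + (Rr D₁ W + 2) * D₁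

/-- The states of the chain: an up-set, the number of quiet steps which are needed until the state
is relaxed, and a flag (`true`: the last noise led to a reset). -/
abbrev St2 : Type := (ℤ → Bool) × ℕ × Bool

/-- the reset of the up-set `u` in the direction `σ` (`σ = 1`: to the right, `σ = -1`: to the
left) -/
noncomputable def rst (D₁ W : ℕ) (σ : ℤ) (u : ℤ → Bool) : St2 :=
  (H (lo u + σ * (Jj D₁ W : ℤ)), Rr D₁ W + 1, true)

open Classical in
/-- One step of the second chain. No noise in the window: one more quiet step. Exactly one noise in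
the window of a relaxed state: relaxation. Otherwise: reset. -/
noncomputable def stepS (N : Finset ℤ) (D₁ W : ℕ) (b : Bool) (σ : ℤ) (st : St2)
    (w : ℤ → Option Bool) : St2 :=
  if ∀ s ∈ win D₁ W st.1, w s = none then (st.1, st.2.1 - 1, st.2.2)
  else if h : st.2.1 = 0 ∧
      ∃ s, s ∈ win D₁ W st.1 ∧ w s ≠ none ∧ ∀ s' ∈ win D₁ W st.1, w s' ≠ none → s' = s then
    (F N D₁ W st.1 h.2.choose (decide (w h.2.choose = some b)), Rr D₁ W + 1, false)
  else rst D₁ W σ st.1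

/-- the second chain started from the state `st` at the time `t` -/
noncomputable def chS (N : Finset ℤ) (D₁ W : ℕ) (b : Bool) (σ : ℤ) (ω : Om) (t : ℤ) (st : St2) :
    ℕ → St2
  | 0 => st
  | j + 1 => stepS N D₁ W b σ (chS N D₁ W b σ ω t st j) fun s => ω (s, t + (j : ℤ))

/-- the start from the half-line `[x, ∞)` -/
def ini (x : ℤ) : St2 := (H x, 0, false)

/-- The comparison process along the second chain started from `[x, ∞)` at the time `0`. After a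
reset it is a half-line with a margin which shrinks with the number of the quiet steps; otherwise it
is the majority process which only feels the noise in the window. -/
noncomputable def actS (N : Finset ℤ) (D₁ W : ℕ) (b : Bool) (σ : ℤ) (ω : Om) (x : ℤ) :
    ℕ → ℤ → Bool
  | 0 => H x
  | j + 1 =>
      if (chS N D₁ W b σ ω 0 (ini x) (j + 1)).2.2 = true then
        H (lo (chS N D₁ W b σ ω 0 (ini x) (j + 1)).1 -
          σ * ((chS N D₁ W b σ ω 0 (ini x) (j + 1)).2.1 : ℤ) * (D₁ : ℤ))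
      else fun s =>
        if s ∈ win D₁ W (chS N D₁ W b σ ω 0 (ini x) j).1 ∧ ω (s, (j : ℤ)) ≠ none then
          decide (ω (s, (j : ℤ)) = some b)
        else maj N (actS N D₁ W b σ ω x j) s

/-- the probability of no noise in a window -/
noncomputable def q0 (D₁ W : ℕ) (p p' : ℝ) : ℝ := (1 - p - p') ^ (2 * Bb D₁ W)

/-- the probability of at least two noises in a window -/
noncomputable def q2 (D₁ W : ℕ) (p p' : ℝ) : ℝ :=
  1 - q0 D₁ W p p' - 2 * Bb D₁ W * qq D₁ W p p' * (p + p')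

/-- the mean of `f` after one step of the second chain -/
noncomputable def mS (N : Finset ℤ) (D₁ W : ℕ) (σ : ℤ) (p p' : ℝ) (f : St2 → ℝ) (st : St2) : ℝ :=
  if st.2.1 = 0 then
    q0 D₁ W p p' * f (st.1, 0, st.2.2) +
      ∑ s ∈ win D₁ W st.1, qq D₁ W p p' *
        (p * f (F N D₁ W st.1 s true, Rr D₁ W + 1, false) +
          p' * f (F N D₁ W st.1 s false, Rr D₁ W + 1, false)) +
      q2 D₁ W p p' * f (rst D₁ W σ st.1)
  else q0 D₁ W p p' * f (st.1, st.2.1 - 1, st.2.2) +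
    (1 - q0 D₁ W p p') * f (rst D₁ W σ st.1)

/-- at most `n` noises `some (!b)` at the same time near any point of the region -/
def CluOn (R : Set (ℤ × ℤ)) (b : Bool) (n D₁ : ℕ) : Set Om :=
  {ω | ∀ c ∈ R, ∀ K : Finset ℤ, (∀ s ∈ K, |s - c.1| ≤ (D₁ : ℤ) ∧ (s, c.2) ∈ R ∧
    ω (s, c.2) = some (!b)) → K.card ≤ n}

/-- the good event of the second version -/
def gS2 (N : Finset ℤ) (n D₁ W : ℕ) (b : Bool) (σ : ℝ) (w L T : ℕ) (S : ℤ) : Set Om :=
  {ω | ω ∈ CluOn (Box σ w L T) b n D₁ ∧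
    (∀ j ≤ T, σ * j - (w - 1) * L ≤ (lo (chS N D₁ W b 1 ω 0 (ini 0) j).1 : ℝ) ∧
      (lo (chS N D₁ W b 1 ω 0 (ini 0) j).1 : ℝ) ≤ σ * j + L / 4) ∧
    (∀ j ≤ T, σ * j + L - L / 4 ≤ (lo (chS N D₁ W (!b) (-1) ω 0 (ini L) j).1 : ℝ) ∧
      (lo (chS N D₁ W (!b) (-1) ω 0 (ini L) j).1 : ℝ) ≤ σ * j + w * L) ∧
    lo (chS N D₁ W b 1 ω 0 (ini 0) T).1 + 2 * (Bb D₁ W + Jj D₁ W : ℤ) ≤ S - 3 * L ∧
    S + 4 * L ≤ lo (chS N D₁ W (!b) (-1) ω 0 (ini L) T).1 - 2 * (Bb D₁ W + Jj D₁ W : ℤ) ∧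
    ∀ s : ℤ, S - 3 * L ≤ s → s < S + 4 * L → ω (s, (T : ℤ) - 1) ≠ some (!b)}

/-! ### Statements -/

/-- Facts on the comparison process (for all noise fields). Notation: `U j`, `a j`, `r j` the
components of the chain, `A j` the comparison process. Proof by induction on `j`:
(1) `U j` is an up-set, `a j ≤ Rr + 1`; (2) `|lo (U (j + 1)) - lo (U j)| ≤ Jj`, and `≤ W + D₁` if
`r (j + 1) = false`; (3) if `r j = true` then `A j = H (lo (U j) - σ a j D₁)` and `U j` is a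
half-line; (4) if `r j = false` then `A j` is `U j` or, for some `i < j` with
`j = i + 1 + k`, `k ≤ Rr`, `A j = (maj N)^[k] (update (U i) s c)` where `(s, i)` was the only noise
in the window at the time `i`, `U j = F (U i) s c`, `a j = Rr + 1 - k`; at `k = Rr + 1` the relaxed
state is reached (`St_RelT`, `St_RelF`); (5) hence the two claims on the values far from `lo`;
(6) if `a j = 0` then `A j = U j` and, for `j = i + 1`, the step `i → j` was quiet (no noise in the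
window of `U i = U j`). -/
def St_ActS : Prop := ∀ (N : Finset ℤ) (n D₁ W : ℕ), Nb N n D₁ W →
  ∀ (b : Bool) (σ : ℤ), (σ = 1 ∨ σ = -1) → ∀ (ω : Om) (x : ℤ) (j : ℕ),
  IsUp N (chS N D₁ W b σ ω 0 (ini x) j).1 ∧
  (chS N D₁ W b σ ω 0 (ini x) j).2.1 ≤ Rr D₁ W + 1 ∧
  |lo (chS N D₁ W b σ ω 0 (ini x) (j + 1)).1 - lo (chS N D₁ W b σ ω 0 (ini x) j).1| ≤
    (Jj D₁ W : ℤ) ∧
  ((chS N D₁ W b σ ω 0 (ini x) (j + 1)).2.2 = false →
    |lo (chS N D₁ W b σ ω 0 (ini x) (j + 1)).1 - lo (chS N D₁ W b σ ω 0 (ini x) j).1| ≤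
      (W : ℤ) + D₁) ∧
  ((chS N D₁ W b σ ω 0 (ini x) j).2.1 = 0 →
    actS N D₁ W b σ ω x j = (chS N D₁ W b σ ω 0 (ini x) j).1 ∧
    ∀ i : ℕ, j = i + 1 →
      (chS N D₁ W b σ ω 0 (ini x) i).1 = (chS N D₁ W b σ ω 0 (ini x) j).1 ∧
      ∀ s ∈ win D₁ W (chS N D₁ W b σ ω 0 (ini x) i).1, ω (s, (i : ℤ)) = none) ∧
  ((chS N D₁ W b σ ω 0 (ini x) j).2.2 = true →
    actS N D₁ W b σ ω x j = H (lo (chS N D₁ W b σ ω 0 (ini x) j).1 -
      σ * ((chS N D₁ W b σ ω 0 (ini x) j).2.1 : ℤ) * (D₁ : ℤ))) ∧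
  ((chS N D₁ W b σ ω 0 (ini x) j).2.2 = false →
    (∀ t, lo (chS N D₁ W b σ ω 0 (ini x) j).1 + 2 * (W + D₁) ≤ t →
      actS N D₁ W b σ ω x j t = true ∨
      ∃ i : ℕ, j = i + 1 ∧ t ∈ win D₁ W (chS N D₁ W b σ ω 0 (ini x) i).1 ∧
        ω (t, (i : ℤ)) ≠ none) ∧
    (∀ t, t < lo (chS N D₁ W b σ ω 0 (ini x) j).1 - 2 * (W + D₁) →
      actS N D₁ W b σ ω x j t = false ∨
      ∃ i : ℕ, j = i + 1 ∧ t ∈ win D₁ W (chS N D₁ W b σ ω 0 (ini x) i).1 ∧
        ω (t, (i : ℤ)) ≠ none))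

/-- The island, second version. `U j`, `A j`: chain (`σ = 1`) and comparison process of the left
edge (adding noise `some b`, start `[0, ∞)`); `Z j`, `A' j`: those of the right edge (adding noise
`some (!b)`, `σ = -1`, start `[L, ∞)`; ones = sites with the value `!b`).
Claim (induction on `j ≤ T`): if `A j s = true`, `A' j s = false` and (for `j = i + 1`)
`ω (s, i) ≠ some (!b)`, then `run N ω 0 x j s = b`.
Step `j → j + 1`, for a site `s` as in the claim for `j + 1`. If `ω (s, j) = some b` the state is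
`b`. Let `ω (s, j) = none`; it suffices to find `n + 1` elements `v` of `N` with
`run j (s + v) = b`. Let `2 s ≤ lo (U j) + lo (Z j)` (the other case is symmetric). Then
`A' j (s + v) = false` for all `v ∈ N` (the edges are far apart). Let `B` be the set of the
`v ∈ N` with `ω (s + v, j - 1) = some (!b)` (`∅` for `j = 0`); `B` has at most `n` elements
(`CluOn`). (BULK) If every `v ∈ N` outside of `B` satisfies `A j (s + v) = true` or
`ω (s + v, j - 1) = some b`, then the `≥ n + 1` elements outside of `B` do. (a) After a reset,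
`r (j + 1) = true`: if the step was quiet, `A (j + 1) = H (lo (U j) - (a j - 1) D₁)` (or
`a j = 0` and `A (j + 1) = A j = H (lo (U j))`, then the step `j - 1 → j` was quiet too, see (b)),
so `A j (s + v) = true` for all `v`, BULK. If it was a reset, `s ≥ lo (U j) + Jj - (Rr + 1) D₁ =
lo (U j) + 2 (W + D₁) + D₁` and BULK holds by the facts on `A j` (for `r j = true`:
`A j (s + v) = true` since `s + v ≥ lo (U j)`). (b) `r (j + 1) = false`, or `r (j + 1) = true`,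
`a j = 0` and the step quiet: then `maj N (A j) s = true`. If `s ≥ lo (U j) + 3 (W + D₁)`, BULK.
Otherwise `s + v` is in the window of `U (j - 1)` for all `v ∈ N`, and
`A j (s + v) = true` implies `ω (s + v, j - 1) ≠ some (!b)`: if `a j = 0` there was no noise in
the window at the time `j - 1`, if `a j > 0` then `r j = false` and `A j` was overwritten by the
noise; so `n + 1` neighbours with `A j (s + v) = true` have the value `b` by the claim for `j`. -/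
def St_WallS : Prop := ∀ (N : Finset ℤ) (n D₁ W : ℕ), Nb N n D₁ W →
  ∀ (L T : ℕ) (S : ℤ) (b : Bool) (ω : Om) (Reg : Set (ℤ × ℤ)), 1 ≤ T →
  ω ∈ CluOn Reg b n D₁ →
  (∀ j < T, ∀ s : ℤ,
    lo (chS N D₁ W b 1 ω 0 (ini 0) j).1 - 4 * (Bb D₁ W + Jj D₁ W : ℤ) ≤ s →
    s ≤ lo (chS N D₁ W (!b) (-1) ω 0 (ini L) j).1 + 4 * (Bb D₁ W + Jj D₁ W : ℤ) →
    (s, (j : ℤ)) ∈ Reg) →
  (∀ j ≤ T, lo (chS N D₁ W b 1 ω 0 (ini 0) j).1 + 16 * (Bb D₁ W + Jj D₁ W : ℤ) ≤
    lo (chS N D₁ W (!b) (-1) ω 0 (ini L) j).1) →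
  lo (chS N D₁ W b 1 ω 0 (ini 0) T).1 + 2 * (Bb D₁ W + Jj D₁ W : ℤ) ≤ S - 3 * L →
  S + 4 * L ≤ lo (chS N D₁ W (!b) (-1) ω 0 (ini L) T).1 - 2 * (Bb D₁ W + Jj D₁ W : ℤ) →
  (∀ s : ℤ, S - 3 * L ≤ s → s < S + 4 * L → ω (s, (T : ℤ) - 1) ≠ some (!b)) →
  WallS N b D₁ L T S ω 0 0

/-- The law of one step of the second chain (compare `St_StepP` and its proof in StepP.lean). -/
def St_StepS : Prop := ∀ (N : Finset ℤ) (D₁ W : ℕ) (μ₀ : Measure (Option Bool))
  [IsProbabilityMeasure μ₀] (b : Bool) (σ : ℤ) (st : St2) (i : ℤ) (E : St2 → Set Om),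
  (∀ st', FL {c : ℤ × ℤ | i + 1 ≤ c.2} (E st')) →
  0 ≤ q2 D₁ W (μ₀.real {some b}) (μ₀.real {some (!b)}) ∧
  FL {c : ℤ × ℤ | i ≤ c.2} {ω | ω ∈ E (stepS N D₁ W b σ st fun s => ω (s, i))} ∧
  (Pm μ₀).real {ω | ω ∈ E (stepS N D₁ W b σ st fun s => ω (s, i))} =
    mS N D₁ W σ (μ₀.real {some b}) (μ₀.real {some (!b)}) (fun st' => (Pm μ₀).real (E st')) st

/-- The quadratic maximal inequality for the second chain (compare `St_MaxI` and MaxI.lean): `A` is
a set of states which is closed under all outcomes of a step, `d` bounds the mean increment of `f`,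
`m₂` its second moment. Proof: `P(∃ j ≤ m, f (chS j) - f st - d j ≥ Λ - y) ≤
((max y 0) ^ 2 + m (2 m₂ + 2 d ^ 2)) / Λ ^ 2` by induction on `m`. -/
def St_MaxS : Prop := ∀ (N : Finset ℤ) (D₁ W : ℕ) (μ₀ : Measure (Option Bool))
  [IsProbabilityMeasure μ₀] (b : Bool) (σ : ℤ) (A : Set St2) (f : St2 → ℝ) (d m₂ Λ : ℝ),
  (∀ st ∈ A, (st.1, st.2.1 - 1, st.2.2) ∈ A ∧ rst D₁ W σ st.1 ∈ A ∧
    ∀ s c, (F N D₁ W st.1 s c, Rr D₁ W + 1, false) ∈ A) →
  (∀ st ∈ A, mS N D₁ W σ (μ₀.real {some b}) (μ₀.real {some (!b)}) (fun st' => f st' - f st) st ≤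
    d) →
  (∀ st ∈ A, mS N D₁ W σ (μ₀.real {some b}) (μ₀.real {some (!b)})
    (fun st' => (f st' - f st) ^ 2) st ≤ m₂) → 0 < Λ →
  ∀ (m : ℕ) (i : ℤ), ∀ st ∈ A,
    (Pm μ₀).real {ω | ∃ j ≤ m, f st + d * j + Λ ≤ f (chS N D₁ W b σ ω i st j)} ≤
      m * (2 * m₂ + 2 * d ^ 2) / Λ ^ 2

/-- The two edges stay near their lines, second version. Let `v, κ₀, C₀, f, g` be as in
`St_Drift`. Apply `St_MaxS` to `st ↦ f st.1 + c p st.2.1` and `st ↦ - g st.1 + c p st.2.1` for the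
chain of `b` (`σ = 1`), and to `st ↦ - g st.1 + c p st.2.1` and `st ↦ g st.1 + c p st.2.1` for the
chain of `!b` (`σ = -1`); `A`: the states with an up-set and `st.2.1 ≤ Rr + 1`. In a relaxed state
the mean increment is `qq * dr f` plus at most `c p (Rr + 1) (1 - q0) + q2 (2 C₀ + Jj)`, which is
`O(p ^ 2)`: `1 - q0 ≤ 2 Bb (p + p')`, `q2 ≤ (2 Bb (p + p')) ^ 2`. In a state with `st.2.1 > 0` it is
at most `- c p q0 + (1 - q0) (2 C₀ + Jj + c p (Rr + 1))`, which is at most `- 2 C₀ p` for a large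
`c` (depending on `N` only) and small `p`. The hypothesis `C p ^ 2 ≤ p - p'` (which implies
`p ≤ 1 / C`) absorbs all errors `O(p ^ 2)` in the drifts: `κ = κ₀ / 2`. The second moments are
`O(p)`. -/
def St_EdgesS : Prop := ∀ (N : Finset ℤ) (n D₁ W : ℕ), Nb N n D₁ W →
  ∃ v κ C : ℝ, 0 < κ ∧ κ ≤ 1 ∧ 1 ≤ C ∧ |v| ≤ C ∧
    ∀ (μ₀ : Measure (Option Bool)) [IsProbabilityMeasure μ₀] (b : Bool) (p p' q : ℝ),
      p = μ₀.real {some b} → p' = μ₀.real {some (!b)} → q = qq D₁ W p p' → p' < p →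
      C * p ^ 2 ≤ p - p' →
      ∀ (T : ℕ) (Λ : ℝ) (x : ℤ), 0 < Λ →
        (Pm μ₀).real {ω | ∃ j ≤ T, x + q * (p' * v - κ * (p - p')) * j + Λ + C ≤
          (lo (chS N D₁ W b 1 ω 0 (ini x) j).1 : ℝ)} ≤ C * p * T / Λ ^ 2 ∧
        (Pm μ₀).real {ω | ∃ j ≤ T, (lo (chS N D₁ W b 1 ω 0 (ini x) j).1 : ℝ) ≤
          x + q * (p' * v - C * (p - p')) * j - Λ - C} ≤ C * p * T / Λ ^ 2 ∧
        (Pm μ₀).real {ω | ∃ j ≤ T, (lo (chS N D₁ W (!b) (-1) ω 0 (ini x) j).1 : ℝ) ≤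
          x + q * (p' * v - κ / 2 * (p - p')) * j - Λ - C} ≤ C * p * T / Λ ^ 2 ∧
        (Pm μ₀).real {ω | ∃ j ≤ T, x + q * (p' * v + C * (p - p')) * j + Λ + C ≤
          (lo (chS N D₁ W (!b) (-1) ω 0 (ini x) j).1 : ℝ)} ≤ C * p * T / Λ ^ 2

/-- More than `n` simultaneous noises `some (!b)` near a point of the slanted box. Union bound over
the points `c` of the box (at most `2 (2 w + 1) L T`) and over the subsets with `n + 1` elements of
the `2 D₁ + 1` sites near `c.1` (at most `2 ^ (2 D₁ + 1)`). -/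
def St_Clu : Prop := ∀ (μ₀ : Measure (Option Bool)) [IsProbabilityMeasure μ₀] (b : Bool) (σ : ℝ)
  (w L T n D₁ : ℕ), 1 ≤ L →
  (Pm μ₀).real (CluOn (Box σ w L T) b n D₁)ᶜ ≤
    2 * (2 * w + 1) * L * T * 2 ^ (2 * D₁ + 1) * (μ₀.real {some (!b)}) ^ (n + 1)

/-- The good event depends on the noise in the box and gives the wall (as `St_GW`, from
`St_WallS`). -/
def St_GWS : Prop := ∀ (N : Finset ℤ) (n D₁ W : ℕ), Nb N n D₁ W →
  ∀ (b : Bool) (σ : ℝ) (w L T : ℕ) (S : ℤ), 2 ≤ w → 1 ≤ T → 64 * (Bb D₁ W + Jj D₁ W) ≤ L →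
    |σ| ≤ 1 →
    Thin w L T (Box σ w L T) ∧ FL (Box σ w L T) (gS2 N n D₁ W b σ w L T S) ∧
      ∀ ω ∈ gS2 N n D₁ W b σ w L T S, WallS N b D₁ L T S ω 0 0

/-- The choice of the parameters (as `St_Par`): `w = ⌈64 C₀ / κ⌉ + 24`,
`σ = q (p' v - 3 κ h / 4)`, `L = ⌈K p / h⌉`, `T = ⌈32 L / (κ h)⌉`, `S = ⌊σ T⌋`, `Λ = L / 16`; both
edges move away from each other with the relative speed `q κ h / 4` in this frame,
`q κ h T / 4 ≥ 4 L`. The cluster event has the probability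
`O(L T p ^ (n + 1)) = O(K ^ 2 p ^ (n + 3) / h ^ 3)`, the last row
`7 L p' ≤ 7 (K + 1) p ^ 2 / h ≤ 7 (K + 1) / C`. -/
def St_ParS : Prop := ∀ (N : Finset ℤ) (n D₁ W : ℕ), Nb N n D₁ W →
  ∃ (C : ℝ) (w : ℕ), 0 < C ∧ 2 ≤ w ∧
    ∀ (μ₀ : Measure (Option Bool)) [IsProbabilityMeasure μ₀] (b : Bool),
      μ₀.real {some (!b)} < μ₀.real {some b} →
      C * (μ₀.real {some b}) ^ 2 ≤ μ₀.real {some b} - μ₀.real {some (!b)} →
      C * (μ₀.real {some b}) ^ (n + 3) ≤ (μ₀.real {some b} - μ₀.real {some (!b)}) ^ 3 →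
      ∃ (L T : ℕ) (σ : ℝ) (S : ℤ), 1 ≤ T ∧ 64 * (Bb D₁ W + Jj D₁ W) ≤ L ∧ |σ| ≤ 1 ∧
        (Pm μ₀).real (gS2 N n D₁ W b σ w L T S)ᶜ ≤ (3 / 64) ^ (2 * w + 1)

/-- The theorem, second version. -/
def St_FinS : Prop := ∀ (N : Finset ℤ) (n : ℕ), N.card = 2 * n + 1 → ∃ C : ℝ, 0 < C ∧
  ∀ ε δ : ℝ, 0 < ε → 0 < δ → ε + δ ≤ 1 →
  C * (max ε δ) ^ (min (n + 3) 6) ≤ |ε - δ| ^ 3 → Ergodic N ε δ

end Pool.Agent.NVA
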