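import Pool.Agent.NVA.St

/-!
# NVA Edges: the two edges stay near their lines (helper47)
-/

set_option autoImplicit false

namespace Pool.Agent.NVA

open MeasureTheory Set Pool.Agent.Helper55.Vote

private theorem Edges_dr_neg (N : Finset ℤ) (D₁ W : ℕ) (p p' : ℝ) (g : (ℤ → Bool) → ℝ)
    (u : ℤ → Bool) : dr N D₁ W p p' (fun u => -g u) u = -dr N D₁ W p p' g u := by
  unfold dr
  rw [← Finset.sum_neg_distrib]
  apply Finset.sum_congr rfl
  intro s _
  ring

private theorem Edges_qq_comm (D₁ W : ℕ) (p p' : ℝ) : qq D₁ W p p' = qq D₁ W p' p := by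
  unfold qq
  congr 1
  ring

private theorem Edges_num (T Q C C₀ p p' Λ : ℝ) (hT : 0 ≤ T) (hQ : 0 ≤ Q) (hp' : 0 ≤ p')
    (hlt : p' < p) (hC : C = 2 * C₀ + 2 * Q) (hC₀ : 0 ≤ C₀) (hΛ : 0 < Λ) :
    T * (Q * (p + p')) / Λ ^ 2 ≤ C * p * T / Λ ^ 2 := by
  apply div_le_div_of_nonneg_right _ (by positivity)
  have hp : 0 ≤ p := by linarith
  have h1 : Q * (p + p') ≤ C * p := by
    have h2 : Q * (p + p') ≤ Q * (2 * p) := mul_le_mul_of_nonneg_left (by linarith) hQ
    have h3 : 0 ≤ C₀ * p := mul_nonneg hC₀ hp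
    rw [hC]
    nlinarith
  have h4 := mul_le_mul_of_nonneg_left h1 hT
  linarith

theorem thm_Edges (hUp : St_Up) (hF : St_F) (hDrift : St_Drift) (hMaxI : St_MaxI) :
    St_Edges := by
  intro N n D₁ W hN
  obtain ⟨v, κ, C₀, hκ0, hκ1, hC₀, hv, hfg⟩ := hDrift N n D₁ W hN
  obtain ⟨hU1, hU2, -, -⟩ := hUp N n D₁ W hN
  obtain ⟨hF1, hF2, -, -, -, -, -⟩ := hF N n D₁ W hN
  set J : ℝ := 2 * C₀ + W + D₁ with hJdef
  set Q : ℝ := 4 * Bb D₁ W * J ^ 2 + 2 * C₀ ^ 2 with hQdef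
  have hQ0 : 0 ≤ Q := by
    rw [hQdef]
    positivity
  have hC0 : (0 : ℝ) ≤ C₀ := by linarith
  refine ⟨v, κ, 2 * C₀ + 2 * Q, hκ0, hκ1, by linarith, by linarith, ?_⟩
  intro μ₀ hμ₀ b p p' q hp hp' hq hlt T Λ x hΛ
  have hp'0 : 0 ≤ p' := by
    rw [hp']
    exact measureReal_nonneg
  obtain ⟨f, g, hd⟩ := hfg p p' hp'0 hlt
  have hh0 : 0 < p - p' := by linarith
  have hp0 : 0 < p := by linarith
  have hq0 : 0 ≤ q := by
    rw [hq]
    unfold qq
    apply pow_nonneg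
    have h1 : μ₀.real {some b} + μ₀.real {some (!b)} ≤ 1 := by
      rw [← measureReal_union (by
        rw [Set.disjoint_singleton]
        intro h
        have := Option.some.inj h
        cases b <;> simp at this) (measurableSet_singleton _)]
      exact measureReal_le_one
    rw [← hp, ← hp'] at h1
    linarith
  have hjump : ∀ φ : (ℤ → Bool) → ℝ, (∀ u, IsUp N u → |φ u - lo u| ≤ C₀) →
      ∀ u, IsUp N u → ∀ s c, |φ (F N D₁ W u s c) - φ u| ≤ J := by
    intro φ hφ u hu s c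
    have h1 := abs_le.mp (hφ u hu)
    have h2 := abs_le.mp (hφ _ (hF1 u hu s c))
    have h3 : |((lo (F N D₁ W u s c) : ℝ) - lo u)| ≤ (W : ℝ) + D₁ := by
      exact_mod_cast hF2 u hu s c
    have h4 := abs_le.mp h3
    rw [abs_le, hJdef]
    constructor
    · linarith [h1.1, h1.2, h2.1, h2.2, h4.1, h4.2]
    · linarith [h1.1, h1.2, h2.1, h2.2, h4.1, h4.2]
  have hfJ := hjump f (fun u hu => (hd u hu).1)
  have hgJ := hjump g (fun u hu => (hd u hu).2.1)
  have hngJ : ∀ u, IsUp N u → ∀ s c, |(fun u => -g u) (F N D₁ W u s c) - (fun u => -g u) u| ≤ J := by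
    intro u hu s c
    have h1 := hgJ u hu s c
    have h2 : (fun u => -g u) (F N D₁ W u s c) - (fun u => -g u) u =
        -(g (F N D₁ W u s c) - g u) := by ring
    rw [h2, abs_neg]
    exact h1
  have hHx : IsUp N (H x) := ⟨x, hU2 x⟩
  have hlox : lo (H x) = x := hU1 x (H x) (hU2 x)
  have hclosed : ∀ u ∈ {u | IsUp N u}, ∀ s c, F N D₁ W u s c ∈ {u | IsUp N u} := hF1
  -- all states of the chain are up-sets
  have hchain : ∀ (b' : Bool) (ω : Om) (j : ℕ), IsUp N (chain N D₁ W b' ω 0 (H x) j) := by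
    intro b' ω j
    induction j with
    | zero => exact hHx
    | succ j ih =>
      show IsUp N (stepU N D₁ W b' (chain N D₁ W b' ω 0 (H x) j) _)
      unfold stepU
      split_ifs
      · exact hF1 _ ih _ _
      · exact ih
  have hpv : |p' * v| ≤ C₀ * p' := by
    rw [abs_mul, abs_of_nonneg hp'0, mul_comm]
    exact mul_le_mul_of_nonneg_right hv hp'0
  have hpv' := abs_le.mp hpv
  have hκh : 0 ≤ κ * (p - p') := by positivity
  have hκh' : κ * (p - p') ≤ C₀ * (p - p') := mul_le_mul_of_nonneg_right (by linarith) hh0.le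
  have hCp' : 0 ≤ C₀ * p' := by positivity
  have hCh : 0 ≤ C₀ * (p - p') := by positivity
  have hT0 : (0 : ℝ) ≤ T := Nat.cast_nonneg _
  have hlohx : (lo (H x) : ℝ) = x := by exact_mod_cast hlox
  have hfx := abs_le.mp (hd _ hHx).1
  have hgx := abs_le.mp (hd _ hHx).2.1
  rw [hlohx] at hfx hgx
  -- comparison of the drifts
  have hcmp : ∀ j : ℕ, q * (C₀ * (p - p')) * j ≤ q * ((2 * C₀ + 2 * Q) * (p - p')) * j := by
    intro j
    apply mul_le_mul_of_nonneg_right _ (Nat.cast_nonneg _)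
    apply mul_le_mul_of_nonneg_left _ hq0
    apply mul_le_mul_of_nonneg_right _ hh0.le
    linarith
  have hnum : (T : ℝ) * (Q * (p + p')) / Λ ^ 2 ≤ (2 * C₀ + 2 * Q) * p * T / Λ ^ 2 :=
    Edges_num T Q _ C₀ p p' Λ hT0 hQ0 hp'0 hlt rfl hC0 hΛ
  have hfin : ∀ s : Set Om, (Pm μ₀) s ≠ ⊤ := fun s => measure_ne_top _ _
  -- the chain of b
  have hnotb : μ₀.real {some (!(!b))} = p := by rw [Bool.not_not, hp]
  have e1 := (hMaxI N D₁ W μ₀ b {u | IsUp N u} f J C₀ (p' * v - κ * (p - p')) Λ hclosed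
    (fun u hu s _ c => hfJ u hu s c)
    (fun u hu => by rw [← hp, ← hp']; exact (hd u hu).2.2.1)
    (by rw [← hp, ← hp', abs_le]; constructor <;> linarith [hpv'.1, hpv'.2]) hΛ T 0 (H x) hHx).2
  have e2 := (hMaxI N D₁ W μ₀ b {u | IsUp N u} (fun u => -g u) J C₀
    (-(p' * v - C₀ * (p - p'))) Λ hclosed
    (fun u hu s _ c => hngJ u hu s c)
    (fun u hu => by
      rw [← hp, ← hp', Edges_dr_neg]
      exact neg_le_neg (hd u hu).2.2.2.1)
    (by rw [← hp, ← hp', abs_le]; constructor <;> linarith [hpv'.1, hpv'.2]) hΛ T 0 (H x) hHx).2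
  have e3 := (hMaxI N D₁ W μ₀ (!b) {u | IsUp N u} (fun u => -g u) J C₀
    (-(p' * v)) Λ hclosed
    (fun u hu s _ c => hngJ u hu s c)
    (fun u hu => by
      rw [hnotb, ← hp', Edges_dr_neg]
      exact neg_le_neg (hd u hu).2.2.2.2.1)
    (by rw [hnotb, ← hp', abs_le]; constructor <;> linarith [hpv'.1, hpv'.2]) hΛ T 0 (H x) hHx).2
  have e4 := (hMaxI N D₁ W μ₀ (!b) {u | IsUp N u} g J C₀
    (p' * v + C₀ * (p - p')) Λ hclosed
    (fun u hu s _ c => hgJ u hu s c)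
    (fun u hu => by
      rw [hnotb, ← hp']
      exact (hd u hu).2.2.2.2.2)
    (by rw [hnotb, ← hp', abs_le]; constructor <;> linarith [hpv'.1, hpv'.2]) hΛ T 0 (H x) hHx).2
  rw [← hp, ← hp', ← hq] at e1 e2
  rw [hnotb, ← hp', Edges_qq_comm, ← hq] at e3 e4
  rw [← hQdef] at e1 e2 e3 e4
  have hsum : p' + p = p + p' := add_comm _ _
  rw [hsum] at e3 e4
  refine ⟨?_, ?_, ?_, ?_⟩
  · refine le_trans (measureReal_mono ?_ (hfin _)) (e1.trans hnum)
    rintro ω ⟨j, hj, h⟩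
    refine ⟨j, hj, ?_⟩
    have h1 := abs_le.mp (hd _ (hchain b ω j)).1
    linarith [h1.1, h1.2, hfx.1, hfx.2]
  · refine le_trans (measureReal_mono ?_ (hfin _)) (e2.trans hnum)
    rintro ω ⟨j, hj, h⟩
    refine ⟨j, hj, ?_⟩
    have h1 := abs_le.mp (hd _ (hchain b ω j)).2.1
    have h2 := hcmp j
    have h3 : q * -(p' * v - C₀ * (p - p')) * j = -(q * (p' * v) * j) +
        q * (C₀ * (p - p')) * j := by ring
    have h4 : q * (p' * v - (2 * C₀ + 2 * Q) * (p - p')) * j = q * (p' * v) * j -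
        q * ((2 * C₀ + 2 * Q) * (p - p')) * j := by ring
    show -g (H x) + q * -(p' * v - C₀ * (p - p')) * j + Λ ≤ -g (chain N D₁ W b ω 0 (H x) j)
    rw [h3]
    rw [h4] at h
    linarith [h1.1, h1.2, hgx.1, hgx.2]
  · refine le_trans (measureReal_mono ?_ (hfin _)) (e3.trans hnum)
    rintro ω ⟨j, hj, h⟩
    refine ⟨j, hj, ?_⟩
    have h1 := abs_le.mp (hd _ (hchain (!b) ω j)).2.1
    show -g (H x) + q * -(p' * v) * j + Λ ≤ -g (chain N D₁ W (!b) ω 0 (H x) j)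
    have h3 : q * -(p' * v) * j = -(q * (p' * v) * j) := by ring
    rw [h3]
    linarith [h1.1, h1.2, hgx.1, hgx.2]
  · refine le_trans (measureReal_mono ?_ (hfin _)) (e4.trans hnum)
    rintro ω ⟨j, hj, h⟩
    refine ⟨j, hj, ?_⟩
    have h1 := abs_le.mp (hd _ (hchain (!b) ω j)).2.1
    have h2 := hcmp j
    have h3 : q * (p' * v + C₀ * (p - p')) * j = q * (p' * v) * j +
        q * (C₀ * (p - p')) * j := by ring
    have h4 : q * (p' * v + (2 * C₀ + 2 * Q) * (p - p')) * j = q * (p' * v) * j +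
        q * ((2 * C₀ + 2 * Q) * (p - p')) * j := by ring
    rw [h3]
    rw [h4] at h
    linarith [h1.1, h1.2, hgx.1, hgx.2]

end Pool.Agent.NVA
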