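import Pool.Agent.NVA.St

set_option autoImplicit false

/-! The good event of the slanted box depends on finitely many sites and carries a wall. -/

namespace Pool.Agent.NVA

open MeasureTheory Set Pool.Agent.Helper55.Vote

private lemma GW_Bb_pos (D₁ W : ℕ) : 8 ≤ Bb D₁ W := by
  unfold Bb
  omega

private lemma GW_stepU_congr {N : Finset ℤ} {D₁ W : ℕ} {b : Bool} {u : ℤ → Bool}
    {x x' : ℤ → Option Bool} (h : ∀ s ∈ win D₁ W u, x s = x' s) :
    stepU N D₁ W b u x' = stepU N D₁ W b u x := by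
  have hP : ∀ s, (s ∈ win D₁ W u ∧ x s ≠ none ∧ ∀ s' ∈ win D₁ W u, x s' ≠ none → s' = s) ↔
      (s ∈ win D₁ W u ∧ x' s ≠ none ∧ ∀ s' ∈ win D₁ W u, x' s' ≠ none → s' = s) := by
    intro s
    constructor
    · rintro ⟨h1, h2, h3⟩
      refine ⟨h1, by rw [← h s h1]; exact h2, fun s' hs' hx' => h3 s' hs' ?_⟩
      rw [h s' hs']
      exact hx'
    · rintro ⟨h1, h2, h3⟩
      refine ⟨h1, by rw [h s h1]; exact h2, fun s' hs' hx' => h3 s' hs' ?_⟩
      rw [← h s' hs']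
      exact hx'
  unfold stepU
  by_cases hE : ∃ s, s ∈ win D₁ W u ∧ x s ≠ none ∧ ∀ s' ∈ win D₁ W u, x s' ≠ none → s' = s
  · have hE' : ∃ s, s ∈ win D₁ W u ∧ x' s ≠ none ∧
        ∀ s' ∈ win D₁ W u, x' s' ≠ none → s' = s := by
      obtain ⟨s, hs⟩ := hE
      exact ⟨s, (hP s).1 hs⟩
    rw [dif_pos hE, dif_pos hE']
    have h1 := hE.choose_spec
    have h2 := (hP _).2 hE'.choose_spec
    have e : hE'.choose = hE.choose := h1.2.2 _ h2.1 h2.2.1
    rw [e, ← h _ h1.1]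
  · have hE' : ¬ ∃ s, s ∈ win D₁ W u ∧ x' s ≠ none ∧
        ∀ s' ∈ win D₁ W u, x' s' ≠ none → s' = s := by
      rintro ⟨s, hs⟩
      exact hE ⟨s, (hP s).2 hs⟩
    rw [dif_neg hE, dif_neg hE']

private lemma GW_chain_congr {N : Finset ℤ} {D₁ W : ℕ} {b : Bool} {ω ω' : Om} {u : ℤ → Bool}
    {T : ℕ} (R : Set (ℤ × ℤ)) (hag : ∀ c ∈ R, ω c = ω' c)
    (hw : ∀ j < T, ∀ s ∈ win D₁ W (chain N D₁ W b ω 0 u j), (s, (j : ℤ)) ∈ R) :
    ∀ j ≤ T, chain N D₁ W b ω' 0 u j = chain N D₁ W b ω 0 u j := by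
  intro j
  induction j with
  | zero => intro _; rfl
  | succ j ih =>
    intro hj
    have h1 := ih (by omega)
    change stepU N D₁ W b (chain N D₁ W b ω' 0 u j) (fun s => ω' (s, 0 + (j : ℤ))) =
      stepU N D₁ W b (chain N D₁ W b ω 0 u j) (fun s => ω (s, 0 + (j : ℤ)))
    rw [h1]
    refine GW_stepU_congr fun s hs => ?_
    rw [zero_add]
    exact hag _ (hw j (by omega) s hs)

private lemma GW_fin {σ : ℝ} (hσ : |σ| ≤ 1) (w L T : ℕ) : (Box σ w L T).Finite := by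
  refine Set.Finite.subset (Finset.finite_toSet
    (Finset.Icc (-((T : ℤ) + (w + 1) * L)) ((T : ℤ) + (w + 1) * L) ×ˢ Finset.Ico (0 : ℤ) T)) ?_
  rintro ⟨s, i⟩ ⟨h1, h2, h3, h4⟩
  have h1' : (0 : ℤ) ≤ i := h1
  have h2' : i < (T : ℤ) := h2
  have h3' : σ * i - w * L ≤ (s : ℝ) := h3
  have h4' : (s : ℝ) < σ * i + (w + 1) * L := h4
  obtain ⟨a1, a2⟩ := abs_le.1 hσ
  have hi0 : (0 : ℝ) ≤ i := by exact_mod_cast h1'
  have hiT : (i : ℝ) ≤ T := by exact_mod_cast h2'.le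
  have b1 : -(i : ℝ) ≤ σ * i := by nlinarith
  have b2 : σ * i ≤ (i : ℝ) := by nlinarith
  have hL0 : (0 : ℝ) ≤ L := Nat.cast_nonneg _
  have c1 : (-((T : ℝ) + (w + 1) * L)) ≤ (s : ℝ) := by nlinarith
  have c2 : (s : ℝ) ≤ (T : ℝ) + (w + 1) * L := by nlinarith
  rw [Finset.mem_coe, Finset.mem_product, Finset.mem_Icc, Finset.mem_Ico]
  refine ⟨⟨?_, ?_⟩, h1', h2'⟩
  · exact_mod_cast c1
  · exact_mod_cast c2

theorem thm_GW : St_Up → St_F → St_Wall → St_GW := by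
  intro _ _ hWall N n D₁ W hNb b σ w L T S hw hT hL hσ
  have hB := GW_Bb_pos D₁ W
  have hBr : (8 : ℝ) ≤ (Bb D₁ W : ℝ) := by exact_mod_cast hB
  have hLr : (64 : ℝ) * (Bb D₁ W : ℝ) ≤ (L : ℝ) := by exact_mod_cast hL
  have hwr : (2 : ℝ) ≤ (w : ℝ) := by exact_mod_cast hw
  obtain ⟨a1, a2⟩ := abs_le.1 hσ
  refine ⟨⟨?_, ?_⟩, ?_, ?_⟩
  · rintro c ⟨h1, h2, -, -⟩
    exact ⟨h1, h2⟩
  · rintro c ⟨-, -, h3, h4⟩ c' ⟨-, -, h3', h4'⟩ he
    rw [← he] at h3' h4'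
    have g1 : ((c.1 - c'.1 : ℤ) : ℝ) < (2 * (w : ℝ) + 1) * L := by
      push_cast
      nlinarith
    have g2 : -((2 * (w : ℝ) + 1) * L) < ((c.1 - c'.1 : ℤ) : ℝ) := by
      push_cast
      nlinarith
    rw [abs_lt]
    constructor
    · exact_mod_cast g2
    · exact_mod_cast g1
  · -- the good event is local
    have hfin := GW_fin hσ w L T
    refine ⟨hfin.toFinset, by simp, ?_⟩
    intro ω ω' hag0 hω
    have hag : ∀ c ∈ Box σ w L T, ω c = ω' c := fun c hc => hag0 c (hfin.mem_toFinset.2 hc)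
    obtain ⟨g1, g2, g3, g4, g5, g6⟩ := hω
    have e1 : ∀ j ≤ T, chain N D₁ W b ω' 0 (H 0) j = chain N D₁ W b ω 0 (H 0) j := by
      refine GW_chain_congr (Box σ w L T) hag ?_
      intro j hj s hs
      obtain ⟨k1, k2⟩ := g2 j hj.le
      unfold win at hs
      rw [Finset.mem_Ico] at hs
      have s1 : (lo (chain N D₁ W b ω 0 (H 0) j) : ℝ) - (Bb D₁ W : ℝ) ≤ (s : ℝ) := by
        exact_mod_cast hs.1
      have s2 : (s : ℝ) < (lo (chain N D₁ W b ω 0 (H 0) j) : ℝ) + (Bb D₁ W : ℝ) := by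
        exact_mod_cast hs.2
      refine ⟨Int.natCast_nonneg j, Int.ofNat_lt.2 hj, ?_, ?_⟩
      · push_cast
        nlinarith
      · push_cast
        nlinarith
    have e2 : ∀ j ≤ T, chain N D₁ W (!b) ω' 0 (H L) j = chain N D₁ W (!b) ω 0 (H L) j := by
      refine GW_chain_congr (Box σ w L T) hag ?_
      intro j hj s hs
      obtain ⟨k1, k2⟩ := g3 j hj.le
      unfold win at hs
      rw [Finset.mem_Ico] at hs
      have s1 : (lo (chain N D₁ W (!b) ω 0 (H L) j) : ℝ) - (Bb D₁ W : ℝ) ≤ (s : ℝ) := by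
        exact_mod_cast hs.1
      have s2 : (s : ℝ) < (lo (chain N D₁ W (!b) ω 0 (H L) j) : ℝ) + (Bb D₁ W : ℝ) := by
        exact_mod_cast hs.2
      refine ⟨Int.natCast_nonneg j, Int.ofNat_lt.2 hj, ?_, ?_⟩
      · push_cast
        nlinarith
      · push_cast
        nlinarith
    refine ⟨?_, ?_, ?_, ?_, ?_, ?_⟩
    · intro c hc c' hc' hne hr hτ
      rw [← hag c hc, ← hag c' hc']
      exact g1 c hc c' hc' hne hr hτ
    · intro j hj
      rw [e1 j hj]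
      exact g2 j hj
    · intro j hj
      rw [e2 j hj]
      exact g3 j hj
    · rw [e1 T le_rfl]
      exact g4
    · rw [e2 T le_rfl]
      exact g5
    · intro s hs1 hs2
      have hmem : (s, (T : ℤ) - 1) ∈ Box σ w L T := by
        have k1 := (g2 T le_rfl).1
        have k2 := (g3 T le_rfl).2
        have q1 : (lo (chain N D₁ W b ω 0 (H 0) T) : ℝ) + 2 * (Bb D₁ W : ℝ) ≤ (s : ℝ) := by
          exact_mod_cast g4.trans hs1
        have q2 : (s : ℝ) < (lo (chain N D₁ W (!b) ω 0 (H L) T) : ℝ) - 2 * (Bb D₁ W : ℝ) := by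
          exact_mod_cast hs2.trans_le g5
        refine ⟨?_, ?_, ?_, ?_⟩
        · change (0 : ℤ) ≤ (T : ℤ) - 1
          omega
        · change (T : ℤ) - 1 < (T : ℤ)
          omega
        · push_cast
          nlinarith
        · push_cast
          nlinarith
      rw [← hag _ hmem]
      exact g6 s hs1 hs2
  · -- the wall
    intro ω hω
    obtain ⟨g1, g2, g3, g4, g5, g6⟩ := hω
    refine hWall N n D₁ W hNb L T S b ω (Box σ w L T) hT g1 ?_ ?_ g4 g5 g6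
    · intro j hj s hs1 hs2
      obtain ⟨k1, k2⟩ := g2 j hj.le
      obtain ⟨k3, k4⟩ := g3 j hj.le
      have q1 : (lo (chain N D₁ W b ω 0 (H 0) j) : ℝ) - 2 * (Bb D₁ W : ℝ) ≤ (s : ℝ) := by
        exact_mod_cast hs1
      have q2 : (s : ℝ) ≤ (lo (chain N D₁ W (!b) ω 0 (H L) j) : ℝ) + 2 * (Bb D₁ W : ℝ) := by
        exact_mod_cast hs2
      refine ⟨Int.natCast_nonneg j, Int.ofNat_lt.2 hj, ?_, ?_⟩
      · push_cast
        nlinarith
      · push_cast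
        nlinarith
    · intro j hj
      obtain ⟨k1, k2⟩ := g2 j hj
      obtain ⟨k3, k4⟩ := g3 j hj
      have q : (lo (chain N D₁ W b ω 0 (H 0) j) : ℝ) + 16 * (Bb D₁ W : ℝ) ≤
          (lo (chain N D₁ W (!b) ω 0 (H L) j) : ℝ) := by nlinarith
      exact_mod_cast q

end Pool.Agent.NVA
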