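import Pool.Agent.NVA.St

/-! Noisy majority voting: the quadratic maximal inequality for the interface chain. -/

set_option autoImplicit false

namespace Pool.Agent.NVA

open MeasureTheory Set Pool.Agent.Helper55.Vote

private lemma maxi_chain (N : Finset ℤ) (D₁ W : ℕ) (b : Bool) (ω : Om) (i : ℤ) (u : ℤ → Bool) :
    ∀ j : ℕ, chain N D₁ W b ω i u (j + 1) =
      chain N D₁ W b ω (i + 1) (stepU N D₁ W b u fun s => ω (s, i)) j
  | 0 => by
    show stepU N D₁ W b u (fun s => ω (s, i + ((0 : ℕ) : ℤ))) =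
      stepU N D₁ W b u fun s => ω (s, i)
    have e : i + ((0 : ℕ) : ℤ) = i := by simp
    rw [e]
  | j + 1 => by
    have h := maxi_chain N D₁ W b ω i u j
    show stepU N D₁ W b (chain N D₁ W b ω i u (j + 1)) (fun s => ω (s, i + ((j + 1 : ℕ) : ℤ))) =
      stepU N D₁ W b (chain N D₁ W b ω (i + 1) (stepU N D₁ W b u fun s => ω (s, i)) j)
        (fun s => ω (s, i + 1 + (j : ℤ)))
    have e : i + ((j + 1 : ℕ) : ℤ) = i + 1 + (j : ℤ) := by push_cast; ring
    rw [h, e]

/-- the event that `f` passes the line with the slope `c` started at the level `a` -/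
private def maxi_ev (N : Finset ℤ) (D₁ W : ℕ) (b : Bool) (f : (ℤ → Bool) → ℝ) (c : ℝ) (m : ℕ)
    (i : ℤ) (u : ℤ → Bool) (a : ℝ) : Set Om :=
  {ω | ∃ j : ℕ, j ≤ m ∧ a + c * j ≤ f (chain N D₁ W b ω i u j)}

private lemma maxi_zero (N : Finset ℤ) (D₁ W : ℕ) (b : Bool) (f : (ℤ → Bool) → ℝ) (c : ℝ)
    (i : ℤ) (u : ℤ → Bool) (a : ℝ) :
    maxi_ev N D₁ W b f c 0 i u a = {_ω | a ≤ f u} := by
  ext ω
  constructor
  · rintro ⟨j, hj, h⟩
    obtain rfl : j = 0 := by omega
    have h' : a + c * ((0 : ℕ) : ℝ) ≤ f u := h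
    rw [Nat.cast_zero, mul_zero, add_zero] at h'
    exact h'
  · intro h
    refine ⟨0, le_refl _, ?_⟩
    show a + c * ((0 : ℕ) : ℝ) ≤ f u
    rw [Nat.cast_zero, mul_zero, add_zero]
    exact h

private lemma maxi_succ (N : Finset ℤ) (D₁ W : ℕ) (b : Bool) (f : (ℤ → Bool) → ℝ) (c : ℝ) (m : ℕ)
    (i : ℤ) (u : ℤ → Bool) (a : ℝ) :
    maxi_ev N D₁ W b f c (m + 1) i u a = {_ω | a ≤ f u} ∪
      {ω | ω ∈ maxi_ev N D₁ W b f c m (i + 1) (stepU N D₁ W b u fun s => ω (s, i)) (a + c)} := by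
  ext ω
  constructor
  · rintro ⟨j, hj, h⟩
    rcases Nat.eq_zero_or_pos j with rfl | hj0
    · left
      have h' : a + c * ((0 : ℕ) : ℝ) ≤ f u := h
      rw [Nat.cast_zero, mul_zero, add_zero] at h'
      exact h'
    · right
      obtain ⟨j', rfl⟩ : ∃ j', j = j' + 1 := ⟨j - 1, by omega⟩
      refine ⟨j', by omega, ?_⟩
      rw [maxi_chain] at h
      push_cast at h
      linarith
  · rintro (h | ⟨j, hj, h⟩)
    · refine ⟨0, Nat.zero_le _, ?_⟩
      show a + c * ((0 : ℕ) : ℝ) ≤ f u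
      rw [Nat.cast_zero, mul_zero, add_zero]
      exact h
    · refine ⟨j + 1, by omega, ?_⟩
      rw [maxi_chain]
      push_cast
      linarith

private lemma maxi_const (R : Set (ℤ × ℤ)) (P : Prop) : FL R {_ω | P} := by
  by_cases hP : P
  · have e : ({_ω : Om | P} : Set Om) = Set.univ := by
      ext ω
      exact ⟨fun _ => trivial, fun _ => hP⟩
    rw [e]
    exact FL.univ R
  · have e : ({_ω : Om | P} : Set Om) = ∅ := by
      ext ω
      exact ⟨fun h => (hP h).elim, fun h => h.elim⟩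
    rw [e]
    exact FL.empty R

private lemma maxi_FL (hStepP : St_StepP) (N : Finset ℤ) (D₁ W : ℕ) (μ₀ : Measure (Option Bool))
    [IsProbabilityMeasure μ₀] (b : Bool) (f : (ℤ → Bool) → ℝ) (c : ℝ) :
    ∀ (m : ℕ) (i : ℤ) (u : ℤ → Bool) (a : ℝ),
      FL {z : ℤ × ℤ | i ≤ z.2} (maxi_ev N D₁ W b f c m i u a) := by
  intro m
  induction m with
  | zero =>
    intro i u a
    rw [maxi_zero]
    exact maxi_const _ _
  | succ m ih =>
    intro i u a
    rw [maxi_succ]
    refine FL.union (maxi_const _ _) ?_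
    exact (hStepP N D₁ W μ₀ b u i (fun u' => maxi_ev N D₁ W b f c m (i + 1) u' (a + c))
      (fun u' => ih (i + 1) u' (a + c))).2.1

private lemma maxi_sum (μ₀ : Measure (Option Bool)) [IsProbabilityMeasure μ₀] (b : Bool) :
    μ₀.real {some b} + μ₀.real {some (!b)} ≤ 1 := by
  have hd : Disjoint ({some b} : Set (Option Bool)) {some (!b)} := by
    rw [Set.disjoint_singleton]
    intro h
    cases b <;> simp at h
  have h := measureReal_union (μ := μ₀) hd (MeasurableSet.singleton _)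
  rw [← h]
  exact measureReal_le_one

private lemma maxi_sq (y ξ : ℝ) :
    (max (y + ξ) 0) ^ 2 ≤ (max y 0) ^ 2 + 2 * (max y 0) * ξ + ξ ^ 2 := by
  rcases le_total 0 y with hy | hy
  · rw [max_eq_left hy]
    rcases le_total 0 (y + ξ) with h | h
    · rw [max_eq_left h]; nlinarith
    · rw [max_eq_right h]; nlinarith [sq_nonneg (y + ξ)]
  · rw [max_eq_right hy]
    rcases le_total 0 (y + ξ) with h | h
    · rw [max_eq_left h]
      have h1 : y + ξ ≤ ξ := by linarith
      have h2 : (y + ξ) ^ 2 ≤ ξ ^ 2 := pow_le_pow_left₀ h h1 2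
      nlinarith
    · rw [max_eq_right h]; nlinarith [sq_nonneg ξ]

private lemma maxi_card (D₁ W : ℕ) (u : ℤ → Bool) : (win D₁ W u).card = 2 * Bb D₁ W := by
  unfold win
  rw [Int.card_Ico]
  omega

private lemma maxi_bd (hStepP : St_StepP) (N : Finset ℤ) (D₁ W : ℕ) (μ₀ : Measure (Option Bool))
    [IsProbabilityMeasure μ₀] (b : Bool) (A : Set (ℤ → Bool)) (f : (ℤ → Bool) → ℝ)
    (J Dd d Λ p p' q c σ : ℝ) (hp : μ₀.real {some b} = p) (hp' : μ₀.real {some (!b)} = p')
    (hq : qq D₁ W p p' = q) (hc : c = q * d)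
    (hσ : σ = (4 * Bb D₁ W * J ^ 2 + 2 * Dd ^ 2) * (p + p'))
    (hA : ∀ u ∈ A, ∀ s c, F N D₁ W u s c ∈ A)
    (hJ : ∀ u ∈ A, ∀ s ∈ win D₁ W u, ∀ c, |f (F N D₁ W u s c) - f u| ≤ J)
    (hd : ∀ u ∈ A, dr N D₁ W p p' f u ≤ d)
    (hDd : |d| ≤ Dd * (p + p')) (hΛ : 0 < Λ) :
    ∀ (m : ℕ) (i : ℤ), ∀ u ∈ A, ∀ y : ℝ,
      (Pm μ₀).real (maxi_ev N D₁ W b f c m i u (f u + Λ - y)) ≤
        ((max y 0) ^ 2 + m * σ) / Λ ^ 2 := by
  have hp0 : 0 ≤ p := by rw [← hp]; exact measureReal_nonneg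
  have hp0' : 0 ≤ p' := by rw [← hp']; exact measureReal_nonneg
  have hx1 : p + p' ≤ 1 := by rw [← hp, ← hp']; exact maxi_sum μ₀ b
  have hq0 : 0 ≤ q := by
    rw [← hq]; unfold qq
    exact pow_nonneg (by linarith) _
  have hq1 : q ≤ 1 := by
    rw [← hq]; unfold qq
    exact pow_le_one₀ (by linarith) (by linarith)
  have hB0 : (0 : ℝ) ≤ (Bb D₁ W : ℝ) := Nat.cast_nonneg _
  have hx0 : 0 ≤ p + p' := by linarith
  have hσ0 : 0 ≤ σ := by rw [hσ]; positivity
  have hΛ2 : 0 < Λ ^ 2 := by positivity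
  have hd2 : d ^ 2 ≤ Dd ^ 2 * (p + p') := by
    have h1 : |d| ^ 2 ≤ (Dd * (p + p')) ^ 2 := pow_le_pow_left₀ (abs_nonneg _) hDd 2
    rw [sq_abs] at h1
    have h2 : (Dd * (p + p')) ^ 2 ≤ Dd ^ 2 * (p + p') := by
      have h3 : (p + p') ^ 2 ≤ p + p' := by nlinarith
      calc (Dd * (p + p')) ^ 2 = Dd ^ 2 * (p + p') ^ 2 := by ring
        _ ≤ Dd ^ 2 * (p + p') := mul_le_mul_of_nonneg_left h3 (sq_nonneg _)
    linarith
  have hc2 : c ^ 2 ≤ Dd ^ 2 * (p + p') := by
    have h1 : c ^ 2 ≤ d ^ 2 := by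
      rw [hc, mul_pow]
      have h2 : q ^ 2 ≤ 1 := pow_le_one₀ hq0 hq1
      nlinarith [sq_nonneg d]
    linarith
  -- the trivial case
  have triv : ∀ (m : ℕ) (E : Set Om) (y : ℝ), Λ ≤ y →
      (Pm μ₀).real E ≤ ((max y 0) ^ 2 + m * σ) / Λ ^ 2 := by
    intro m E y hy
    have hP : IsProbabilityMeasure (Pm μ₀) := by unfold Pm; infer_instance
    have h1 : (Pm μ₀).real E ≤ 1 := measureReal_le_one
    have h2 : (1 : ℝ) ≤ ((max y 0) ^ 2 + m * σ) / Λ ^ 2 := by
      rw [one_le_div hΛ2, max_eq_left (by linarith)]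
      have h3 : Λ ^ 2 ≤ y ^ 2 := pow_le_pow_left₀ hΛ.le hy 2
      have h4 : (0 : ℝ) ≤ m * σ := mul_nonneg (Nat.cast_nonneg _) hσ0
      linarith
    linarith
  intro m
  induction m with
  | zero =>
    intro i u hu y
    rcases le_or_gt Λ y with hy | hy
    · exact triv 0 _ y hy
    · rw [maxi_zero]
      have e : ({_ω : Om | f u + Λ - y ≤ f u} : Set Om) = ∅ := by
        ext ω
        refine ⟨fun h => ?_, fun h => h.elim⟩
        have h' : f u + Λ - y ≤ f u := h
        exfalso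
        linarith
      rw [e, measureReal_empty]
      have h4 : (0 : ℝ) ≤ ((0 : ℕ) : ℝ) * σ := by simp
      positivity
  | succ m ih =>
    intro i u hu y
    rcases le_or_gt Λ y with hy | hy
    · exact triv (m + 1) _ y hy
    · rw [maxi_succ]
      have e : ({_ω : Om | f u + Λ - y ≤ f u} : Set Om) = ∅ := by
        ext ω
        refine ⟨fun h => ?_, fun h => h.elim⟩
        have h' : f u + Λ - y ≤ f u := h
        exfalso
        linarith
      rw [e, Set.empty_union]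
      have hS := hStepP N D₁ W μ₀ b u i
        (fun u' => maxi_ev N D₁ W b f c m (i + 1) u' (f u + Λ - y + c))
        (fun u' => maxi_FL hStepP N D₁ W μ₀ b f c m (i + 1) u' _)
      rw [hp, hp', hq] at hS
      obtain ⟨hS1, -, hS3⟩ := hS
      refine le_trans (le_of_eq hS3) ?_
      set Y : ℝ := max y 0 with hY
      have hY0 : 0 ≤ Y := le_max_right _ _
      set K : ℝ := Y ^ 2 + m * σ + 2 * c ^ 2 - 2 * Y * c with hK
      -- the bound for every next state
      have key : ∀ u' ∈ A, (Pm μ₀).real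
          (maxi_ev N D₁ W b f c m (i + 1) u' (f u + Λ - y + c)) ≤
          (K + 2 * Y * (f u' - f u) + 2 * (f u' - f u) ^ 2) / Λ ^ 2 := by
        intro u' hu'
        have h1 := ih (i + 1) u' hu' (y + (f u' - f u - c))
        have e1 : f u' + Λ - (y + (f u' - f u - c)) = f u + Λ - y + c := by ring
        rw [e1] at h1
        refine le_trans h1 ?_
        apply div_le_div_of_nonneg_right _ hΛ2.le
        have h2 := maxi_sq y (f u' - f u - c)
        rw [← hY] at h2
        have h3 : (f u' - f u - c) ^ 2 ≤ 2 * (f u' - f u) ^ 2 + 2 * c ^ 2 := by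
          nlinarith [sq_nonneg (f u' - f u + c)]
        rw [hK]
        nlinarith
      have hself := key u hu
      have hself' : (Pm μ₀).real (maxi_ev N D₁ W b f c m (i + 1) u (f u + Λ - y + c)) ≤
          K / Λ ^ 2 := by
        refine le_trans hself (le_of_eq ?_)
        rw [sub_self]
        ring
      have hstep : ∀ s ∈ win D₁ W u, ∀ t : Bool, (Pm μ₀).real
          (maxi_ev N D₁ W b f c m (i + 1) (F N D₁ W u s t) (f u + Λ - y + c)) ≤
          (K + 2 * Y * (f (F N D₁ W u s t) - f u) + 2 * J ^ 2) / Λ ^ 2 := by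
        intro s hs t
        refine le_trans (key _ (hA u hu s t)) ?_
        apply div_le_div_of_nonneg_right _ hΛ2.le
        have h1 := hJ u hu s hs t
        have h2 : (f (F N D₁ W u s t) - f u) ^ 2 ≤ J ^ 2 := by
          have h3 := pow_le_pow_left₀ (abs_nonneg _) h1 2
          rwa [sq_abs] at h3
        linarith
      have hsum : ∑ s ∈ win D₁ W u, q *
          (p * (Pm μ₀).real
            (maxi_ev N D₁ W b f c m (i + 1) (F N D₁ W u s true) (f u + Λ - y + c)) +
          p' * (Pm μ₀).real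
            (maxi_ev N D₁ W b f c m (i + 1) (F N D₁ W u s false) (f u + Λ - y + c))) ≤
          ∑ s ∈ win D₁ W u, (q * (p + p') * (K + 2 * J ^ 2) / Λ ^ 2 +
            2 * Y * q / Λ ^ 2 * (p * (f (F N D₁ W u s true) - f u) +
              p' * (f (F N D₁ W u s false) - f u))) := by
        apply Finset.sum_le_sum
        intro s hs
        have h1 := mul_le_mul_of_nonneg_left (hstep s hs true) hp0
        have h2 := mul_le_mul_of_nonneg_left (hstep s hs false) hp0'
        have h3 := mul_le_mul_of_nonneg_left (add_le_add h1 h2) hq0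
        refine le_trans h3 (le_of_eq ?_)
        field_simp
        ring
      have hsum2 : ∑ s ∈ win D₁ W u, (q * (p + p') * (K + 2 * J ^ 2) / Λ ^ 2 +
            2 * Y * q / Λ ^ 2 * (p * (f (F N D₁ W u s true) - f u) +
              p' * (f (F N D₁ W u s false) - f u))) =
          2 * Bb D₁ W * (q * (p + p') * (K + 2 * J ^ 2) / Λ ^ 2) +
            2 * Y * q / Λ ^ 2 * dr N D₁ W p p' f u := by
        rw [Finset.sum_add_distrib, Finset.sum_const, ← Finset.mul_sum, maxi_card, nsmul_eq_mul]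
        unfold dr
        push_cast
        rfl
      have hw0 : 0 ≤ 1 - 2 * Bb D₁ W * q * (p + p') := by linarith
      have h1 := mul_le_mul_of_nonneg_left hself' hw0
      have h2 : 2 * Y * q / Λ ^ 2 * dr N D₁ W p p' f u ≤ 2 * Y * q / Λ ^ 2 * d := by
        apply mul_le_mul_of_nonneg_left (hd u hu)
        positivity
      have h3 : (1 - 2 * Bb D₁ W * q * (p + p')) * (K / Λ ^ 2) +
          (2 * Bb D₁ W * (q * (p + p') * (K + 2 * J ^ 2) / Λ ^ 2) +
            2 * Y * q / Λ ^ 2 * d) =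
          (K + 2 * (2 * Bb D₁ W) * q * (p + p') * J ^ 2 + 2 * Y * (q * d)) / Λ ^ 2 := by
        field_simp
        ring
      have h4 : (K + 2 * (2 * Bb D₁ W) * q * (p + p') * J ^ 2 + 2 * Y * (q * d)) / Λ ^ 2 ≤
          (Y ^ 2 + ((m + 1 : ℕ) : ℝ) * σ) / Λ ^ 2 := by
        apply div_le_div_of_nonneg_right _ hΛ2.le
        rw [← hc, hK, hσ]
        have h5 : q * (Bb D₁ W * (p + p') * J ^ 2) ≤ 1 * (Bb D₁ W * (p + p') * J ^ 2) := by
          apply mul_le_mul_of_nonneg_right hq1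
          positivity
        push_cast
        nlinarith
      calc _ ≤ (1 - 2 * Bb D₁ W * q * (p + p')) * (K / Λ ^ 2) +
          (2 * Bb D₁ W * (q * (p + p') * (K + 2 * J ^ 2) / Λ ^ 2) +
            2 * Y * q / Λ ^ 2 * d) := by
            refine add_le_add h1 ?_
            refine le_trans hsum ?_
            rw [hsum2]
            linarith
        _ = _ := h3
        _ ≤ _ := h4

theorem thm_MaxI (hStepP : St_StepP) : St_MaxI := by
  intro N D₁ W μ₀ hμ b A f J Dd d Λ hA hJ hd hDd hΛ m i u hu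
  have e : {ω : Om | ∃ j ≤ m, f u + qq D₁ W (μ₀.real {some b}) (μ₀.real {some (!b)}) *
      d * j + Λ ≤ f (chain N D₁ W b ω i u j)} =
      maxi_ev N D₁ W b f (qq D₁ W (μ₀.real {some b}) (μ₀.real {some (!b)}) * d) m i u
        (f u + Λ - 0) := by
    ext ω
    constructor
    · rintro ⟨j, hj, h⟩
      exact ⟨j, hj, by linarith⟩
    · rintro ⟨j, hj, h⟩
      exact ⟨j, hj, by linarith⟩
  rw [e]
  refine ⟨maxi_FL hStepP N D₁ W μ₀ b f _ m i u _, ?_⟩
  have h := maxi_bd hStepP N D₁ W μ₀ b A f J Dd d Λ _ _ _ _ _ rfl rfl rfl rfl rfl hA hJ hd hDd hΛ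
    m i u hu 0
  rw [max_self] at h
  refine le_trans h (le_of_eq ?_)
  ring

end Pool.Agent.NVA
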