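import Pool.Agent.NVA.St
import Pool.Agent.Helper55.Vote.Walk

set_option autoImplicit false

namespace Pool.Agent.NVA

open MeasureTheory Set Pool.Agent.Helper55.Vote

/-- Close pairs of noises in the slanted box: union bound over the pairs of sites. -/
theorem thm_Sp : St_Sp := by
  classical
  intro μ₀ _ σ w L T r τ _
  set p := μ₀.real {some true} + μ₀.real {some false} with hp
  let z : ℤ → ℤ := fun i => ⌈σ * (i : ℝ) - w * L⌉
  let K : Finset (ℤ × ℤ × ℤ × ℤ) :=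
    Finset.Ico (0 : ℤ) T ×ˢ (Finset.Ico (0 : ℤ) (((2 * w + 1) * L : ℕ) : ℤ) ×ˢ
      (Finset.Icc (-(r : ℤ)) r ×ˢ Finset.Icc (-(τ : ℤ)) τ))
  let J : Finset (ℤ × ℤ × ℤ × ℤ) := K.filter fun q => ¬ (q.2.2.1 = 0 ∧ q.2.2.2 = 0)
  let ev : ℤ × ℤ × ℤ × ℤ → Set Om := fun q =>
    {ω | ω (z q.1 + q.2.1, q.1) ∈ ({none}ᶜ : Set (Option Bool))} ∩
      {ω | ω (z q.1 + q.2.1 + q.2.2.1, q.1 + q.2.2.2) ∈ ({none}ᶜ : Set (Option Bool))}
  have hsub : (SparseOn (Box σ w L T) r τ)ᶜ ⊆ ⋃ q ∈ J, ev q := by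
    intro ω hω
    simp only [SparseOn, mem_compl_iff, mem_ofPred_eq, not_forall, not_or] at hω
    obtain ⟨⟨a, i⟩, hc, ⟨a', i'⟩, hc', hne, hr, hτ, n1, n2⟩ := hω
    obtain ⟨hi0, hiT, hl, hu⟩ := hc
    simp only at hi0 hiT hl hu hr hτ
    simp only [mem_iUnion]
    rw [abs_le] at hr hτ
    have hz1 : z i ≤ a := Int.ceil_le.2 hl
    have hz2 : a < z i + (((2 * w + 1) * L : ℕ) : ℤ) := by
      have h1 : σ * (i : ℝ) - w * L ≤ (z i : ℝ) := Int.le_ceil _
      have h2 : (a : ℝ) < (z i : ℝ) + ((((2 * w + 1) * L : ℕ) : ℤ) : ℝ) := by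
        push_cast
        linarith
      exact_mod_cast h2
    refine ⟨(i, a - z i, a' - a, i' - i), ?_, ?_⟩
    · simp only [J, K, Finset.mem_filter, Finset.mem_product, Finset.mem_Ico, Finset.mem_Icc]
      refine ⟨⟨⟨hi0, hiT⟩, ⟨by omega, by omega⟩, ⟨by omega, by omega⟩, by omega, by omega⟩, ?_⟩
      rintro ⟨h1, h2⟩
      exact hne (Prod.ext (by simp only; omega) (by simp only; omega))
    · refine ⟨?_, ?_⟩
      · simpa using n1
      · simpa using n2
  have hev : ∀ q ∈ J, (Pm μ₀).real (ev q) = p ^ 2 := by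
    rintro ⟨i, s, k, l⟩ hq
    simp only [J, K, Finset.mem_filter, Finset.mem_product, Finset.mem_Ico, Finset.mem_Icc] at hq
    have h1 := FL.indep μ₀
      (FL.single (R := {(z i + s, i)}) (z i + s, i) rfl ({none}ᶜ : Set (Option Bool)))
      (FL.single (R := {(z i + s + k, i + l)}) (z i + s + k, i + l) rfl
        ({none}ᶜ : Set (Option Bool))) (by
        rw [Set.disjoint_singleton]
        intro h5
        have h6 := congrArg Prod.fst h5
        have h7 := congrArg Prod.snd h5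
        simp only at h6 h7
        exact hq.2 ⟨by omega, by omega⟩)
    simp only [ev]
    rw [h1, prob_single, prob_single, WK.real_ne_none, ← hp, pow_two]
  have hp2 : 0 ≤ p ^ 2 := sq_nonneg p
  calc (Pm μ₀).real (SparseOn (Box σ w L T) r τ)ᶜ ≤ (Pm μ₀).real (⋃ q ∈ J, ev q) :=
        measureReal_mono hsub (measure_ne_top _ _)
    _ ≤ ∑ q ∈ J, (Pm μ₀).real (ev q) := measureReal_biUnion_finset_le _ _
    _ = ∑ q ∈ J, p ^ 2 := Finset.sum_congr rfl hev
    _ = (J.card : ℝ) * p ^ 2 := by rw [Finset.sum_const, nsmul_eq_mul]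
    _ ≤ (K.card : ℝ) * p ^ 2 := by
        refine mul_le_mul_of_nonneg_right ?_ hp2
        exact_mod_cast Finset.card_le_card (Finset.filter_subset _ _)
    _ = ((2 * w + 1) * L * T * ((2 * r + 1) * (2 * τ + 1))) * p ^ 2 := by
      congr 1
      simp only [K, Finset.card_product, Int.card_Ico, Int.card_Icc]
      have e1 : ((T : ℤ) - 0).toNat = T := by omega
      have e2 : ((((2 * w + 1) * L : ℕ) : ℤ) - 0).toNat = (2 * w + 1) * L := by
        rw [sub_zero, Int.toNat_natCast]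
      have e3 : ((r : ℤ) + 1 - -(r : ℤ)).toNat = 2 * r + 1 := by omega
      have e4 : ((τ : ℤ) + 1 - -(τ : ℤ)).toNat = 2 * τ + 1 := by omega
      rw [e1, e2, e3, e4]
      push_cast
      ring
    _ ≤ 2 * (2 * w + 1) * L * T * ((2 * r + 1) * (2 * τ + 1)) * p ^ 2 := by
      refine mul_le_mul_of_nonneg_right ?_ hp2
      have h0 : (0 : ℝ) ≤ (2 * w + 1) * L * T * ((2 * r + 1) * (2 * τ + 1)) := by positivity
      nlinarith

end Pool.Agent.NVA
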