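import Pool.Agent.NVA.Defs

set_option autoImplicit false

/-! Noisy majority voting, every odd neighbourhood, small biased noise: the statements of the
modules. Overview of the proof.

Let `b` be the favoured value, `p` the rate of the noise `some b`, `p' < p` the rate of the noise
`some (!b)`, `h = p - p'`. An island of `b` has a left edge (the set of the sites with the value
`b` is an up-set `U` there) and a right edge (the set of the sites with the value `!b` is an up-set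
`Z` there). Both edges follow the same chain `chain`, the left edge with the adding noise
`some b`, the right edge with the adding noise `some (!b)`. In the harmonic coordinate `g` of
`St_Harm` one noise of each kind moves every edge by exactly `v` on the average, so the left edge
has drift `p' v + h (Q_1 g)`, with `Q_1 g ≤ 0`, and the right edge has drift `p' v + h (Q_0 g)`,
with `Q_0 g ≥ 0`; a correction `θ ψ`, which counts the holes of the up-set, makes the drift of the
left edge at most `p' v - κ h`. So in the frame with the speed `q (p' v - κ h / 2)` the island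
grows on both sides, with fluctuations of order `sqrt (p T) = L / K` in the time `T = O(L / h)`,
`L = K p / h`. Two noises near each other in the box `L × T` have probability `O(p ^ 4 / h ^ 3)`.
-/

namespace Pool.Agent.NVA

open MeasureTheory Set Pool.Agent.Helper55.Vote

/-! ### Part A: up-sets and their relaxation (deterministic) -/

/-- Simple facts on up-sets. The least element of an up-set is `lo`; half-lines are up-sets; shifts
of up-sets are up-sets; beyond `l + W` everything is filled (use `frob` for the set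
`{s | u (l + s) = true}`). -/
def St_Up : Prop := ∀ (N : Finset ℤ) (n D₁ W : ℕ), Nb N n D₁ W →
  (∀ (l : ℤ) (u : ℤ → Bool), Up N l u → lo u = l) ∧
  (∀ x : ℤ, Up N x (H x)) ∧
  (∀ (l z : ℤ) (u : ℤ → Bool), Up N l u → Up N (l + z) fun t => u (t - z)) ∧
  (∀ (l : ℤ) (u : ℤ → Bool), Up N l u → ∀ s, l + W ≤ s → u s = true)

/-- The majority fixes up-sets. Proof: if `u s = true` then `u (s + v) = true` for the `n + 1`
elements `v ≥ 0` of `N`; if `u s = false` then `u (s + v) = false` for the `n + 1` elements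
`v ≤ 0` (otherwise `s = (s + v) + |v|` would be a one). -/
def St_Fix : Prop := ∀ (N : Finset ℤ) (n D₁ W : ℕ), Nb N n D₁ W → ∀ u, IsUp N u → maj N u = u

/-- Relaxation of one added site. Proof: let `M` be the set of the `t` with `u t = false` and
`u (t + v) = true` for all `v ∈ N`, `v > 0`. (i) `maj N (u with s added) = u ∪ E`, where `E` is
the set of the `t ∈ M` with `t = s` or `t = s + |v|` for some `v ∈ N`, `v < 0`: for `u t = false`
the ones among `t + v` are at most those with `v > 0` (`n` of them) and `s`. (ii) For `X ⊆ M`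
`maj N (u ∪ X) = u ∪ X ∪ (X + A)`, `A = {|v| : v ∈ N, v < 0}`: if `t - a ∈ X` and `u t = false`
then `t ∈ M`, because `u (t - a + v) = true` and `u` is an up-set; and a `t` outside with no
`t - a ∈ X`, `t ∉ X`, has at most the `n` ones `t + v`, `v > 0`. Hence the iterates are
`u ∪ (E + sums of at most r - 1 elements of A)`; all `t ∈ E` satisfy `l - D₁ ≤ t` (since
`t + v ≥ l`), new sites are `< l + W` and each further element of `A` adds at least `1`, so the
iterates are constant from the step `W + D₁ + 1` on; the limit is closed under `+ |v|`, `v < 0`, by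
construction and under `+ v`, `v > 0`, since `(e + Σ a) + v = (e + v) + Σ a` is in `u`. If
`s < l - 2 D₁` then `E = ∅`. (If `u s = true` nothing changes.) -/
def St_RelT : Prop := ∀ (N : Finset ℤ) (n D₁ W : ℕ), Nb N n D₁ W →
  ∀ (l : ℤ) (u : ℤ → Bool), Up N l u → ∀ s : ℤ,
  (∃ (l' : ℤ) (u' : ℤ → Bool), Up N l' u' ∧ l - D₁ ≤ l' ∧ l' ≤ l ∧
    ∀ r : ℕ, W + D₁ + 1 ≤ r → (maj N)^[r] (Function.update u s true) = u') ∧
  (∀ r : ℕ, 1 ≤ r → ∀ t, u t = true → (maj N)^[r] (Function.update u s true) t = true) ∧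
  (∀ r : ℕ, 1 ≤ r → ∀ t, (maj N)^[r] (Function.update u s true) t = true → l - D₁ ≤ t) ∧
  (s < l - 2 * D₁ → ∀ r : ℕ, 1 ≤ r → (maj N)^[r] (Function.update u s true) = u)

/-- Relaxation of one removed site. It can be proved directly as `St_RelT`, with the roles of the
positive and the negative elements of `N` exchanged (`E' = {t ∈ {s} ∪ {s - v : v ∈ N, v > 0} :
u t = true, u (t - |v|) = false for all v ∈ N, v < 0}`, the iterates are `u` minus
`E' - sums of at most r - 1 positive elements of N`; all `t ∈ E'` satisfy `t < l + W + D₁`), or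
deduced from `St_RelT` for `-N` and the up-set `fun t => !u (-t)` (with the least element `-μ`,
`μ` the largest `t` with `u t = false`, `l - 1 ≤ μ ≤ l + W - 1`). -/
def St_RelF : Prop := ∀ (N : Finset ℤ) (n D₁ W : ℕ), Nb N n D₁ W →
  ∀ (l : ℤ) (u : ℤ → Bool), Up N l u → ∀ s : ℤ,
  (∃ (l' : ℤ) (u' : ℤ → Bool), Up N l' u' ∧ l ≤ l' ∧ l' ≤ l + W + D₁ ∧
    ∀ r : ℕ, W + D₁ + 1 ≤ r → (maj N)^[r] (Function.update u s false) = u') ∧
  (∀ r : ℕ, 1 ≤ r → ∀ t, (maj N)^[r] (Function.update u s false) t = true → u t = true) ∧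
  (∀ r : ℕ, 1 ≤ r → ∀ t, l + W + D₁ ≤ t → (maj N)^[r] (Function.update u s false) t = true) ∧
  (l + W + 2 * D₁ ≤ s → ∀ r : ℕ, 1 ≤ r → (maj N)^[r] (Function.update u s false) = u)

/-- The facts on `F` used below. (1), (2), (3), (6) from `St_RelT`, `St_RelF`; (4) `maj` is
monotone; (5) `maj` commutes with shifts; (7) `Function.update u s true` is itself an up-set,
fixed by `maj`. -/
def St_F : Prop := ∀ (N : Finset ℤ) (n D₁ W : ℕ), Nb N n D₁ W →
  (∀ u, IsUp N u → ∀ s c, IsUp N (F N D₁ W u s c)) ∧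
  (∀ u, IsUp N u → ∀ s c, |lo (F N D₁ W u s c) - lo u| ≤ (W : ℤ) + D₁) ∧
  (∀ u, IsUp N u → ∀ s c, s ∉ win D₁ W u → F N D₁ W u s c = u) ∧
  (∀ u u', (∀ t, u t = true → u' t = true) → ∀ s c t,
    F N D₁ W u s c t = true → F N D₁ W u' s c t = true) ∧
  (∀ (u : ℤ → Bool) (z s : ℤ) (c : Bool),
    F N D₁ W (fun t => u (t - z)) (s + z) c = fun t => F N D₁ W u s c (t - z)) ∧
  (∀ u, IsUp N u → ∀ s t, (u t = true → F N D₁ W u s true t = true) ∧
    (F N D₁ W u s false t = true → u t = true)) ∧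
  (∀ u, IsUp N u → ∀ s, (∀ t, s < t → u t = true) →
    F N D₁ W u s true = Function.update u s true)

/-- The process `act` along the chain. Proof: by induction on `j`, either (a) `act j = chain j`
and there is no noise in the windows of the times `i` with `j - Rr ≤ i < j`, or (b) for some
`i < j ≤ i + Rr` there is a noise at `(s, i)`, `s` in the window of `chain i`, no noise in the
windows at the times `i'`, `i < i' < j`, and `act j = (maj N)^[j - i - 1] (update (chain i) s c)`,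
`chain j = F (chain i) s c`. At `j = i + Rr + 1` the case (b) becomes the case (a). The two claims
follow from `St_RelT` and `St_RelF`. -/
def St_Act : Prop := ∀ (N : Finset ℤ) (n D₁ W : ℕ), Nb N n D₁ W →
  ∀ (b : Bool) (ω : Om) (u : ℤ → Bool), IsUp N u → ∀ T : ℕ,
  (∀ i < T, ∀ s ∈ win D₁ W (chain N D₁ W b ω 0 u i), ω (s, (i : ℤ)) ≠ none →
    ∀ i' < T, i ≤ i' → i' ≤ i + Rr D₁ W → ∀ s' ∈ win D₁ W (chain N D₁ W b ω 0 u i'),
      ω (s', (i' : ℤ)) ≠ none → s' = s ∧ i' = i) →
  ∀ j ≤ T, IsUp N (chain N D₁ W b ω 0 u j) ∧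
    (∀ t, lo (chain N D₁ W b ω 0 u j) + 2 * (W + D₁) ≤ t → act N D₁ W b ω u j t = true ∨
      ∃ i : ℕ, j = i + 1 ∧ t ∈ win D₁ W (chain N D₁ W b ω 0 u i) ∧ ω (t, (i : ℤ)) ≠ none) ∧
    (∀ t, t < lo (chain N D₁ W b ω 0 u j) - 2 * (W + D₁) → act N D₁ W b ω u j t = false ∨
      ∃ i : ℕ, j = i + 1 ∧ t ∈ win D₁ W (chain N D₁ W b ω 0 u i) ∧ ω (t, (i : ℤ)) ≠ none)

/-- The island. `U j` is the left edge (adding noise `some b`), `Z j` the right edge (adding noise
`some (!b)`; its ones are the sites with the value `!b`). Proof. Let `A`, `A'` be the processes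
`act` for `b` and `H 0`, and for `!b` and `H L`. Claim (induction on `j ≤ T`): if `A j s = true`,
`A' j s = false` and (for `j = i + 1`) `ω (s, i) ≠ some (!b)`, then `run N ω 0 x j s = b`. Step:
let the claim hold for `j`, and let `s` be such a site for `j + 1`. If `ω (s, j) = some b` the
state is `b`. Otherwise `ω (s, j) = none` and `A (j + 1) s = maj N (A j) s = true`,
`A' (j + 1) s = maj N (A' j) s = false`. If `s` is nearer to the left edge
(`2 s ≤ lo (U j) + lo (Z j)`), then by `St_Act` (and the distance of the edges) `A' j (s + v) =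
false` for all `v ∈ N`, and `A j (s + v) = true` for at least `n + 1` elements `v`. At most one
`v₀ ∈ N` carries a noise at `(s + v₀, j - 1)` (sparseness). If there is no such `v₀` with
`A j (s + v₀) = true` and the noise `some (!b)`, then `n + 1` of the neighbours have the value
`b`. If there is, then the noise is outside of the window of `U (j - 1)` (else `A j (s + v₀) =
false`), not to the left of it (`St_Act`), so to the right of it, hence `s + v` is far to the
right of the edge and `A j (s + v) = true` for all `v ≠ v₀`: at least `2 n ≥ n + 1` neighbours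
have the value `b`. The other case is symmetric. (The sparseness is only used at points of `Reg`:
a site with `A j s = true`, `A' j s = false` is between the two edges up to `2 Bb`.)
For the wall take `p 0 = 0`, `p j = lo (U j) + Bb` (`j ≥ 1`), `q 0 = L - 1`,
`q j = lo (Z j) - Bb - 1` (`j ≥ 1`). -/
def St_Wall : Prop := ∀ (N : Finset ℤ) (n D₁ W : ℕ), Nb N n D₁ W →
  ∀ (L T : ℕ) (S : ℤ) (b : Bool) (ω : Om) (Reg : Set (ℤ × ℤ)), 1 ≤ T →
  ω ∈ SparseOn Reg (rs D₁ W) (Rr D₁ W + 1) →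
  (∀ j < T, ∀ s : ℤ, lo (chain N D₁ W b ω 0 (H 0) j) - 2 * (Bb D₁ W : ℤ) ≤ s →
    s ≤ lo (chain N D₁ W (!b) ω 0 (H L) j) + 2 * (Bb D₁ W : ℤ) → (s, (j : ℤ)) ∈ Reg) →
  (∀ j ≤ T, lo (chain N D₁ W b ω 0 (H 0) j) + 16 * (Bb D₁ W : ℤ) ≤
    lo (chain N D₁ W (!b) ω 0 (H L) j)) →
  lo (chain N D₁ W b ω 0 (H 0) T) + 2 * (Bb D₁ W : ℤ) ≤ S - 3 * L →
  S + 4 * L ≤ lo (chain N D₁ W (!b) ω 0 (H L) T) - 2 * (Bb D₁ W : ℤ) →
  (∀ s : ℤ, S - 3 * L ≤ s → s < S + 4 * L → ω (s, (T : ℤ) - 1) ≠ some (!b)) →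
  WallS N b D₁ L T S ω 0 0

/-! ### Part B: the harmonic coordinate and the drifts (deterministic) -/

/-- The harmonic coordinate of an edge. Proof. On functions of up-sets let
`P f u = f u + η ∑ s ∈ win u, ((f (F u s true) - f u) + (f (F u s false) - f u))`,
`η = 1 / (8 Bb)`. By `St_F` the sum may be taken over any finite set of sites containing the window
of `u`. So `P` maps antitone functions (`u ≤ u' → f u' ≤ f u`) to antitone functions: over the
union `S` of the two windows, `P f u - P f u' = (f u - f u') (1 - 2 η |S|) + η ∑ (f (F u s c) -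
f (F u' s c))`, `|S| ≤ 4 Bb`. `P` commutes with shifts and with adding constants. Let
`A 0 = lo`, `A (m + 1) = P (A m)`, `a m = A m (H 0)`. Every `A m` is antitone and
`A m (u shifted by z) = A m u + z`, and `H (lo u + W) ≤ u ≤ H (lo u)`, so
`a m + lo u ≤ A m u ≤ a m + lo u + W`. Also `|a (m + 1) - a m|` is bounded (a window has `2 Bb`
sites, and `|A m (F u s c) - A m u| ≤ 2 W + D₁`). Let `D_k u` be the mean of `A m u - a m` over
`m < k`; then `lo u ≤ D_k u ≤ lo u + W` and
`P D_k u - D_k u = (a k - a 0) / k + ((A k u - a k) - (A 0 u - a 0)) / k`, where the second term is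
`O(W / k)`. Take the limits `g u` of `D_k u` and `v η` of `(a k - a 0) / k` along the ultrafilter
`Filter.hyperfilter ℕ`. (Or: `u` has finitely many shapes up to shifts, take a convergent
subsequence.) -/
def St_Harm : Prop := ∀ (N : Finset ℤ) (n D₁ W : ℕ), Nb N n D₁ W →
  ∃ (v : ℝ) (g : (ℤ → Bool) → ℝ),
    (∀ u u', IsUp N u → IsUp N u' → (∀ t, u t = true → u' t = true) → g u' ≤ g u) ∧
    (∀ u (z : ℤ), IsUp N u → g (fun t => u (t - z)) = g u + z) ∧
    (∀ u, IsUp N u → (lo u : ℝ) ≤ g u ∧ g u ≤ lo u + W) ∧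
    (∀ u, IsUp N u → dr N D₁ W 1 1 g u = v)

/-- The holes of an up-set. `ψ` is a function of the number of holes: with
`holes u = ((Finset.Ico (lo u) (lo u + W)).filter fun s => u s = false).card ≤ W`,
`β = 1 / (16 Bb)` and `ψ u = ∑ i ∈ Finset.range (holes u), β ^ (i + 1)`. If `u` is not a
half-line then the largest `s` with `u s = false` is a hole, `F u s true = update u s true`
(`St_F`) has the same least element and one hole less, so this term of the sum is `-p β ^ (holes)`;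
every other term is at most `rate * β ^ (holes + 1) / (1 - β)`, there are `2 (2 Bb)` terms with
the rates `p` and `p' ≤ p`; in total at most `-p β ^ W / 2`. For a half-line every term is at most
`rate * β / (1 - β)`, in total at most `p`. -/
def St_Psi : Prop := ∀ (N : Finset ℤ) (n D₁ W : ℕ), Nb N n D₁ W →
  ∃ (κ : ℝ) (ψ : (ℤ → Bool) → ℝ), 0 < κ ∧ κ ≤ 1 ∧ (∀ u, IsUp N u → 0 ≤ ψ u ∧ ψ u ≤ 1) ∧
    ∀ p p' : ℝ, 0 ≤ p' → p' ≤ p → ∀ u, IsUp N u →
      ((∃ x, u = H x) → dr N D₁ W p p' ψ u ≤ p) ∧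
      ((¬ ∃ x, u = H x) → dr N D₁ W p p' ψ u ≤ -(κ * p))

/-- The drifts of the two edges. Proof: let `v, g` be as in `St_Harm`, `κ₁, ψ` as in `St_Psi`,
`Q₁ u = ∑ s ∈ win u, (g (F u s true) - g u) ≤ 0`, `Q₀ u = ∑ s ∈ win u, (g (F u s false) - g u) ≥ 0`
(monotonicity), `Q₀ + Q₁ = v`, so that `dr p p' g = p' v + (p - p') Q₁` and
`dr p' p g = p' v + (p - p') Q₀`; both `|Q|` are bounded. At a half-line `H x` the site `x - 1`
gives `F (H x) (x - 1) true = H (x - 1)`, hence `Q₁ (H x) ≤ -1`. Put `f = g + θ ψ` with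
`θ = (p - p') / (2 p)`: at half-lines `dr f ≤ p' v - (p - p') + θ p`, elsewhere
`dr f ≤ p' v - θ κ₁ p`; `κ = κ₁ / 2`. -/
def St_Drift : Prop := ∀ (N : Finset ℤ) (n D₁ W : ℕ), Nb N n D₁ W →
  ∃ v κ C : ℝ, 0 < κ ∧ κ ≤ 1 ∧ 1 ≤ C ∧ |v| ≤ C ∧
    ∀ p p' : ℝ, 0 ≤ p' → p' < p → ∃ f g : (ℤ → Bool) → ℝ,
      (∀ u, IsUp N u → |f u - lo u| ≤ C ∧ |g u - lo u| ≤ C ∧
        dr N D₁ W p p' f u ≤ p' * v - κ * (p - p') ∧
        p' * v - C * (p - p') ≤ dr N D₁ W p p' g u ∧
        p' * v ≤ dr N D₁ W p' p g u ∧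
        dr N D₁ W p' p g u ≤ p' * v + C * (p - p'))

/-! ### Part C: probability -/

/-- The law of one step of the chain, for events `E u'` of the later times. Proof: the event is the
disjoint union over `s ∈ win u` and `c` of {the noise at `(s, i)` is `some b` (`c = true`) or
`some (!b)` (`c = false`), no other noise in the window at the time `i`} ∩ `E (F u s c)`, and of
{no site or at least two sites of the window carry a noise} ∩ `E u`; the two factors are
independent (`FL.indep`). The window has `2 Bb` sites. The first claim: with `x = p + p'`,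
`M = 2 Bb`, `M x (1 - x) ^ (M - 1)` is one term of the binomial expansion of `(x + (1 - x)) ^ M`. -/
def St_StepP : Prop := ∀ (N : Finset ℤ) (D₁ W : ℕ) (μ₀ : Measure (Option Bool))
  [IsProbabilityMeasure μ₀] (b : Bool) (u : ℤ → Bool) (i : ℤ) (E : (ℤ → Bool) → Set Om),
  (∀ u', FL {c : ℤ × ℤ | i + 1 ≤ c.2} (E u')) →
  2 * Bb D₁ W * qq D₁ W (μ₀.real {some b}) (μ₀.real {some (!b)}) *
    (μ₀.real {some b} + μ₀.real {some (!b)}) ≤ 1 ∧
  FL {c : ℤ × ℤ | i ≤ c.2} {ω | ω ∈ E (stepU N D₁ W b u fun s => ω (s, i))} ∧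
  (Pm μ₀).real {ω | ω ∈ E (stepU N D₁ W b u fun s => ω (s, i))} =
    (1 - 2 * Bb D₁ W * qq D₁ W (μ₀.real {some b}) (μ₀.real {some (!b)}) *
      (μ₀.real {some b} + μ₀.real {some (!b)})) * (Pm μ₀).real (E u) +
    ∑ s ∈ win D₁ W u, qq D₁ W (μ₀.real {some b}) (μ₀.real {some (!b)}) *
      (μ₀.real {some b} * (Pm μ₀).real (E (F N D₁ W u s true)) +
        μ₀.real {some (!b)} * (Pm μ₀).real (E (F N D₁ W u s false)))

/-- The quadratic maximal inequality. Proof: by induction on `m`, for all times `i`, all `u ∈ A`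
and all real `y`: `P(∃ j ≤ m, f (chain j) - f u - q d j ≥ Λ - y) ≤ ((max y 0) ^ 2 + m σ²) / Λ ^ 2`
with `σ² = (4 Bb J ^ 2 + 2 Dd ^ 2) (p + p')` (for `y ≥ Λ` trivial). Step: with `ξ` the increment of
`f` in the first step minus `q d`, the remaining event is of the same kind with `y + ξ`, and
`(max (y + ξ) 0) ^ 2 ≤ (max y 0) ^ 2 + 2 (max y 0) ξ + ξ ^ 2`; the mean of `ξ` is `≤ 0` and the mean
of `ξ ^ 2` is at most `2 (2 Bb) (p + p') J ^ 2 + 2 (q d) ^ 2 ≤ σ²`. The first step is taken with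
`St_StepP`: `chain ω i u (m + 1) = chain ω (i + 1) (stepU u (ω (·, i))) m`. -/
def St_MaxI : Prop := ∀ (N : Finset ℤ) (D₁ W : ℕ) (μ₀ : Measure (Option Bool))
  [IsProbabilityMeasure μ₀] (b : Bool) (A : Set (ℤ → Bool)) (f : (ℤ → Bool) → ℝ) (J Dd d Λ : ℝ),
  (∀ u ∈ A, ∀ s c, F N D₁ W u s c ∈ A) →
  (∀ u ∈ A, ∀ s ∈ win D₁ W u, ∀ c, |f (F N D₁ W u s c) - f u| ≤ J) →
  (∀ u ∈ A, dr N D₁ W (μ₀.real {some b}) (μ₀.real {some (!b)}) f u ≤ d) →
  |d| ≤ Dd * (μ₀.real {some b} + μ₀.real {some (!b)}) → 0 < Λ →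
  ∀ (m : ℕ) (i : ℤ), ∀ u ∈ A,
    FL {c : ℤ × ℤ | i ≤ c.2} {ω | ∃ j ≤ m, f u + qq D₁ W (μ₀.real {some b}) (μ₀.real {some (!b)}) *
      d * j + Λ ≤ f (chain N D₁ W b ω i u j)} ∧
    (Pm μ₀).real {ω | ∃ j ≤ m, f u + qq D₁ W (μ₀.real {some b}) (μ₀.real {some (!b)}) *
      d * j + Λ ≤ f (chain N D₁ W b ω i u j)} ≤
      m * ((4 * Bb D₁ W * J ^ 2 + 2 * Dd ^ 2) * (μ₀.real {some b} + μ₀.real {some (!b)})) / Λ ^ 2

/-- The two edges stay near their lines. From `St_Drift`, `St_MaxI` (applied to `f`, `-g` and the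
chain of `b`, and to `-g`, `g` and the chain of `!b`; `A` the set of the up-sets), `St_F`, `St_Up`.
The increments of `f` and `g` are at most `2 C + W + D₁`. -/
def St_Edges : Prop := ∀ (N : Finset ℤ) (n D₁ W : ℕ), Nb N n D₁ W →
  ∃ v κ C : ℝ, 0 < κ ∧ κ ≤ 1 ∧ 1 ≤ C ∧ |v| ≤ C ∧
    ∀ (μ₀ : Measure (Option Bool)) [IsProbabilityMeasure μ₀] (b : Bool) (p p' q : ℝ),
      p = μ₀.real {some b} → p' = μ₀.real {some (!b)} → q = qq D₁ W p p' → p' < p →
      ∀ (T : ℕ) (Λ : ℝ) (x : ℤ), 0 < Λ →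
        (Pm μ₀).real {ω | ∃ j ≤ T, x + q * (p' * v - κ * (p - p')) * j + Λ + C ≤
          (lo (chain N D₁ W b ω 0 (H x) j) : ℝ)} ≤ C * p * T / Λ ^ 2 ∧
        (Pm μ₀).real {ω | ∃ j ≤ T, (lo (chain N D₁ W b ω 0 (H x) j) : ℝ) ≤
          x + q * (p' * v - C * (p - p')) * j - Λ - C} ≤ C * p * T / Λ ^ 2 ∧
        (Pm μ₀).real {ω | ∃ j ≤ T, (lo (chain N D₁ W (!b) ω 0 (H x) j) : ℝ) ≤
          x + q * (p' * v) * j - Λ - C} ≤ C * p * T / Λ ^ 2 ∧
        (Pm μ₀).real {ω | ∃ j ≤ T, x + q * (p' * v + C * (p - p')) * j + Λ + C ≤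
          (lo (chain N D₁ W (!b) ω 0 (H x) j) : ℝ)} ≤ C * p * T / Λ ^ 2

/-- Close pairs of noises in the slanted box. Proof: for every time there are at most
`(2 w + 1) L + 1 ≤ 2 (2 w + 1) L` sites in the box; union bound over the pairs `c ≠ c'` in a finite
set containing the box, each with the probability `(p + p') ^ 2`. -/
def St_Sp : Prop := ∀ (μ₀ : Measure (Option Bool)) [IsProbabilityMeasure μ₀] (σ : ℝ)
  (w L T r τ : ℕ), 1 ≤ L →
  (Pm μ₀).real (SparseOn (Box σ w L T) r τ)ᶜ ≤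
    2 * (2 * w + 1) * L * T * ((2 * r + 1) * (2 * τ + 1)) *
      (μ₀.real {some true} + μ₀.real {some false}) ^ 2

/-- the good event -/
def gS (N : Finset ℤ) (D₁ W : ℕ) (b : Bool) (σ : ℝ) (w L T : ℕ) (S : ℤ) : Set Om :=
  {ω | ω ∈ SparseOn (Box σ w L T) (rs D₁ W) (Rr D₁ W + 1) ∧
    (∀ j ≤ T, σ * j - (w - 1) * L ≤ (lo (chain N D₁ W b ω 0 (H 0) j) : ℝ) ∧
      (lo (chain N D₁ W b ω 0 (H 0) j) : ℝ) ≤ σ * j + L / 4) ∧
    (∀ j ≤ T, σ * j + L - L / 4 ≤ (lo (chain N D₁ W (!b) ω 0 (H L) j) : ℝ) ∧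
      (lo (chain N D₁ W (!b) ω 0 (H L) j) : ℝ) ≤ σ * j + w * L) ∧
    lo (chain N D₁ W b ω 0 (H 0) T) + 2 * (Bb D₁ W : ℤ) ≤ S - 3 * L ∧
    S + 4 * L ≤ lo (chain N D₁ W (!b) ω 0 (H L) T) - 2 * (Bb D₁ W : ℤ) ∧
    ∀ s : ℤ, S - 3 * L ≤ s → s < S + 4 * L → ω (s, (T : ℤ) - 1) ≠ some (!b)}

/-- The good event depends on the noise in the box and gives the wall. Proof: on the good event the
windows of both chains at the times `j < T` are in the box, so two noise fields which agree on the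
(finite) box have the same chains up to the time `T` if one of them is good; the interval
`[S - 3 L, S + 4 L)` is between the edges at the time `T`, hence (the slope is at most `1` in
absolute value) in the box at the time `T - 1`. The wall is `St_Wall`. -/
def St_GW : Prop := ∀ (N : Finset ℤ) (n D₁ W : ℕ), Nb N n D₁ W →
  ∀ (b : Bool) (σ : ℝ) (w L T : ℕ) (S : ℤ), 2 ≤ w → 1 ≤ T → 64 * Bb D₁ W ≤ L → |σ| ≤ 1 →
    Thin w L T (Box σ w L T) ∧ FL (Box σ w L T) (gS N D₁ W b σ w L T S) ∧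
      ∀ ω ∈ gS N D₁ W b σ w L T S, WallS N b D₁ L T S ω 0 0

/-- The good event has a high probability for a suitable choice of the parameters. Proof: let
`v, κ, C₀` be as in `St_Edges`, `w = ⌈16 C₀ / κ⌉ + 12`, `q = qq p p' ∈ [1/2, 1]` (Bernoulli,
`p ≤ 1 / C`), `σ = q (p' v - κ h / 2)`, `h = p - p'`, `L = ⌈K p / h⌉`, `T = ⌈16 L / (κ h)⌉`,
`S = ⌊σ T⌋`, `Λ = L / 16`, `C₀ + 2 Bb + 1 ≤ L / 16`. Off the four events of `St_Edges` (with
`x = 0` and `x = L`) and the events of `St_Sp` and of the last row the good event holds: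
`q κ h T / 2 ≥ 4 L`. The four events have the probability `≤ C₀ p T / Λ ^ 2 ≤ 4352 C₀ / (κ K)`
each, the sparseness fails with the probability `O(L T p ^ 2) = O(K ^ 2 p ^ 4 / h ^ 3)`, the last
row with the probability `≤ 7 L p' ≤ 7 (K + 1) p ^ 4 / h ^ 3`. First `K`, then `C` is chosen. -/
def St_Par : Prop := ∀ (N : Finset ℤ) (n D₁ W : ℕ), Nb N n D₁ W →
  ∃ (C : ℝ) (w : ℕ), 0 < C ∧ 2 ≤ w ∧
    ∀ (μ₀ : Measure (Option Bool)) [IsProbabilityMeasure μ₀] (b : Bool),
      μ₀.real {some (!b)} < μ₀.real {some b} →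
      C * (μ₀.real {some b}) ^ 4 ≤ (μ₀.real {some b} - μ₀.real {some (!b)}) ^ 3 →
      ∃ (L T : ℕ) (σ : ℝ) (S : ℤ), 1 ≤ T ∧ 64 * Bb D₁ W ≤ L ∧ |σ| ≤ 1 ∧
        (Pm μ₀).real (gS N D₁ W b σ w L T S)ᶜ ≤ (3 / 64) ^ (2 * w + 1)

/-! ### Part D: slanted blocks -/

/-- The slanted version of `zone_layers` (Helper55/Vote/Zone.lean): the block `i` of the layer `k`
starts at the site `i L + k S`. The proof of `zone_layer`, `zone_layers` with this origin. -/
def St_Zone : Prop := ∀ (N : Finset ℤ) (b : Bool) (D₁ L T : ℕ) (S : ℤ), (∀ v ∈ N, |v| ≤ (D₁ : ℤ)) →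
  ∀ (ω : Om) (G : ℕ → ℤ → Set Om) (t₀ : ℤ),
  (∀ (k : ℕ) (i : ℤ), ω ∈ G k i → WallS N b D₁ L T S ω (i * L + k * S) (t₀ + k * T)) →
  ∀ (m k : ℕ) (iL iR : ℤ) (x x' : ℤ → Bool),
    ω ∉ dead G (-2) m k iL → ω ∉ dead G 2 m k iR →
    (∀ s, iL * L + k * S ≤ s → s < iL * L + k * S + L → x s = b) →
    (∀ s, iL * L + k * S ≤ s → s < iL * L + k * S + L → x' s = b) →
    (∀ s, iR * L + k * S ≤ s → s < iR * L + k * S + L → x s = b) →
    (∀ s, iR * L + k * S ≤ s → s < iR * L + k * S + L → x' s = b) →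
    (∀ s, iL * L + k * S ≤ s → s < iR * L + k * S + L → x s = x' s) →
    ∀ s, (iL - m) * L + (k + m) * S ≤ s → s < (iR + m + 1) * L + (k + m) * S →
      run N ω (t₀ + k * T) x (m * T) s = run N ω (t₀ + k * T) x' (m * T) s

/-- Walls of shifted noise fields (`Wall.of_shift` of Helper55/Vote/Zone.lean). -/
def St_OfS : Prop := ∀ (N : Finset ℤ) (b : Bool) (D₁ L T : ℕ) (S : ℤ) (ω : Om) (a t : ℤ),
  WallS N b D₁ L T S (shift (a, t) ω) 0 0 → WallS N b D₁ L T S ω a t

/-- The slanted block criterion (Helper55/Vote/Blocks.lean with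
`good k i = shift (i L + k S, 1 + k T) ⁻¹' g`, regions `Thin` instead of `box`, `St_Zone` instead of
`zone_layers`, and the discrepancy observed at the site `n S` instead of `0`: use `prob_Dis` of
Crit.lean). -/
def St_Dec : Prop := ∀ (μ₀ : Measure (Option Bool)) [IsProbabilityMeasure μ₀] (N : Finset ℤ)
  (b : Bool) (D₁ L T w : ℕ) (S : ℤ) (R : Set (ℤ × ℤ)) (g : Set Om),
  (∀ v ∈ N, |v| ≤ (D₁ : ℤ)) → 1 ≤ L → 0 < μ₀.real {some b} → Thin w L T R → FL R g →
  (∀ ω ∈ g, WallS N b D₁ L T S ω 0 0) → (Pm μ₀).real gᶜ ≤ (3 / 64) ^ (2 * w + 1) →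
  Filter.Tendsto (D μ₀ N) Filter.atTop (nhds 0)

/-! ### Part E: reductions -/

/-- Reduction to a centred neighbourhood without common divisor: subtract the median, divide by the
greatest common divisor (`exists_median` of Helper55/Vote/Final.lean; for `frob`: a finite set of
positive integers with greatest common divisor `1` generates all large integers, see
`Nat.exists_mem_closure_of_ge` or the Frobenius number file of Mathlib). -/
def St_Red : Prop := ∀ (N : Finset ℤ) (n : ℕ), 1 ≤ n → N.card = 2 * n + 1 →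
  ∃ (c g : ℤ) (N' : Finset ℤ) (D₁ W : ℕ), 0 < g ∧
    (N.image fun v => v - c) = (N'.image fun v => g * v) ∧ Nb N' n D₁ W

/-- Dilation and shear do not change the decay function (`crit_dil` in T3M/MCrit.lean, `D_shear` in
Helper55/Vote/Crit.lean). -/
def St_Dil : Prop := ∀ (μ₀ : Measure (Option Bool)) [IsProbabilityMeasure μ₀] (N N' : Finset ℤ)
  (c g : ℤ), 0 < g → (N.image fun v => v - c) = (N'.image fun v => g * v) →
  ∀ t, D μ₀ N t = D μ₀ N' t

/-- A single neighbour. The discrepancy at the site `s` at the time `t` requires that there is no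
noise on the path: `D μ₀ {c} t ≤ (μ₀.real {none}) ^ t`. -/
def St_One : Prop := ∀ (μ₀ : Measure (Option Bool)) [IsProbabilityMeasure μ₀] (c : ℤ),
  0 < μ₀.real {some true} → Filter.Tendsto (D μ₀ {c}) Filter.atTop (nhds 0)

/-- The theorem. -/
def St_Fin : Prop := ∀ N : Finset ℤ, Odd N.card → ∃ C : ℝ, 0 < C ∧ ∀ ε δ : ℝ, 0 < ε → 0 < δ →
  ε + δ ≤ 1 → C * (max ε δ) ^ 4 ≤ |ε - δ| ^ 3 → Ergodic N ε δ

end Pool.Agent.NVA
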