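import Pool.Agent.NVA.St

set_option autoImplicit false

/-! Noisy majority voting: the law of one step of the interface chain (`St_StepP`). -/

namespace Pool.Agent.NVA

open MeasureTheory Set Pool.Agent.Helper55.Vote

/-- the noise which adds (`c = true`) or removes (`c = false`) -/
private def StepP_nz (b c : Bool) : Option Bool := if c = true then some b else some (!b)

/-- the values of the noise at the site `s'` in the event `StepP_A` -/
private def StepP_V (b : Bool) (j : ℤ × Bool) (s' : ℤ) : Set (Option Bool) :=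
  if s' = j.1 then {StepP_nz b j.2} else {none}

/-- the only noise in `S` at the time `i` is `StepP_nz b j.2` at the site `j.1` -/
private def StepP_A (S : Finset ℤ) (b : Bool) (i : ℤ) (j : ℤ × Bool) : Set Om :=
  {ω | ∀ s' ∈ S, ω (s', i) ∈ StepP_V b j s'}

private lemma StepP_A_self {S : Finset ℤ} {b : Bool} {i : ℤ} {j : ℤ × Bool} {ω : Om}
    (h : ω ∈ StepP_A S b i j) (hj : j.1 ∈ S) : ω (j.1, i) = StepP_nz b j.2 := by
  have h1 := h j.1 hj
  unfold StepP_V at h1
  rw [if_pos rfl] at h1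
  exact h1

private lemma StepP_A_ne {S : Finset ℤ} {b : Bool} {i : ℤ} {j : ℤ × Bool} {ω : Om}
    (h : ω ∈ StepP_A S b i j) {s' : ℤ} (hs : s' ∈ S) (hne : s' ≠ j.1) : ω (s', i) = none := by
  have h1 := h s' hs
  unfold StepP_V at h1
  rw [if_neg hne] at h1
  exact h1

private lemma StepP_nz_ne (b c : Bool) : StepP_nz b c ≠ none := by
  unfold StepP_nz
  split_ifs <;> simp

private lemma StepP_nz_inj (b : Bool) {c c' : Bool} (h : StepP_nz b c = StepP_nz b c') :
    c = c' := by
  unfold StepP_nz at h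
  revert h
  cases b <;> cases c <;> cases c' <;> simp

private lemma StepP_dec (b c : Bool) : decide (StepP_nz b c = some b) = c := by
  unfold StepP_nz
  cases b <;> cases c <;> simp

private lemma StepP_nz_surj (b : Bool) (o : Option Bool) (h : o ≠ none) :
    ∃ c, o = StepP_nz b c := by
  obtain ⟨x, rfl⟩ := Option.ne_none_iff_exists'.1 h
  unfold StepP_nz
  cases b <;> cases x
  · exact ⟨true, by simp⟩
  · exact ⟨false, by simp⟩
  · exact ⟨false, by simp⟩
  · exact ⟨true, by simp⟩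

private lemma StepP_FL (S : Finset ℤ) (b : Bool) (i : ℤ) (j : ℤ × Bool) :
    FL {c : ℤ × ℤ | c.2 = i} (StepP_A S b i j) := by
  have h := FL.biInter (R := {c : ℤ × ℤ | c.2 = i}) S
    (fun s' => {ω : Om | ω (s', i) ∈ StepP_V b j s'})
    (fun s' _ => FL.single _ (by simp) _)
  have e : StepP_A S b i j = ⋂ s' ∈ S, {ω : Om | ω (s', i) ∈ StepP_V b j s'} := by
    ext ω
    simp only [StepP_A, mem_ofPred_eq, mem_iInter]
  rw [e]
  exact h

private lemma StepP_none (μ₀ : Measure (Option Bool)) [IsProbabilityMeasure μ₀] (b : Bool) :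
    μ₀.real {none} = 1 - μ₀.real {some b} - μ₀.real {some (!b)} := by
  have h := sum_measureReal_singleton (μ := μ₀) (Finset.univ : Finset (Option Bool))
  rw [Finset.coe_univ, probReal_univ, Fintype.sum_option, Fintype.sum_bool] at h
  cases b
  · simp only [Bool.not_false]; linarith
  · simp only [Bool.not_true]; linarith

private lemma StepP_prob (μ₀ : Measure (Option Bool)) [IsProbabilityMeasure μ₀]
    (S : Finset ℤ) (b : Bool) (i : ℤ) (j : ℤ × Bool) (hj : j.1 ∈ S) :
    (Pm μ₀).real (StepP_A S b i j) =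
      μ₀.real {StepP_nz b j.2} * μ₀.real {none} ^ (S.card - 1) := by
  unfold StepP_A
  rw [prob_prod, ← Finset.mul_prod_erase S _ hj, ← Finset.card_erase_of_mem hj]
  congr 1
  · unfold StepP_V
    rw [if_pos rfl]
  · rw [← Finset.prod_const]
    refine Finset.prod_congr rfl fun s' hs' => ?_
    unfold StepP_V
    rw [if_neg (Finset.ne_of_mem_erase hs')]

private lemma StepP_disj (S : Finset ℤ) (b : Bool) (i : ℤ) (j j' : ℤ × Bool) (hj : j.1 ∈ S)
    (hj' : j'.1 ∈ S) (hne : j ≠ j') : Disjoint (StepP_A S b i j) (StepP_A S b i j') := by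
  rw [Set.disjoint_left]
  intro ω h h'
  have h1 := StepP_A_self h hj
  have h2 := StepP_A_self h' hj'
  have e1 : j.1 = j'.1 := by
    by_contra hcon
    have h3 := StepP_A_ne h' hj hcon
    rw [h1] at h3
    exact StepP_nz_ne _ _ h3
  rw [← e1, h1] at h2
  exact hne (Prod.ext e1 (StepP_nz_inj b h2))

private lemma StepP_step_A (N : Finset ℤ) (D₁ W : ℕ) (b : Bool) (u : ℤ → Bool) (i : ℤ)
    (j : ℤ × Bool) (hj : j.1 ∈ win D₁ W u) (ω : Om) (h : ω ∈ StepP_A (win D₁ W u) b i j) :
    stepU N D₁ W b u (fun s => ω (s, i)) = F N D₁ W u j.1 j.2 := by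
  have h1 := StepP_A_self h hj
  have hex : ∃ s, s ∈ win D₁ W u ∧ (fun s => ω (s, i)) s ≠ none ∧
      ∀ s' ∈ win D₁ W u, (fun s => ω (s, i)) s' ≠ none → s' = s := by
    refine ⟨j.1, hj, ?_, fun s' hs' hne => ?_⟩
    · show ω (j.1, i) ≠ none
      rw [h1]
      exact StepP_nz_ne _ _
    · by_contra hcon
      exact hne (StepP_A_ne h hs' hcon)
  have hc : hex.choose = j.1 := by
    by_contra hcon
    exact hex.choose_spec.2.1 (StepP_A_ne h hex.choose_spec.1 hcon)
  unfold stepU
  rw [dif_pos hex, hc]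
  show F N D₁ W u j.1 (decide (ω (j.1, i) = some b)) = _
  rw [h1, StepP_dec]

private lemma StepP_step_R (N : Finset ℤ) (D₁ W : ℕ) (b : Bool) (u : ℤ → Bool) (i : ℤ)
    (ω : Om) (h : ∀ j : ℤ × Bool, j.1 ∈ win D₁ W u → ω ∉ StepP_A (win D₁ W u) b i j) :
    stepU N D₁ W b u (fun s => ω (s, i)) = u := by
  have hex : ¬ ∃ s, s ∈ win D₁ W u ∧ (fun s => ω (s, i)) s ≠ none ∧
      ∀ s' ∈ win D₁ W u, (fun s => ω (s, i)) s' ≠ none → s' = s := by
    rintro ⟨s, hs, hne, huni⟩
    obtain ⟨c, hc⟩ := StepP_nz_surj b (ω (s, i)) hne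
    refine h (s, c) hs ?_
    intro s' hs'
    unfold StepP_V
    by_cases he : s' = s
    · rw [if_pos he, he]
      exact hc
    · rw [if_neg he]
      by_contra hcon
      exact he (huni s' hs' hcon)
  unfold stepU
  rw [dif_neg hex]

theorem thm_StepP : St_StepP := by
  intro N D₁ W μ₀ _ b u i E hE
  set S := win D₁ W u with hS
  set p := μ₀.real {some b} with hp
  set p' := μ₀.real {some (!b)} with hp'
  set I : Finset (ℤ × Bool) := S ×ˢ Finset.univ with hI
  have hmem : ∀ j ∈ I, j.1 ∈ S := fun j hj => (Finset.mem_product.1 hj).1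
  have hcard : S.card = 2 * Bb D₁ W := by
    rw [hS, win, Int.card_Ico]
    omega
  have hdis : Disjoint {c : ℤ × ℤ | c.2 = i} {c : ℤ × ℤ | i + 1 ≤ c.2} := by
    rw [Set.disjoint_left]
    intro c h1 h2
    simp only [mem_ofPred_eq] at h1 h2
    omega
  set U : Set Om := ⋃ j ∈ I, StepP_A S b i j with hU
  have hUFL : FL {c : ℤ × ℤ | c.2 = i} U := FL.biUnion I _ fun j _ => StepP_FL S b i j
  have hpd : (↑I : Set (ℤ × Bool)).PairwiseDisjoint (StepP_A S b i) := by
    intro j hj j' hj' hne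
    exact StepP_disj S b i j j' (hmem j hj) (hmem j' hj') hne
  have hsum : ∀ f : ℤ × Bool → ℝ, ∑ j ∈ I, f j = ∑ s ∈ S, (f (s, true) + f (s, false)) := by
    intro f
    rw [hI, Finset.sum_product]
    refine Finset.sum_congr rfl fun s _ => ?_
    rw [Fintype.sum_bool]
  have hq : μ₀.real {none} ^ (S.card - 1) = qq D₁ W p p' := by
    rw [StepP_none μ₀ b, hcard]
    rfl
  have hPt : ∀ s ∈ S, (Pm μ₀).real (StepP_A S b i (s, true)) = qq D₁ W p p' * p := by
    intro s hs
    rw [StepP_prob μ₀ S b i (s, true) hs, hq, mul_comm]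
    rfl
  have hPf : ∀ s ∈ S, (Pm μ₀).real (StepP_A S b i (s, false)) = qq D₁ W p p' * p' := by
    intro s hs
    rw [StepP_prob μ₀ S b i (s, false) hs, hq, mul_comm]
    rfl
  have hPU : (Pm μ₀).real U = 2 * Bb D₁ W * qq D₁ W p p' * (p + p') := by
    rw [hU, measureReal_biUnion_finset hpd fun j _ => (StepP_FL S b i j).meas, hsum,
      Finset.sum_congr rfl fun s hs => by rw [hPt s hs, hPf s hs], Finset.sum_const, hcard,
      nsmul_eq_mul]
    push_cast
    ring
  have hPUc : (Pm μ₀).real Uᶜ = 1 - 2 * Bb D₁ W * qq D₁ W p p' * (p + p') := by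
    rw [probReal_compl_eq_one_sub hUFL.meas, hPU]
  set X : Set Om := {ω | ω ∈ E (stepU N D₁ W b u fun s => ω (s, i))} with hX
  have hXU : X ∩ U = ⋃ j ∈ I, (StepP_A S b i j ∩ E (F N D₁ W u j.1 j.2)) := by
    ext ω
    simp only [hX, hU, mem_inter_iff, mem_ofPred_eq, mem_iUnion, exists_prop]
    constructor
    · rintro ⟨h1, j, hj, h2⟩
      refine ⟨j, hj, h2, ?_⟩
      rw [StepP_step_A N D₁ W b u i j (hmem j hj) ω h2] at h1
      exact h1
    · rintro ⟨j, hj, h2, h3⟩
      refine ⟨?_, j, hj, h2⟩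
      rw [StepP_step_A N D₁ W b u i j (hmem j hj) ω h2]
      exact h3
  have hXR : X \ U = Uᶜ ∩ E u := by
    have key : ∀ ω, ω ∉ U → stepU N D₁ W b u (fun s => ω (s, i)) = u := by
      intro ω hω
      refine StepP_step_R N D₁ W b u i ω fun j hj hA => hω ?_
      simp only [hU, mem_iUnion, exists_prop]
      exact ⟨j, Finset.mem_product.2 ⟨hj, Finset.mem_univ _⟩, hA⟩
    ext ω
    simp only [hX, mem_sdiff, mem_inter_iff, mem_compl_iff, mem_ofPred_eq]
    constructor
    · rintro ⟨h1, h2⟩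
      rw [key ω h2] at h1
      exact ⟨h2, h1⟩
    · rintro ⟨h2, h1⟩
      refine ⟨?_, h2⟩
      rw [key ω h2]
      exact h1
  have hle1 : ∀ {B : Set Om}, FL {c : ℤ × ℤ | c.2 = i} B → FL {c : ℤ × ℤ | i ≤ c.2} B := by
    intro B hB
    refine hB.mono fun c hc => ?_
    simp only [mem_ofPred_eq] at hc ⊢
    omega
  have hle2 : ∀ u', FL {c : ℤ × ℤ | i ≤ c.2} (E u') := by
    intro u'
    refine (hE u').mono fun c hc => ?_
    simp only [mem_ofPred_eq] at hc ⊢
    omega
  refine ⟨?_, ?_, ?_⟩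
  · rw [← hPU]
    exact measureReal_le_one
  · have hX2 : X = (X ∩ U) ∪ (X \ U) := (inter_union_sdiff X U).symm
    rw [hX2, hXU, hXR]
    exact (FL.biUnion I _ fun j _ => (hle1 (StepP_FL S b i j)).inter (hle2 _)).union
      ((hle1 hUFL.compl).inter (hle2 u))
  · rw [← measureReal_inter_add_sdiff (s := X) hUFL.meas, hXU, hXR,
      measureReal_biUnion_finset
        (fun j hj j' hj' hne => (hpd hj hj' hne).mono inter_subset_left inter_subset_left)
        (fun j _ => (StepP_FL S b i j).meas.inter (hE _).meas), hsum,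
      FL.indep μ₀ hUFL.compl (hE u) hdis, hPUc, add_comm]
    congr 1
    refine Finset.sum_congr rfl fun s hs => ?_
    rw [FL.indep μ₀ (StepP_FL S b i (s, true)) (hE _) hdis,
      FL.indep μ₀ (StepP_FL S b i (s, false)) (hE _) hdis, hPt s hs, hPf s hs]
    ring

end Pool.Agent.NVA
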