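import Pool.Agent.NVA.St

/-!
# Noisy majority voting, every odd neighbourhood: simple facts on up-sets
-/

set_option autoImplicit false

namespace Pool.Agent.NVA

open MeasureTheory Set Pool.Agent.Helper55.Vote

/-- **Up** -/
theorem thm_Up : St_Up := by
  intro N n D₁ W hN
  refine ⟨?_, ?_, ?_, ?_⟩
  · rintro l u ⟨h1, h2, _⟩
    have hmem : l ∈ {s | u s = true} := h1
    have hlb : ∀ s ∈ {s | u s = true}, l ≤ s := by
      intro s hs
      by_contra hlt
      have h3 := h2 s (not_le.1 hlt)
      have h4 : u s = true := hs
      rw [h3] at h4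
      exact Bool.noConfusion h4
    exact (IsLeast.csInf_eq ⟨hmem, hlb⟩)
  · intro x
    refine ⟨?_, ?_, ?_⟩
    · simp [H]
    · intro s hs
      simp only [H, decide_eq_false_iff_not, not_le]
      exact hs
    · intro s hs v _
      simp only [H, decide_eq_true_eq] at hs ⊢
      have := abs_nonneg v
      omega
  · rintro l z u ⟨h1, h2, h3⟩
    refine ⟨?_, ?_, ?_⟩
    · show u (l + z - z) = true
      rw [add_sub_cancel_right]
      exact h1
    · intro s hs
      show u (s - z) = false
      exact h2 _ (by omega)
    · intro s hs v hv
      show u (s + |v| - z) = true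
      have e : s + |v| - z = s - z + |v| := by ring
      rw [e]
      exact h3 _ hs v hv
  · rintro l u ⟨h1, _, h3⟩ s hs
    have h4 := hN.frob {s | u (l + s) = true} (by show u (l + 0) = true; rw [add_zero]; exact h1) (by
      intro s hs v hv
      show u (l + (s + |v|)) = true
      rw [← add_assoc]
      exact h3 _ hs v hv) (s - l) (by omega)
    have h5 : u (l + (s - l)) = true := h4
    rwa [add_sub_cancel] at h5

end Pool.Agent.NVA
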