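import Pool.Agent.NVA.St

/-! Noisy majority voting: the island between the two edges gives a slanted wall. -/

set_option autoImplicit false

namespace Pool.Agent.NVA

open MeasureTheory Set Pool.Agent.Helper55.Vote

private lemma wall_maj {N : Finset ℤ} {n : ℕ} (hn : 1 ≤ n) (hc : N.card = 2 * n + 1) (b : Bool)
    (r : ℤ → Bool) (s : ℤ) (a : ℤ → Prop) [DecidablePred a]
    (h1 : n + 1 ≤ (N.filter fun v => a v).card)
    (h2 : (∀ v ∈ N, a v → r (s + v) = b) ∨ ∃ v₀, ∀ v ∈ N, v ≠ v₀ → r (s + v) = b) :
    maj N r s = b := by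
  have h3 : n + 1 ≤ (N.filter fun v => r (s + v) = b).card := by
    rcases h2 with h2 | ⟨v₀, h2⟩
    · refine h1.trans (Finset.card_le_card fun v hv => ?_)
      rw [Finset.mem_filter] at hv ⊢
      exact ⟨hv.1, h2 v hv.1 hv.2⟩
    · have h4 : N.erase v₀ ⊆ N.filter fun v => r (s + v) = b := by
        intro v hv
        rw [Finset.mem_erase] at hv
        rw [Finset.mem_filter]
        exact ⟨hv.2, h2 v hv.2 hv.1⟩
      have h5 := Finset.card_le_card h4
      have h6 := Finset.pred_card_le_card_erase (s := N) (a := v₀)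
      omega
  unfold maj
  rw [hc]
  cases b with
  | true =>
    rw [decide_eq_true_iff]
    omega
  | false =>
    rw [decide_eq_false_iff_not]
    have h4 := Finset.card_filter_add_card_filter_not (s := N) (fun v => r (s + v) = true)
    simp only [Bool.not_eq_true] at h4
    omega

private lemma wall_true {N : Finset ℤ} {n : ℕ} (hc : N.card = 2 * n + 1) (r : ℤ → Bool) (s : ℤ)
    (h : maj N r s = true) : n + 1 ≤ (N.filter fun v => r (s + v) = true).card := by
  unfold maj at h
  rw [hc, decide_eq_true_iff] at h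
  omega

private lemma wall_false {N : Finset ℤ} {n : ℕ} (hc : N.card = 2 * n + 1) (r : ℤ → Bool) (s : ℤ)
    (h : maj N r s = false) : n + 1 ≤ (N.filter fun v => r (s + v) = false).card := by
  unfold maj at h
  rw [hc, decide_eq_false_iff_not] at h
  have h4 := Finset.card_filter_add_card_filter_not (s := N) (fun v => r (s + v) = true)
  simp only [Bool.not_eq_true] at h4
  omega

private lemma wall_chain (hF : St_F) {N : Finset ℤ} {n D₁ W : ℕ} (hN : Nb N n D₁ W) (b : Bool)
    (ω : Om) (u : ℤ → Bool) (hu : IsUp N u) (j : ℕ) :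
    IsUp N (chain N D₁ W b ω 0 u j) ∧
      |lo (chain N D₁ W b ω 0 u (j + 1)) - lo (chain N D₁ W b ω 0 u j)| ≤ (W : ℤ) + D₁ := by
  obtain ⟨f1, f2, _⟩ := hF N n D₁ W hN
  have key : ∀ (y : ℤ → Bool) (w : ℤ → Option Bool), IsUp N y →
      IsUp N (stepU N D₁ W b y w) ∧ |lo (stepU N D₁ W b y w) - lo y| ≤ (W : ℤ) + D₁ := by
    intro y w hy
    unfold stepU
    split
    · exact ⟨f1 _ hy _ _, f2 _ hy _ _⟩
    · refine ⟨hy, ?_⟩
      rw [sub_self, abs_zero]
      positivity
  have hup : ∀ j, IsUp N (chain N D₁ W b ω 0 u j) := by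
    intro j
    induction j with
    | zero => exact hu
    | succ j ih => exact (key _ _ ih).1
  exact ⟨hup j, (key _ _ (hup j)).2⟩

private lemma wall_drift (l : ℕ → ℤ) (c : ℤ) (h : ∀ j, |l (j + 1) - l j| ≤ c) (i k : ℕ) :
    |l (i + k) - l i| ≤ k * c := by
  induction k with
  | zero => simp
  | succ k ih =>
    have h1 := h (i + k)
    have e : l (i + (k + 1)) - l i = (l (i + k + 1) - l (i + k)) + (l (i + k) - l i) := by
      rw [← add_assoc]
      ring
    rw [e]
    refine (abs_add_le _ _).trans ?_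
    push_cast
    linarith

private lemma wall_act_none {N : Finset ℤ} {D₁ W : ℕ} {b : Bool} {ω : Om} {u : ℤ → Bool} {j : ℕ}
    {s : ℤ} (h : ω (s, (j : ℤ)) = none) :
    act N D₁ W b ω u (j + 1) s = maj N (act N D₁ W b ω u j) s := by
  show (if s ∈ win D₁ W (chain N D₁ W b ω 0 u j) ∧ ω (s, (j : ℤ)) ≠ none then
        decide (ω (s, (j : ℤ)) = some b)
      else maj N (act N D₁ W b ω u j) s) = _
  exact if_neg fun h1 => h1.2 h

private lemma wall_act_some {N : Finset ℤ} {D₁ W : ℕ} {b : Bool} {ω : Om} {u : ℤ → Bool} {j : ℕ}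
    {s : ℤ} (h1 : s ∈ win D₁ W (chain N D₁ W b ω 0 u j)) (h : ω (s, (j : ℤ)) ≠ none) :
    act N D₁ W b ω u (j + 1) s = decide (ω (s, (j : ℤ)) = some b) := by
  show (if s ∈ win D₁ W (chain N D₁ W b ω 0 u j) ∧ ω (s, (j : ℤ)) ≠ none then
        decide (ω (s, (j : ℤ)) = some b)
      else maj N (act N D₁ W b ω u j) s) = _
  exact if_pos ⟨h1, h⟩

private lemma wall_claim {N : Finset ℤ} {n D₁ W : ℕ} (hN : Nb N n D₁ W) {L T : ℕ} {b : Bool}
    {ω : Om} {x : ℤ → Bool} (hx : ∀ s, 0 ≤ s → s < (L : ℤ) → x s = b)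
    (hU : ∀ j, |lo (chain N D₁ W b ω 0 (H 0) (j + 1)) - lo (chain N D₁ W b ω 0 (H 0) j)| ≤
      (W : ℤ) + D₁)
    (hZ : ∀ j, |lo (chain N D₁ W (!b) ω 0 (H L) (j + 1)) - lo (chain N D₁ W (!b) ω 0 (H L) j)| ≤
      (W : ℤ) + D₁)
    (hd : ∀ j ≤ T, lo (chain N D₁ W b ω 0 (H 0) j) + 16 * (Bb D₁ W : ℤ) ≤
      lo (chain N D₁ W (!b) ω 0 (H L) j))
    (aU1 : ∀ j ≤ T, ∀ t, lo (chain N D₁ W b ω 0 (H 0) j) + 2 * (W + D₁) ≤ t →
      act N D₁ W b ω (H 0) j t = true ∨
      ∃ i : ℕ, j = i + 1 ∧ t ∈ win D₁ W (chain N D₁ W b ω 0 (H 0) i) ∧ ω (t, (i : ℤ)) ≠ none)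
    (aU2 : ∀ j ≤ T, ∀ t, t < lo (chain N D₁ W b ω 0 (H 0) j) - 2 * (W + D₁) →
      act N D₁ W b ω (H 0) j t = false ∨
      ∃ i : ℕ, j = i + 1 ∧ t ∈ win D₁ W (chain N D₁ W b ω 0 (H 0) i) ∧ ω (t, (i : ℤ)) ≠ none)
    (aZ1 : ∀ j ≤ T, ∀ t, lo (chain N D₁ W (!b) ω 0 (H L) j) + 2 * (W + D₁) ≤ t →
      act N D₁ W (!b) ω (H L) j t = true ∨
      ∃ i : ℕ, j = i + 1 ∧ t ∈ win D₁ W (chain N D₁ W (!b) ω 0 (H L) i) ∧ ω (t, (i : ℤ)) ≠ none)
    (aZ2 : ∀ j ≤ T, ∀ t, t < lo (chain N D₁ W (!b) ω 0 (H L) j) - 2 * (W + D₁) →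
      act N D₁ W (!b) ω (H L) j t = false ∨
      ∃ i : ℕ, j = i + 1 ∧ t ∈ win D₁ W (chain N D₁ W (!b) ω 0 (H L) i) ∧ ω (t, (i : ℤ)) ≠ none)
    (hsp : ∀ i < T, ∀ s s' : ℤ, s ≠ s' → |s - s'| ≤ 2 * (D₁ : ℤ) →
      lo (chain N D₁ W b ω 0 (H 0) i) - 2 * (Bb D₁ W : ℤ) ≤ s →
      s ≤ lo (chain N D₁ W (!b) ω 0 (H L) i) + 2 * (Bb D₁ W : ℤ) →
      lo (chain N D₁ W b ω 0 (H 0) i) - 2 * (Bb D₁ W : ℤ) ≤ s' →
      s' ≤ lo (chain N D₁ W (!b) ω 0 (H L) i) + 2 * (Bb D₁ W : ℤ) →
      ω (s, (i : ℤ)) = none ∨ ω (s', (i : ℤ)) = none) :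
    ∀ j ≤ T, ∀ s, act N D₁ W b ω (H 0) j s = true → act N D₁ W (!b) ω (H L) j s = false →
      (∀ i : ℕ, j = i + 1 → ω (s, (i : ℤ)) ≠ some (!b)) → run N ω 0 x j s = b := by
  have hB : (Bb D₁ W : ℤ) = 8 * (W + D₁ + 1) := by
    unfold Bb
    push_cast
    ring
  intro j
  induction j with
  | zero =>
    intro _ s h1 h2 _
    simp only [act, H, decide_eq_true_eq, decide_eq_false_iff_not, not_le] at h1 h2
    exact hx s h1 h2
  | succ j ih =>
    intro hj s h1 h2 h3
    have hj' : j ≤ T := by omega
    have ih' := ih hj'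
    have h4 := h3 j rfl
    cases hw : ω (s, (j : ℤ)) with
    | some c =>
      have h5 : c = b := by
        by_contra hne
        apply h4
        rw [hw]
        cases b <;> cases c <;> simp_all
      show step N (fun s => ω (s, 0 + (j : ℤ))) (run N ω 0 x j) s = b
      unfold step
      simp only [zero_add]
      rw [hw, h5]
      rfl
    | none =>
      have e1 : maj N (act N D₁ W b ω (H 0) j) s = true := by
        rw [wall_act_none hw] at h1
        exact h1
      have e2 : maj N (act N D₁ W (!b) ω (H L) j) s = false := by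
        rw [wall_act_none hw] at h2
        exact h2
      have e3 : run N ω 0 x (j + 1) s = maj N (run N ω 0 x j) s := by
        show step N (fun s => ω (s, 0 + (j : ℤ))) (run N ω 0 x j) s = _
        unfold step
        simp only [zero_add]
        rw [hw]
        rfl
      rw [e3]
      have hd0 := hd j hj'
      by_cases hc : 2 * s ≤ lo (chain N D₁ W b ω 0 (H 0) j) + lo (chain N D₁ W (!b) ω 0 (H L) j)
      · -- near the left edge
        have g1 : ∀ v ∈ N, act N D₁ W (!b) ω (H L) j (s + v) = false := by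
          intro v hv
          have hv' := abs_le.1 (hN.bd v hv)
          rcases aZ2 j hj' (s + v) (by omega) with h | ⟨i, rfl, hi1, _⟩
          · exact h
          · exfalso
            have h6 := abs_le.1 (hZ i)
            unfold win at hi1
            rw [Finset.mem_Ico] at hi1
            omega
        refine wall_maj hN.pos hN.card b _ s
          (fun v => act N D₁ W b ω (H 0) j (s + v) = true) (wall_true hN.card _ s e1) ?_
        by_cases hbad : ∃ v₀ ∈ N, act N D₁ W b ω (H 0) j (s + v₀) = true ∧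
            ∃ i : ℕ, j = i + 1 ∧ ω (s + v₀, (i : ℤ)) = some (!b)
        · right
          obtain ⟨v₀, hv₀, ha, i, rfl, hi⟩ := hbad
          have h6 := abs_le.1 (hU i)
          have h7 := abs_le.1 (hZ i)
          have hv₀' := abs_le.1 (hN.bd v₀ hv₀)
          have hnw : s + v₀ ∉ win D₁ W (chain N D₁ W b ω 0 (H 0) i) := by
            intro hmem
            rw [wall_act_some hmem (by rw [hi]; simp), hi] at ha
            cases b <;> simp at ha
          have hright : lo (chain N D₁ W b ω 0 (H 0) i) + (Bb D₁ W : ℤ) ≤ s + v₀ := by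
            by_contra hlt
            have hlt' : s + v₀ < lo (chain N D₁ W b ω 0 (H 0) i) - (Bb D₁ W : ℤ) := by
              by_contra h8
              apply hnw
              unfold win
              rw [Finset.mem_Ico]
              omega
            rcases aU2 (i + 1) hj' (s + v₀) (by omega) with h | ⟨i', hi', hi1, _⟩
            · rw [h] at ha
              exact Bool.noConfusion ha
            · have : i' = i := by omega
              subst this
              exact hnw hi1
          refine ⟨v₀, fun v hv hne => ?_⟩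
          have hv' := abs_le.1 (hN.bd v hv)
          have hno : ω (s + v, (i : ℤ)) = none := by
            rcases hsp i (by omega) (s + v₀) (s + v) (by omega) (by rw [abs_le]; omega)
              (by omega) (by omega) (by omega) (by omega) with h | h
            · rw [hi] at h
              exact absurd h (by simp)
            · exact h
          refine ih' (s + v) ?_ (g1 v hv) ?_
          · rcases aU1 (i + 1) hj' (s + v) (by omega) with h | ⟨i', hi', _, hi2⟩
            · exact h
            · have : i' = i := by omega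
              subst this
              exact absurd hno hi2
          · intro i' hi'
            have : i' = i := by omega
            subst this
            rw [hno]
            simp
        · left
          intro v hv ha
          refine ih' (s + v) ha (g1 v hv) ?_
          intro i hi h
          exact hbad ⟨v, hv, ha, i, hi, h⟩
      · -- near the right edge
        have g1 : ∀ v ∈ N, act N D₁ W b ω (H 0) j (s + v) = true := by
          intro v hv
          have hv' := abs_le.1 (hN.bd v hv)
          rcases aU1 j hj' (s + v) (by omega) with h | ⟨i, rfl, hi1, _⟩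
          · exact h
          · exfalso
            have h6 := abs_le.1 (hU i)
            unfold win at hi1
            rw [Finset.mem_Ico] at hi1
            omega
        refine wall_maj hN.pos hN.card b _ s
          (fun v => act N D₁ W (!b) ω (H L) j (s + v) = false) (wall_false hN.card _ s e2) ?_
        by_cases hbad : ∃ v₀ ∈ N, act N D₁ W (!b) ω (H L) j (s + v₀) = false ∧
            ∃ i : ℕ, j = i + 1 ∧ ω (s + v₀, (i : ℤ)) = some (!b)
        · right
          obtain ⟨v₀, hv₀, ha, i, rfl, hi⟩ := hbad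
          have h6 := abs_le.1 (hU i)
          have h7 := abs_le.1 (hZ i)
          have hv₀' := abs_le.1 (hN.bd v₀ hv₀)
          have hnw : s + v₀ ∉ win D₁ W (chain N D₁ W (!b) ω 0 (H L) i) := by
            intro hmem
            rw [wall_act_some hmem (by rw [hi]; simp), hi] at ha
            simp at ha
          have hleft : s + v₀ < lo (chain N D₁ W (!b) ω 0 (H L) i) - (Bb D₁ W : ℤ) := by
            by_contra hlt
            have hlt' : lo (chain N D₁ W (!b) ω 0 (H L) i) + (Bb D₁ W : ℤ) ≤ s + v₀ := by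
              by_contra h8
              apply hnw
              unfold win
              rw [Finset.mem_Ico]
              omega
            rcases aZ1 (i + 1) hj' (s + v₀) (by omega) with h | ⟨i', hi', hi1, _⟩
            · rw [h] at ha
              exact Bool.noConfusion ha
            · have : i' = i := by omega
              subst this
              exact hnw hi1
          refine ⟨v₀, fun v hv hne => ?_⟩
          have hv' := abs_le.1 (hN.bd v hv)
          have hno : ω (s + v, (i : ℤ)) = none := by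
            rcases hsp i (by omega) (s + v₀) (s + v) (by omega) (by rw [abs_le]; omega)
              (by omega) (by omega) (by omega) (by omega) with h | h
            · rw [hi] at h
              exact absurd h (by simp)
            · exact h
          refine ih' (s + v) (g1 v hv) ?_ ?_
          · rcases aZ2 (i + 1) hj' (s + v) (by omega) with h | ⟨i', hi', _, hi2⟩
            · exact h
            · have : i' = i := by omega
              subst this
              exact absurd hno hi2
          · intro i' hi'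
            have : i' = i := by omega
            subst this
            rw [hno]
            simp
        · left
          intro v hv ha
          refine ih' (s + v) (g1 v hv) ha ?_
          intro i hi h
          exact hbad ⟨v, hv, ha, i, hi, h⟩

/-- The windows of a chain satisfy the sparseness condition of `St_Act`. -/
private lemma wall_sparse {D₁ W T : ℕ} {ω : Om} {Reg : Set (ℤ × ℤ)}
    (hs : ω ∈ SparseOn Reg (rs D₁ W) (Rr D₁ W + 1)) (ch : ℕ → ℤ → Bool)
    (hl : ∀ j, |lo (ch (j + 1)) - lo (ch j)| ≤ (W : ℤ) + D₁)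
    (hR : ∀ j < T, ∀ s ∈ win D₁ W (ch j), (s, (j : ℤ)) ∈ Reg) :
    ∀ i < T, ∀ s ∈ win D₁ W (ch i), ω (s, (i : ℤ)) ≠ none →
    ∀ i' < T, i ≤ i' → i' ≤ i + Rr D₁ W → ∀ s' ∈ win D₁ W (ch i'),
      ω (s', (i' : ℤ)) ≠ none → s' = s ∧ i' = i := by
  intro i hi s hsw hω i' hi' h1 h2 s' hsw' hω'
  by_contra hne
  have hc : ((s', (i' : ℤ)) : ℤ × ℤ) ≠ (s, (i : ℤ)) := by
    intro h
    apply hne
    rw [Prod.mk.injEq] at h
    exact ⟨h.1, by exact_mod_cast h.2⟩
  obtain ⟨k, rfl⟩ := Nat.exists_eq_add_of_le h1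
  have hk : k ≤ Rr D₁ W := by omega
  have h3 := wall_drift (fun j => lo (ch j)) _ hl i k
  have h4 : (k : ℤ) * ((W : ℤ) + D₁) ≤ (Rr D₁ W : ℤ) * ((W : ℤ) + D₁) :=
    mul_le_mul_of_nonneg_right (by exact_mod_cast hk) (by positivity)
  have h5 : |lo (ch (i + k)) - lo (ch i)| ≤ (Rr D₁ W : ℤ) * ((W : ℤ) + D₁) := h3.trans h4
  have h6 := abs_le.1 h5
  have h7 : ((rs D₁ W : ℕ) : ℤ) = 4 * (Bb D₁ W : ℤ) + (Rr D₁ W : ℤ) * ((W : ℤ) + D₁) +
      ((W : ℤ) + D₁) := by
    unfold rs
    push_cast
    ring
  have m1 := hsw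
  have m2 := hsw'
  unfold win at m1 m2
  rw [Finset.mem_Ico] at m1 m2
  rcases hs _ (hR _ hi' s' hsw') _ (hR _ hi s hsw) hc
    (by
      show |s' - s| ≤ ((rs D₁ W : ℕ) : ℤ)
      rw [h7, abs_le]
      generalize (Rr D₁ W : ℤ) * ((W : ℤ) + D₁) = R at *
      omega)
    (by
      show |((i + k : ℕ) : ℤ) - (i : ℤ)| ≤ ((Rr D₁ W + 1 : ℕ) : ℤ)
      rw [abs_le]
      omega) with h | h
  · exact hω' h
  · exact hω h

/-- **Wall** -/
theorem thm_Wall (hUp : St_Up) (hF : St_F) (hAct : St_Act) : St_Wall := by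
  intro N n D₁ W hN L T S b ω Reg hT hs hReg hd hS1 hS2 hlast
  obtain ⟨u1, u2, _, _⟩ := hUp N n D₁ W hN
  have hB : (Bb D₁ W : ℤ) = 8 * (W + D₁ + 1) := by
    unfold Bb
    push_cast
    ring
  have hU := fun j => (wall_chain hF hN b ω (H 0) ⟨0, u2 0⟩ j).2
  have hZ := fun j => (wall_chain hF hN (!b) ω (H L) ⟨L, u2 L⟩ j).2
  have cU := hAct N n D₁ W hN b ω (H 0) ⟨0, u2 0⟩ T
    (wall_sparse hs (chain N D₁ W b ω 0 (H 0)) hU (by
      intro j hj s hsw
      unfold win at hsw
      rw [Finset.mem_Ico] at hsw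
      have := hd j hj.le
      exact hReg j hj s (by omega) (by omega)))
  have cZ := hAct N n D₁ W hN (!b) ω (H L) ⟨L, u2 L⟩ T
    (wall_sparse hs (chain N D₁ W (!b) ω 0 (H L)) hZ (by
      intro j hj s hsw
      unfold win at hsw
      rw [Finset.mem_Ico] at hsw
      have := hd j hj.le
      exact hReg j hj s (by omega) (by omega)))
  have aU1 := fun j hj => (cU j hj).2.1
  have aU2 := fun j hj => (cU j hj).2.2
  have aZ1 := fun j hj => (cZ j hj).2.1
  have aZ2 := fun j hj => (cZ j hj).2.2
  have hsp : ∀ i < T, ∀ s s' : ℤ, s ≠ s' → |s - s'| ≤ 2 * (D₁ : ℤ) →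
      lo (chain N D₁ W b ω 0 (H 0) i) - 2 * (Bb D₁ W : ℤ) ≤ s →
      s ≤ lo (chain N D₁ W (!b) ω 0 (H L) i) + 2 * (Bb D₁ W : ℤ) →
      lo (chain N D₁ W b ω 0 (H 0) i) - 2 * (Bb D₁ W : ℤ) ≤ s' →
      s' ≤ lo (chain N D₁ W (!b) ω 0 (H L) i) + 2 * (Bb D₁ W : ℤ) →
      ω (s, (i : ℤ)) = none ∨ ω (s', (i : ℤ)) = none := by
    intro i hi s s' hne hdist k1 k2 k3 k4
    refine hs _ (hReg i hi s k1 k2) _ (hReg i hi s' k3 k4) ?_ ?_ ?_
    · intro h
      rw [Prod.mk.injEq] at h
      exact hne h.1
    · show |s - s'| ≤ ((rs D₁ W : ℕ) : ℤ)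
      refine hdist.trans ?_
      have h7 : 2 * D₁ ≤ rs D₁ W := by
        unfold rs Bb
        have := Nat.zero_le ((Rr D₁ W + 1) * (W + D₁))
        omega
      exact_mod_cast h7
    · show |(i : ℤ) - (i : ℤ)| ≤ ((Rr D₁ W + 1 : ℕ) : ℤ)
      rw [sub_self, abs_zero]
      positivity
  have lU0 : lo (chain N D₁ W b ω 0 (H 0) 0) = 0 := u1 0 _ (u2 0)
  have lZ0 : lo (chain N D₁ W (!b) ω 0 (H L) 0) = L := u1 L _ (u2 L)
  refine ⟨fun j => if j = 0 then 0 else lo (chain N D₁ W b ω 0 (H 0) j) + Bb D₁ W,
    fun j => if j = 0 then (L : ℤ) - 1 else lo (chain N D₁ W (!b) ω 0 (H L) j) - Bb D₁ W - 1,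
    by simp, by simp, ?_, ?_, ?_, ?_⟩
  · intro j hj
    have h1 := abs_le.1 (hU j)
    have h2 := abs_le.1 (hZ j)
    have h3 := hd j hj.le
    have h4 := hd (j + 1) hj
    rcases Nat.eq_zero_or_pos j with rfl | hpos
    · simp only [if_true, if_false, one_ne_zero, zero_add] at *
      omega
    · have hj0 : j ≠ 0 := by omega
      simp only [hj0, if_false, Nat.add_eq_zero_iff, one_ne_zero, and_false]
      omega
  · have hT0 : T ≠ 0 := by omega
    simp only [hT0, if_false]
    omega
  · have hT0 : T ≠ 0 := by omega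
    simp only [hT0, if_false]
    omega
  · intro x hx
    have claim := wall_claim hN (x := x) (fun s h1 h2 => hx s h1 (by omega)) hU hZ hd aU1 aU2 aZ1
      aZ2 hsp
    constructor
    · intro j hj s h1 h2
      rcases Nat.eq_zero_or_pos j with rfl | hpos
      · left
        simp only [if_true] at h1 h2
        exact hx s h1 (by omega)
      · obtain ⟨i, rfl⟩ : ∃ i, j = i + 1 := ⟨j - 1, by omega⟩
        simp only [Nat.add_eq_zero_iff, one_ne_zero, and_false, if_false] at h1 h2
        by_cases hω : ω (s, (i : ℤ)) = none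
        · left
          refine claim (i + 1) hj s ?_ ?_ ?_
          · rcases aU1 (i + 1) hj s (by omega) with h | ⟨i', hi', _, hi2⟩
            · exact h
            · have : i' = i := by omega
              subst this
              exact absurd hω hi2
          · rcases aZ2 (i + 1) hj s (by omega) with h | ⟨i', hi', _, hi2⟩
            · exact h
            · have : i' = i := by omega
              subst this
              exact absurd hω hi2
          · intro i' hi'
            have : i' = i := by omega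
            subst this
            rw [hω]
            simp
        · right
          exact ⟨i, rfl, by rw [zero_add]; exact hω⟩
    · intro s h1 h2
      obtain ⟨i, rfl⟩ : ∃ i, T = i + 1 := ⟨T - 1, by omega⟩
      have g1 := abs_le.1 (hU i)
      have g2 := abs_le.1 (hZ i)
      refine claim (i + 1) le_rfl s ?_ ?_ ?_
      · rcases aU1 (i + 1) le_rfl s (by omega) with h | ⟨i', hi', hi1, _⟩
        · exact h
        · have : i' = i := by omega
          subst this
          unfold win at hi1
          rw [Finset.mem_Ico] at hi1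
          omega
      · rcases aZ2 (i + 1) le_rfl s (by omega) with h | ⟨i', hi', hi1, _⟩
        · exact h
        · have : i' = i := by omega
          subst this
          unfold win at hi1
          rw [Finset.mem_Ico] at hi1
          omega
      · intro i' hi'
        have : i' = i := by omega
        subst this
        have h5 := hlast s (by omega) (by omega)
        have e : ((i' + 1 : ℕ) : ℤ) - 1 = (i' : ℤ) := by push_cast; ring
        rw [e] at h5
        exact h5

end Pool.Agent.NVA
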